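import Mathlib
import Pool.Agent.Work.MP_5698f2_an.Defs

/-! Bundle of small proof modules (one section per former module). -/

section

/-!
# MP_5698f2_an: abstract lemmas on groups of isometries

The two-point trick and a Baire category lemma.
-/

open Filter Topology Set
open scoped InnerProductSpace

namespace Pool.Agent.Work.MP_5698f2_an

section Group

variable {H : Type*} [NormedAddCommGroup H] [InnerProductSpace ℂ H]

/-- A one parameter group of isometries. -/
structure IsoGroup (S : ℝ → (H →L[ℂ] H)) : Prop where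
  zero : S 0 = ContinuousLinearMap.id ℂ H
  add : ∀ s t, S (s + t) = (S s).comp (S t)
  norm : ∀ t f, ‖S t f‖ = ‖f‖

variable {S : ℝ → (H →L[ℂ] H)}

lemma IsoGroup.inner (h : IsoGroup S) (t : ℝ) (x y : H) : ⟪S t x, S t y⟫_ℂ = ⟪x, y⟫_ℂ := by
  let L : H →ₗᵢ[ℂ] H := ⟨(S t).toLinearMap, fun f => h.norm t f⟩
  exact L.inner_map_map x y

lemma IsoGroup.inner_shift (h : IsoGroup S) (t : ℝ) (v f : H) :
    ⟪v, S t f⟫_ℂ = ⟪S (-t) v, f⟫_ℂ := by
  have h1 : S (-t) (S t f) = f := by
    have := h.add (-t) t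
    rw [neg_add_cancel, h.zero] at this
    have h2 := congrArg (fun A : H →L[ℂ] H => A f) this
    simpa using h2.symm
  rw [← h.inner (-t) v (S t f), h1]

/-- Evolution of the pairing with an approximate eigenvector. -/
lemma IsoGroup.phase (h : IsoGroup S) {v q r f : H} {lam : ℝ}
    (hv : ∀ t, HasDerivAt (fun s => S s v) (-(Complex.I • S t q)) t)
    (hq : q = (lam : ℂ) • v + r) {a b η : ℝ} (hab : a ≤ b)
    (hη : ∀ t ∈ Icc a b, ‖⟪r, S t f⟫_ℂ‖ ≤ η) :
    ‖Complex.exp (Complex.I * lam * b) * ⟪v, S b f⟫_ℂ -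
      Complex.exp (Complex.I * lam * a) * ⟪v, S a f⟫_ℂ‖ ≤ η * (b - a) := by
  have hd : ∀ t : ℝ, HasDerivAt (fun t : ℝ => Complex.exp (Complex.I * lam * t) *
      ⟪v, S t f⟫_ℂ) (-(Complex.I * Complex.exp (Complex.I * lam * t) * ⟪r, S t f⟫_ℂ)) t := by
    intro t
    have e1 : HasDerivAt (fun t : ℝ => S (-t) v) (Complex.I • S (-t) q) t := by
      have := (hv (-t)).scomp t (hasDerivAt_neg t)
      simpa [Function.comp_def] using this
    have e2 : HasDerivAt (fun t : ℝ => ⟪S (-t) v, f⟫_ℂ) ⟪Complex.I • S (-t) q, f⟫_ℂ t := by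
      refine (e1.inner ℂ (hasDerivAt_const t f)).congr_deriv ?_
      rw [inner_zero_right, zero_add]
    have e3 : HasDerivAt (fun t : ℝ => Complex.exp (Complex.I * lam * t))
        (Complex.exp (Complex.I * lam * t) * (Complex.I * lam)) t := by
      have h0 : HasDerivAt (fun t : ℝ => Complex.I * lam * (t : ℂ)) (Complex.I * lam) t := by
        simpa using (Complex.ofRealCLM.hasDerivAt (x := t)).const_mul (Complex.I * lam)
      exact h0.cexp
    have e4 := e3.mul e2
    have e5 : (fun t : ℝ => Complex.exp (Complex.I * lam * t) * ⟪v, S t f⟫_ℂ) =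
        ((fun t : ℝ => Complex.exp (Complex.I * lam * t)) * fun t : ℝ => ⟪S (-t) v, f⟫_ℂ) := by
      funext s
      simp only [Pi.mul_apply]
      rw [h.inner_shift]
    rw [e5]
    refine e4.congr_deriv ?_
    rw [inner_smul_left, ← h.inner_shift t q f, ← h.inner_shift t v f, hq, inner_add_left,
      inner_smul_left]
    simp only [Complex.conj_I, Complex.conj_ofReal]
    ring
  have := norm_image_sub_le_of_norm_deriv_le_segment' (f := fun t : ℝ =>
    Complex.exp (Complex.I * lam * t) * ⟪v, S t f⟫_ℂ) (C := η) (a := a) (b := b)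
    (fun t _ => (hd t).hasDerivWithinAt) (fun t ht => by
      rw [norm_neg, norm_mul, norm_mul, Complex.norm_I, one_mul]
      have : ‖Complex.exp (Complex.I * lam * t)‖ = 1 := by
        have : Complex.I * lam * t = ((lam * t : ℝ) : ℂ) * Complex.I := by push_cast; ring
        rw [this, Complex.norm_exp_ofReal_mul_I]
      rw [this, one_mul]
      exact hη t ⟨ht.1, ht.2.le⟩) b ⟨hab, le_refl b⟩
  exact this

lemma norm_exp_I_mul (a b : ℝ) : ‖Complex.exp (Complex.I * a * b)‖ = 1 := by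
  have : Complex.I * a * b = ((a * b : ℝ) : ℂ) * Complex.I := by push_cast; ring
  rw [this, Complex.norm_exp_ofReal_mul_I]

/-- Approximate conservation. -/
lemma IsoGroup.conserve (h : IsoGroup S) {v q r f : H} {lam : ℝ}
    (hv : ∀ t, HasDerivAt (fun s => S s v) (-(Complex.I • S t q)) t)
    (hq : q = (lam : ℂ) • v + r) {t : ℝ} (ht : 0 ≤ t) :
    ‖⟪v, f⟫_ℂ‖ ≤ ‖⟪v, S t f⟫_ℂ‖ + ‖r‖ * ‖f‖ * t := by
  have h1 := h.phase (f := f) hv hq (a := 0) (b := t) (η := ‖r‖ * ‖f‖) ht (fun s _ => by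
    refine (norm_inner_le_norm _ _).trans ?_
    rw [h.norm])
  rw [h.zero] at h1
  simp only [ContinuousLinearMap.coe_id', id_eq, sub_zero] at h1
  have h2 : Complex.exp (Complex.I * lam * (0 : ℝ)) = 1 := by simp
  rw [h2, one_mul] at h1
  have h3 := norm_sub_norm_le ⟪v, f⟫_ℂ (Complex.exp (Complex.I * lam * t) * ⟪v, S t f⟫_ℂ)
  rw [norm_mul, norm_exp_I_mul, one_mul] at h3
  rw [norm_sub_rev] at h1
  linarith

/-- The two-point trick: two approximate eigenvectors which are close to each other but whose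
energies differ by `δ`, observed at two times `τ` apart with `δ τ = π`. -/
lemma IsoGroup.two_point (h : IsoGroup S) {v q r w q' r' f : H} {lam δ τ a η ε : ℝ}
    (hv : ∀ t, HasDerivAt (fun s => S s v) (-(Complex.I • S t q)) t)
    (hq : q = (lam : ℂ) • v + r)
    (hw : ∀ t, HasDerivAt (fun s => S s w) (-(Complex.I • S t q')) t)
    (hq' : q' = ((lam + δ : ℝ) : ℂ) • w + r') (hτ : 0 ≤ τ) (hδτ : δ * τ = Real.pi)
    (hη : ∀ t ∈ Icc a (a + τ), ‖⟪r, S t f⟫_ℂ‖ ≤ η)
    (hη' : ∀ t ∈ Icc a (a + τ), ‖⟪r', S t f⟫_ℂ‖ ≤ η) (hvw : ‖v - w‖ ≤ ε) :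
    ‖⟪v, S a f⟫_ℂ‖ ≤ η * τ + ε * ‖f‖ := by
  have p1 := h.phase (f := f) hv hq (a := a) (b := a + τ) (by linarith) hη
  have p2 := h.phase (f := f) hw hq' (a := a) (b := a + τ) (by linarith) hη'
  have hdiff : ∀ t, ‖⟪v, S t f⟫_ℂ - ⟪w, S t f⟫_ℂ‖ ≤ ε * ‖f‖ := by
    intro t
    rw [← inner_sub_left]
    refine (norm_inner_le_norm _ _).trans ?_
    rw [h.norm]
    gcongr
  set g₀ := ⟪v, S a f⟫_ℂ
  set g₁ := ⟪v, S (a + τ) f⟫_ℂ
  set h₀ := ⟪w, S a f⟫_ℂ
  set h₁ := ⟪w, S (a + τ) f⟫_ℂ
  have d0 := hdiff a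
  have d1 := hdiff (a + τ)
  -- the phases
  have e1 : Complex.exp (Complex.I * ((lam + δ : ℝ) : ℂ) * ((a + τ : ℝ) : ℂ)) =
      -(Complex.exp (Complex.I * lam * ((a + τ : ℝ) : ℂ)) * Complex.exp (Complex.I * δ * a)) := by
    have : Complex.I * ((lam + δ : ℝ) : ℂ) * ((a + τ : ℝ) : ℂ) =
        Complex.I * lam * ((a + τ : ℝ) : ℂ) + Complex.I * δ * a + ((δ * τ : ℝ) : ℂ) * Complex.I := by
      push_cast; ring
    rw [this, Complex.exp_add, Complex.exp_add, hδτ, Complex.exp_pi_mul_I]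
    ring
  have e0 : Complex.exp (Complex.I * ((lam + δ : ℝ) : ℂ) * (a : ℂ)) =
      Complex.exp (Complex.I * lam * a) * Complex.exp (Complex.I * δ * a) := by
    have : Complex.I * ((lam + δ : ℝ) : ℂ) * (a : ℂ) =
        Complex.I * lam * a + Complex.I * δ * a := by
      push_cast; ring
    rw [this, Complex.exp_add]
  rw [e1, e0] at p2
  set A₁ := Complex.exp (Complex.I * lam * ((a + τ : ℝ) : ℂ)) with hA₁
  set A₀ := Complex.exp (Complex.I * lam * (a : ℂ)) with hA₀
  set B := Complex.exp (Complex.I * δ * (a : ℂ)) with hB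
  have nA₁ : ‖A₁‖ = 1 := norm_exp_I_mul _ _
  have nA₀ : ‖A₀‖ = 1 := norm_exp_I_mul _ _
  have nB : ‖B‖ = 1 := norm_exp_I_mul _ _
  have p2' : ‖A₁ * h₁ + A₀ * h₀‖ ≤ η * (a + τ - a) := by
    have : -(A₁ * B) * h₁ - A₀ * B * h₀ = -(B * (A₁ * h₁ + A₀ * h₀)) := by ring
    rw [this, norm_neg, norm_mul, nB, one_mul] at p2
    exact p2
  have key : A₀ * (g₀ + h₀) = A₁ * (g₁ - h₁) - (A₁ * g₁ - A₀ * g₀) + (A₁ * h₁ + A₀ * h₀) := by
    ring
  have k1 : ‖g₀ + h₀‖ ≤ ε * ‖f‖ + η * (a + τ - a) + η * (a + τ - a) := by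
    have : ‖g₀ + h₀‖ = ‖A₀ * (g₀ + h₀)‖ := by rw [norm_mul, nA₀, one_mul]
    rw [this, key]
    refine (norm_add_le _ _).trans (add_le_add ((norm_sub_le _ _).trans (add_le_add ?_ p1)) p2')
    rw [norm_mul, nA₁, one_mul]
    exact d1
  have k2 : 2 * g₀ = (g₀ + h₀) + (g₀ - h₀) := by ring
  have k3 : 2 * ‖g₀‖ ≤ ε * ‖f‖ + η * (a + τ - a) + η * (a + τ - a) + ε * ‖f‖ := by
    have : 2 * ‖g₀‖ = ‖2 * g₀‖ := by rw [norm_mul]; simp
    rw [this, k2]
    exact (norm_add_le _ _).trans (add_le_add k1 d0)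
  linarith

end Group

/-- A countable closed cover of `[1,2]` has a member containing an interval. -/
lemma exists_interval {ι : Type*} [Countable ι] {T : ι → Set ℝ} (hT : ∀ i, IsClosed (T i))
    (hcov : ∀ t ∈ Icc (1 : ℝ) 2, ∃ i, t ∈ T i) :
    ∃ i, ∃ a b : ℝ, 1 ≤ a ∧ a < b ∧ b ≤ 2 ∧ Icc a b ⊆ T i := by
  let T' : Option ι → Set ℝ := fun o => o.elim (Ioo 1 2)ᶜ T
  have hT' : ∀ o, IsClosed (T' o) := by
    intro o
    cases o with
    | none => exact isOpen_Ioo.isClosed_compl
    | some i => exact hT i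
  have hU : ⋃ o, T' o = univ := by
    apply eq_univ_of_forall
    intro t
    by_cases ht : t ∈ Ioo (1 : ℝ) 2
    · obtain ⟨i, hi⟩ := hcov t ⟨ht.1.le, ht.2.le⟩
      exact mem_iUnion.2 ⟨some i, hi⟩
    · exact mem_iUnion.2 ⟨none, ht⟩
  have hd := dense_iUnion_interior_of_closed hT' hU
  obtain ⟨t, ht1, ht2⟩ := hd.exists_mem_open isOpen_Ioo (nonempty_Ioo.2 (by norm_num : (1:ℝ) < 2))
  obtain ⟨o, ho⟩ := mem_iUnion.1 ht1
  cases o with
  | none =>
    exfalso
    exact (interior_subset ho) ht2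
  | some i =>
    have hopen : IsOpen (interior (T i) ∩ Ioo 1 2) := isOpen_interior.inter isOpen_Ioo
    obtain ⟨r, hr, hball⟩ := Metric.isOpen_iff.1 hopen t ⟨ho, ht2⟩
    refine ⟨i, t, t + r / 2, ht2.1.le, by linarith, ?_, fun s hs => ?_⟩
    · have : t + r / 2 ∈ Metric.ball t r := by
        rw [Metric.mem_ball, Real.dist_eq, abs_lt]
        constructor <;> linarith
      exact (hball this).2.2.le
    · have : s ∈ Metric.ball t r := by
        rw [Metric.mem_ball, Real.dist_eq, abs_lt]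
        constructor <;> linarith [hs.1, hs.2]
      exact interior_subset (hball this).1

end Pool.Agent.Work.MP_5698f2_an

end

section

set_option autoImplicit false

/-! Linear second order equations `u'' + q u = 0` on the line: existence, uniqueness, smoothness,
and a Sturm-Liouville eigenvalue in a window (Pruefer angle). -/

namespace Pool.Agent.Work.MP_5698f2_an

open MeasureTheory Filter Topology Set
open scoped ContDiff InnerProductSpace NNReal

/-! ### The Pruefer field -/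

/-- The right hand side of the Pruefer equation. -/
noncomputable def prField (Q : ℝ → ℝ) (x θ : ℝ) : ℝ :=
  Real.cos θ ^ 2 + Q x * Real.sin θ ^ 2

theorem prField_sub (Q : ℝ → ℝ) (x θ φ : ℝ) :
    prField Q x θ - prField Q x φ = (Q x - 1) * (Real.sin (θ + φ) * Real.sin (θ - φ)) := by
  have h1 : Real.cos θ ^ 2 = 1 - Real.sin θ ^ 2 := by
    have := Real.sin_sq_add_cos_sq θ; linarith
  have h2 : Real.cos φ ^ 2 = 1 - Real.sin φ ^ 2 := by
    have := Real.sin_sq_add_cos_sq φ; linarith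
  have h3 : Real.sin (θ + φ) * Real.sin (θ - φ) = Real.sin θ ^ 2 - Real.sin φ ^ 2 := by
    rw [Real.sin_add, Real.sin_sub]
    have : (Real.sin θ * Real.cos φ + Real.cos θ * Real.sin φ) *
        (Real.sin θ * Real.cos φ - Real.cos θ * Real.sin φ) =
        Real.sin θ ^ 2 * Real.cos φ ^ 2 - Real.cos θ ^ 2 * Real.sin φ ^ 2 := by ring
    rw [this, h1, h2]; ring
  rw [h3]
  unfold prField
  rw [h1, h2]; ring

theorem prField_lip (Q : ℝ → ℝ) (x θ φ : ℝ) :
    |prField Q x θ - prField Q x φ| ≤ |Q x - 1| * |θ - φ| := by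
  rw [prField_sub, abs_mul, abs_mul]
  apply mul_le_mul_of_nonneg_left _ (abs_nonneg _)
  calc |Real.sin (θ + φ)| * |Real.sin (θ - φ)| ≤ 1 * |θ - φ| :=
        mul_le_mul (Real.abs_sin_le_one _) Real.abs_sin_le_abs (abs_nonneg _) zero_le_one
    _ = |θ - φ| := one_mul _

theorem prField_bound (Q : ℝ → ℝ) (x θ : ℝ) : |prField Q x θ| ≤ 1 + |Q x| := by
  unfold prField
  have h1 : |Real.cos θ ^ 2| ≤ 1 := by
    rw [abs_of_nonneg (sq_nonneg _)]; nlinarith [Real.sin_sq_add_cos_sq θ, sq_nonneg (Real.sin θ)]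
  have h2 : |Real.sin θ ^ 2| ≤ 1 := by
    rw [abs_of_nonneg (sq_nonneg _)]; nlinarith [Real.sin_sq_add_cos_sq θ, sq_nonneg (Real.cos θ)]
  calc |Real.cos θ ^ 2 + Q x * Real.sin θ ^ 2| ≤ |Real.cos θ ^ 2| + |Q x * Real.sin θ ^ 2| :=
        abs_add_le _ _
    _ ≤ 1 + |Q x| * 1 := by
        rw [abs_mul]
        exact add_le_add h1 (mul_le_mul_of_nonneg_left h2 (abs_nonneg _))
    _ = 1 + |Q x| := by ring

theorem prField_cont {Q : ℝ → ℝ} (hQ : Continuous Q) (θ : ℝ) :
    Continuous (fun x => prField Q x θ) := by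
  unfold prField
  fun_prop

/-- Bound of a continuous function on a closed interval. -/
theorem exists_bound_Icc {Q : ℝ → ℝ} (hQ : Continuous Q) (a b : ℝ) :
    ∃ M : ℝ, 0 ≤ M ∧ ∀ x ∈ Icc a b, |Q x| ≤ M := by
  obtain ⟨M, hM⟩ := (isCompact_Icc (a := a) (b := b)).exists_bound_of_continuousOn hQ.continuousOn
  refine ⟨max M 0, le_max_right _ _, fun x hx => ?_⟩
  have := hM x hx
  rw [Real.norm_eq_abs] at this
  exact this.trans (le_max_left _ _)

theorem exists_angle_Icc {Q : ℝ → ℝ} (hQ : Continuous Q) (x₀ θ₀ R : ℝ) (hR : 0 < R) :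
    ∃ α : ℝ → ℝ, α x₀ = θ₀ ∧ ∀ t ∈ Icc (x₀ - R) (x₀ + R),
      HasDerivWithinAt α (prField Q t (α t)) (Icc (x₀ - R) (x₀ + R)) t := by
  obtain ⟨M, hM0, hM⟩ := exists_bound_Icc hQ (x₀ - R) (x₀ + R)
  have ht0 : x₀ ∈ Icc (x₀ - R) (x₀ + R) := ⟨by linarith, by linarith⟩
  have hK : 0 ≤ 1 + M := by linarith
  have hPL : IsPicardLindelof (prField Q) (⟨x₀, ht0⟩ : Icc (x₀ - R) (x₀ + R)) θ₀
      ⟨(1 + M) * R, mul_nonneg hK hR.le⟩ 0 ⟨1 + M, hK⟩ ⟨1 + M, hK⟩ := by
    refine ⟨?_, ?_, ?_, ?_⟩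
    · intro t ht
      apply LipschitzWith.lipschitzOnWith
      apply LipschitzWith.of_dist_le_mul
      intro x y
      rw [Real.dist_eq, Real.dist_eq]
      refine (prField_lip Q t x y).trans ?_
      apply mul_le_mul_of_nonneg_right _ (abs_nonneg _)
      change |Q t - 1| ≤ 1 + M
      have := hM t ht
      rw [abs_le] at this ⊢
      constructor <;> linarith [this.1, this.2]
    · intro x _
      exact (prField_cont hQ x).continuousOn
    · intro t ht x _
      rw [Real.norm_eq_abs]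
      refine (prField_bound Q t x).trans ?_
      change 1 + |Q t| ≤ 1 + M
      have := hM t ht
      linarith
    · change (1 + M) * max (x₀ + R - x₀) (x₀ - (x₀ - R)) ≤ (1 + M) * R - 0
      have : max (x₀ + R - x₀) (x₀ - (x₀ - R)) = R := by
        rw [show x₀ + R - x₀ = R by ring, show x₀ - (x₀ - R) = R by ring, max_self]
      rw [this, sub_zero]
  exact hPL.exists_eq_forall_mem_Icc_hasDerivWithinAt₀

theorem angle_unique_Icc {Q : ℝ → ℝ} (hQ : Continuous Q) {x₀ R : ℝ} (hR : 0 < R)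
    {α β : ℝ → ℝ} (h0 : α x₀ = β x₀)
    (hα : ∀ t ∈ Icc (x₀ - R) (x₀ + R),
      HasDerivWithinAt α (prField Q t (α t)) (Icc (x₀ - R) (x₀ + R)) t)
    (hβ : ∀ t ∈ Icc (x₀ - R) (x₀ + R),
      HasDerivWithinAt β (prField Q t (β t)) (Icc (x₀ - R) (x₀ + R)) t) :
    EqOn α β (Icc (x₀ - R) (x₀ + R)) := by
  obtain ⟨M, hM0, hM⟩ := exists_bound_Icc hQ (x₀ - R) (x₀ + R)
  have hK : 0 ≤ 1 + M := by linarith
  apply ODE_solution_unique_of_mem_Icc (v := prField Q) (s := fun _ => univ) (K := ⟨1 + M, hK⟩)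
    (t₀ := x₀)
  · intro t ht
    apply LipschitzWith.lipschitzOnWith
    apply LipschitzWith.of_dist_le_mul
    intro x y
    rw [Real.dist_eq, Real.dist_eq]
    refine (prField_lip Q t x y).trans ?_
    apply mul_le_mul_of_nonneg_right _ (abs_nonneg _)
    change |Q t - 1| ≤ 1 + M
    have := hM t (Ioo_subset_Icc_self ht)
    rw [abs_le] at this ⊢
    constructor <;> linarith [this.1, this.2]
  · exact ⟨by linarith, by linarith⟩
  · exact fun t ht => (hα t ht).continuousWithinAt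
  · exact fun t ht => (hα t (Ioo_subset_Icc_self ht)).hasDerivAt (Icc_mem_nhds ht.1 ht.2)
  · exact fun _ _ => mem_univ _
  · exact fun t ht => (hβ t ht).continuousWithinAt
  · exact fun t ht => (hβ t (Ioo_subset_Icc_self ht)).hasDerivAt (Icc_mem_nhds ht.1 ht.2)
  · exact fun _ _ => mem_univ _
  · exact h0

/-- Global existence of the Pruefer angle. -/
theorem exists_angle {Q : ℝ → ℝ} (hQ : Continuous Q) (x₀ θ₀ : ℝ) :
    ∃ θ : ℝ → ℝ, θ x₀ = θ₀ ∧ ∀ x, HasDerivAt θ (prField Q x (θ x)) x := by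
  have hex : ∀ n : ℕ, ∃ α : ℝ → ℝ, α x₀ = θ₀ ∧
      ∀ t ∈ Icc (x₀ - (n + 1 : ℝ)) (x₀ + (n + 1 : ℝ)),
      HasDerivWithinAt α (prField Q t (α t)) (Icc (x₀ - (n + 1 : ℝ)) (x₀ + (n + 1 : ℝ))) t :=
    fun n => exists_angle_Icc hQ x₀ θ₀ (n + 1) (by positivity)
  choose α h0 hα using hex
  have huniq : ∀ m n : ℕ, m ≤ n → EqOn (α m) (α n) (Icc (x₀ - (m + 1 : ℝ)) (x₀ + (m + 1 : ℝ))) := by
    intro m n hmn
    have hmn' : (m : ℝ) ≤ n := by exact_mod_cast hmn
    have hsub : Icc (x₀ - (m + 1 : ℝ)) (x₀ + (m + 1 : ℝ)) ⊆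
        Icc (x₀ - (n + 1 : ℝ)) (x₀ + (n + 1 : ℝ)) :=
      Icc_subset_Icc (by linarith) (by linarith)
    apply angle_unique_Icc hQ (by positivity) ((h0 m).trans (h0 n).symm) (hα m)
    exact fun t ht => (hα n t (hsub ht)).mono hsub
  refine ⟨fun x => α ⌈|x - x₀|⌉₊ x, ?_, ?_⟩
  · exact h0 _
  · intro x
    set n := ⌈|x - x₀|⌉₊ + 1 with hn
    have hx : |x - x₀| < n := by
      have := Nat.le_ceil |x - x₀|
      have h2 : (n : ℝ) = (⌈|x - x₀|⌉₊ : ℝ) + 1 := by rw [hn]; push_cast; ring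
      rw [h2]; linarith
    have hev : ∀ᶠ y in 𝓝 x, |y - x₀| < n := by
      have hc : Continuous (fun y : ℝ => |y - x₀|) := by fun_prop
      exact hc.continuousAt.eventually (gt_mem_nhds hx)
    have heq : (fun y => α ⌈|y - x₀|⌉₊ y) =ᶠ[𝓝 x] α n := by
      filter_upwards [hev] with y hy
      have h1 : ⌈|y - x₀|⌉₊ ≤ n := Nat.ceil_le.mpr hy.le
      apply huniq _ _ h1
      have h2 := Nat.le_ceil |y - x₀|
      have h3 := abs_le.mp h2
      constructor <;> linarith [h3.1, h3.2]
    have hx' := abs_lt.mp hx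
    have hder : HasDerivAt (α n) (prField Q x (α n x)) x := by
      apply (hα n x ⟨by linarith [hx'.1], by linarith [hx'.2]⟩).hasDerivAt
      exact Icc_mem_nhds (by linarith [hx'.1]) (by linarith [hx'.2])
    have hval : α ⌈|x - x₀|⌉₊ x = α n x := heq.self_of_nhds
    beta_reduce
    rw [hval]
    exact hder.congr_of_eventuallyEq heq

/-! ### Integrating factors -/

theorem comp_le {d d' C : ℝ → ℝ} (hd : ∀ x, HasDerivAt d (d' x) x) (hC : Continuous C)
    (h : ∀ x, d' x ≤ C x * d x) {s t : ℝ} (hst : s ≤ t) (hs : d s ≤ 0) : d t ≤ 0 := by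
  have hI : ∀ x, HasDerivAt (fun y => ∫ z in s..y, C z) (C x) x := fun x =>
    intervalIntegral.integral_hasDerivAt_right (hC.intervalIntegrable _ _)
      (hC.stronglyMeasurableAtFilter _ _) hC.continuousAt
  have hG : ∀ x, HasDerivAt (fun y => d y * Real.exp (-(∫ z in s..y, C z)))
      (d' x * Real.exp (-(∫ z in s..x, C z)) +
        d x * (Real.exp (-(∫ z in s..x, C z)) * (-(C x)))) x :=
    fun x => (hd x).mul ((hI x).neg.exp)
  have hanti : Antitone (fun y => d y * Real.exp (-(∫ z in s..y, C z))) := by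
    apply antitone_of_deriv_nonpos
    · exact fun x => (hG x).differentiableAt
    · intro x
      rw [(hG x).deriv]
      have : d' x * Real.exp (-(∫ z in s..x, C z)) +
        d x * (Real.exp (-(∫ z in s..x, C z)) * (-(C x))) =
        (d' x - C x * d x) * Real.exp (-(∫ z in s..x, C z)) := by ring
      rw [this]
      exact mul_nonpos_of_nonpos_of_nonneg (by linarith [h x]) (Real.exp_pos _).le
  have h1 := hanti hst
  simp only [intervalIntegral.integral_same, neg_zero, Real.exp_zero, mul_one] at h1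
  have h2 : d t * Real.exp (-(∫ z in s..t, C z)) ≤ 0 := h1.trans hs
  by_contra hcon
  push Not at hcon
  have := mul_pos hcon (Real.exp_pos (-(∫ z in s..t, C z)))
  linarith

/-! ### Existence, uniqueness and smoothness -/

theorem exists_solution_angle {q : ℝ → ℝ} (hq : Continuous q) {x₀ : ℝ} {θ : ℝ → ℝ}
    (hθ : ∀ x, HasDerivAt θ (prField q x (θ x)) x) :
    ∃ r : ℝ → ℝ, r x₀ = 1 ∧
      (∀ x, HasDerivAt (fun y => r y * Real.sin (θ y)) (r x * Real.cos (θ x)) x) ∧
      (∀ x, HasDerivAt (fun y => r y * Real.cos (θ y)) (-(q x * (r x * Real.sin (θ x)))) x) := by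
  have hθc : Continuous θ := continuous_iff_continuousAt.mpr fun x => (hθ x).continuousAt
  set g : ℝ → ℝ := fun t => (1 - q t) * (Real.sin (θ t) * Real.cos (θ t)) with hg
  have hgc : Continuous g := by
    rw [hg]
    have h1 : Continuous (fun t => Real.sin (θ t)) := Real.continuous_sin.comp hθc
    have h2 : Continuous (fun t => Real.cos (θ t)) := Real.continuous_cos.comp hθc
    exact (continuous_const.sub hq).mul (h1.mul h2)
  have hI : ∀ x, HasDerivAt (fun y => ∫ z in x₀..y, g z) (g x) x := fun x =>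
    intervalIntegral.integral_hasDerivAt_right (hgc.intervalIntegrable _ _)
      (hgc.stronglyMeasurableAtFilter _ _) hgc.continuousAt
  have hr : ∀ x, HasDerivAt (fun y => Real.exp (∫ z in x₀..y, g z))
      (Real.exp (∫ z in x₀..x, g z) * g x) x := fun x => (hI x).exp
  refine ⟨fun y => Real.exp (∫ z in x₀..y, g z), by simp, ?_, ?_⟩
  · intro x
    have h1 := (hr x).mul ((hθ x).sin)
    refine HasDerivAt.congr_deriv h1 ?_
    rw [hg]
    simp only [prField]
    have := Real.sin_sq_add_cos_sq (θ x)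
    have h3 : Real.sin (θ x) ^ 2 = 1 - Real.cos (θ x) ^ 2 := by linarith
    linear_combination (Real.exp (∫ (z : ℝ) in x₀..x, g z) * Real.cos (θ x)) * this
  · intro x
    have h1 := (hr x).mul ((hθ x).cos)
    refine HasDerivAt.congr_deriv h1 ?_
    rw [hg]
    simp only [prField]
    have := Real.sin_sq_add_cos_sq (θ x)
    linear_combination (-q x * Real.exp (∫ (z : ℝ) in x₀..x, g z) * Real.sin (θ x)) * this

theorem exists_solution {q : ℝ → ℝ} (hq : Continuous q) (x₀ a b : ℝ) :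
    ∃ u v : ℝ → ℝ, (∀ x, HasDerivAt u (v x) x) ∧
      (∀ x, HasDerivAt v (-(q x * u x)) x) ∧ u x₀ = a ∧ v x₀ = b := by
  obtain ⟨θ, hθ0, hθ⟩ := exists_angle hq x₀ 0
  obtain ⟨φ, hφ0, hφ⟩ := exists_angle hq x₀ (Real.pi / 2)
  obtain ⟨r, hr0, hr1, hr2⟩ := exists_solution_angle hq (x₀ := x₀) hθ
  obtain ⟨s, hs0, hs1, hs2⟩ := exists_solution_angle hq (x₀ := x₀) hφ
  refine ⟨fun x => b * (r x * Real.sin (θ x)) + a * (s x * Real.sin (φ x)),
    fun x => b * (r x * Real.cos (θ x)) + a * (s x * Real.cos (φ x)), ?_, ?_, ?_, ?_⟩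
  · intro x
    exact ((hr1 x).const_mul b).add ((hs1 x).const_mul a)
  · intro x
    have := ((hr2 x).const_mul b).add ((hs2 x).const_mul a)
    refine HasDerivAt.congr_deriv this ?_
    ring
  · simp [hr0, hs0, hθ0, hφ0]
  · simp [hr0, hs0, hθ0, hφ0]

theorem energy_right {q : ℝ → ℝ} (hq : Continuous q) {u v : ℝ → ℝ}
    (hu : ∀ x, HasDerivAt u (v x) x) (hv : ∀ x, HasDerivAt v (-(q x * u x)) x) {x₀ : ℝ}
    (h0 : u x₀ = 0) (h1 : v x₀ = 0) : ∀ x, x₀ ≤ x → u x = 0 ∧ v x = 0 := by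
  have hE : ∀ x, HasDerivAt (fun y => u y ^ 2 + v y ^ 2)
      (2 * u x * v x + 2 * v x * (-(q x * u x))) x := by
    intro x
    have ha := (hu x).pow 2
    have hb := (hv x).pow 2
    have := ha.add hb
    refine HasDerivAt.congr_deriv this ?_
    simp
  intro x hx
  have hC : Continuous (fun x => |1 - q x|) := by fun_prop
  have := comp_le hE hC ?_ hx (by simp [h0, h1])
  · constructor <;> nlinarith [sq_nonneg (u x), sq_nonneg (v x)]
  · intro y
    have h2 : 2 * u y * v y + 2 * v y * (-(q y * u y)) = (1 - q y) * (2 * u y * v y) := by ring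
    rw [h2]
    calc (1 - q y) * (2 * u y * v y) ≤ |(1 - q y) * (2 * u y * v y)| := le_abs_self _
      _ = |1 - q y| * |2 * u y * v y| := abs_mul _ _
      _ ≤ |1 - q y| * (u y ^ 2 + v y ^ 2) := by
          apply mul_le_mul_of_nonneg_left _ (abs_nonneg _)
          rw [abs_le]
          constructor <;> nlinarith [sq_nonneg (u y - v y), sq_nonneg (u y + v y)]

theorem solution_unique {q : ℝ → ℝ} (hq : Continuous q) {u v : ℝ → ℝ}
    (hu : ∀ x, HasDerivAt u (v x) x) (hv : ∀ x, HasDerivAt v (-(q x * u x)) x) {x₀ : ℝ}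
    (h0 : u x₀ = 0) (h1 : v x₀ = 0) : ∀ x, u x = 0 ∧ v x = 0 := by
  intro x
  rcases le_total x₀ x with h | h
  · exact energy_right hq hu hv h0 h1 x h
  · have hu' : ∀ x, HasDerivAt (fun y => u (-y)) (-(v (-x))) x := by
      intro x
      have := (hu (-x)).scomp x (hasDerivAt_neg x)
      refine HasDerivAt.congr_deriv this ?_
      simp
    have hv' : ∀ x, HasDerivAt (fun y => -(v (-y))) (-(q (-x) * u (-x))) x := by
      intro x
      have := ((hv (-x)).scomp x (hasDerivAt_neg x)).neg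
      refine HasDerivAt.congr_deriv this ?_
      simp
    have hq' : Continuous (fun x => q (-x)) := hq.comp continuous_neg
    have := energy_right (q := fun x => q (-x)) hq' (u := fun y => u (-y))
      (v := fun y => -(v (-y))) hu' hv' (x₀ := -x₀) (by simp [h0]) (by simp [h1]) (-x)
      (by linarith)
    simpa using this

theorem solution_smooth {q : ℝ → ℝ} (hq : ContDiff ℝ ∞ q) {u v : ℝ → ℝ}
    (hu : ∀ x, HasDerivAt u (v x) x) (hv : ∀ x, HasDerivAt v (-(q x * u x)) x) :
    ContDiff ℝ ∞ u ∧ ContDiff ℝ ∞ v := by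
  have key : ∀ n : ℕ, ContDiff ℝ n u ∧ ContDiff ℝ n v := by
    intro n
    induction n with
    | zero =>
      constructor
      · rw [Nat.cast_zero, contDiff_zero]
        exact continuous_iff_continuousAt.mpr fun x => (hu x).continuousAt
      · rw [Nat.cast_zero, contDiff_zero]
        exact continuous_iff_continuousAt.mpr fun x => (hv x).continuousAt
    | succ n ih =>
      have hqn : ContDiff ℝ n q := hq.of_le (by exact_mod_cast le_top)
      constructor
      · push_cast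
        rw [contDiff_succ_iff_deriv]
        refine ⟨fun x => (hu x).differentiableAt, by simp, ?_⟩
        have : deriv u = v := funext fun x => (hu x).deriv
        rw [this]; exact ih.2
      · push_cast
        rw [contDiff_succ_iff_deriv]
        refine ⟨fun x => (hv x).differentiableAt, by simp, ?_⟩
        have : deriv v = fun x => -(q x * u x) := funext fun x => (hv x).deriv
        rw [this]; exact (hqn.mul ih.1).neg
  exact ⟨contDiff_infty.mpr fun n => (key n).1, contDiff_infty.mpr fun n => (key n).2⟩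

/-! ### Comparison of angles -/

theorem angle_compare {Q₁ Q₂ : ℝ → ℝ} (hQ₁ : Continuous Q₁) (h12 : ∀ x, Q₁ x ≤ Q₂ x)
    {φ ψ : ℝ → ℝ} (hφ : ∀ x, HasDerivAt φ (prField Q₁ x (φ x)) x)
    (hψ : ∀ x, HasDerivAt ψ (prField Q₂ x (ψ x)) x) {s t : ℝ} (hst : s ≤ t)
    (hs : φ s ≤ ψ s) : φ t ≤ ψ t := by
  have hφc : Continuous φ := continuous_iff_continuousAt.mpr fun x => (hφ x).continuousAt
  have hψc : Continuous ψ := continuous_iff_continuousAt.mpr fun x => (hψ x).continuousAt
  have hd : ∀ x, HasDerivAt (fun y => φ y - ψ y)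
      (prField Q₁ x (φ x) - prField Q₂ x (ψ x)) x := fun x => (hφ x).sub (hψ x)
  set C : ℝ → ℝ := fun x => (Q₁ x - 1) * (Real.sin (φ x + ψ x) * Real.sinc (φ x - ψ x)) with hCdef
  have hC : Continuous C := by
    have h1 : Continuous (fun x => Real.sin (φ x + ψ x)) :=
      Real.continuous_sin.comp (hφc.add hψc)
    have h2 : Continuous (fun x => Real.sinc (φ x - ψ x)) :=
      Real.continuous_sinc.comp (hφc.sub hψc)
    exact (hQ₁.sub continuous_const).mul (h1.mul h2)
  have := comp_le hd hC ?_ hst (by linarith)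
  · linarith
  · intro x
    have h1 : prField Q₁ x (φ x) - prField Q₂ x (ψ x) =
        (prField Q₁ x (φ x) - prField Q₁ x (ψ x)) - (Q₂ x - Q₁ x) * Real.sin (ψ x) ^ 2 := by
      unfold prField; ring
    have h2 : Real.sin (φ x - ψ x) = Real.sinc (φ x - ψ x) * (φ x - ψ x) := by
      by_cases h : φ x - ψ x = 0
      · rw [h]; simp
      · rw [Real.sinc_of_ne_zero h]; field_simp
    rw [h1, prField_sub]
    have h3 : 0 ≤ (Q₂ x - Q₁ x) * Real.sin (ψ x) ^ 2 :=
      mul_nonneg (by linarith [h12 x]) (sq_nonneg _)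
    have h4 : (Q₁ x - 1) * (Real.sin (φ x + ψ x) * Real.sin (φ x - ψ x)) =
        C x * (φ x - ψ x) := by
      rw [hCdef]
      simp only
      nth_rewrite 1 [h2]
      ring
    rw [h4]; linarith

theorem angle_shift {Q : ℝ → ℝ} {φ : ℝ → ℝ} (hφ : ∀ x, HasDerivAt φ (prField Q x (φ x)) x) :
    ∀ x, HasDerivAt (fun y => φ y + Real.pi) (prField Q x (φ x + Real.pi)) x := by
  intro x
  have := (hφ x).add_const Real.pi
  refine HasDerivAt.congr_deriv this ?_
  unfold prField
  rw [Real.cos_add_pi, Real.sin_add_pi]; ring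

/-! ### The plateau -/

/-- The angle whose tangent is `κ` times the tangent of `θ`. -/
noncomputable def modAngle (κ θ : ℝ) : ℝ :=
  θ + Real.arctan ((κ - 1) * (Real.sin θ * Real.cos θ) / (Real.cos θ ^ 2 + κ * Real.sin θ ^ 2))

theorem pos_den {κ : ℝ} (hκ : 0 < κ) (θ : ℝ) : 0 < Real.cos θ ^ 2 + κ * Real.sin θ ^ 2 := by
  have h := Real.sin_sq_add_cos_sq θ
  by_cases hs : Real.sin θ = 0
  · rw [hs] at h ⊢
    nlinarith
  · have : 0 < Real.sin θ ^ 2 := by positivity
    nlinarith [sq_nonneg (Real.cos θ), mul_pos hκ this]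

theorem modAngle_close (κ θ : ℝ) : |modAngle κ θ - θ| ≤ Real.pi / 2 := by
  unfold modAngle
  rw [add_sub_cancel_left, abs_le]
  exact ⟨(Real.neg_pi_div_two_lt_arctan _).le, (Real.arctan_lt_pi_div_two _).le⟩

theorem modAngle_deriv {κ : ℝ} (hκ : 0 < κ) (θ : ℝ) :
    HasDerivAt (modAngle κ) (κ / (Real.cos θ ^ 2 + κ ^ 2 * Real.sin θ ^ 2)) θ := by
  have hD := pos_den hκ θ
  have hD2 := pos_den (pow_pos hκ 2) θ
  have hs := Real.hasDerivAt_sin θ
  have hc := Real.hasDerivAt_cos θ
  have hN : HasDerivAt (fun t => (κ - 1) * (Real.sin t * Real.cos t))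
      ((κ - 1) * (Real.cos θ * Real.cos θ + Real.sin θ * (-Real.sin θ))) θ :=
    (hs.mul hc).const_mul _
  have hDd : HasDerivAt (fun t => Real.cos t ^ 2 + κ * Real.sin t ^ 2)
      (2 * Real.cos θ * (-Real.sin θ) + κ * (2 * Real.sin θ * Real.cos θ)) θ := by
    have := (hc.pow 2).add ((hs.pow 2).const_mul κ)
    refine HasDerivAt.congr_deriv this ?_
    simp
  have hq := (hN.div hDd hD.ne').arctan
  have := (hasDerivAt_id θ).add hq
  have h2 : HasDerivAt (modAngle κ) (1 + 1 / (1 + ((κ - 1) * (Real.sin θ * Real.cos θ) /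
      (Real.cos θ ^ 2 + κ * Real.sin θ ^ 2)) ^ 2) *
      (((κ - 1) * (Real.cos θ * Real.cos θ + Real.sin θ * (-Real.sin θ)) *
      (Real.cos θ ^ 2 + κ * Real.sin θ ^ 2) - (κ - 1) * (Real.sin θ * Real.cos θ) *
      (2 * Real.cos θ * (-Real.sin θ) + κ * (2 * Real.sin θ * Real.cos θ))) /
      (Real.cos θ ^ 2 + κ * Real.sin θ ^ 2) ^ 2)) θ := this
  refine HasDerivAt.congr_deriv h2 ?_
  symm
  set s := Real.sin θ with hs'
  set c := Real.cos θ with hc'
  have hsc : s ^ 2 + c ^ 2 = 1 := Real.sin_sq_add_cos_sq θ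
  have e1 : (c ^ 2 + κ * s ^ 2) ^ 2 + ((κ - 1) * (s * c)) ^ 2 = c ^ 2 + κ ^ 2 * s ^ 2 := by
    have : (c ^ 2 + κ * s ^ 2) ^ 2 + ((κ - 1) * (s * c)) ^ 2 =
      (s ^ 2 + c ^ 2) * (c ^ 2 + κ ^ 2 * s ^ 2) := by ring
    rw [this, hsc, one_mul]
  have e2 : 1 + ((κ - 1) * (s * c) / (c ^ 2 + κ * s ^ 2)) ^ 2 =
      (c ^ 2 + κ ^ 2 * s ^ 2) / (c ^ 2 + κ * s ^ 2) ^ 2 := by
    rw [← e1, div_pow]
    field_simp
  rw [e2]
  have hDne := hD.ne'
  have hD2ne := hD2.ne'
  have e3 : κ = (c ^ 2 + κ ^ 2 * s ^ 2) + ((κ - 1) * (c * c + s * (-s)) * (c ^ 2 + κ * s ^ 2) -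
      (κ - 1) * (s * c) * (2 * c * (-s) + κ * (2 * s * c))) := by
    have h1 : (c ^ 2 + κ ^ 2 * s ^ 2) = (c ^ 2 + κ ^ 2 * s ^ 2) * (s ^ 2 + c ^ 2) := by
      rw [hsc, mul_one]
    have h2 : κ = κ * (s ^ 2 + c ^ 2) ^ 2 := by rw [hsc]; ring
    nth_rewrite 1 [h2]
    nth_rewrite 1 [h1]
    ring
  rw [one_div_div, div_mul_div_comm]
  rw [div_eq_iff hD2ne]
  nth_rewrite 1 [e3]
  field_simp

theorem plateau {Q : ℝ → ℝ} {κ a b : ℝ} (hκ : 0 < κ) (hab : a < b)
    (hQ : ∀ x ∈ Icc a b, Q x = κ ^ 2) {θ : ℝ → ℝ}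
    (hθ : ∀ x, HasDerivAt θ (prField Q x (θ x)) x) :
    |θ b - θ a - κ * (b - a)| ≤ Real.pi := by
  have hG : ∀ x ∈ Icc a b, HasDerivAt (fun y => modAngle κ (θ y) - κ * y) 0 x := by
    intro x hx
    have h1 := (modAngle_deriv hκ (θ x)).comp x (hθ x)
    have h2 := h1.sub ((hasDerivAt_id x).const_mul κ)
    refine HasDerivAt.congr_deriv h2 ?_
    unfold prField
    rw [hQ x hx]
    have := (pos_den (pow_pos hκ 2) (θ x)).ne'
    field_simp
    ring
  have hconst : ∀ x ∈ Icc a b, (fun y => modAngle κ (θ y) - κ * y) x =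
      (fun y => modAngle κ (θ y) - κ * y) a := by
    apply constant_of_has_deriv_right_zero
    · exact fun x hx => (hG x hx).continuousAt.continuousWithinAt
    · exact fun x hx => (hG x ⟨hx.1, hx.2.le⟩).hasDerivWithinAt
  have h1 := hconst b ⟨hab.le, le_rfl⟩
  simp only at h1
  have h2 := abs_le.mp (modAngle_close κ (θ a))
  have h3 := abs_le.mp (modAngle_close κ (θ b))
  rw [abs_le]
  constructor <;> linarith [h2.1, h2.2, h3.1, h3.2]

/-! ### Continuity in the spectral parameter -/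

theorem angle_cont_param {q : ℝ → ℝ} (hq : Continuous q) {L : ℝ} (hL : 0 ≤ L)
    {Θ : ℝ → ℝ → ℝ} (h0 : ∀ l, Θ l 0 = 0)
    (hΘ : ∀ l x, HasDerivAt (Θ l) (prField (fun y => l - q y) x (Θ l x)) x) :
    Continuous (fun l => Θ l L) := by
  rw [continuous_iff_continuousAt]
  intro l
  obtain ⟨M, hM0, hM⟩ := exists_bound_Icc (Q := fun x => l - q x - 1) (by fun_prop) 0 L
  have key : ∀ l', |Θ l' L - Θ l L| ≤ |l' - l| / (M + 1) * (Real.exp ((M + 1) * L) - 1) := by
    intro l'
    have hbd := norm_le_gronwallBound_of_norm_deriv_right_le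
      (f := fun x => Θ l' x - Θ l x) (f' := fun x => prField (fun y => l' - q y) x (Θ l' x) -
        prField (fun y => l - q y) x (Θ l x)) (δ := 0) (K := M + 1) (ε := |l' - l|)
      (a := 0) (b := L) (fun x _ => ((hΘ l' x).sub (hΘ l x)).continuousAt.continuousWithinAt)
      (fun x _ => ((hΘ l' x).sub (hΘ l x)).hasDerivWithinAt) (by simp [h0]) ?_ L ⟨hL, le_rfl⟩
    · rw [gronwallBound_of_K_ne_0 (by linarith)] at hbd
      rw [Real.norm_eq_abs] at hbd
      simpa using hbd
    · intro x hx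
      rw [Real.norm_eq_abs, Real.norm_eq_abs]
      have h1 : prField (fun y => l' - q y) x (Θ l' x) - prField (fun y => l - q y) x (Θ l x) =
          (prField (fun y => l - q y) x (Θ l' x) - prField (fun y => l - q y) x (Θ l x)) +
          (l' - l) * Real.sin (Θ l' x) ^ 2 := by
        unfold prField; ring
      rw [h1]
      refine (abs_add_le _ _).trans ?_
      apply add_le_add
      · refine (prField_lip _ _ _ _).trans ?_
        apply mul_le_mul_of_nonneg_right _ (abs_nonneg _)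
        have := hM x ⟨hx.1, hx.2.le⟩
        exact this.trans (by linarith)
      · rw [abs_mul]
        have : |Real.sin (Θ l' x) ^ 2| ≤ 1 := by
          rw [abs_of_nonneg (sq_nonneg _)]
          nlinarith [Real.sin_sq_add_cos_sq (Θ l' x), sq_nonneg (Real.cos (Θ l' x))]
        calc |l' - l| * |Real.sin (Θ l' x) ^ 2| ≤ |l' - l| * 1 :=
              mul_le_mul_of_nonneg_left this (abs_nonneg _)
          _ = |l' - l| := mul_one _
  rw [ContinuousAt, tendsto_iff_norm_sub_tendsto_zero]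
  have hc : Continuous (fun l' : ℝ => |l' - l| / (M + 1) * (Real.exp ((M + 1) * L) - 1)) := by
    fun_prop
  have hc2 := hc.tendsto l
  refine squeeze_zero (fun _ => norm_nonneg _) (g := fun l' : ℝ => |l' - l| / (M + 1) *
    (Real.exp ((M + 1) * L) - 1)) (fun l' => ?_) ?_
  · rw [Real.norm_eq_abs]; exact key l'
  · simpa using hc2

/-! ### The eigenvalue -/

theorem exists_eigenvalue {q : ℝ → ℝ} (hq : Continuous q) {L a b c l1 l2 : ℝ}
    (ha : 0 ≤ a) (hab : a < b) (hb : b ≤ L) (hc : ∀ x ∈ Icc a b, q x = c)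
    (h1 : c < l1) (h12 : l1 ≤ l2)
    (hgap : 4 * Real.pi ≤ (√(l2 - c) - √(l1 - c)) * (b - a)) :
    ∃ l ∈ Icc l1 l2, ∃ u v : ℝ → ℝ, (∀ x, HasDerivAt u (v x) x) ∧
      (∀ x, HasDerivAt v (-((l - q x) * u x)) x) ∧ u 0 = 0 ∧ v 0 = 1 ∧ u L = 0 := by
  have hL : 0 ≤ L := by linarith
  have hex : ∀ l : ℝ, ∃ θ : ℝ → ℝ, θ 0 = 0 ∧
      ∀ x, HasDerivAt θ (prField (fun y => l - q y) x (θ x)) x := fun l =>
    exists_angle (Q := fun y => l - q y) (by fun_prop) 0 0
  choose Θ h0 hΘ using hex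
  have hcont := angle_cont_param hq hL h0 hΘ
  have hpi := Real.pi_pos
  -- the plateau
  have hp1 : |Θ l1 b - Θ l1 a - √(l1 - c) * (b - a)| ≤ Real.pi := by
    apply plateau (Real.sqrt_pos.mpr (by linarith)) hab _ (hΘ l1)
    intro x hx
    rw [Real.sq_sqrt (by linarith), hc x hx]
  have hp2 : |Θ l2 b - Θ l2 a - √(l2 - c) * (b - a)| ≤ Real.pi := by
    apply plateau (Real.sqrt_pos.mpr (by linarith)) hab _ (hΘ l2)
    intro x hx
    rw [Real.sq_sqrt (by linarith), hc x hx]
  have hcmp : Θ l1 a ≤ Θ l2 a := by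
    apply angle_compare (Q₁ := fun y => l1 - q y) (Q₂ := fun y => l2 - q y) (by fun_prop) _
      (hΘ l1) (hΘ l2) ha
    · rw [h0, h0]
    · intro x; linarith
  have hb' : Θ l1 b + Real.pi ≤ Θ l2 b := by
    have e1 := abs_le.mp hp1
    have e2 := abs_le.mp hp2
    nlinarith [e1.1, e1.2, e2.1, e2.2]
  have hLL : Θ l1 L + Real.pi ≤ Θ l2 L := by
    have := angle_compare (Q₁ := fun y => l1 - q y) (Q₂ := fun y => l2 - q y) (by fun_prop)
      (fun x => by linarith) (φ := fun y => Θ l1 y + Real.pi) (ψ := Θ l2)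
      (angle_shift (hΘ l1)) (hΘ l2) hb hb'
    exact this
  -- intermediate value theorem
  set k : ℤ := ⌈Θ l1 L / Real.pi⌉ with hk
  have hk1 : Θ l1 L ≤ k * Real.pi := by
    have := Int.le_ceil (Θ l1 L / Real.pi)
    rwa [div_le_iff₀ hpi] at this
  have hk2 : (k : ℝ) * Real.pi ≤ Θ l2 L := by
    have := Int.ceil_lt_add_one (Θ l1 L / Real.pi)
    have h3 : (k : ℝ) * Real.pi ≤ (Θ l1 L / Real.pi + 1) * Real.pi :=
      mul_le_mul_of_nonneg_right this.le hpi.le
    rw [add_mul, div_mul_cancel₀ _ hpi.ne', one_mul] at h3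
    linarith
  obtain ⟨l, hl, hlk⟩ := intermediate_value_Icc h12 hcont.continuousOn ⟨hk1, hk2⟩
  simp only at hlk
  obtain ⟨r, hr0, hr1, hr2⟩ := exists_solution_angle (q := fun y => l - q y) (by fun_prop)
    (x₀ := 0) (hΘ l)
  refine ⟨l, hl, fun y => r y * Real.sin (Θ l y), fun y => r y * Real.cos (Θ l y), hr1, hr2,
    ?_, ?_, ?_⟩
  · simp [h0]
  · simp [h0, hr0]
  · simp only
    rw [hlk, Real.sin_int_mul_pi, mul_zero]

end Pool.Agent.Work.MP_5698f2_an

end

section

/-!
# MP_5698f2_an: a Stone type theorem from a bounded resolvent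

For a self-adjoint operator `R` with `‖R f‖^2 <= <R f, f>` and dense range we build the unitary
group `exp (-i t (R^{-1} - 1))` with the continuous functional calculus.
-/

open MeasureTheory Filter Topology Set
open scoped ContDiff InnerProductSpace

namespace Pool.Agent.Work.MP_5698f2_an

namespace StoneGroup

/-- `g_t(r) = r exp (-i t (1/r - 1))`. -/
noncomputable def gg (t : ℝ) (z : ℂ) : ℂ :=
  z * Complex.exp (((-(t * (1 / z.re - 1)) : ℝ) : ℂ) * Complex.I)

theorem norm_gg (t : ℝ) (z : ℂ) : ‖gg t z‖ = ‖z‖ := by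
  rw [gg, norm_mul, Complex.norm_exp_ofReal_mul_I, mul_one]

theorem gg_mul (s t : ℝ) (z : ℂ) : gg s z * gg t z = gg (s + t) z * z := by
  unfold gg
  have : Complex.exp (((-((s + t) * (1 / z.re - 1)) : ℝ) : ℂ) * Complex.I) =
      Complex.exp (((-(s * (1 / z.re - 1)) : ℝ) : ℂ) * Complex.I) *
      Complex.exp (((-(t * (1 / z.re - 1)) : ℝ) : ℂ) * Complex.I) := by
    rw [← Complex.exp_add]
    congr 1
    push_cast
    ring
  rw [this]
  ring

theorem star_gg_mul (t : ℝ) (z : ℂ) : star (gg t z) * gg t z = star z * z := by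
  have h1 : ∀ w : ℂ, star w * w = ((‖w‖ ^ 2 : ℝ) : ℂ) := by
    intro w
    rw [RCLike.star_def, ← Complex.normSq_eq_conj_mul_self, Complex.normSq_eq_norm_sq]
  rw [h1, h1, norm_gg]

theorem gg_zero (z : ℂ) : gg 0 z = z := by
  simp [gg]

theorem continuousOn_gg (t : ℝ) {S : Set ℂ} (hS : ∀ z ∈ S, z.im = 0) :
    ContinuousOn (gg t) S := by
  intro z hz
  apply ContinuousAt.continuousWithinAt
  by_cases h0 : z = 0
  · subst h0
    rw [ContinuousAt]
    have h1 : gg t 0 = 0 := by simp [gg]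
    rw [h1, tendsto_zero_iff_norm_tendsto_zero]
    simp only [norm_gg]
    have : Tendsto (fun z : ℂ => ‖z‖) (𝓝 0) (𝓝 ‖(0 : ℂ)‖) := continuous_norm.tendsto 0
    simpa using this
  · have hre : z.re ≠ 0 := by
      intro h
      exact h0 (Complex.ext h (hS z hz))
    unfold gg
    have h2 : ContinuousAt (fun z : ℂ => (1 / z.re - 1 : ℝ)) z := by
      apply ContinuousAt.sub _ continuousAt_const
      exact ContinuousAt.div continuousAt_const Complex.continuous_re.continuousAt hre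
    apply continuousAt_id.mul
    apply Complex.continuous_exp.continuousAt.comp
    apply ContinuousAt.mul _ continuousAt_const
    exact Complex.continuous_ofReal.continuousAt.comp (continuousAt_const.mul h2).neg

theorem exp_bound2 (x : ℝ) : ‖Complex.exp ((x : ℂ) * Complex.I) - 1 - (x : ℂ) * Complex.I‖
    ≤ 3 * x ^ 2 := by
  have hn : ‖(x : ℂ) * Complex.I‖ = |x| := by simp
  by_cases hx : |x| ≤ 1
  · have := Complex.norm_exp_sub_one_sub_id_le (x := (x : ℂ) * Complex.I) (by rw [hn]; exact hx)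
    rw [hn, sq_abs] at this
    nlinarith [sq_nonneg x]
  · push Not at hx
    have h1 : ‖Complex.exp ((x : ℂ) * Complex.I) - 1 - (x : ℂ) * Complex.I‖ ≤ 2 + |x| := by
      calc _ ≤ ‖Complex.exp ((x : ℂ) * Complex.I) - 1‖ + ‖(x : ℂ) * Complex.I‖ := norm_sub_le _ _
        _ ≤ (‖Complex.exp ((x : ℂ) * Complex.I)‖ + ‖(1 : ℂ)‖) + |x| := by
          rw [hn]; gcongr; exact norm_sub_le _ _
        _ = 2 + |x| := by rw [Complex.norm_exp_ofReal_mul_I]; norm_num
    have h2 : x ^ 2 = |x| ^ 2 := (sq_abs x).symm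
    rw [h2]
    nlinarith

/-- the second order bound: `|r g_{t+h} - r g_t + i h (1-r) g_t| <= 3 h^2` on `[0,1]` -/
theorem gg_deriv_bound (t h : ℝ) {z : ℂ} (hi : z.im = 0) (h0 : 0 ≤ z.re) (h1 : z.re ≤ 1) :
    ‖gg (t + h) z * z - gg t z * z + (h : ℂ) * (Complex.I * ((1 - z) * gg t z))‖
      ≤ 3 * h ^ 2 := by
  obtain ⟨r, rfl⟩ : ∃ r : ℝ, z = (r : ℂ) := ⟨z.re, Complex.ext (by simp) (by simp [hi])⟩
  simp only [Complex.ofReal_re] at h0 h1
  rcases eq_or_lt_of_le h0 with h00 | h00
  · subst h00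
    simp only [gg, Complex.ofReal_zero, zero_mul, sub_self, mul_zero, add_zero, norm_zero]
    positivity
  · have hr : (r : ℂ) ≠ 0 := by exact_mod_cast h00.ne'
    set θ : ℝ := -(h * (1 / r - 1)) with hθ
    have key : gg (t + h) (r : ℂ) * r - gg t (r : ℂ) * r +
        (h : ℂ) * (Complex.I * ((1 - (r : ℂ)) * gg t (r : ℂ))) =
        (r : ℂ) ^ 2 * Complex.exp (((-(t * (1 / r - 1)) : ℝ) : ℂ) * Complex.I) *
          (Complex.exp ((θ : ℂ) * Complex.I) - 1 - (θ : ℂ) * Complex.I) := by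
      have e1 : gg (t + h) (r : ℂ) = (r : ℂ) *
          (Complex.exp (((-(t * (1 / r - 1)) : ℝ) : ℂ) * Complex.I) *
            Complex.exp ((θ : ℂ) * Complex.I)) := by
        rw [gg, ← Complex.exp_add, Complex.ofReal_re]
        congr 2
        rw [hθ]
        push_cast
        ring
      have e2 : gg t (r : ℂ) = (r : ℂ) *
          Complex.exp (((-(t * (1 / r - 1)) : ℝ) : ℂ) * Complex.I) := by
        rw [gg, Complex.ofReal_re]
      rw [e1, e2]
      have e3 : (θ : ℂ) = -((h : ℂ) * (1 / (r : ℂ) - 1)) := by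
        rw [hθ]; push_cast; ring
      generalize Complex.exp (((-(t * (1 / r - 1)) : ℝ) : ℂ) * Complex.I) = E1
      generalize Complex.exp ((θ : ℂ) * Complex.I) = E2
      rw [e3]
      field_simp
      ring
    rw [key, norm_mul, norm_mul, Complex.norm_exp_ofReal_mul_I, mul_one, norm_pow,
      Complex.norm_real, Real.norm_of_nonneg h0]
    have h2 := exp_bound2 θ
    have h3 : r ^ 2 * (3 * θ ^ 2) = 3 * h ^ 2 * (1 - r) ^ 2 := by
      rw [hθ]; field_simp
    calc r ^ 2 * ‖Complex.exp ((θ : ℂ) * Complex.I) - 1 - (θ : ℂ) * Complex.I‖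
        ≤ r ^ 2 * (3 * θ ^ 2) := by gcongr
      _ = 3 * h ^ 2 * (1 - r) ^ 2 := h3
      _ ≤ 3 * h ^ 2 * 1 := by
        apply mul_le_mul_of_nonneg_left _ (by positivity)
        nlinarith
      _ = 3 * h ^ 2 := by ring

variable {H : Type*} [NormedAddCommGroup H] [InnerProductSpace ℂ H] [CompleteSpace H]

theorem spec_bound (R : H →L[ℂ] H) (hR : IsSelfAdjoint R)
    (hR1 : ∀ f, ‖R f‖ ^ 2 ≤ (⟪R f, f⟫_ℂ).re) :
    ∀ z ∈ spectrum ℂ R, z.im = 0 ∧ 0 ≤ z.re ∧ z.re ≤ 1 := by
  intro z hz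
  have hpos : (0 : H →L[ℂ] H) ≤ R := by
    rw [ContinuousLinearMap.nonneg_iff_isPositive, ContinuousLinearMap.isPositive_def']
    refine ⟨hR, fun x => ?_⟩
    have := hR1 x
    rw [ContinuousLinearMap.reApplyInnerSelf_apply]
    exact le_trans (sq_nonneg _) this
  have hnorm : ‖R‖ ≤ 1 := by
    apply ContinuousLinearMap.opNorm_le_bound _ zero_le_one
    intro f
    have h1 : ‖R f‖ ^ 2 ≤ ‖R f‖ * ‖f‖ := by
      refine (hR1 f).trans ?_
      exact (Complex.re_le_norm _).trans (norm_inner_le_norm _ _)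
    rcases eq_or_lt_of_le (norm_nonneg (R f)) with h0 | h0
    · rw [← h0]; positivity
    · rw [one_mul]
      by_contra hcon
      push Not at hcon
      nlinarith
  have him : z = z.re := hR.mem_spectrum_eq_re hz
  have hre : z.re ∈ spectrum ℝ R := by
    have := spectrum.algebraMap_mem_iff (R := ℝ) ℂ (A := H →L[ℂ] H) (a := R) (r := z.re)
    apply this.1
    rw [Complex.coe_algebraMap, ← him]
    exact hz
  refine ⟨by rw [him]; simp, spectrum_nonneg_of_nonneg hpos hre, ?_⟩
  have h3 : ‖z‖ ≤ ‖R‖ * ‖(1 : H →L[ℂ] H)‖ := spectrum.norm_le_norm_mul_of_mem hz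
  have h4 : ‖(1 : H →L[ℂ] H)‖ ≤ 1 := ContinuousLinearMap.norm_id_le
  calc z.re ≤ ‖z‖ := Complex.re_le_norm z
    _ ≤ ‖R‖ * ‖(1 : H →L[ℂ] H)‖ := h3
    _ ≤ 1 * 1 := by gcongr
    _ = 1 := one_mul 1

end StoneGroup

open StoneGroup in
theorem group_of_resolvent {H : Type*} [NormedAddCommGroup H] [InnerProductSpace ℂ H]
    [CompleteSpace H] (R : H →L[ℂ] H) (hR : IsSelfAdjoint R)
    (hR1 : ∀ f, ‖R f‖ ^ 2 ≤ (⟪R f, f⟫_ℂ).re) {ι : Type*} (u p : ι → H)
    (hu : DenseRange u) (h : ∀ i, R (u i + p i) = u i) :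
    ∃ S : ℝ → (H →L[ℂ] H), S 0 = ContinuousLinearMap.id ℂ H ∧
      (∀ s t, S (s + t) = (S s).comp (S t)) ∧ (∀ t f, ‖S t f‖ = ‖f‖) ∧
      (∀ f, Continuous fun t => S t f) ∧
      ∀ i t, HasDerivAt (fun s => S s (u i)) (-(Complex.I • S t (p i))) t := by
  have hspec := spec_bound R hR hR1
  have hnormal : IsStarNormal R := hR.isStarNormal
  have hcont : ∀ t, ContinuousOn (gg t) (spectrum ℂ R) := fun t =>
    continuousOn_gg t (fun z hz => (hspec z hz).1)
  set G : ℝ → (H →L[ℂ] H) := fun t => cfc (gg t) R with hG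
  have hid : cfc (fun z : ℂ => z) R = R := cfc_id' ℂ R
  have hG0 : G 0 = R := by
    simp only [hG]
    conv_rhs => rw [← hid]
    apply cfc_congr
    intro z _
    exact gg_zero z
  -- products
  have hGR : ∀ t, G t * R = cfc (fun z => gg t z * z) R := by
    intro t
    simp only [hG]
    rw [cfc_mul (gg t) (fun z => z) R (hcont t) continuousOn_id, hid]
  have hGmul : ∀ s t, G s * G t = G (s + t) * R := by
    intro s t
    rw [hGR]
    simp only [hG]
    rw [← cfc_mul (gg s) (gg t) R (hcont s) (hcont t)]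
    apply cfc_congr
    intro z _
    exact gg_mul s t z
  have hcomm : ∀ t, R * G t = G t * R := by
    intro t
    have := hGmul 0 t
    rw [zero_add, hG0] at this
    exact this
  have hstar : ∀ t, star (G t) * G t = R * R := by
    intro t
    have e1 : star (G t) * G t = cfc (fun z => star (gg t z) * gg t z) R := by
      rw [cfc_mul (fun z => star (gg t z)) (gg t) R ((hcont t).star) (hcont t), cfc_star]
    have e2 : R * R = cfc (fun z : ℂ => z * z) R := by
      rw [cfc_mul (fun z : ℂ => z) (fun z : ℂ => z) R continuousOn_id continuousOn_id, hid]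
    rw [e1, e2]
    apply cfc_congr
    intro z hz
    have him := (hspec z hz).1
    show star (gg t z) * gg t z = z * z
    rw [star_gg_mul]
    congr 1
    apply Complex.ext <;> simp [him]
  have hnorm : ∀ t y, ‖G t y‖ = ‖R y‖ := by
    intro t y
    have e1 : ‖G t y‖ ^ 2 = ‖R y‖ ^ 2 := by
      have a1 : ⟪G t y, G t y⟫_ℂ = ⟪R y, R y⟫_ℂ := by
        have b1 : ⟪(star (G t) * G t) y, y⟫_ℂ = ⟪G t y, G t y⟫_ℂ := by
          rw [ContinuousLinearMap.star_eq_adjoint, mul_apply_eq_comp,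
            ContinuousLinearMap.adjoint_inner_left]
        have b2 : ⟪(R * R) y, y⟫_ℂ = ⟪R y, R y⟫_ℂ := by
          have : R * R = star R * R := by rw [hR.star_eq]
          rw [this, ContinuousLinearMap.star_eq_adjoint, mul_apply_eq_comp,
            ContinuousLinearMap.adjoint_inner_left]
        rw [← b1, ← b2, hstar]
      rw [inner_self_eq_norm_sq_to_K, inner_self_eq_norm_sq_to_K] at a1
      exact_mod_cast a1
    have := congrArg Real.sqrt e1
    rwa [Real.sqrt_sq (norm_nonneg _), Real.sqrt_sq (norm_nonneg _)] at this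
  -- dense range
  have hdR : DenseRange (R : H → H) := by
    apply hu.mono
    rintro _ ⟨i, rfl⟩
    exact ⟨u i + p i, h i⟩
  have hdRR : DenseRange (fun z => R (R z)) := hdR.comp hdR R.continuous
  have hdRl : DenseRange (R : H →ₗ[ℂ] H) := hdR
  -- the group
  set S : ℝ → (H →L[ℂ] H) := fun t => LinearMap.extendOfNorm (G t : H →ₗ[ℂ] H) (R : H →ₗ[ℂ] H)
    with hS
  have hSR : ∀ t y, S t (R y) = G t y := by
    intro t y
    exact LinearMap.extendOfNorm_eq (f := (G t : H →ₗ[ℂ] H)) (e := (R : H →ₗ[ℂ] H)) hdRl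
      ⟨1, fun x => by rw [one_mul]; exact (hnorm t x).le⟩ y
  have hSnorm : ∀ t f, ‖S t f‖ = ‖f‖ := by
    intro t f
    refine hdR.induction_on (p := fun f => ‖S t f‖ = ‖f‖) f ?_ ?_
    · exact isClosed_eq (S t).continuous.norm continuous_norm
    · intro y
      rw [hSR, hnorm]
  have hS0 : S 0 = ContinuousLinearMap.id ℂ H := by
    ext f
    refine hdR.induction_on (p := fun f => S 0 f = (ContinuousLinearMap.id ℂ H) f) f ?_ ?_
    · exact isClosed_eq (S 0).continuous (ContinuousLinearMap.id ℂ H).continuous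
    · intro y
      rw [hSR, hG0]; rfl
  have hRG : ∀ t y, R (G t y) = G t (R y) := by
    intro t y
    have := congrArg (fun T : H →L[ℂ] H => T y) (hcomm t)
    simpa using this
  have hSadd : ∀ s t, S (s + t) = (S s).comp (S t) := by
    intro s t
    ext f
    refine hdRR.induction_on (p := fun f => S (s + t) f = ((S s).comp (S t)) f) f ?_ ?_
    · exact isClosed_eq (S (s + t)).continuous ((S s).comp (S t)).continuous
    · intro z
      rw [ContinuousLinearMap.comp_apply, hSR, hSR, ← hRG t z, hSR]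
      have := congrArg (fun T : H →L[ℂ] H => T z) (hGmul s t)
      simp only [mul_apply_eq_comp] at this
      exact this.symm
  -- derivative on the range of R^2
  have hder : ∀ z t, HasDerivAt (fun s => S s (R (R z)))
      (-(Complex.I • S t (R z - R (R z)))) t := by
    intro z t
    rw [hasDerivAt_iff_isLittleO_nhds_zero]
    have hb : ∀ k : ℝ, ‖S (t + k) (R (R z)) - S t (R (R z)) -
        k • (-(Complex.I • S t (R z - R (R z))))‖ ≤ 3 * ‖z‖ * ‖k ^ 2‖ := by
      intro k
      have e1 : S (t + k) (R (R z)) - S t (R (R z)) - k • (-(Complex.I • S t (R z - R (R z)))) =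
          (cfc (fun w => gg (t + k) w * w - gg t w * w +
            (k : ℂ) * (Complex.I * ((1 - w) * gg t w))) R) z := by
        have c1 : cfc (fun w => gg (t + k) w * w - gg t w * w +
            (k : ℂ) * (Complex.I * ((1 - w) * gg t w))) R =
            G (t + k) * R - G t * R + (k : ℂ) • (Complex.I • (G t - R * G t)) := by
          have cc1 : ContinuousOn (fun w => gg (t + k) w * w) (spectrum ℂ R) :=
            (hcont (t + k)).mul continuousOn_id
          have cc2 : ContinuousOn (fun w => gg t w * w) (spectrum ℂ R) :=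
            (hcont t).mul continuousOn_id
          have cc3 : ContinuousOn (fun w : ℂ => w * gg t w) (spectrum ℂ R) :=
            continuousOn_id.mul (hcont t)
          have cc4 : ContinuousOn (fun w : ℂ => (1 - w) * gg t w) (spectrum ℂ R) :=
            (continuousOn_const.sub continuousOn_id).mul (hcont t)
          have cc5 : ContinuousOn (fun w : ℂ => Complex.I * ((1 - w) * gg t w))
              (spectrum ℂ R) := continuousOn_const.mul cc4
          rw [cfc_add R (fun w => gg (t + k) w * w - gg t w * w)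
            (fun w => (k : ℂ) * (Complex.I * ((1 - w) * gg t w)))
            (cc1.sub cc2) (continuousOn_const.mul cc5)]
          rw [cfc_sub (fun w => gg (t + k) w * w) (fun w => gg t w * w) (hf := cc1) (hg := cc2)]
          rw [cfc_const_mul (k : ℂ) (fun w => Complex.I * ((1 - w) * gg t w)) R cc5]
          rw [cfc_const_mul Complex.I (fun w => ((1 - w) * gg t w)) R cc4]
          rw [← hGR, ← hGR]
          congr 3
          have d1 : (fun w : ℂ => (1 - w) * gg t w) = fun w => gg t w - w * gg t w := by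
            funext w; ring
          rw [d1, cfc_sub (gg t) (fun w => w * gg t w) (hf := hcont t) (hg := cc3)]
          rw [cfc_mul (fun w => w) (gg t) R continuousOn_id (hcont t), hid]
        rw [c1]
        simp only [add_apply, sub_apply,
          mul_apply_eq_comp, smul_apply, map_sub, hSR, hRG]
        rw [smul_neg, sub_neg_eq_add, ← Complex.coe_smul]
      rw [e1]
      have hb2 : ‖cfc (fun w => gg (t + k) w * w - gg t w * w +
            (k : ℂ) * (Complex.I * ((1 - w) * gg t w))) R‖ ≤ 3 * k ^ 2 := by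
        apply norm_cfc_le (by positivity)
        intro w hw
        obtain ⟨h1, h2, h3⟩ := hspec w hw
        exact gg_deriv_bound t k h1 h2 h3
      refine (ContinuousLinearMap.le_opNorm _ _).trans ?_
      rw [Real.norm_of_nonneg (sq_nonneg k)]
      calc _ ≤ (3 * k ^ 2) * ‖z‖ := by gcongr
        _ = 3 * ‖z‖ * k ^ 2 := by ring
    have hO : (fun k : ℝ => S (t + k) (R (R z)) - S t (R (R z)) -
        k • (-(Complex.I • S t (R z - R (R z))))) =O[𝓝 0] fun k : ℝ => k ^ 2 :=
      Asymptotics.IsBigO.of_bound (3 * ‖z‖) (Eventually.of_forall hb)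
    exact hO.trans_isLittleO (Asymptotics.isLittleO_pow_id (by norm_num))
  -- strong continuity
  have hjoint : ∀ f, Continuous fun t => S t f := by
    intro f
    rw [Metric.continuous_iff]
    intro t ε hε
    obtain ⟨z, hz⟩ : ∃ z, dist f (R (R z)) < ε / 3 := by
      obtain ⟨y, hy⟩ := hdRR.exists_dist_lt f (by positivity : 0 < ε / 3)
      exact ⟨y, hy⟩
    have hc : Continuous fun s => S s (R (R z)) :=
      continuous_iff_continuousAt.2 fun s => (hder z s).continuousAt
    obtain ⟨δ, hδ, hδ2⟩ := Metric.continuous_iff.1 hc t (ε / 3) (by positivity)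
    refine ⟨δ, hδ, fun s hs => ?_⟩
    have h1 := hδ2 s hs
    have h2 : ∀ s, dist (S s f) (S s (R (R z))) < ε / 3 := by
      intro s
      rw [dist_eq_norm, ← map_sub, hSnorm, ← dist_eq_norm]
      exact hz
    calc dist (S s f) (S t f) ≤ dist (S s f) (S s (R (R z))) +
          dist (S s (R (R z))) (S t (R (R z))) + dist (S t (R (R z))) (S t f) :=
            dist_triangle4 _ _ _ _
      _ < ε / 3 + ε / 3 + ε / 3 := by
        rw [dist_comm (S t (R (R z)))]
        gcongr
        · exact h2 s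
        · exact h2 t
      _ = ε := by ring
  -- joint continuity
  have hjc : Continuous fun q : H × ℝ => S q.2 q.1 := by
    rw [continuous_iff_continuousAt]
    rintro ⟨f, t⟩
    rw [ContinuousAt, tendsto_iff_norm_sub_tendsto_zero]
    have hb : ∀ q : H × ℝ, ‖S q.2 q.1 - S t f‖ ≤ ‖q.1 - f‖ + ‖S q.2 f - S t f‖ := by
      intro q
      calc ‖S q.2 q.1 - S t f‖ = ‖S q.2 (q.1 - f) + (S q.2 f - S t f)‖ := by
            rw [map_sub]; congr 1; abel
        _ ≤ ‖S q.2 (q.1 - f)‖ + ‖S q.2 f - S t f‖ := norm_add_le _ _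
        _ = _ := by rw [hSnorm]
    refine squeeze_zero (fun q => norm_nonneg _) hb ?_
    have c1 : Continuous fun q : H × ℝ => ‖q.1 - f‖ + ‖S q.2 f - S t f‖ :=
      ((continuous_fst.sub continuous_const).norm).add
        ((((hjoint f).comp continuous_snd).sub continuous_const).norm)
    have := c1.tendsto (f, t)
    simpa using this
  -- the integral formula
  have hint : ∀ t y, S t (R y) = R y + ∫ τ in (0 : ℝ)..t, -(Complex.I • S τ (y - R y)) := by
    intro t y
    refine hdR.induction_on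
      (p := fun y => S t (R y) = R y + ∫ τ in (0 : ℝ)..t, -(Complex.I • S τ (y - R y))) y ?_ ?_
    · apply isClosed_eq ((S t).continuous.comp R.continuous)
      apply R.continuous.add
      apply intervalIntegral.continuous_parametric_intervalIntegral_of_continuous'
      have : Continuous fun q : H × ℝ => S q.2 (q.1 - R q.1) :=
        hjc.comp ((continuous_fst.sub (R.continuous.comp continuous_fst)).prodMk continuous_snd)
      exact (this.const_smul Complex.I).neg
    · intro z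
      have h1 : ∫ τ in (0 : ℝ)..t, -(Complex.I • S τ (R z - R (R z))) =
          S t (R (R z)) - S 0 (R (R z)) := by
        apply intervalIntegral.integral_eq_sub_of_hasDerivAt
        · intro τ _
          exact hder z τ
        · apply Continuous.intervalIntegrable
          exact ((hjoint _).const_smul Complex.I).neg
      rw [h1, hS0]
      simp
  refine ⟨S, hS0, hSadd, hSnorm, hjoint, ?_⟩
  intro i t
  have hp : p i = (u i + p i) - R (u i + p i) := by rw [h i]; abel
  have hfun : (fun s => S s (u i)) = fun s => u i +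
      ∫ τ in (0 : ℝ)..s, -(Complex.I • S τ (p i)) := by
    funext s
    have := hint s (u i + p i)
    rw [← hp, h i] at this
    exact this
  rw [hfun]
  have hcc : Continuous fun τ => -(Complex.I • S τ (p i)) :=
    ((hjoint _).const_smul Complex.I).neg
  have := (hcc.integral_hasStrictDerivAt 0 t).hasDerivAt
  simpa using this.const_add (u i)

end Pool.Agent.Work.MP_5698f2_an

end

section

/-!
# MP_5698f2_an: variable coefficient Gronwall inequality and the Liouville-Green energy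
-/

open MeasureTheory Filter Topology Set
open scoped ContDiff InnerProductSpace

namespace Pool.Agent.Work.MP_5698f2_an

/-- Forward Gronwall inequality with variable coefficients. -/
theorem gronwall_fwd {E E' P p Q q : ℝ → ℝ} {a b : ℝ}
    (hE : ∀ x ∈ Icc a b, HasDerivAt E (E' x) x) (hP : ∀ x ∈ Icc a b, HasDerivAt P (p x) x)
    (hQ : ∀ x ∈ Icc a b, HasDerivAt Q (q x) x) (hp : ∀ x ∈ Icc a b, 0 ≤ p x)
    (hq : ∀ x ∈ Icc a b, 0 ≤ q x)
    (h : ∀ x ∈ Icc a b, E' x ≤ p x * E x + q x) {x y : ℝ} (hx : x ∈ Icc a b)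
    (hy : y ∈ Icc a b) (hxy : x ≤ y) :
    E y ≤ Real.exp (P y - P x) * (E x + (Q y - Q x)) := by
  have hsub : Icc x y ⊆ Icc a b := Icc_subset_Icc hx.1 hy.2
  have hPm : MonotoneOn P (Icc x y) := by
    refine monotoneOn_of_deriv_nonneg (convex_Icc x y)
      (fun t ht => (hP t (hsub ht)).continuousAt.continuousWithinAt) ?_ ?_
    · intro t ht
      rw [interior_Icc] at ht
      exact (hP t (hsub (Ioo_subset_Icc_self ht))).differentiableAt.differentiableWithinAt
    · intro t ht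
      rw [interior_Icc] at ht
      rw [(hP t (hsub (Ioo_subset_Icc_self ht))).deriv]
      exact hp t (hsub (Ioo_subset_Icc_self ht))
  have hd : ∀ t ∈ Icc x y, HasDerivAt
      (fun t => Real.exp (-P t) * E t - Real.exp (-P x) * Q t)
      (Real.exp (-P t) * (-p t) * E t + Real.exp (-P t) * E' t - Real.exp (-P x) * q t) t := by
    intro t ht
    have ht' := hsub ht
    exact (((hP t ht').neg.exp).mul (hE t ht')).sub ((hQ t ht').const_mul _)
  have hanti : AntitoneOn (fun t => Real.exp (-P t) * E t - Real.exp (-P x) * Q t)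
      (Icc x y) := by
    refine antitoneOn_of_deriv_nonpos (convex_Icc x y)
      (fun t ht => (hd t ht).continuousAt.continuousWithinAt) ?_ ?_
    · intro t ht
      rw [interior_Icc] at ht
      exact (hd t (Ioo_subset_Icc_self ht)).differentiableAt.differentiableWithinAt
    · intro t ht
      rw [interior_Icc] at ht
      have ht2 := Ioo_subset_Icc_self ht
      rw [(hd t ht2).deriv]
      have h1 := h t (hsub ht2)
      have h2 := hq t (hsub ht2)
      have h3 : Real.exp (-P t) ≤ Real.exp (-P x) :=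
        Real.exp_le_exp.mpr (neg_le_neg (hPm (left_mem_Icc.mpr hxy) ht2 ht.1.le))
      have h4 := Real.exp_pos (-P t)
      nlinarith [mul_le_mul_of_nonneg_left h1 h4.le, mul_le_mul_of_nonneg_right h3 h2]
  have key := hanti (left_mem_Icc.mpr hxy) (right_mem_Icc.mpr hxy) hxy
  simp only at key
  have e1 : Real.exp (P y - P x) = Real.exp (P y) * Real.exp (-P x) := by
    rw [← Real.exp_add]; ring_nf
  have e2 : Real.exp (P y) * Real.exp (-P y) = 1 := by
    rw [← Real.exp_add]; simp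
  have h5 := mul_le_mul_of_nonneg_left key (Real.exp_pos (P y)).le
  have h6 : Real.exp (P y) * Real.exp (-P y) * E y = E y := by rw [e2, one_mul]
  rw [e1]
  linarith [h5, h6]

/-- Backward Gronwall inequality with variable coefficients. -/
theorem gronwall_bwd {E E' P p Q q : ℝ → ℝ} {a b : ℝ}
    (hE : ∀ x ∈ Icc a b, HasDerivAt E (E' x) x) (hP : ∀ x ∈ Icc a b, HasDerivAt P (p x) x)
    (hQ : ∀ x ∈ Icc a b, HasDerivAt Q (q x) x) (hp : ∀ x ∈ Icc a b, 0 ≤ p x)
    (hq : ∀ x ∈ Icc a b, 0 ≤ q x)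
    (h : ∀ x ∈ Icc a b, -(p x * E x + q x) ≤ E' x) {x y : ℝ} (hx : x ∈ Icc a b)
    (hy : y ∈ Icc a b) (hxy : x ≤ y) :
    E x ≤ Real.exp (P y - P x) * (E y + (Q y - Q x)) := by
  have hsub : Icc x y ⊆ Icc a b := Icc_subset_Icc hx.1 hy.2
  have hPm : MonotoneOn P (Icc x y) := by
    refine monotoneOn_of_deriv_nonneg (convex_Icc x y)
      (fun t ht => (hP t (hsub ht)).continuousAt.continuousWithinAt) ?_ ?_
    · intro t ht
      rw [interior_Icc] at ht
      exact (hP t (hsub (Ioo_subset_Icc_self ht))).differentiableAt.differentiableWithinAt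
    · intro t ht
      rw [interior_Icc] at ht
      rw [(hP t (hsub (Ioo_subset_Icc_self ht))).deriv]
      exact hp t (hsub (Ioo_subset_Icc_self ht))
  have hd : ∀ t ∈ Icc x y, HasDerivAt
      (fun t => Real.exp (P t) * E t + Real.exp (P y) * Q t)
      (Real.exp (P t) * (p t) * E t + Real.exp (P t) * E' t + Real.exp (P y) * q t) t := by
    intro t ht
    have ht' := hsub ht
    exact (((hP t ht').exp).mul (hE t ht')).add ((hQ t ht').const_mul _)
  have hmono : MonotoneOn (fun t => Real.exp (P t) * E t + Real.exp (P y) * Q t)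
      (Icc x y) := by
    refine monotoneOn_of_deriv_nonneg (convex_Icc x y)
      (fun t ht => (hd t ht).continuousAt.continuousWithinAt) ?_ ?_
    · intro t ht
      rw [interior_Icc] at ht
      exact (hd t (Ioo_subset_Icc_self ht)).differentiableAt.differentiableWithinAt
    · intro t ht
      rw [interior_Icc] at ht
      have ht2 := Ioo_subset_Icc_self ht
      rw [(hd t ht2).deriv]
      have h1 := h t (hsub ht2)
      have h2 := hq t (hsub ht2)
      have h3 : Real.exp (P t) ≤ Real.exp (P y) :=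
        Real.exp_le_exp.mpr (hPm ht2 (right_mem_Icc.mpr hxy) ht.2.le)
      have h4 := Real.exp_pos (P t)
      nlinarith [mul_le_mul_of_nonneg_left h1 h4.le, mul_le_mul_of_nonneg_right h3 h2]
  have key := hmono (left_mem_Icc.mpr hxy) (right_mem_Icc.mpr hxy) hxy
  simp only at key
  have e1 : Real.exp (P y - P x) = Real.exp (P y) * Real.exp (-P x) := by
    rw [← Real.exp_add]; ring_nf
  have e2 : Real.exp (P x) * Real.exp (-P x) = 1 := by
    rw [← Real.exp_add]; simp
  have h5 := mul_le_mul_of_nonneg_left key (Real.exp_pos (-P x)).le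
  have h6 : Real.exp (P x) * Real.exp (-P x) * E x = E x := by rw [e2, one_mul]
  rw [e1]
  linarith [h5, h6]

/-- Two sided Gronwall inequality with variable coefficients. -/
theorem gronwall_var {E E' P p Q q : ℝ → ℝ} {a b : ℝ}
    (hE : ∀ x ∈ Icc a b, HasDerivAt E (E' x) x) (hP : ∀ x ∈ Icc a b, HasDerivAt P (p x) x)
    (hQ : ∀ x ∈ Icc a b, HasDerivAt Q (q x) x) (hp : ∀ x ∈ Icc a b, 0 ≤ p x)
    (hq : ∀ x ∈ Icc a b, 0 ≤ q x) (_hE0 : ∀ x ∈ Icc a b, 0 ≤ E x)
    (h : ∀ x ∈ Icc a b, |E' x| ≤ p x * E x + q x) {x y : ℝ} (hx : x ∈ Icc a b)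
    (hy : y ∈ Icc a b) (hxy : x ≤ y) :
    E x ≤ Real.exp (P y - P x) * (E y + (Q y - Q x)) ∧
      E y ≤ Real.exp (P y - P x) * (E x + (Q y - Q x)) :=
  ⟨gronwall_bwd hE hP hQ hp hq (fun t ht => (abs_le.mp (h t ht)).1) hx hy hxy,
   gronwall_fwd hE hP hQ hp hq (fun t ht => (abs_le.mp (h t ht)).2) hx hy hxy⟩

/-- Derivative of the Liouville-Green energy. -/
theorem lg_energy {u v h m m' m'' : ℝ → ℝ} {Om x : ℝ} (hu : HasDerivAt u (v x) x)
    (hv : HasDerivAt v (-Om * u x + h x) x) (hm : HasDerivAt m (m' x) x)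
    (hm' : HasDerivAt m' (m'' x) x) (hm0 : 0 < m x) :
    HasDerivAt (fun y => (u y / m y) ^ 2 + (m y * v y - m' y * u y) ^ 2)
      (2 * (m x * v x - m' x * u x) *
        ((u x / m x) * (1 / m x ^ 2 - m x ^ 2 * Om - m x * m'' x) + m x * h x)) x := by
  have h1 := (hu.div hm hm0.ne').pow 2
  have h2 := ((hm.mul hv).sub (hm'.mul hu)).pow 2
  have h3 := h1.add h2
  have e : (2 * (m x * v x - m' x * u x) *
        ((u x / m x) * (1 / m x ^ 2 - m x ^ 2 * Om - m x * m'' x) + m x * h x)) =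
      (((2 : ℕ) : ℝ) * (u / m) x ^ (2 - 1) * ((v x * m x - u x * m' x) / m x ^ 2)) +
      (((2 : ℕ) : ℝ) * ((m * v) - (m' * u)) x ^ (2 - 1) *
        (m' x * v x + m x * (-Om * u x + h x) - (m'' x * u x + m' x * v x))) := by
    have hm1 : m x ≠ 0 := hm0.ne'
    simp only [Pi.div_apply, Pi.sub_apply, Pi.mul_apply, show (2 - 1 : ℕ) = 1 from rfl, pow_one]
    push_cast
    field_simp
    ring
  rw [e]
  exact h3

/-- The multiplier `g ^ (-1/4)` and its derivatives. -/
theorem lg_quarter {g g' g'' : ℝ → ℝ} {x : ℝ} (hg : HasDerivAt g (g' x) x)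
    (hg' : HasDerivAt g' (g'' x) x) (h0 : 0 < g x) :
    HasDerivAt (fun y => g y ^ (-(1/4) : ℝ)) (-(1/4) * g' x * g x ^ (-(5/4) : ℝ)) x ∧
    HasDerivAt (fun y => -(1/4) * g' y * g y ^ (-(5/4) : ℝ))
      (-(1/4) * g'' x * g x ^ (-(5/4) : ℝ) + (5/16) * g' x ^ 2 * g x ^ (-(9/4) : ℝ)) x := by
  constructor
  · have h1 := hg.rpow_const (p := (-(1/4) : ℝ)) (Or.inl h0.ne')
    have e : -(1/4) * g' x * g x ^ (-(5/4) : ℝ) =
        g' x * (-(1/4) : ℝ) * g x ^ ((-(1/4) : ℝ) - 1) := by
      rw [show ((-(1/4) : ℝ) - 1) = -(5/4) by norm_num]; ring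
    rw [e]; exact h1
  · have h1 := hg.rpow_const (p := (-(5/4) : ℝ)) (Or.inl h0.ne')
    have h2 := (hg'.const_mul (-(1/4) : ℝ)).mul h1
    have e : (-(1/4) * g'' x * g x ^ (-(5/4) : ℝ) + (5/16) * g' x ^ 2 * g x ^ (-(9/4) : ℝ)) =
        (-(1/4) : ℝ) * g'' x * g x ^ (-(5/4) : ℝ) +
        (-(1/4) : ℝ) * g' x * (g' x * (-(5/4) : ℝ) * g x ^ ((-(5/4) : ℝ) - 1)) := by
      rw [show ((-(5/4) : ℝ) - 1) = -(9/4) by norm_num]; ring
    rw [e]; exact h2

end Pool.Agent.Work.MP_5698f2_an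

end

section

/-!
# MP_5698f2_an: nonstationary phase with parameters
-/

open MeasureTheory Filter Topology Set
open scoped ContDiff InnerProductSpace

namespace Pool.Agent.Work.MP_5698f2_an

theorem integrable_of_zero_off {n : ℕ} {K : Set (Sp n)} (hK : IsCompact K) {F : Sp n → ℂ}
    (hF : ContinuousOn F K) (h0 : ∀ x, x ∉ K → F x = 0) : Integrable F :=
  (hF.integrableOn_compact hK).integrable_of_forall_notMem_eq_zero h0

/-- One integration by parts for a function vanishing off the compact set `K`. -/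
theorem ibp_off {n : ℕ} {K : Set (Sp n)} (hK : IsCompact K) {f E : Sp n → ℂ}
    {f' E' : Sp n → (Sp n →L[ℝ] ℂ)} (hf : ∀ x, HasFDerivAt f (f' x) x)
    (hf0 : ∀ x, x ∉ K → f x = 0) (hf0' : ∀ x, x ∉ K → f' x = 0)
    (hfc : ContinuousOn f' K) (hE : ∀ x ∈ K, HasFDerivAt E (E' x) x)
    (hEc : ContinuousOn E' K) (v : Sp n) :
    ∫ x, f x * E' x v = - ∫ x, f' x v * E x := by
  have hEK : ContinuousOn E K := fun x hx => (hE x hx).continuousAt.continuousWithinAt
  have hfK : ContinuousOn f K := fun x _ => (hf x).continuousAt.continuousWithinAt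
  have hsup : tsupport f ⊆ K := by
    refine closure_minimal ?_ hK.isClosed
    intro x hx
    by_contra h
    exact hx (hf0 x h)
  have := integral_bilinear_hasFDerivAt_right_eq_neg_left_of_integrable
    (μ := (volume : Measure (Sp n))) (f := f) (f' := f') (g := E) (g' := E') (v := v)
    (B := ContinuousLinearMap.mul ℝ ℂ)
    (by
      refine integrable_of_zero_off hK ?_ ?_
      · simp only [ContinuousLinearMap.mul_apply']
        exact (hfc.clm_apply continuousOn_const).mul hEK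
      · intro x hx
        simp [hf0' x hx])
    (by
      refine integrable_of_zero_off hK ?_ ?_
      · simp only [ContinuousLinearMap.mul_apply']
        exact hfK.mul (hEc.clm_apply continuousOn_const)
      · intro x hx
        simp [hf0 x hx])
    (by
      refine integrable_of_zero_off hK ?_ ?_
      · simp only [ContinuousLinearMap.mul_apply']
        exact hfK.mul hEK
      · intro x hx
        simp [hf0 x hx])
    (fun x _ => hf x) (fun x hx => hE x (hsup hx))
  simpa using this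

theorem nonstat_aux {n m : ℕ} {b : Sp n → Sp m → Sp n} {K : Set (Sp n)} {Q : Set (Sp m)}
    (hK : IsCompact K) (hQ : IsCompact Q) {O : Set (Sp n × Sp m)} (hO : IsOpen O)
    (hKQ : K ×ˢ Q ⊆ O) (hb : ContDiffOn ℝ ∞ (fun z : Sp n × Sp m => b z.1 z.2) O)
    (hb0 : ∀ z ∈ O, b z.1 z.2 ≠ 0) (M : ℕ) :
    ∀ c : Sp n × Sp m → ℂ, ContDiffOn ℝ ∞ c O → (∀ z : Sp n × Sp m, z.1 ∉ K → c z = 0) →
    ∃ C : ℝ, ∀ p ∈ Q, ∀ r : ℝ, 1 ≤ r → ∀ E : Sp n → ℂ, (∀ x, ‖E x‖ ≤ 1) →
      (∀ x ∈ K, HasFDerivAt E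
        ((Complex.I * r * E x) • (Complex.ofRealCLM.comp (innerSL ℝ (b x p)))) x) →
      ‖∫ x, c (x, p) * E x‖ ≤ C * r ^ (-(M : ℝ)) := by
  induction M with
  | zero =>
    intro c hc hc0
    obtain ⟨C0, hC0⟩ : ∃ C0, ∀ z ∈ K ×ˢ Q, ‖c z‖ ≤ C0 :=
      (hK.prod hQ).exists_bound_of_continuousOn (hc.continuousOn.mono hKQ)
    refine ⟨max C0 0 * volume.real K, ?_⟩
    intro p hp r hr E hE1 hE
    have h1 : ∫ x, c (x, p) * E x = ∫ x in K, c (x, p) * E x := by
      refine (setIntegral_eq_integral_of_forall_compl_eq_zero ?_).symm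
      intro x hx
      rw [hc0 (x, p) hx, zero_mul]
    rw [h1]
    have h2 : ‖∫ x in K, c (x, p) * E x‖ ≤ max C0 0 * volume.real K := by
      refine norm_setIntegral_le_of_norm_le_const hK.measure_lt_top ?_
      intro x hx
      rw [norm_mul]
      calc ‖c (x, p)‖ * ‖E x‖ ≤ max C0 0 * 1 := by
            refine mul_le_mul ((hC0 (x, p) ⟨hx, hp⟩).trans (le_max_left _ _)) (hE1 x)
              (norm_nonneg _) (le_max_right _ _)
        _ = max C0 0 := mul_one _
    simpa using h2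
  | succ M ih =>
    intro c hc hc0
    let g : Fin n → Sp n × Sp m → ℂ := fun j z =>
      c z * (((b z.1 z.2 j / ‖b z.1 z.2‖ ^ 2 : ℝ)) : ℂ)
    have hg : ∀ j, ContDiffOn ℝ ∞ (g j) O := by
      intro j
      have h1 : ContDiffOn ℝ ∞ (fun z : Sp n × Sp m => b z.1 z.2 j) O :=
        (EuclideanSpace.proj (𝕜 := ℝ) j).contDiff.comp_contDiffOn hb
      have h2 : ContDiffOn ℝ ∞ (fun z : Sp n × Sp m => ‖b z.1 z.2‖ ^ 2) O := hb.norm_sq ℝ
      have h3 : ContDiffOn ℝ ∞ (fun z : Sp n × Sp m => b z.1 z.2 j / ‖b z.1 z.2‖ ^ 2) O :=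
        h1.div h2 (fun z hz => pow_ne_zero 2 (norm_ne_zero_iff.2 (hb0 z hz)))
      exact hc.mul (Complex.ofRealCLM.contDiff.comp_contDiffOn h3)
    have hg0 : ∀ j, ∀ z : Sp n × Sp m, z.1 ∉ K → g j z = 0 := by
      intro j z hz
      simp only [g, hc0 z hz, zero_mul]
    have hKo : IsOpen {z : Sp n × Sp m | z.1 ∉ K} :=
      hK.isClosed.isOpen_compl.preimage continuous_fst
    have hgz : ∀ j, ∀ z : Sp n × Sp m, z.1 ∉ K → HasFDerivAt (g j)
        (0 : Sp n × Sp m →L[ℝ] ℂ) z := by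
      intro j z hz
      refine (hasFDerivAt_const (0 : ℂ) z).congr_of_eventuallyEq ?_
      filter_upwards [hKo.mem_nhds hz] with w hw
      exact hg0 j w hw
    have hgd : ∀ j, ∀ x : Sp n, ∀ p ∈ Q, HasFDerivAt (g j) (fderiv ℝ (g j) (x, p)) (x, p) := by
      intro j x p hp
      by_cases hx : x ∈ K
      · exact (((hg j).contDiffAt (hO.mem_nhds (hKQ ⟨hx, hp⟩))).differentiableAt
          (by simp)).hasFDerivAt
      · exact (hgz j (x, p) hx).differentiableAt.hasFDerivAt
    have hfd : ∀ j, ContDiffOn ℝ ∞ (fderiv ℝ (g j)) O := by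
      intro j
      exact (hg j).fderiv_of_isOpen hO (by simp)
    let c' : Sp n × Sp m → ℂ := fun z => ∑ j, fderiv ℝ (g j) z (ev j, 0)
    have hc' : ContDiffOn ℝ ∞ c' O := by
      refine ContDiffOn.sum fun j _ => ?_
      exact (hfd j).clm_apply contDiffOn_const
    have hc0' : ∀ z : Sp n × Sp m, z.1 ∉ K → c' z = 0 := by
      intro z hz
      refine Finset.sum_eq_zero fun j _ => ?_
      rw [(hgz j z hz).fderiv]
      simp
    obtain ⟨C, hC⟩ := ih c' hc' hc0'
    refine ⟨C, ?_⟩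
    intro p hp r hr E hE1 hE
    have hr0 : (0 : ℝ) < r := lt_of_lt_of_le one_pos hr
    have hEK : ContinuousOn E K := fun x hx => (hE x hx).continuousAt.continuousWithinAt
    have hpc : Continuous fun x : Sp n => (x, p) := by fun_prop
    have hbK : ContinuousOn (fun x => b x p) K := by
      have := (hb.continuousOn.mono hKQ).comp (f := fun x : Sp n => (x, p)) hpc.continuousOn
        (fun x hx => ⟨hx, hp⟩)
      exact this
    -- integration by parts for each component
    have key : ∀ j, ∫ x, g j (x, p) * ((Complex.I * r * E x) * ((b x p j : ℝ) : ℂ)) =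
        - ∫ x, fderiv ℝ (g j) (x, p) (ev j, 0) * E x := by
      intro j
      have := ibp_off hK (f := fun x => g j (x, p)) (E := E)
        (f' := fun x => (fderiv ℝ (g j) (x, p)).comp (ContinuousLinearMap.inl ℝ (Sp n) (Sp m)))
        (E' := fun x => (Complex.I * r * E x) •
          (Complex.ofRealCLM.comp (innerSL ℝ (b x p))))
        (by
          intro x
          have h0 : HasFDerivAt (fun e : Sp n => (e, p))
              (ContinuousLinearMap.inl ℝ (Sp n) (Sp m)) x := hasFDerivAt_prodMk_left x p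
          exact HasFDerivAt.comp (g := g j) x (hgd j x p hp) h0)
        (fun x hx => hg0 j (x, p) hx)
        (by
          intro x hx
          rw [(hgz j (x, p) hx).fderiv]
          simp)
        (by
          have h1 : ContinuousOn (fun x : Sp n => fderiv ℝ (g j) (x, p)) K :=
            ((hfd j).continuousOn.mono hKQ).comp (f := fun x : Sp n => (x, p))
              hpc.continuousOn (fun x hx => ⟨hx, hp⟩)
          exact h1.clm_comp continuousOn_const)
        hE
        (by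
          refine ContinuousOn.smul (continuousOn_const.mul hEK) ?_
          refine continuousOn_const.clm_comp ?_
          exact (innerSL ℝ (E := Sp n)).continuous.comp_continuousOn hbK)
        (ev j)
      have e1 : ∀ x, ((Complex.I * r * E x) •
          (Complex.ofRealCLM.comp (innerSL ℝ (b x p)))) (ev j) =
          (Complex.I * r * E x) * ((b x p j : ℝ) : ℂ) := by
        intro x
        simp [ev, EuclideanSpace.inner_single_right]
      have e2 : ∀ x, ((fderiv ℝ (g j) (x, p)).comp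
          (ContinuousLinearMap.inl ℝ (Sp n) (Sp m))) (ev j) =
          fderiv ℝ (g j) (x, p) (ev j, 0) := by
        intro x
        simp
      simp only [e1, e2] at this
      exact this
    have hsum : ∫ x, c (x, p) * (Complex.I * r * E x) = - ∫ x, c' (x, p) * E x := by
      have h1 : ∀ x, c (x, p) * (Complex.I * r * E x) =
          ∑ j, g j (x, p) * ((Complex.I * r * E x) * ((b x p j : ℝ) : ℂ)) := by
        intro x
        by_cases hx : x ∈ K
        · have hb1 : b x p ≠ 0 := hb0 (x, p) (hKQ ⟨hx, hp⟩)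
          have hb2 : (∑ j, (b x p j) ^ 2) = ‖b x p‖ ^ 2 := by
            rw [EuclideanSpace.norm_sq_eq]
            refine Finset.sum_congr rfl fun j _ => ?_
            rw [Real.norm_eq_abs, sq_abs]
          have hb3 : ‖b x p‖ ^ 2 ≠ 0 := pow_ne_zero 2 (norm_ne_zero_iff.2 hb1)
          have hb4 : ∑ j, b x p j / ‖b x p‖ ^ 2 * b x p j = 1 := by
            calc ∑ j, b x p j / ‖b x p‖ ^ 2 * b x p j
                = (∑ j, (b x p j) ^ 2) / ‖b x p‖ ^ 2 := by
                  rw [Finset.sum_div]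
                  refine Finset.sum_congr rfl fun j _ => ?_
                  ring
              _ = 1 := by rw [hb2, div_self hb3]
          calc c (x, p) * (Complex.I * r * E x)
              = c (x, p) * (Complex.I * r * E x) *
                ((∑ j, b x p j / ‖b x p‖ ^ 2 * b x p j : ℝ) : ℂ) := by
                rw [hb4]; simp
            _ = ∑ j, g j (x, p) * ((Complex.I * r * E x) * ((b x p j : ℝ) : ℂ)) := by
                rw [Complex.ofReal_sum, Finset.mul_sum]
                refine Finset.sum_congr rfl fun j _ => ?_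
                simp only [g]
                push_cast
                ring
        · simp only [hc0 (x, p) hx, zero_mul, hg0 _ (x, p) hx, Finset.sum_const_zero]
      have hi1 : ∀ j, Integrable fun x =>
          g j (x, p) * ((Complex.I * r * E x) * ((b x p j : ℝ) : ℂ)) := by
        intro j
        refine integrable_of_zero_off hK ?_ ?_
        · have hg1 : ContinuousOn (fun x : Sp n => g j (x, p)) K :=
            ((hg j).continuousOn.mono hKQ).comp (f := fun x : Sp n => (x, p))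
              hpc.continuousOn (fun x hx => ⟨hx, hp⟩)
          have hbj : ContinuousOn (fun x : Sp n => b x p j) K :=
            (EuclideanSpace.proj (𝕜 := ℝ) j).continuous.comp_continuousOn hbK
          exact hg1.mul ((continuousOn_const.mul hEK).mul
            (Complex.continuous_ofReal.comp_continuousOn hbj))
        · intro x hx
          rw [hg0 j (x, p) hx, zero_mul]
      have hi2 : ∀ j, Integrable fun x =>
          fderiv ℝ (g j) (x, p) (ev j, 0) * E x := by
        intro j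
        refine integrable_of_zero_off hK ?_ ?_
        · have h1 : ContinuousOn (fun x : Sp n => fderiv ℝ (g j) (x, p)) K :=
            ((hfd j).continuousOn.mono hKQ).comp (f := fun x : Sp n => (x, p))
              hpc.continuousOn (fun x hx => ⟨hx, hp⟩)
          exact (h1.clm_apply continuousOn_const).mul hEK
        · intro x hx
          rw [(hgz j (x, p) hx).fderiv]
          simp
      calc ∫ x, c (x, p) * (Complex.I * r * E x)
          = ∫ x, ∑ j, g j (x, p) * ((Complex.I * r * E x) * ((b x p j : ℝ) : ℂ)) :=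
            integral_congr_ae (Filter.Eventually.of_forall h1)
        _ = ∑ j, ∫ x, g j (x, p) * ((Complex.I * r * E x) * ((b x p j : ℝ) : ℂ)) :=
            integral_finsetSum _ fun j _ => hi1 j
        _ = ∑ j, - ∫ x, fderiv ℝ (g j) (x, p) (ev j, 0) * E x :=
            Finset.sum_congr rfl fun j _ => key j
        _ = - ∑ j, ∫ x, fderiv ℝ (g j) (x, p) (ev j, 0) * E x := by
            rw [Finset.sum_neg_distrib]
        _ = - ∫ x, ∑ j, fderiv ℝ (g j) (x, p) (ev j, 0) * E x := by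
            rw [integral_finsetSum _ fun j _ => hi2 j]
        _ = - ∫ x, c' (x, p) * E x := by
            simp only [c', Finset.sum_mul]
    have hsum2 : ∫ x, c (x, p) * (Complex.I * r * E x) =
        (Complex.I * r) * ∫ x, c (x, p) * E x := by
      rw [← integral_const_mul]
      refine integral_congr_ae (Filter.Eventually.of_forall fun x => ?_)
      simp only
      ring
    have hn : r * ‖∫ x, c (x, p) * E x‖ = ‖∫ x, c' (x, p) * E x‖ := by
      have := congrArg norm (hsum2.symm.trans hsum)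
      rw [norm_mul, norm_mul, Complex.norm_I, one_mul, norm_neg, Complex.norm_real,
        Real.norm_eq_abs, abs_of_pos hr0] at this
      exact this
    have h3 := hC p hp r hr E hE1 hE
    rw [← hn] at h3
    have h4 : (r : ℝ) ^ (-((M + 1 : ℕ) : ℝ)) = r ^ (-(M : ℝ)) / r := by
      rw [Nat.cast_add, Nat.cast_one, neg_add, Real.rpow_add hr0, Real.rpow_neg_one,
        div_eq_mul_inv]
    rw [h4, ← mul_div_assoc, le_div_iff₀ hr0]
    linarith

theorem nonstationary {n m : ℕ} {b : Sp n → Sp m → Sp n} {K : Set (Sp n)} {Q : Set (Sp m)}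
    (hK : IsCompact K) (hQ : IsCompact Q) {O : Set (Sp n × Sp m)} (hO : IsOpen O)
    (hKQ : K ×ˢ Q ⊆ O) (hb : ContDiffOn ℝ ∞ (fun z : Sp n × Sp m => b z.1 z.2) O)
    (hb0 : ∀ x ∈ K, ∀ p ∈ Q, b x p ≠ 0) {c : Sp n → ℂ} (hc : ContDiff ℝ ∞ c)
    (hcK : tsupport c ⊆ K) (M : ℕ) :
    ∃ C : ℝ, ∀ p ∈ Q, ∀ r : ℝ, 1 ≤ r → ∀ E : Sp n → ℂ, (∀ x, ‖E x‖ ≤ 1) →
      (∀ x ∈ K, HasFDerivAt E
        ((Complex.I * r * E x) • (Complex.ofRealCLM.comp (innerSL ℝ (b x p)))) x) →
      ‖∫ x, c x * E x‖ ≤ C * r ^ (-(M : ℝ)) := by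
  have hO' : IsOpen (O ∩ (fun z : Sp n × Sp m => b z.1 z.2) ⁻¹' {0}ᶜ) :=
    hb.continuousOn.isOpen_inter_preimage hO isOpen_compl_singleton
  refine nonstat_aux hK hQ hO' ?_ (hb.mono inter_subset_left) ?_ M (fun z => c z.1) ?_ ?_
  · intro z hz
    exact ⟨hKQ hz, hb0 z.1 hz.1 z.2 hz.2⟩
  · intro z hz
    exact hz.2
  · exact (hc.comp contDiff_fst).contDiffOn
  · intro z hz
    by_contra h
    exact hz (hcK (subset_tsupport _ h))

end Pool.Agent.Work.MP_5698f2_an

end

section

/-!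
# MP_5698f2_an: the radial profile

The counterexample is `A(x) = β(s) I + γ(s) x ⊗ x` on `R^2`, `s = |x|^2/2`.  In terms of
`w = 2 s (β + 2 s γ)` and `V = β/(4 s)` the operator acts on `h(s) e^{ikθ}` as
`-(1/2) (w h')' + k^2 V h`.
-/

open MeasureTheory Filter Topology
open scoped ContDiff InnerProductSpace

namespace Pool.Agent.Work.MP_5698f2_an

/-- A smooth function with `G q = q` for `q ≤ 1/9` and `G q = 1/2` for `q ≥ 4/9`. -/
noncomputable def G (q : ℝ) : ℝ := q + Real.smoothTransition (3 * q - 1 / 3) * (1 / 2 - q)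

/-- The length `L = 2000`. -/
noncomputable def Lc : ℝ := 2000

/-- The potential on the core: tops (value `1`) at `0`, `L` (sharp) and `2L`, wells of height
`1/2` between them, symmetric about `L`. -/
noncomputable def U0 (z : ℝ) : ℝ :=
  2 - G ((z / Lc) ^ 2) - G ((z - Lc) ^ 2) - G (((z - 2 * Lc) / Lc) ^ 2)

/-- Position of the inner top (`s`-coordinate). -/
noncomputable def sA : ℝ := 3 + Lc

/-- Position of the outer top (`s`-coordinate). -/
noncomputable def sB : ℝ := 3 + 2 * Lc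

/-- Cutoff: `1` on `[2, 2L+4]`, `0` outside `[1, 2L+5]`. -/
noncomputable def cutR (s : ℝ) : ℝ :=
  Real.smoothTransition (s - 1) * Real.smoothTransition (2 * Lc + 5 - s)

/-- The angular coefficient `V(s)`. -/
noncomputable def Vf (s : ℝ) : ℝ := (1 - cutR s) / (4 * s) + cutR s * U0 (s - 3)

/-- The radial coefficient `w(s)`. -/
noncomputable def wf (s : ℝ) : ℝ := (1 - cutR s) * (2 * s) + cutR s

/-- `β(s)`. -/
noncomputable def betaf (s : ℝ) : ℝ := 1 + cutR s * (4 * s * U0 (s - 3) - 1)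

/-- `γ(s)`. -/
noncomputable def gammaf (s : ℝ) : ℝ := cutR s * (1 - 8 * s ^ 2 * U0 (s - 3)) / (4 * s ^ 2)

/-- The coefficient matrix of the counterexample. -/
noncomputable def Amat (x : Sp 2) : Matrix (Fin 2) (Fin 2) ℝ := fun j l =>
  betaf (‖x‖ ^ 2 / 2) * (1 : Matrix (Fin 2) (Fin 2) ℝ) j l + gammaf (‖x‖ ^ 2 / 2) * x j * x l

/-! ## Elementary facts on `G` -/

lemma contDiff_G : ContDiff ℝ ∞ G := by
  unfold G
  have h : ContDiff ℝ ∞ (fun q : ℝ => Real.smoothTransition (3 * q - 1 / 3)) :=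
    Real.smoothTransition.contDiff.comp (by fun_prop)
  exact contDiff_id.add (h.mul (by fun_prop))

lemma G_of_le {q : ℝ} (h : q ≤ 1 / 9) : G q = q := by
  unfold G
  rw [Real.smoothTransition.zero_of_nonpos (by linarith)]; ring

lemma G_of_ge {q : ℝ} (h : 4 / 9 ≤ q) : G q = 1 / 2 := by
  unfold G
  rw [Real.smoothTransition.one_of_one_le (by linarith)]; ring

lemma G_le_half (q : ℝ) : G q ≤ 1 / 2 := by
  rcases le_total (4 / 9) q with h | h
  · rw [G_of_ge h]
  · unfold G
    have := Real.smoothTransition.le_one (3 * q - 1 / 3)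
    nlinarith [Real.smoothTransition.nonneg (3 * q - 1 / 3)]

lemma le_G {q : ℝ} (h : q ≤ 1 / 2) : q ≤ G q := by
  unfold G
  nlinarith [Real.smoothTransition.nonneg (3 * q - 1 / 3)]

lemma G_nonneg {q : ℝ} (h : 0 ≤ q) : 0 ≤ G q := by
  rcases le_total q (1 / 2) with h' | h'
  · exact h.trans (le_G h')
  · rw [G_of_ge (by linarith)]; norm_num

lemma G_le {q : ℝ} (h : 0 ≤ q) : G q ≤ 5 * q := by
  rcases le_total q (1 / 9) with h' | h'
  · rw [G_of_le h']; linarith
  · have := G_le_half q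
    linarith

lemma G_mono : Monotone G := by
  -- on `q ≤ 4/9` product rule; afterwards constant
  intro a b hab
  rcases le_total b (4 / 9) with hb | hb
  · unfold G
    have h1 := Real.smoothTransition.monotone (by linarith : 3 * a - 1 / 3 ≤ 3 * b - 1 / 3)
    have h2 := Real.smoothTransition.le_one (3 * b - 1 / 3)
    have h3 := Real.smoothTransition.nonneg (3 * a - 1 / 3)
    nlinarith
  · rw [G_of_ge hb]; exact G_le_half a

lemma G_zero : G 0 = 0 := G_of_le (by norm_num)

end Pool.Agent.Work.MP_5698f2_an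

end

section

/-!
# MP_5698f2_an: the resolvent of the Friedrichs extension

A form completion argument gives a bounded self-adjoint `R` on `L^2(R^n)` with
`R (u + P u) = u` on test functions, where `P = -(1/2) div (A grad)`.
-/

open MeasureTheory Filter Topology Set
open scoped ContDiff InnerProductSpace ComplexConjugate

namespace Pool.Agent.Work.MP_5698f2_an

section Abstract

/-- The pre-inner product `<u,w> + <P u, w>` on the form domain. -/
@[instance_reducible]
noncomputable def formCore {H : Type*} [NormedAddCommGroup H] [InnerProductSpace ℂ H]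
    {V : Type*} [AddCommGroup V] [Module ℂ V] (ι P : V →ₗ[ℂ] H)
    (hsym : ∀ u w, ⟪P u, ι w⟫_ℂ = ⟪ι u, P w⟫_ℂ)
    (hpos : ∀ u, 0 ≤ (⟪P u, ι u⟫_ℂ).re) : PreInnerProductSpace.Core ℂ V where
  inner u w := ⟪ι u + P u, ι w⟫_ℂ
  conj_inner_symm u w := by
    simp only [inner_conj_symm]
    rw [inner_add_right, inner_add_left, hsym]
  re_inner_nonneg u := by
    rw [inner_add_left, map_add]
    have h1 : 0 ≤ RCLike.re ⟪ι u, ι u⟫_ℂ := inner_self_nonneg
    have h2 := hpos u
    exact add_nonneg h1 h2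
  add_left u v w := by
    simp only [map_add, inner_add_left]
    ring
  smul_left u w r := by
    simp only [map_smul, inner_add_left, inner_smul_left]
    ring

/-- The Friedrichs construction: a nonnegative symmetric operator `P` given on a form domain
has a bounded self-adjoint `R` with `R (u + P u) = u`. -/
theorem friedrichs_abstract {H : Type*} [NormedAddCommGroup H] [InnerProductSpace ℂ H]
    [CompleteSpace H] {V : Type*} [AddCommGroup V] [Module ℂ V] (ι P : V →ₗ[ℂ] H)
    (hsym : ∀ u w, ⟪P u, ι w⟫_ℂ = ⟪ι u, P w⟫_ℂ)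
    (hpos : ∀ u, 0 ≤ (⟪P u, ι u⟫_ℂ).re) :
    ∃ R : H →L[ℂ] H, IsSelfAdjoint R ∧ (∀ f, ‖R f‖ ^ 2 ≤ (⟪R f, f⟫_ℂ).re) ∧
      ∀ u, R (ι u + P u) = ι u := by
  let cd : PreInnerProductSpace.Core ℂ V := formCore ι P hsym hpos
  let _ : SeminormedAddCommGroup V := @InnerProductSpace.Core.toSeminormedAddCommGroup ℂ V _ _ _ cd
  let _ : InnerProductSpace ℂ V := InnerProductSpace.ofCore cd
  have hinner : ∀ u w : V, ⟪u, w⟫_ℂ = ⟪ι u + P u, ι w⟫_ℂ := fun _ _ => rfl
  have hbound : ∀ u : V, ‖ι u‖ ≤ 1 * ‖u‖ := by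
    intro u
    rw [one_mul]
    refine (pow_le_pow_iff_left₀ (norm_nonneg _) (norm_nonneg _) two_ne_zero).1 ?_
    rw [← inner_self_eq_norm_sq (𝕜 := ℂ) u, hinner, inner_add_left, map_add,
      inner_self_eq_norm_sq]
    have := hpos u
    have h2 : (RCLike.re ⟪P u, ι u⟫_ℂ : ℝ) = (⟪P u, ι u⟫_ℂ).re := rfl
    rw [h2]
    linarith
  let ιL : V →L[ℂ] H := ι.mkContinuous 1 hbound
  let e : V →L[ℂ] UniformSpace.Completion V := UniformSpace.Completion.toComplL
  have he_dense : DenseRange e := UniformSpace.Completion.denseRange_coe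
  have he_ind : IsUniformInducing e := UniformSpace.Completion.isUniformInducing_coe V
  let J : UniformSpace.Completion V →L[ℂ] H := ιL.extend e
  have hJ : ∀ u : V, J (u : UniformSpace.Completion V) = ι u := fun u =>
    ContinuousLinearMap.extend_eq ιL he_dense he_ind u
  have hJnorm : ∀ x, ‖J x‖ ≤ ‖x‖ := by
    intro x
    induction x using UniformSpace.Completion.induction_on with
    | hp => exact isClosed_le (by fun_prop) (by fun_prop)
    | ih u =>
      rw [hJ, UniformSpace.Completion.norm_coe]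
      simpa using hbound u
  refine ⟨J ∘L (ContinuousLinearMap.adjoint J), ?_, ?_, ?_⟩
  · rw [ContinuousLinearMap.isSelfAdjoint_iff', ContinuousLinearMap.adjoint_comp,
      ContinuousLinearMap.adjoint_adjoint]
  · intro f
    have h1 : ‖J (ContinuousLinearMap.adjoint J f)‖ ≤ ‖ContinuousLinearMap.adjoint J f‖ :=
      hJnorm _
    have h2 : (⟪J (ContinuousLinearMap.adjoint J f), f⟫_ℂ).re =
        ‖ContinuousLinearMap.adjoint J f‖ ^ 2 := by
      rw [← ContinuousLinearMap.adjoint_inner_right, ← inner_self_eq_norm_sq (𝕜 := ℂ)]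
      rfl
    rw [ContinuousLinearMap.comp_apply, h2]
    exact pow_le_pow_left₀ (norm_nonneg _) h1 2
  · intro u
    have key : ContinuousLinearMap.adjoint J (ι u + P u) = (u : UniformSpace.Completion V) := by
      refine ext_inner_right ℂ fun x => ?_
      induction x using UniformSpace.Completion.induction_on with
      | hp => exact isClosed_eq (by fun_prop) (by fun_prop)
      | ih w =>
        rw [ContinuousLinearMap.adjoint_inner_left, hJ, UniformSpace.Completion.inner_coe, hinner]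
    rw [ContinuousLinearMap.comp_apply, key, hJ]

end Abstract

section Test

variable {n : ℕ}

theorem IsTest.memLp {u : Sp n → ℂ} (hu : IsTest u) : MemLp u 2 (volume : Measure (Sp n)) :=
  hu.1.continuous.memLp_of_hasCompactSupport hu.2

theorem IsTest.toL2_eq {u : Sp n → ℂ} (hu : IsTest u) : toL2 u = hu.memLp.toLp u :=
  dif_pos hu.memLp

theorem IsTest.add {u w : Sp n → ℂ} (hu : IsTest u) (hw : IsTest w) : IsTest (u + w) :=
  ⟨hu.1.add hw.1, hu.2.add hw.2⟩

theorem IsTest.smul {u : Sp n → ℂ} (hu : IsTest u) (c : ℂ) : IsTest (c • u) :=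
  ⟨contDiff_const.smul hu.1, hu.2.smul_left (f := fun _ => c)⟩

theorem IsTest.zero : IsTest (0 : Sp n → ℂ) := ⟨contDiff_const, HasCompactSupport.zero⟩

theorem IsTest.mul_left {u a : Sp n → ℂ} (hu : IsTest u) (ha : ContDiff ℝ ∞ a) :
    IsTest (fun x => a x * u x) :=
  ⟨ha.mul hu.1, hu.2.mul_left⟩

theorem IsTest.fderiv_apply {u : Sp n → ℂ} (hu : IsTest u) (v : Sp n) :
    IsTest (fun x => fderiv ℝ u x v) := by
  refine ⟨?_, hu.2.fderiv_apply ℝ v⟩
  exact (hu.1.fderiv_right (m := ∞) (by simp)).clm_apply contDiff_const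

theorem IsTest.sum {ι : Type*} {s : Finset ι} {u : ι → Sp n → ℂ} (hu : ∀ i ∈ s, IsTest (u i)) :
    IsTest (fun x => ∑ i ∈ s, u i x) := by
  classical
  induction s using Finset.induction_on with
  | empty =>
    simp only [Finset.sum_empty]
    exact IsTest.zero
  | insert a s ha ih =>
    have h1 := hu a (Finset.mem_insert_self a s)
    have h2 := ih fun i hi => hu i (Finset.mem_insert_of_mem hi)
    have h3 := h1.add h2
    convert h3 using 1
    funext x
    simp [Finset.sum_insert ha]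

/-- The `j`-th component of the flux `A grad u`. -/
noncomputable def flux (A : Sp n → Matrix (Fin n) (Fin n) ℝ) (u : Sp n → ℂ) (j : Fin n)
    (z : Sp n) : ℂ := ∑ l, (A z j l : ℂ) * fderiv ℝ u z (ev l)

theorem isTest_flux {A : Sp n → Matrix (Fin n) (Fin n) ℝ} (hA : Admissible A) {u : Sp n → ℂ}
    (hu : IsTest u) (j : Fin n) : IsTest (flux A u j) := by
  refine IsTest.sum fun l _ => ?_
  refine (hu.fderiv_apply (ev l)).mul_left ?_
  exact Complex.ofRealCLM.contDiff.comp (hA.smooth j l)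

theorem schrOp_eq (A : Sp n → Matrix (Fin n) (Fin n) ℝ) (u : Sp n → ℂ) (x : Sp n) :
    schrOp A u x = -(1 / 2) * ∑ j, fderiv ℝ (flux A u j) x (ev j) := rfl

theorem isTest_schrOp {A : Sp n → Matrix (Fin n) (Fin n) ℝ} (hA : Admissible A) {u : Sp n → ℂ}
    (hu : IsTest u) : IsTest (schrOp A u) := by
  have h : IsTest (fun x => ∑ j, fderiv ℝ (flux A u j) x (ev j)) :=
    IsTest.sum fun j _ => (isTest_flux hA hu j).fderiv_apply (ev j)
  exact h.mul_left (a := fun _ => -(1 / 2)) contDiff_const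

theorem IsTest.differentiable {u : Sp n → ℂ} (hu : IsTest u) : Differentiable ℝ u :=
  hu.1.differentiable (by simp)

theorem flux_add (A : Sp n → Matrix (Fin n) (Fin n) ℝ) {u w : Sp n → ℂ} (hu : IsTest u)
    (hw : IsTest w) (j : Fin n) : flux A (u + w) j = flux A u j + flux A w j := by
  funext z
  simp only [flux, Pi.add_apply]
  rw [← Finset.sum_add_distrib]
  refine Finset.sum_congr rfl fun l _ => ?_
  rw [fderiv_add (hu.differentiable z) (hw.differentiable z)]
  simp only [add_apply]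
  ring

theorem flux_smul (A : Sp n → Matrix (Fin n) (Fin n) ℝ) {u : Sp n → ℂ} (hu : IsTest u) (c : ℂ)
    (j : Fin n) : flux A (c • u) j = c • flux A u j := by
  funext z
  simp only [flux, Pi.smul_apply, smul_eq_mul, Finset.mul_sum]
  refine Finset.sum_congr rfl fun l _ => ?_
  rw [fderiv_const_smul (hu.differentiable z)]
  simp only [smul_apply, smul_eq_mul]
  ring

theorem schrOp_add {A : Sp n → Matrix (Fin n) (Fin n) ℝ} (hA : Admissible A) {u w : Sp n → ℂ}
    (hu : IsTest u) (hw : IsTest w) : schrOp A (u + w) = schrOp A u + schrOp A w := by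
  funext x
  simp only [schrOp_eq, Pi.add_apply]
  rw [← mul_add, ← Finset.sum_add_distrib]
  congr 1
  refine Finset.sum_congr rfl fun j _ => ?_
  rw [flux_add A hu hw, fderiv_add ((isTest_flux hA hu j).differentiable x)
    ((isTest_flux hA hw j).differentiable x)]
  rfl

theorem schrOp_smul {A : Sp n → Matrix (Fin n) (Fin n) ℝ} (hA : Admissible A) {u : Sp n → ℂ}
    (hu : IsTest u) (c : ℂ) : schrOp A (c • u) = c • schrOp A u := by
  funext x
  simp only [schrOp_eq, Pi.smul_apply, smul_eq_mul, Finset.mul_sum]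
  refine Finset.sum_congr rfl fun j _ => ?_
  rw [flux_smul A hu, fderiv_const_smul ((isTest_flux hA hu j).differentiable x)]
  simp only [smul_apply, smul_eq_mul]
  ring

/-- The space of test functions. -/
def testSub (n : ℕ) : Submodule ℂ (Sp n → ℂ) where
  carrier := {u | IsTest u}
  add_mem' hu hw := IsTest.add hu hw
  zero_mem' := IsTest.zero
  smul_mem' c _ hu := IsTest.smul hu c

theorem toL2_add {u w : Sp n → ℂ} (hu : IsTest u) (hw : IsTest w) :
    toL2 (u + w) = toL2 u + toL2 w := by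
  rw [(hu.add hw).toL2_eq, hu.toL2_eq, hw.toL2_eq]
  exact MemLp.toLp_add hu.memLp hw.memLp

theorem toL2_smul {u : Sp n → ℂ} (hu : IsTest u) (c : ℂ) : toL2 (c • u) = c • toL2 u := by
  rw [(hu.smul c).toL2_eq, hu.toL2_eq]
  exact MemLp.toLp_const_smul c hu.memLp

/-- The inclusion of test functions into `L^2`. -/
noncomputable def inclL2 (n : ℕ) : testSub n →ₗ[ℂ] L2 n where
  toFun u := toL2 (u : Sp n → ℂ)
  map_add' u w := toL2_add u.2 w.2
  map_smul' c u := toL2_smul u.2 c

/-- The operator `P` from test functions to `L^2`. -/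
noncomputable def schrL2 {A : Sp n → Matrix (Fin n) (Fin n) ℝ} (hA : Admissible A) :
    testSub n →ₗ[ℂ] L2 n where
  toFun u := toL2 (schrOp A (u : Sp n → ℂ))
  map_add' u w := by
    rw [Submodule.coe_add, schrOp_add hA u.2 w.2]
    exact toL2_add (isTest_schrOp hA u.2) (isTest_schrOp hA w.2)
  map_smul' c u := by
    rw [Submodule.coe_smul, schrOp_smul hA u.2 c]
    exact toL2_smul (isTest_schrOp hA u.2) c

theorem inner_toL2 {u w : Sp n → ℂ} (hu : IsTest u) (hw : IsTest w) :
    ⟪toL2 u, toL2 w⟫_ℂ = ∫ x, conj (u x) * w x := by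
  rw [hu.toL2_eq, hw.toL2_eq, L2.inner_def]
  refine integral_congr_ae ?_
  filter_upwards [hu.memLp.coeFn_toLp, hw.memLp.coeFn_toLp] with x h1 h2
  rw [h1, h2, RCLike.inner_apply, mul_comm]

theorem IsTest.conj_mul_integrable {u w : Sp n → ℂ} (hu : IsTest u) (hw : IsTest w) :
    Integrable (fun x => conj (u x) * w x) (volume : Measure (Sp n)) := by
  refine Continuous.integrable_of_hasCompactSupport ?_ hw.2.mul_left
  exact (Complex.continuous_conj.comp hu.1.continuous).mul hw.1.continuous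

theorem ibp {g w : Sp n → ℂ} (hg : IsTest g) (hw : IsTest w) (v : Sp n) :
    ∫ x, conj (fderiv ℝ g x v) * w x = -∫ x, conj (g x) * fderiv ℝ w x v := by
  have h := integral_bilinear_fderiv_right_eq_neg_left_of_integrable
    (μ := (volume : Measure (Sp n))) (f := g) (g := w) (v := v)
    (B := (ContinuousLinearMap.mul ℝ ℂ).comp (Complex.conjCLE : ℂ →L[ℝ] ℂ))
    ((hg.fderiv_apply v).conj_mul_integrable hw)
    (hg.conj_mul_integrable (hw.fderiv_apply v))
    (hg.conj_mul_integrable hw) (fun x _ => hg.differentiable x) (fun x _ => hw.differentiable x)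
  have h' : ∫ x, conj (g x) * fderiv ℝ w x v = -∫ x, conj (fderiv ℝ g x v) * w x := h
  rw [h', neg_neg]

/-- The Dirichlet form integrand. -/
noncomputable def dirIntegrand (A : Sp n → Matrix (Fin n) (Fin n) ℝ) (u w : Sp n → ℂ)
    (x : Sp n) : ℂ :=
  ∑ j, ∑ l, (A x j l : ℂ) * (conj (fderiv ℝ u x (ev l)) * fderiv ℝ w x (ev j))

theorem inner_schrOp {A : Sp n → Matrix (Fin n) (Fin n) ℝ} (hA : Admissible A) {u w : Sp n → ℂ}
    (hu : IsTest u) (hw : IsTest w) :
    ⟪toL2 (schrOp A u), toL2 w⟫_ℂ = (1 / 2) * ∫ x, dirIntegrand A u w x := by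
  rw [inner_toL2 (isTest_schrOp hA hu) hw]
  have h1 : ∀ x, conj (schrOp A u x) * w x =
      -(1 / 2) * ∑ j, conj (fderiv ℝ (flux A u j) x (ev j)) * w x := by
    intro x
    rw [schrOp_eq, map_mul, map_sum, ← Finset.sum_mul]
    simp [mul_assoc, map_ofNat]
  have h2 : ∀ x, dirIntegrand A u w x = ∑ j, conj (flux A u j x) * fderiv ℝ w x (ev j) := by
    intro x
    rw [dirIntegrand]
    refine Finset.sum_congr rfl fun j _ => ?_
    rw [flux, map_sum, Finset.sum_mul]
    refine Finset.sum_congr rfl fun l _ => ?_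
    rw [map_mul, Complex.conj_ofReal]
    ring
  simp_rw [h1, h2]
  rw [integral_const_mul, integral_finsetSum _ fun j _ =>
    ((isTest_flux hA hu j).fderiv_apply (ev j)).conj_mul_integrable hw,
    integral_finsetSum _ fun j _ =>
    (isTest_flux hA hu j).conj_mul_integrable (hw.fderiv_apply (ev j))]
  simp_rw [ibp (isTest_flux hA hu _) hw]
  rw [Finset.sum_neg_distrib]
  ring

theorem dirIntegrand_symm {A : Sp n → Matrix (Fin n) (Fin n) ℝ} (hA : Admissible A)
    (u w : Sp n → ℂ) (x : Sp n) : conj (dirIntegrand A w u x) = dirIntegrand A u w x := by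
  rw [dirIntegrand, dirIntegrand, map_sum]
  simp_rw [map_sum, map_mul, Complex.conj_ofReal, Complex.conj_conj]
  rw [Finset.sum_comm]
  refine Finset.sum_congr rfl fun j _ => Finset.sum_congr rfl fun l _ => ?_
  rw [hA.symm x j l]
  ring

theorem dirIntegrand_re_nonneg {A : Sp n → Matrix (Fin n) (Fin n) ℝ} (hA : Admissible A)
    (u : Sp n → ℂ) (x : Sp n) : 0 ≤ (dirIntegrand A u u x).re := by
  obtain ⟨c, hc, hq⟩ := hA.elliptic
  have hq0 : ∀ ξ, 0 ≤ quad A x ξ := fun ξ => le_trans (by positivity) (hq x ξ)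
  have h1 := hq0 (WithLp.toLp 2 fun j => (fderiv ℝ u x (ev j)).re)
  have h2 := hq0 (WithLp.toLp 2 fun j => (fderiv ℝ u x (ev j)).im)
  have h3 : (dirIntegrand A u u x).re =
      quad A x (WithLp.toLp 2 fun j => (fderiv ℝ u x (ev j)).re) +
      quad A x (WithLp.toLp 2 fun j => (fderiv ℝ u x (ev j)).im) := by
    rw [dirIntegrand, quad, quad, ← Finset.sum_add_distrib, Complex.re_sum]
    refine Finset.sum_congr rfl fun j _ => ?_
    rw [← Finset.sum_add_distrib, Complex.re_sum]
    refine Finset.sum_congr rfl fun l _ => ?_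
    simp only [Complex.mul_re, Complex.mul_im, Complex.ofReal_re, Complex.ofReal_im,
      Complex.conj_re, Complex.conj_im]
    ring
  rw [h3]
  exact add_nonneg h1 h2

theorem dense_test {n : ℕ} : Dense {f : L2 n | ∃ u, IsTest u ∧ toL2 u = f} := by
  have h := MeasureTheory.Lp.dense_hasCompactSupport_contDiff (F := ℂ)
    (μ := (volume : Measure (Sp n))) (p := 2) (by simp)
  refine h.mono ?_
  rintro f ⟨g, hfg, hg1, hg2⟩
  have hg : IsTest g := ⟨hg2, hg1⟩
  refine ⟨g, hg, ?_⟩
  rw [hg.toL2_eq]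
  exact Lp.ext (hg.memLp.coeFn_toLp.trans hfg.symm)

theorem exists_resolvent {n : ℕ} {A : Sp n → Matrix (Fin n) (Fin n) ℝ}
    (hA : Admissible A) :
    ∃ R : L2 n →L[ℂ] L2 n, IsSelfAdjoint R ∧ (∀ f, ‖R f‖ ^ 2 ≤ (⟪R f, f⟫_ℂ).re) ∧
      ∀ u : Sp n → ℂ, IsTest u → R (toL2 u + toL2 (schrOp A u)) = toL2 u := by
  have hsym : ∀ u w : testSub n, ⟪schrL2 hA u, inclL2 n w⟫_ℂ = ⟪inclL2 n u, schrL2 hA w⟫_ℂ := by
    intro u w
    change ⟪toL2 (schrOp A (u : Sp n → ℂ)), toL2 (w : Sp n → ℂ)⟫_ℂ =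
      ⟪toL2 (u : Sp n → ℂ), toL2 (schrOp A (w : Sp n → ℂ))⟫_ℂ
    rw [← inner_conj_symm (toL2 (u : Sp n → ℂ)), inner_schrOp hA u.2 w.2,
      inner_schrOp hA w.2 u.2, map_mul, ← integral_conj]
    simp_rw [dirIntegrand_symm hA]
    simp [map_ofNat]
  have hpos : ∀ u : testSub n, 0 ≤ (⟪schrL2 hA u, inclL2 n u⟫_ℂ).re := by
    intro u
    change 0 ≤ (⟪toL2 (schrOp A (u : Sp n → ℂ)), toL2 (u : Sp n → ℂ)⟫_ℂ).re
    rw [inner_schrOp hA u.2 u.2]
    have hreal : ((1 / 2 : ℂ) * ∫ x, dirIntegrand A (u : Sp n → ℂ) u x).re =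
        (1 / 2) * ∫ x, (dirIntegrand A (u : Sp n → ℂ) u x).re := by
      have hint : Integrable (dirIntegrand A (u : Sp n → ℂ) u)
          (volume : Measure (Sp n)) := by
        unfold dirIntegrand
        refine integrable_finsetSum _ fun j _ => integrable_finsetSum _ fun l _ => ?_
        have h4 : IsTest (fun x => (A x j l : ℂ) * fderiv ℝ (u : Sp n → ℂ) x (ev j)) :=
          (IsTest.fderiv_apply u.2 (ev j)).mul_left
            (Complex.ofRealCLM.contDiff.comp (hA.smooth j l))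
        have h5 := (IsTest.fderiv_apply u.2 (ev l)).conj_mul_integrable h4
        refine h5.congr (Filter.Eventually.of_forall fun x => ?_)
        simp only
        ring
      have h6 : (∫ x, dirIntegrand A (u : Sp n → ℂ) u x).re =
          ∫ x, (dirIntegrand A (u : Sp n → ℂ) u x).re := by
        have := integral_re (𝕜 := ℂ) hint
        exact this.symm
      rw [← h6]
      simp [Complex.mul_re]
    rw [hreal]
    exact mul_nonneg (by norm_num) (integral_nonneg fun x => dirIntegrand_re_nonneg hA _ x)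
  obtain ⟨R, h1, h2, h3⟩ := friedrichs_abstract (inclL2 n) (schrL2 hA) hsym hpos
  exact ⟨R, h1, h2, fun u hu => h3 ⟨u, hu⟩⟩

end Test

end Pool.Agent.Work.MP_5698f2_an

end

section

/-!
# Superposition of plane waves: the pairing estimate
-/

open MeasureTheory Filter Topology Set
open scoped ContDiff InnerProductSpace FourierTransform SchwartzMap

namespace Pool.Agent.Work.MP_5698f2_an

variable {n : ℕ}

instance isAddHaar_prod : (volume : Measure (Sp n × Sp n)).IsAddHaarMeasure :=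
  inferInstanceAs ((volume : Measure (Sp n)).prod (volume : Measure (Sp n))).IsAddHaarMeasure

theorem norm_wave (ξ x : Sp n) : ‖wave ξ x‖ = 1 := by
  unfold wave
  rw [mul_comm]
  exact Complex.norm_exp_ofReal_mul_I _

theorem continuous_wave_uncurry : Continuous (fun p : Sp n × Sp n => wave p.1 p.2) := by
  unfold wave
  exact Complex.continuous_exp.comp
    (continuous_const.mul (Complex.continuous_ofReal.comp (continuous_fst.inner continuous_snd)))

theorem continuous_wave_swap :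
    Continuous (fun z : Sp n × Sp n => wave ((2 * Real.pi) • z.2) z.1) := by
  unfold wave
  fun_prop

theorem continuous_wave (ξ : Sp n) : Continuous (wave ξ) :=
  continuous_wave_uncurry.comp (Continuous.prodMk continuous_const continuous_id)

theorem toL2_of {u : Sp n → ℂ} (hu : MemLp u 2 (volume : Measure (Sp n))) :
    toL2 u = hu.toLp u := dif_pos hu

theorem coeFn_toL2 {u : Sp n → ℂ} (hu : MemLp u 2 (volume : Measure (Sp n))) :
    (toL2 u : Sp n → ℂ) =ᵐ[volume] u := by
  rw [toL2_of hu]; exact hu.coeFn_toLp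

theorem memLp_of_cc {u : Sp n → ℂ} (hu : Continuous u) (hc : HasCompactSupport u) :
    MemLp u 2 (volume : Measure (Sp n)) := hu.memLp_of_hasCompactSupport hc

theorem norm_toL2_of_norm_eq {u v : Sp n → ℂ} (hu : MemLp u 2 (volume : Measure (Sp n)))
    (hv : MemLp v 2 (volume : Measure (Sp n))) (h : ∀ x, ‖u x‖ = ‖v x‖) :
    ‖toL2 u‖ = ‖toL2 v‖ := by
  rw [toL2_of hu, toL2_of hv, Lp.norm_toLp, Lp.norm_toLp]
  congr 1
  exact eLpNorm_congr_norm_ae (Eventually.of_forall h)

theorem memLp_conj {u : Sp n → ℂ} (hu : MemLp u 2 (volume : Measure (Sp n))) :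
    MemLp (fun x => (starRingEnd ℂ) (u x)) 2 (volume : Measure (Sp n)) := by
  refine hu.congr_norm (Complex.continuous_conj.comp_aestronglyMeasurable
    hu.aestronglyMeasurable) (Eventually.of_forall fun x => ?_)
  simp

/-- The bilinear pairing with a square integrable function is an inner product. -/
theorem integral_mul_eq_inner {u : Sp n → ℂ} (hu : MemLp u 2 (volume : Measure (Sp n)))
    (f : L2 n) :
    ∫ x, u x * (f : Sp n → ℂ) x = ⟪toL2 (fun x => (starRingEnd ℂ) (u x)), f⟫_ℂ := by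
  rw [L2.inner_def]
  refine integral_congr_ae ?_
  filter_upwards [coeFn_toL2 (memLp_conj hu)] with x hx
  rw [hx, RCLike.inner_apply]
  simp [mul_comm]

theorem integrable_mul_L2 {u : Sp n → ℂ} (hu : MemLp u 2 (volume : Measure (Sp n)))
    (f : L2 n) : Integrable (fun x => u x * (f : Sp n → ℂ) x) (volume : Measure (Sp n)) := by
  have := MemLp.integrable_mul (p := 2) (q := 2) hu (Lp.memLp f)
  exact this

/-- The kernel transform is bounded. -/
theorem norm_kernelFourier_le (T : L2 n →L[ℂ] L2 n) {φ ψ : Sp n → ℂ} (hφ : IsTest φ)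
    (hψ : IsTest ψ) (ξ η : Sp n) :
    ‖kernelFourier T φ ψ ξ η‖ ≤ ‖toL2 φ‖ * ‖T‖ * ‖toL2 ψ‖ := by
  have h1 : MemLp (fun x => φ x * wave (-ξ) x) 2 (volume : Measure (Sp n)) :=
    memLp_of_cc (hφ.1.continuous.mul (continuous_wave _)) hφ.2.mul_right
  have h2 : MemLp (fun x => ψ x * wave η x) 2 (volume : Measure (Sp n)) :=
    memLp_of_cc (hψ.1.continuous.mul (continuous_wave _)) hψ.2.mul_right
  have h3 : MemLp φ 2 (volume : Measure (Sp n)) := memLp_of_cc hφ.1.continuous hφ.2
  have h4 : MemLp ψ 2 (volume : Measure (Sp n)) := memLp_of_cc hψ.1.continuous hψ.2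
  unfold kernelFourier
  rw [integral_mul_eq_inner h1]
  refine (norm_inner_le_norm _ _).trans ?_
  have e1 : ‖toL2 (fun x => (starRingEnd ℂ) (φ x * wave (-ξ) x))‖ = ‖toL2 φ‖ :=
    norm_toL2_of_norm_eq (memLp_conj h1) h3 (fun x => by
      rw [RCLike.norm_conj, norm_mul, norm_wave, mul_one])
  have e2 : ‖toL2 (fun x => ψ x * wave η x)‖ = ‖toL2 ψ‖ :=
    norm_toL2_of_norm_eq h2 h4 (fun x => by rw [norm_mul, norm_wave, mul_one])
  rw [e1, mul_assoc]
  refine mul_le_mul_of_nonneg_left ?_ (norm_nonneg _)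
  refine (T.le_opNorm _).trans (le_of_eq ?_)
  rw [e2]

theorem fourier_eq_wave (a : Sp n → ℂ) (w : Sp n) :
    𝓕 a w = ∫ x, a x * wave (-((2 * Real.pi) • w)) x := by
  rw [Real.fourier_eq']
  refine integral_congr_ae (Eventually.of_forall fun x => ?_)
  simp only [wave, smul_eq_mul]
  rw [mul_comm]
  congr 2
  rw [inner_neg_left, inner_smul_left, real_inner_comm]
  push_cast
  simp
  ring

theorem integrable_fourier {a : Sp n → ℂ} (ha : IsTest a) : Integrable (𝓕 a) := by
  have := (𝓕 (ha.2.toSchwartzMap ha.1)).integrable (μ := (volume : Measure (Sp n)))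
  rw [SchwartzMap.fourier_coe] at this
  exact this

theorem inversion {a : Sp n → ℂ} (ha : IsTest a) (y : Sp n) :
    a y = ∫ w, 𝓕 a w * wave ((2 * Real.pi) • w) y := by
  have h := congrFun (ha.1.continuous.fourierInv_fourier_eq
    (ha.1.continuous.integrable_of_hasCompactSupport ha.2) (integrable_fourier ha)) y
  rw [← h, Real.fourierInv_eq']
  refine integral_congr_ae (Eventually.of_forall fun x => ?_)
  simp only [wave, smul_eq_mul]
  rw [mul_comm]
  congr 2
  rw [inner_smul_left, real_inner_comm]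
  push_cast
  simp
  ring

/-- Superposition, right variable. -/
theorem superpose_right {g a : Sp n → ℂ} (hg : Integrable g) (ha : IsTest a) :
    ∫ y, g y * a y = ∫ w, (∫ x, a x * wave (-((2 * Real.pi) • w)) x) *
      ∫ y, g y * wave ((2 * Real.pi) • w) y := by
  have h1 : ∀ y, g y * a y = ∫ w, g y * (𝓕 a w * wave ((2 * Real.pi) • w) y) := by
    intro y
    rw [integral_const_mul, ← inversion ha y]
  simp_rw [h1]
  rw [integral_integral_swap]
  · refine integral_congr_ae (Eventually.of_forall fun w => ?_)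
    simp only
    rw [← fourier_eq_wave, ← integral_const_mul]
    refine integral_congr_ae (Eventually.of_forall fun y => ?_)
    simp only
    ring
  · have h2 : Integrable (fun z : Sp n × Sp n => g z.1 * 𝓕 a z.2)
        ((volume : Measure (Sp n)).prod volume) := hg.mul_prod (integrable_fourier ha)
    have h3 : Integrable (fun z : Sp n × Sp n => (g z.1 * 𝓕 a z.2) *
        wave ((2 * Real.pi) • z.2) z.1) ((volume : Measure (Sp n)).prod volume) := by
      exact h2.mul_bdd (c := 1) continuous_wave_swap.aestronglyMeasurable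
        (Eventually.of_forall fun z => (norm_wave _ _).le)
    refine h3.congr (Eventually.of_forall fun z => ?_)
    simp only [Function.uncurry]
    ring

/-- Superposition, left variable. -/
theorem superpose_left {g b : Sp n → ℂ} (hg : Integrable g) (hb : IsTest b) :
    ∫ y, g y * b y = ∫ v, (∫ x, b x * wave ((2 * Real.pi) • v) x) *
      ∫ y, g y * wave (-((2 * Real.pi) • v)) y := by
  have key := integral_neg_eq_self (fun v : Sp n => (∫ x, b x * wave ((2 * Real.pi) • v) x) *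
      ∫ y, g y * wave (-((2 * Real.pi) • v)) y) (volume : Measure (Sp n))
  rw [superpose_right hg hb, ← key]
  refine integral_congr_ae (Eventually.of_forall fun w => ?_)
  simp only [smul_neg, neg_neg]

/-- The pairing as a superposition. -/
theorem pairing_eq (T : L2 n →L[ℂ] L2 n) {φ ψ a b : Sp n → ℂ} (hφ : IsTest φ)
    (hψ : IsTest ψ) (ha : IsTest a) (hb : IsTest b) :
    ∫ x, φ x * b x * (T (toL2 fun y => ψ y * a y) : Sp n → ℂ) x =
      ∫ w, (∫ x, a x * wave (-((2 * Real.pi) • w)) x) *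
        ∫ v, (∫ x, b x * wave ((2 * Real.pi) • v) x) *
          kernelFourier T φ ψ ((2 * Real.pi) • v) ((2 * Real.pi) • w) := by
  have hφb : MemLp (fun x => φ x * b x) 2 (volume : Measure (Sp n)) :=
    memLp_of_cc (hφ.1.continuous.mul hb.1.continuous) hφ.2.mul_right
  have hφ2 : MemLp φ 2 (volume : Measure (Sp n)) := memLp_of_cc hφ.1.continuous hφ.2
  have hψ2 : MemLp (fun x => (starRingEnd ℂ) (ψ x)) 2 (volume : Measure (Sp n)) :=
    memLp_conj (memLp_of_cc hψ.1.continuous hψ.2)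
  set g : L2 n := (ContinuousLinearMap.adjoint T) (toL2 fun x => (starRingEnd ℂ) (φ x * b x))
    with hg
  -- the pairing of `T u` with `φ b`, for `u` a test function times `ψ`
  have hpair : ∀ c : Sp n → ℂ, Continuous c →
      ∫ x, φ x * b x * (T (toL2 fun y => ψ y * c y) : Sp n → ℂ) x =
        ∫ y, ((starRingEnd ℂ) ((g : Sp n → ℂ) y) * ψ y) * c y := by
    intro c hc
    have hψc : MemLp (fun x => ψ x * c x) 2 (volume : Measure (Sp n)) :=
      memLp_of_cc (hψ.1.continuous.mul hc) hψ.2.mul_right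
    rw [integral_mul_eq_inner hφb, ← ContinuousLinearMap.adjoint_inner_left, ← hg, L2.inner_def]
    refine integral_congr_ae ?_
    filter_upwards [coeFn_toL2 hψc] with y hy
    rw [hy, RCLike.inner_apply]
    ring
  have hgψ : Integrable (fun y => (starRingEnd ℂ) ((g : Sp n → ℂ) y) * ψ y)
      (volume : Measure (Sp n)) := by
    have h1 : Integrable (fun y => (starRingEnd ℂ) (ψ y) * (g : Sp n → ℂ) y)
      (volume : Measure (Sp n)) := integrable_mul_L2 hψ2 g
    have h2 : Integrable (fun y => (starRingEnd ℂ) ((starRingEnd ℂ) (ψ y) * (g : Sp n → ℂ) y))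
      (volume : Measure (Sp n)) := by
      refine h1.congr' (Complex.continuous_conj.comp_aestronglyMeasurable
        h1.aestronglyMeasurable) (Eventually.of_forall fun x => ?_)
      simp
    refine h2.congr (Eventually.of_forall fun x => ?_)
    simp [mul_comm]
  rw [hpair a ha.1.continuous, superpose_right hgψ ha]
  refine integral_congr_ae (Eventually.of_forall fun w => ?_)
  simp only
  congr 1
  rw [← hpair _ (continuous_wave _)]
  set t : L2 n := T (toL2 fun y => ψ y * wave ((2 * Real.pi) • w) y) with ht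
  have h3 : ∫ x, φ x * b x * (t : Sp n → ℂ) x = ∫ x, (φ x * (t : Sp n → ℂ) x) * b x := by
    refine integral_congr_ae (Eventually.of_forall fun x => ?_)
    simp only
    ring
  rw [h3, superpose_left (integrable_mul_L2 hφ2 t) hb]
  refine integral_congr_ae (Eventually.of_forall fun v => ?_)
  simp only
  congr 1
  unfold kernelFourier
  rw [← ht]
  refine integral_congr_ae (Eventually.of_forall fun x => ?_)
  simp only
  ring

/-- The pairing estimate: a matrix element of `T` between products of test functions is bounded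
by the integral of any integrable majorant of the product of the Fourier transforms. -/
theorem pairing_le (T : L2 n →L[ℂ] L2 n) {φ ψ a b : Sp n → ℂ} (hφ : IsTest φ)
    (hψ : IsTest ψ) (ha : IsTest a) (hb : IsTest b) {M : Sp n × Sp n → ℝ}
    (hM : Integrable M)
    (h : ∀ ξ η : Sp n, ‖∫ x, b x * wave ξ x‖ * ‖∫ x, a x * wave (-η) x‖ *
      ‖kernelFourier T φ ψ ξ η‖ ≤ M (ξ, η)) :
    ‖∫ x, φ x * b x * (T (toL2 fun y => ψ y * a y) : Sp n → ℂ) x‖ ≤ ∫ z, M z := by
  have hpi : (2 * Real.pi) ≠ 0 := by positivity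
  have hM0 : ∀ z, 0 ≤ M z := fun z => le_trans (by positivity) (h z.1 z.2)
  have hMs : Integrable (fun z : Sp n × Sp n => M ((2 * Real.pi) • z)) :=
    hM.comp_smul hpi
  have hMs' : Integrable (fun z : Sp n × Sp n => M ((2 * Real.pi) • z))
    ((volume : Measure (Sp n)).prod volume) := hMs
  rw [pairing_eq T hφ hψ ha hb]
  have h1 : ‖∫ w, (∫ x, a x * wave (-((2 * Real.pi) • w)) x) *
        ∫ v, (∫ x, b x * wave ((2 * Real.pi) • v) x) *
          kernelFourier T φ ψ ((2 * Real.pi) • v) ((2 * Real.pi) • w)‖ ≤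
      ∫ w, ∫ v, M ((2 * Real.pi) • (v, w)) := by
    refine norm_integral_le_of_norm_le hMs'.integral_prod_right ?_
    filter_upwards [hMs'.prod_left_ae] with w hw
    rw [← integral_const_mul]
    refine norm_integral_le_of_norm_le hw (Eventually.of_forall fun v => ?_)
    rw [norm_mul, norm_mul]
    refine le_trans (le_of_eq ?_) (h ((2 * Real.pi) • v) ((2 * Real.pi) • w))
    ring
  have h2 : ∫ w, ∫ v, M ((2 * Real.pi) • ((v, w) : Sp n × Sp n)) =
      ∫ z : Sp n × Sp n, M ((2 * Real.pi) • z) := (integral_prod_symm _ hMs').symm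
  have h3 : ∫ z : Sp n × Sp n, M ((2 * Real.pi) • z) ≤ ∫ z, M z := by
    rw [Measure.integral_comp_smul]
    have h4 : 0 ≤ ∫ z, M z := integral_nonneg hM0
    have h5 : |((2 * Real.pi) ^ Module.finrank ℝ (Sp n × Sp n))⁻¹| ≤ 1 := by
      rw [abs_of_nonneg (by positivity)]
      refine inv_le_one_of_one_le₀ (one_le_pow₀ ?_)
      have := Real.pi_gt_three
      linarith
    calc _ ≤ 1 * ∫ z, M z := mul_le_mul_of_nonneg_right h5 h4
      _ = _ := one_mul _
  exact h1.trans (h2.le.trans h3)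

end Pool.Agent.Work.MP_5698f2_an

end

section

/-!
# MP_5698f2_an: the matrix of the counterexample is admissible
-/

open MeasureTheory Filter Topology Set
open scoped ContDiff InnerProductSpace

namespace Pool.Agent.Work.MP_5698f2_an

lemma cutR_nonneg (s : ℝ) : 0 ≤ cutR s :=
  mul_nonneg (Real.smoothTransition.nonneg _) (Real.smoothTransition.nonneg _)

lemma cutR_le_one (s : ℝ) : cutR s ≤ 1 :=
  mul_le_one₀ (Real.smoothTransition.le_one _) (Real.smoothTransition.nonneg _)
    (Real.smoothTransition.le_one _)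

lemma cutR_of_le {s : ℝ} (h : s ≤ 1) : cutR s = 0 := by
  unfold cutR
  rw [Real.smoothTransition.zero_of_nonpos (by linarith)]; ring

lemma cutR_of_ge {s : ℝ} (h : 2 * Lc + 5 ≤ s) : cutR s = 0 := by
  unfold cutR
  rw [Real.smoothTransition.zero_of_nonpos (x := 2 * Lc + 5 - s) (by linarith)]; ring

lemma cutR_of_mem {s : ℝ} (h : s ∈ Icc 2 (2 * Lc + 4)) : cutR s = 1 := by
  unfold cutR
  rw [Real.smoothTransition.one_of_one_le (by linarith [h.1]),
    Real.smoothTransition.one_of_one_le (by linarith [h.2])]; ring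

lemma contDiff_cutR : ContDiff ℝ ∞ cutR := by
  unfold cutR
  exact (Real.smoothTransition.contDiff.comp (by fun_prop)).mul
    (Real.smoothTransition.contDiff.comp (by fun_prop))

lemma contDiff_U0 : ContDiff ℝ ∞ U0 := by
  unfold U0
  exact ((contDiff_const.sub (contDiff_G.comp (by fun_prop))).sub
    (contDiff_G.comp (by fun_prop))).sub (contDiff_G.comp (by fun_prop))

lemma half_le_U0 (z : ℝ) : 1 / 2 ≤ U0 z := by
  unfold U0
  linarith [G_le_half ((z / Lc) ^ 2), G_le_half ((z - Lc) ^ 2),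
    G_le_half (((z - 2 * Lc) / Lc) ^ 2)]

lemma contDiff_betaf : ContDiff ℝ ∞ betaf := by
  unfold betaf
  have := contDiff_cutR
  have := contDiff_U0
  have h2 : ContDiff ℝ ∞ (fun s : ℝ => U0 (s - 3)) := contDiff_U0.comp (by fun_prop)
  exact contDiff_const.add (contDiff_cutR.mul (((contDiff_const.mul contDiff_id).mul h2).sub
    contDiff_const))

lemma contDiff_gammaf : ContDiff ℝ ∞ gammaf := by
  rw [contDiff_iff_contDiffAt]
  intro s
  rcases lt_or_ge s 1 with hs | hs
  · have : gammaf =ᶠ[𝓝 s] fun _ => 0 := by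
      filter_upwards [Iio_mem_nhds hs] with t ht
      unfold gammaf
      rw [cutR_of_le (le_of_lt ht)]; simp
    exact contDiffAt_const.congr_of_eventuallyEq this
  · unfold gammaf
    have h2 : ContDiff ℝ ∞ (fun s : ℝ => U0 (s - 3)) := contDiff_U0.comp (by fun_prop)
    refine ContDiffAt.div ?_ (by fun_prop) (by positivity)
    refine contDiff_cutR.contDiffAt.mul (contDiffAt_const.sub ?_)
    exact ContDiffAt.mul (by fun_prop) h2.contDiffAt

lemma contDiff_half_sq : ContDiff ℝ ∞ (fun x : Sp 2 => ‖x‖ ^ 2 / 2) :=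
  (contDiff_norm_sq ℝ).div_const _

lemma contDiff_coord (j : Fin 2) : ContDiff ℝ ∞ (fun x : Sp 2 => x j) :=
  (EuclideanSpace.proj (𝕜 := ℝ) j).contDiff

lemma contDiff_Amat (j l : Fin 2) : ContDiff ℝ ∞ (fun x => Amat x j l) := by
  unfold Amat
  exact ((contDiff_betaf.comp contDiff_half_sq).mul contDiff_const).add
    (((contDiff_gammaf.comp contDiff_half_sq).mul (contDiff_coord j)).mul (contDiff_coord l))

lemma Amat_sub_one_of_ge {x : Sp 2} (hx : 2 * Lc + 5 ≤ ‖x‖ ^ 2 / 2) (j l : Fin 2) :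
    Amat x j l - (1 : Matrix (Fin 2) (Fin 2) ℝ) j l = 0 := by
  unfold Amat betaf gammaf
  rw [cutR_of_ge hx]; ring

/-- A smooth function with compact support decays together with all its derivatives. -/
lemma decay_of_compact {f : Sp 2 → ℝ} (hf : ContDiff ℝ ∞ f) (hc : HasCompactSupport f) (m : ℕ) :
    ∃ C : ℝ, ∀ x, ‖iteratedFDeriv ℝ m f x‖ ≤ C * (1 + ‖x‖) ^ (-(1 + 1 + (m : ℝ))) := by
  have h0 : Continuous (iteratedFDeriv ℝ m f) :=
    hf.continuous_iteratedFDeriv (m := m) (by exact_mod_cast le_top)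
  obtain ⟨g, hg⟩ : ∃ g : Sp 2 → ℝ, g = fun x => ‖iteratedFDeriv ℝ m f x‖ := ⟨_, rfl⟩
  have hg1 : Continuous g := by rw [hg]; exact h0.norm
  have hg2 : HasCompactSupport g := by
    rw [hg]; exact (hc.iteratedFDeriv (𝕜 := ℝ) m).norm
  have hg3 : ∀ x, ‖iteratedFDeriv ℝ m f x‖ = g x := fun x => by rw [hg]
  have hw : Continuous (fun x : Sp 2 => (1 + ‖x‖) ^ ((1 + 1 + (m : ℝ)))) :=
    Continuous.rpow_const (by fun_prop) (fun x => Or.inr (by positivity))
  have h1 : Continuous (fun x => (1 + ‖x‖) ^ ((1 + 1 + (m : ℝ))) * g x) := hw.mul hg1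
  have h2 : HasCompactSupport (fun x => (1 + ‖x‖) ^ ((1 + 1 + (m : ℝ))) * g x) :=
    hg2.mul_left
  obtain ⟨C, hC⟩ := h1.bounded_above_of_compact_support h2
  refine ⟨C, fun x => ?_⟩
  have h3 := hC x
  have h4 : (0 : ℝ) < 1 + ‖x‖ := by positivity
  rw [hg3, Real.rpow_neg h4.le, ← div_eq_mul_inv, le_div_iff₀ (Real.rpow_pos_of_pos h4 _),
    mul_comm]
  exact (Real.le_norm_self _).trans h3

lemma beta_ge_one (s : ℝ) : 1 ≤ betaf s := by
  unfold betaf
  rcases le_total s 1 with h | h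
  · rw [cutR_of_le h]; simp
  · have h1 := half_le_U0 (s - 3)
    have h2 : 0 ≤ 4 * s * U0 (s - 3) - 1 := by nlinarith
    linarith [mul_nonneg (cutR_nonneg s) h2]

/-- The radial eigenvalue. -/
lemma radial_eig {s : ℝ} (hs : 0 < s) :
    betaf s + 2 * s * gammaf s = (1 - cutR s) + cutR s / (2 * s) := by
  unfold betaf gammaf
  field_simp
  ring

lemma radial_ge {s : ℝ} (hs : 0 < s) :
    1 / (4 * Lc + 10) ≤ betaf s + 2 * s * gammaf s := by
  rw [radial_eig hs]
  have hL : (0 : ℝ) < 4 * Lc + 10 := by unfold Lc; norm_num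
  rcases le_total (2 * Lc + 5) s with h | h
  · rw [cutR_of_ge h]
    simp only [sub_zero, zero_div, add_zero]
    rw [div_le_one hL]
    unfold Lc; norm_num
  · have h1 : 1 / (4 * Lc + 10) ≤ 1 / (2 * s) := by
      apply one_div_le_one_div_of_le (by positivity)
      linarith
    have h2 : 1 / (4 * Lc + 10) ≤ 1 := by
      rw [div_le_one hL]
      unfold Lc; norm_num
    have h3 := cutR_nonneg s
    have h4 := cutR_le_one s
    have h5 : cutR s / (2 * s) = cutR s * (1 / (2 * s)) := by ring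
    rw [h5]
    nlinarith

lemma norm_sq_two (x : Sp 2) : ‖x‖ ^ 2 = x 0 ^ 2 + x 1 ^ 2 := by
  rw [EuclideanSpace.norm_sq_eq]; simp [Fin.sum_univ_two]

lemma quad_Amat (x ξ : Sp 2) : quad Amat x ξ =
    betaf (‖x‖ ^ 2 / 2) * (ξ 0 ^ 2 + ξ 1 ^ 2) +
      gammaf (‖x‖ ^ 2 / 2) * (x 0 * ξ 0 + x 1 * ξ 1) ^ 2 := by
  unfold quad Amat
  simp [Fin.sum_univ_two]
  ring

theorem admissible_Amat : Admissible Amat := by
  refine ⟨contDiff_Amat, ?_, ?_, ?_⟩
  · intro x j l
    unfold Amat
    rw [Matrix.one_apply, Matrix.one_apply]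
    by_cases h : j = l
    · subst h; rfl
    · rw [if_neg h, if_neg (Ne.symm h)]; ring
  · have hL : (0 : ℝ) < 4 * Lc + 10 := by unfold Lc; norm_num
    have hL1 : 1 / (4 * Lc + 10) ≤ 1 := by
      rw [div_le_one hL]
      unfold Lc; norm_num
    refine ⟨1 / (4 * Lc + 10), by positivity, fun x ξ => ?_⟩
    rw [quad_Amat, norm_sq_two ξ]
    set s := ‖x‖ ^ 2 / 2 with hs
    have h1 := beta_ge_one s
    have hS : x 0 ^ 2 + x 1 ^ 2 = 2 * s := by rw [hs, norm_sq_two x]; ring
    have hnn : 0 ≤ ξ 0 ^ 2 + ξ 1 ^ 2 := by positivity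
    rcases eq_or_lt_of_le (show 0 ≤ s by positivity) with h0 | h0
    · have hx0 : x 0 = 0 := by nlinarith [sq_nonneg (x 0), sq_nonneg (x 1)]
      have hx1 : x 1 = 0 := by nlinarith [sq_nonneg (x 0), sq_nonneg (x 1)]
      rw [hx0, hx1]
      nlinarith
    · have h2 := radial_ge h0
      have h3 : (x 0 * ξ 0 + x 1 * ξ 1) ^ 2 + (x 0 * ξ 1 - x 1 * ξ 0) ^ 2
          = 2 * s * (ξ 0 ^ 2 + ξ 1 ^ 2) := by rw [← hS]; ring
      set p := (x 0 * ξ 0 + x 1 * ξ 1) ^ 2 with hp
      set q := (x 0 * ξ 1 - x 1 * ξ 0) ^ 2 with hq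
      have hp0 : 0 ≤ p := by positivity
      have hq0 : 0 ≤ q := by positivity
      set N := ξ 0 ^ 2 + ξ 1 ^ 2 with hN
      have h4 : 2 * s * (1 / (4 * Lc + 10) * N) ≤ 2 * s * (betaf s * N + gammaf s * p) := by
        have e1 : 2 * s * (1 / (4 * Lc + 10) * N) = 1 / (4 * Lc + 10) * (p + q) := by
          rw [h3]; ring
        have e2 : 2 * s * (betaf s * N + gammaf s * p) =
            betaf s * q + (betaf s + 2 * s * gammaf s) * p := by
          have : betaf s * (2 * s * N) = betaf s * (p + q) := by rw [h3]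
          linear_combination this
        rw [e1, e2]
        nlinarith
      exact le_of_mul_le_mul_left h4 (by positivity)
  · refine ⟨1, one_pos, fun m => ?_⟩
    have key : ∀ j l : Fin 2, ∃ C : ℝ, ∀ x,
        ‖iteratedFDeriv ℝ m (fun z => Amat z j l - (1 : Matrix (Fin 2) (Fin 2) ℝ) j l) x‖
          ≤ C * (1 + ‖x‖) ^ (-(1 + 1 + (m : ℝ))) := by
      intro j l
      refine decay_of_compact ((contDiff_Amat j l).sub contDiff_const) ?_ m
      refine HasCompactSupport.of_support_subset_isCompact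
        (isCompact_closedBall (0 : Sp 2) (2 * (2 * Lc + 5))) ?_
      intro x hx
      rw [Function.mem_support] at hx
      by_contra hx2
      apply hx
      apply Amat_sub_one_of_ge
      rw [mem_closedBall_zero_iff, not_le] at hx2
      have hL : (0 : ℝ) < 2 * Lc + 5 := by unfold Lc; norm_num
      have hL1 : (1 : ℝ) ≤ 2 * Lc + 5 := by unfold Lc; norm_num
      nlinarith
    choose C hC using key
    refine ⟨∑ j, ∑ l, |C j l|, fun j l x => (hC j l x).trans ?_⟩
    have hpos : 0 ≤ (1 + ‖x‖) ^ (-(1 + 1 + (m : ℝ))) := by positivity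
    refine mul_le_mul_of_nonneg_right ?_ hpos
    calc C j l ≤ |C j l| := le_abs_self _
      _ ≤ ∑ l, |C j l| := Finset.single_le_sum (f := fun l => |C j l|)
          (fun _ _ => abs_nonneg _) (Finset.mem_univ l)
      _ ≤ ∑ j, ∑ l, |C j l| := Finset.single_le_sum (f := fun j => ∑ l, |C j l|)
          (fun _ _ => Finset.sum_nonneg fun _ _ => abs_nonneg _) (Finset.mem_univ j)

end Pool.Agent.Work.MP_5698f2_an

end

section

/-!
# MP_5698f2_an: three zones for `u'' = -Om u + h`

The barrier zone (`Om ≤ 0`), the transition zone (`Om` increasing) and the Liouville-Green zone.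
-/

open MeasureTheory Filter Topology Set
open scoped ContDiff InnerProductSpace

namespace Pool.Agent.Work.MP_5698f2_an

/-! ## Primitive of the square of a continuous function -/

lemma hasDerivAt_int_sq {h : ℝ → ℝ} (hh : Continuous h) (a x : ℝ) :
    HasDerivAt (fun y => ∫ t in a..y, h t ^ 2) (h x ^ 2) x :=
  intervalIntegral.integral_hasDerivAt_right ((hh.pow 2).intervalIntegrable _ _)
    ((hh.pow 2).stronglyMeasurableAtFilter _ _) (hh.pow 2).continuousAt

lemma int_sq_mono {h : ℝ → ℝ} (hh : Continuous h) {a b c d : ℝ} (h1 : a ≤ b) (h2 : b ≤ c)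
    (h3 : c ≤ d) : ∫ t in b..c, h t ^ 2 ≤ ∫ t in a..d, h t ^ 2 :=
  intervalIntegral.integral_mono_interval h1 h2 h3
    (Filter.Eventually.of_forall fun t => sq_nonneg (h t)) ((hh.pow 2).intervalIntegrable _ _)

lemma int_sq_nonneg {h : ℝ → ℝ} {a b : ℝ} (h1 : a ≤ b) : 0 ≤ ∫ t in a..b, h t ^ 2 :=
  intervalIntegral.integral_nonneg h1 fun t _ => sq_nonneg (h t)

/-! ## The barrier zone -/

/-- If `Om ≤ 0` on `[0,T]` and `u 0 = 0`, then `u^2 ≤ 8 T |u v|(T) + 16 T^3 ∫ h^2` there. -/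
theorem barrier_zone {u v h Om : ℝ → ℝ} {T : ℝ} (hT : 0 < T) (hh : Continuous h)
    (hOmc : ContinuousOn Om (Icc 0 T)) (hOm : ∀ x ∈ Icc 0 T, Om x ≤ 0)
    (hu : ∀ x ∈ Icc 0 T, HasDerivAt u (v x) x)
    (hv : ∀ x ∈ Icc 0 T, HasDerivAt v (-Om x * u x + h x) x) (h0 : u 0 = 0) :
    ∀ x ∈ Icc 0 T, u x ^ 2 ≤ 8 * T * |u T * v T| + 16 * T ^ 3 * ∫ t in (0 : ℝ)..T, h t ^ 2 := by
  have huc : ContinuousOn u (Icc 0 T) := fun x hx => (hu x hx).continuousAt.continuousWithinAt
  have hvc : ContinuousOn v (Icc 0 T) := fun x hx => (hv x hx).continuousAt.continuousWithinAt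
  -- maximum point of `u^2`
  obtain ⟨x0, hx0, hmax⟩ := isCompact_Icc.exists_isMaxOn (nonempty_Icc.mpr hT.le) (huc.pow 2)
  have hmax' : ∀ x ∈ Icc 0 T, u x ^ 2 ≤ u x0 ^ 2 := fun x hx => hmax hx
  set S := u x0 ^ 2 with hS
  have hS0 : 0 ≤ S := sq_nonneg _
  -- derivative of `u v`
  have huv : ∀ x ∈ Icc 0 T, HasDerivAt (fun y => u y * v y)
      (v x ^ 2 - Om x * u x ^ 2 + u x * h x) x := by
    intro x hx
    exact ((hu x hx).mul (hv x hx)).congr_deriv (by ring)
  have hint0 : ∀ {f : ℝ → ℝ} {a b : ℝ}, ContinuousOn f (Icc 0 T) → a ∈ Icc 0 T → b ∈ Icc 0 T →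
      IntervalIntegrable f volume a b := by
    intro f a b hf ha hb
    refine (hf.mono ?_).intervalIntegrable
    exact (convex_Icc (0 : ℝ) T).ordConnected.uIcc_subset ha hb
  have h0m : (0 : ℝ) ∈ Icc 0 T := left_mem_Icc.mpr hT.le
  have hTm : T ∈ Icc 0 T := right_mem_Icc.mpr hT.le
  have hcv2 : ContinuousOn (fun x => v x ^ 2) (Icc 0 T) := hvc.pow 2
  have hcu2 : ContinuousOn (fun x => u x ^ 2) (Icc 0 T) := huc.pow 2
  have hch2 : ContinuousOn (fun x => h x ^ 2) (Icc 0 T) := (hh.pow 2).continuousOn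
  have hcOm : ContinuousOn (fun x => Om x * u x ^ 2) (Icc 0 T) := hOmc.mul hcu2
  have hcuh : ContinuousOn (fun x => u x * h x) (Icc 0 T) := huc.mul hh.continuousOn
  have hcuv : ContinuousOn (fun x => 2 * (u x * v x)) (Icc 0 T) :=
    continuousOn_const.mul (huc.mul hvc)
  have hcA : ContinuousOn (fun x => v x ^ 2 - Om x * u x ^ 2 + u x * h x) (Icc 0 T) :=
    (hcv2.sub hcOm).add hcuh
  have hcB : ContinuousOn (fun x => S / 8 / T ^ 2 + 2 * T ^ 2 * h x ^ 2) (Icc 0 T) :=
    continuousOn_const.add (continuousOn_const.mul hch2)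
  have hcB' : ContinuousOn (fun x => 2 * T ^ 2 * h x ^ 2) (Icc 0 T) :=
    continuousOn_const.mul hch2
  have hcC : ContinuousOn (fun x => S / 2 / T + 2 * T * v x ^ 2) (Icc 0 T) :=
    continuousOn_const.add (continuousOn_const.mul hcv2)
  have hcC' : ContinuousOn (fun x => 2 * T * v x ^ 2) (Icc 0 T) :=
    continuousOn_const.mul hcv2
  have hftc : ∫ x in (0 : ℝ)..T, (v x ^ 2 - Om x * u x ^ 2 + u x * h x) = u T * v T := by
    rw [intervalIntegral.integral_eq_sub_of_hasDerivAt (f := fun y => u y * v y)]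
    · simp [h0]
    · intro x hx
      rw [uIcc_of_le hT.le] at hx
      exact huv x hx
    · exact hint0 ((hcv2.sub hcOm).add hcuh) h0m hTm
  -- `∫ v^2 ≤ |u v|(T) + (S/(8T)) T + 2 T^... `
  have hTne : T ≠ 0 := hT.ne'
  have hv2 : ∫ x in (0 : ℝ)..T, v x ^ 2 ≤
      |u T * v T| + (S / 8 / T + 2 * T ^ 2 * ∫ t in (0 : ℝ)..T, h t ^ 2) := by
    have h1 : ∫ x in (0 : ℝ)..T, v x ^ 2 ≤
        ∫ x in (0 : ℝ)..T, ((v x ^ 2 - Om x * u x ^ 2 + u x * h x) +
          (S / 8 / T ^ 2 + 2 * T ^ 2 * h x ^ 2)) := by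
      refine intervalIntegral.integral_mono_on hT.le (hint0 hcv2 h0m hTm)
        (hint0 (hcA.add hcB) h0m hTm) ?_
      intro x hx
      have e1 := hmax' x hx
      have e2 := hOm x hx
      have e3 : -(Om x * u x ^ 2) ≥ 0 := by nlinarith [sq_nonneg (u x)]
      have e4 : -(u x * h x) ≤ u x ^ 2 / 8 / T ^ 2 + 2 * T ^ 2 * h x ^ 2 := by
        have : 0 ≤ 8 * T ^ 2 * (u x / (8 * T ^ 2) + 0) ^ 2 := by positivity
        have e5 : 0 ≤ (u x / (T * 4) + 2 * T * h x) ^ 2 := sq_nonneg _
        have e6 : (u x / (T * 4) + 2 * T * h x) ^ 2 =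
            u x ^ 2 / 16 / T ^ 2 + u x * h x + 4 * T ^ 2 * h x ^ 2 := by
          field_simp; ring
        have e7 : 0 ≤ (u x / (T * 2) + T * h x) ^ 2 / 2 := by positivity
        have e8 : (u x / (T * 2) + T * h x) ^ 2 / 2 =
            u x ^ 2 / 8 / T ^ 2 + u x * h x / 2 + T ^ 2 * h x ^ 2 / 2 := by
          field_simp; ring
        have e9 : 0 ≤ u x ^ 2 / 8 / T ^ 2 + u x * h x + 2 * T ^ 2 * h x ^ 2 := by
          have : u x ^ 2 / 8 / T ^ 2 + u x * h x + 2 * T ^ 2 * h x ^ 2 =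
              2 * (u x / (4 * T) + T * h x) ^ 2 := by
            field_simp; ring
          rw [this]; positivity
        linarith
      have e10 : u x ^ 2 / 8 / T ^ 2 ≤ S / 8 / T ^ 2 := by gcongr
      linarith
    rw [intervalIntegral.integral_add (hint0 hcA h0m hTm) (hint0 hcB h0m hTm), hftc,
      intervalIntegral.integral_add (hint0 continuousOn_const h0m hTm)
      (hint0 hcB' h0m hTm), intervalIntegral.integral_const,
      intervalIntegral.integral_const_mul] at h1
    have h2 : (T - 0) • (S / 8 / T ^ 2) = S / 8 / T := by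
      rw [smul_eq_mul]; field_simp; ring
    rw [h2] at h1
    linarith [le_abs_self (u T * v T)]
  -- `S ≤ S/2 + 2 T ∫ v^2`
  have hSle : S ≤ S / 2 + 2 * T * ∫ x in (0 : ℝ)..T, v x ^ 2 := by
    have h1 : ∫ x in (0 : ℝ)..x0, 2 * (u x * v x) = S := by
      rw [intervalIntegral.integral_eq_sub_of_hasDerivAt (f := fun y => u y ^ 2)]
      · simp [h0, hS]
      · intro x hx
        rw [uIcc_of_le hx0.1] at hx
        have hx' : x ∈ Icc 0 T := ⟨hx.1, hx.2.trans hx0.2⟩
        exact ((hu x hx').pow 2).congr_deriv (by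
          simp only [show (2 - 1 : ℕ) = 1 from rfl, pow_one]; push_cast; ring)
      · exact hint0 hcuv h0m hx0
    have h2 : ∫ x in (0 : ℝ)..x0, 2 * (u x * v x) ≤
        ∫ x in (0 : ℝ)..x0, (S / 2 / T + 2 * T * v x ^ 2) := by
      refine intervalIntegral.integral_mono_on hx0.1 (hint0 hcuv h0m hx0)
        (hint0 hcC h0m hx0) ?_
      intro x hx
      have hx' : x ∈ Icc 0 T := ⟨hx.1, hx.2.trans hx0.2⟩
      have e1 := hmax' x hx'
      have e2 : 2 * (u x * v x) ≤ u x ^ 2 / 2 / T + 2 * T * v x ^ 2 := by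
        have : u x ^ 2 / 2 / T + 2 * T * v x ^ 2 - 2 * (u x * v x) =
            (u x - 2 * T * v x) ^ 2 / (2 * T) := by
          field_simp; ring
        have h3 : 0 ≤ (u x - 2 * T * v x) ^ 2 / (2 * T) := by positivity
        linarith
      have e3 : u x ^ 2 / 2 / T ≤ S / 2 / T := by gcongr
      linarith
    have h3 : ∫ x in (0 : ℝ)..x0, (S / 2 / T + 2 * T * v x ^ 2) ≤
        ∫ x in (0 : ℝ)..T, (S / 2 / T + 2 * T * v x ^ 2) := by
      refine intervalIntegral.integral_mono_interval le_rfl hx0.1 hx0.2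
        (Filter.Eventually.of_forall fun t => ?_)
        (hint0 hcC h0m hTm)
      simp only [Pi.zero_apply]
      positivity
    rw [intervalIntegral.integral_add (hint0 continuousOn_const h0m hTm)
      (hint0 hcC' h0m hTm), intervalIntegral.integral_const,
      intervalIntegral.integral_const_mul] at h3
    have h4 : (T - 0) • (S / 2 / T) = S / 2 := by
      rw [smul_eq_mul]; field_simp; ring
    rw [h4] at h3
    linarith
  intro x hx
  refine (hmax' x hx).trans ?_
  have h5 : 2 * T * (∫ x in (0 : ℝ)..T, v x ^ 2) ≤ 2 * T *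
      (|u T * v T| + (S / 8 / T + 2 * T ^ 2 * ∫ t in (0 : ℝ)..T, h t ^ 2)) :=
    mul_le_mul_of_nonneg_left hv2 (by positivity)
  have h6 : 2 * T * (|u T * v T| + (S / 8 / T + 2 * T ^ 2 * ∫ t in (0 : ℝ)..T, h t ^ 2)) =
      2 * T * |u T * v T| + S / 4 + 4 * T ^ 3 * ∫ t in (0 : ℝ)..T, h t ^ 2 := by
    field_simp; ring
  have h7 : 0 ≤ ∫ t in (0 : ℝ)..T, h t ^ 2 := int_sq_nonneg hT.le
  have h8 : 0 ≤ T * |u T * v T| := by positivity
  linarith

/-! ## The transition zone -/

/-- `F = v^2 + Om u^2` with `Om ≥ 0` nondecreasing: backward growth at most `e^{(b-a)/c}`. -/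
theorem transition_zone {u v h Om Om' : ℝ → ℝ} {a b c : ℝ} (hc : 0 < c) (hh : Continuous h)
    (hOm : ∀ x ∈ Icc a b, HasDerivAt Om (Om' x) x) (hOm0 : ∀ x ∈ Icc a b, 0 ≤ Om x)
    (hOm' : ∀ x ∈ Icc a b, 0 ≤ Om' x)
    (hu : ∀ x ∈ Icc a b, HasDerivAt u (v x) x)
    (hv : ∀ x ∈ Icc a b, HasDerivAt v (-Om x * u x + h x) x) :
    ∀ x ∈ Icc a b, v x ^ 2 + Om x * u x ^ 2 ≤
      Real.exp ((b - x) / c) * (v b ^ 2 + Om b * u b ^ 2 + c * ∫ t in x..b, h t ^ 2) := by
  intro x hx
  have hE : ∀ t ∈ Icc a b, HasDerivAt (fun y => v y ^ 2 + Om y * u y ^ 2)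
      (Om' t * u t ^ 2 + 2 * (v t * h t)) t := by
    intro t ht
    exact (((hv t ht).pow 2).add ((hOm t ht).mul ((hu t ht).pow 2))).congr_deriv (by
      simp only [show (2 - 1 : ℕ) = 1 from rfl, pow_one, Pi.pow_apply]; push_cast; ring)
  have hP : ∀ t ∈ Icc a b, HasDerivAt (fun y => y / c) (1 / c) t := fun t _ =>
    (hasDerivAt_id t).div_const c
  have hQ : ∀ t ∈ Icc a b, HasDerivAt (fun y => c * ∫ s in a..y, h s ^ 2) (c * h t ^ 2) t :=
    fun t _ => (hasDerivAt_int_sq hh a t).const_mul c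
  have key := gronwall_bwd hE hP hQ (fun _ _ => by positivity) (fun _ _ => by positivity) ?_
    hx (right_mem_Icc.mpr (hx.1.trans hx.2)) hx.2
  · have e1 : b / c - x / c = (b - x) / c := by ring
    have e2 : c * (∫ s in a..b, h s ^ 2) - c * (∫ s in a..x, h s ^ 2) =
        c * ∫ s in x..b, h s ^ 2 := by
      have hint : ∀ a b : ℝ, IntervalIntegrable (fun t => h t ^ 2) volume a b :=
        fun a b => (hh.pow 2).intervalIntegrable a b
      rw [← mul_sub, intervalIntegral.integral_interval_sub_left (hint _ _) (hint _ _)]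
    rw [e1, e2] at key
    linarith [key]
  · intro t ht
    have e1 : 0 ≤ Om' t * u t ^ 2 := mul_nonneg (hOm' t ht) (sq_nonneg _)
    have e2 : 0 ≤ Om t * u t ^ 2 := mul_nonneg (hOm0 t ht) (sq_nonneg _)
    have e3 : 0 ≤ (v t + c * h t) ^ 2 / c := by positivity
    have e4 : (v t + c * h t) ^ 2 / c = 1 / c * v t ^ 2 + 2 * (v t * h t) + c * h t ^ 2 := by
      field_simp; ring
    have e5 : 0 ≤ 1 / c * (Om t * u t ^ 2) := mul_nonneg (by positivity) e2
    have e6 : 1 / c * (v t ^ 2 + Om t * u t ^ 2) = 1 / c * v t ^ 2 + 1 / c * (Om t * u t ^ 2) := by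
      ring
    rw [e6]
    linarith

/-! ## The Liouville-Green zone -/

/-- Liouville-Green energy with `m = g^(-1/4)`. -/
theorem lg_zone {u v h g g' g'' : ℝ → ℝ} {a b c d : ℝ} (ha : 0 < a) (hc : 0 ≤ c) (hd : 0 ≤ d)
    (hh : Continuous h)
    (hg : ∀ x ∈ Icc a b, HasDerivAt g (g' x) x) (hg' : ∀ x ∈ Icc a b, HasDerivAt g' (g'' x) x)
    (h0 : ∀ x ∈ Icc a b, 0 < g x)
    (hu : ∀ x ∈ Icc a b, HasDerivAt u (v x) x)
    (hv : ∀ x ∈ Icc a b, HasDerivAt v (-g x * u x + h x) x)
    (hmm : ∀ x ∈ Icc a b, |g x ^ (-(1/4) : ℝ) * (-(1/4) * g'' x * g x ^ (-(5/4) : ℝ) +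
      (5/16) * g' x ^ 2 * g x ^ (-(9/4) : ℝ))| ≤ c / x ^ 3)
    (hm2 : ∀ x ∈ Icc a b, (g x ^ (-(1/4) : ℝ)) ^ 2 ≤ d) :
    ∀ x ∈ Icc a b,
      (u x / g x ^ (-(1/4) : ℝ)) ^ 2 +
        (g x ^ (-(1/4) : ℝ) * v x - (-(1/4) * g' x * g x ^ (-(5/4) : ℝ)) * u x) ^ 2 ≤
      Real.exp (c / (2 * a ^ 2) + (b - a)) *
        ((u b / g b ^ (-(1/4) : ℝ)) ^ 2 +
        (g b ^ (-(1/4) : ℝ) * v b - (-(1/4) * g' b * g b ^ (-(5/4) : ℝ)) * u b) ^ 2 +
          d * ∫ t in a..b, h t ^ 2) := by
  intro x hx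
  have hab : a ≤ b := hx.1.trans hx.2
  set m : ℝ → ℝ := fun y => g y ^ (-(1/4) : ℝ) with hm
  set m' : ℝ → ℝ := fun y => -(1/4) * g' y * g y ^ (-(5/4) : ℝ) with hm'
  set m'' : ℝ → ℝ := fun y => -(1/4) * g'' y * g y ^ (-(5/4) : ℝ) +
      (5/16) * g' y ^ 2 * g y ^ (-(9/4) : ℝ) with hm''
  have hmpos : ∀ t ∈ Icc a b, 0 < m t := fun t ht => Real.rpow_pos_of_pos (h0 t ht) _
  have hE : ∀ t ∈ Icc a b, HasDerivAt (fun y => (u y / m y) ^ 2 + (m y * v y - m' y * u y) ^ 2)
      (2 * (m t * v t - m' t * u t) *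
        ((u t / m t) * (1 / m t ^ 2 - m t ^ 2 * g t - m t * m'' t) + m t * h t)) t := by
    intro t ht
    obtain ⟨h1, h2⟩ := lg_quarter (hg t ht) (hg' t ht) (h0 t ht)
    exact lg_energy (hu t ht) (hv t ht) h1 h2 (hmpos t ht)
  have hm4 : ∀ t ∈ Icc a b, 1 / m t ^ 2 - m t ^ 2 * g t = 0 := by
    intro t ht
    have e1 : m t ^ 4 * g t = 1 := by
      simp only [hm]
      rw [← Real.rpow_natCast, ← Real.rpow_mul (h0 t ht).le]
      rw [show (-(1/4) : ℝ) * ((4 : ℕ) : ℝ) = -1 by norm_num]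
      rw [Real.rpow_neg_one, inv_mul_cancel₀ (h0 t ht).ne']
    have e2 := (hmpos t ht).ne'
    field_simp
    linarith
  have hP : ∀ t ∈ Icc a b, HasDerivAt (fun y => -(c / 2) * (y ^ 2)⁻¹ + y) (c / t ^ 3 + 1) t := by
    intro t ht
    have ht0 : t ≠ 0 := (ha.trans_le ht.1).ne'
    have h1 := (((hasDerivAt_pow 2 t).inv (pow_ne_zero 2 ht0)).const_mul (-(c / 2))).add
      (hasDerivAt_id t)
    have e : c / t ^ 3 + 1 = -(c / 2) * (-(((2 : ℕ) : ℝ) * t ^ (2 - 1)) / (t ^ 2) ^ 2) + 1 := by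
      simp only [show (2 - 1 : ℕ) = 1 from rfl, pow_one]
      push_cast
      field_simp
    rw [e]
    exact h1
  have hQ : ∀ t ∈ Icc a b, HasDerivAt (fun y => d * ∫ s in a..y, h s ^ 2) (d * h t ^ 2) t :=
    fun t _ => (hasDerivAt_int_sq hh a t).const_mul d
  have key := gronwall_bwd hE hP hQ
    (fun t ht => by have := (ha.trans_le ht.1); positivity) (fun _ _ => by positivity) ?_
    hx (right_mem_Icc.mpr hab) hx.2
  · refine key.trans ?_
    have e1 : (-(c / 2) * (b ^ 2)⁻¹ + b) - (-(c / 2) * (x ^ 2)⁻¹ + x) ≤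
        c / (2 * a ^ 2) + (b - a) := by
      have e2 : 0 ≤ (c / 2) * (b ^ 2)⁻¹ := by positivity
      have e3 : (c / 2) * (x ^ 2)⁻¹ ≤ c / (2 * a ^ 2) := by
        rw [show c / (2 * a ^ 2) = (c / 2) * (a ^ 2)⁻¹ by field_simp]
        have := hx.1
        gcongr
      linarith [hx.1]
    have e4 : (∫ s in a..a, h s ^ 2) = 0 := intervalIntegral.integral_same
    have e5 : d * (∫ s in a..b, h s ^ 2) - d * (∫ s in a..x, h s ^ 2) ≤
        d * ∫ s in a..b, h s ^ 2 := by
      have : 0 ≤ d * (∫ s in a..x, h s ^ 2) := mul_nonneg hd (int_sq_nonneg hx.1)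
      linarith
    have e6 : 0 ≤ d * (∫ s in a..b, h s ^ 2) - d * (∫ s in a..x, h s ^ 2) := by
      rw [← mul_sub]
      refine mul_nonneg hd (sub_nonneg.mpr ?_)
      exact int_sq_mono hh le_rfl hx.1 hx.2
    have e7 := Real.exp_le_exp.mpr e1
    have e8 : 0 ≤ (u b / m b) ^ 2 + (m b * v b - m' b * u b) ^ 2 := by positivity
    refine mul_le_mul e7 ?_ (by linarith) (Real.exp_pos _).le
    show (u b / m b) ^ 2 + (m b * v b - m' b * u b) ^ 2 + _ ≤
      (u b / m b) ^ 2 + (m b * v b - m' b * u b) ^ 2 + _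
    linarith
  · intro t ht
    have e0 := hm4 t ht
    have e1 := hmm t ht
    have e2 := hm2 t ht
    have e3 : c / t ^ 3 ≥ |m t * m'' t| := e1
    set A := u t / m t
    set B := m t * v t - m' t * u t
    have e4 : A * (1 / m t ^ 2 - m t ^ 2 * g t - m t * m'' t) = -(A * (m t * m'' t)) := by
      rw [e0]; ring
    rw [e4]
    have e5 : 2 * B * (-(A * (m t * m'' t)) + m t * h t) =
        -(2 * A * B * (m t * m'' t)) + 2 * B * (m t * h t) := by ring
    rw [e5]
    have e6 : 2 * A * B * (m t * m'' t) ≤ |m t * m'' t| * (A ^ 2 + B ^ 2) := by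
      have h1 : |2 * A * B| ≤ A ^ 2 + B ^ 2 := by
        rw [abs_le]; constructor <;> nlinarith [sq_nonneg (A + B), sq_nonneg (A - B)]
      calc 2 * A * B * (m t * m'' t) ≤ |2 * A * B * (m t * m'' t)| := le_abs_self _
        _ = |m t * m'' t| * |2 * A * B| := by rw [abs_mul]; ring
        _ ≤ _ := mul_le_mul_of_nonneg_left h1 (abs_nonneg _)
    have e7 : |m t * m'' t| * (A ^ 2 + B ^ 2) ≤ c / t ^ 3 * (A ^ 2 + B ^ 2) :=
      mul_le_mul_of_nonneg_right e3 (by positivity)
    have e8 : -(2 * B * (m t * h t)) ≤ B ^ 2 + m t ^ 2 * h t ^ 2 := by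
      nlinarith [sq_nonneg (B + m t * h t)]
    have e9 : m t ^ 2 * h t ^ 2 ≤ d * h t ^ 2 := mul_le_mul_of_nonneg_right e2 (sq_nonneg _)
    have e10 : 0 ≤ A ^ 2 := sq_nonneg A
    show -((c / t ^ 3 + 1) * (A ^ 2 + B ^ 2) + d * h t ^ 2) ≤ _
    linarith

end Pool.Agent.Work.MP_5698f2_an

end
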