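import Pool.Agent.Work.MP_5698f2_an.Bd.B01

/-! Bundle of small proof modules (one section per former module). -/

section

/-!
# MP_5698f2_an: bicharacteristics of the counterexample

Conservation of energy and angular momentum, and the fact that bicharacteristics which start
outside the inner top and move outwards never come back to it.
-/

open MeasureTheory Filter Topology Set
open scoped ContDiff InnerProductSpace

namespace Pool.Agent.Work.MP_5698f2_an

namespace Cls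

lemma grad_apply {f : Sp 2 → ℝ} {x : Sp 2} (i : Fin 2) :
    gradient f x i = fderiv ℝ f x (ev i) := by
  have h := InnerProductSpace.toDual_symm_apply (𝕜 := ℝ) (E := Sp 2) (x := ev i)
    (y := fderiv ℝ f x)
  rw [← h]
  unfold gradient ev
  rw [EuclideanSpace.inner_single_right]
  simp

lemma quad_eq (z ζ : Sp 2) : quad Amat z ζ =
    betaf ((z 0 ^ 2 + z 1 ^ 2) / 2) * (ζ 0 ^ 2 + ζ 1 ^ 2) +
      gammaf ((z 0 ^ 2 + z 1 ^ 2) / 2) * (z 0 * ζ 0 + z 1 * ζ 1) ^ 2 := by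
  have hn : ‖z‖ ^ 2 = z 0 ^ 2 + z 1 ^ 2 := by
    rw [EuclideanSpace.norm_sq_eq]; simp [Fin.sum_univ_two]
  unfold quad Amat
  rw [hn]
  simp only [Fin.sum_univ_two, Matrix.one_apply_eq, ne_eq, zero_ne_one, not_false_eq_true,
    Matrix.one_apply_ne, one_ne_zero]
  ring

lemma cutR_eq_zero {s : ℝ} (h : s ≤ 1) : cutR s = 0 := by
  unfold cutR
  rw [Real.smoothTransition.zero_of_nonpos (by linarith)]; ring

lemma cutR_eq_one {s : ℝ} (h1 : 2 ≤ s) (h2 : s ≤ 2 * Lc + 4) : cutR s = 1 := by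
  unfold cutR
  rw [Real.smoothTransition.one_of_one_le (by linarith),
    Real.smoothTransition.one_of_one_le (by linarith)]; ring

lemma cutR_nonneg (s : ℝ) : 0 ≤ cutR s :=
  mul_nonneg (Real.smoothTransition.nonneg _) (Real.smoothTransition.nonneg _)

lemma cutR_le_one (s : ℝ) : cutR s ≤ 1 :=
  mul_le_one₀ (Real.smoothTransition.le_one _) (Real.smoothTransition.nonneg _)
    (Real.smoothTransition.le_one _)

lemma contDiff_cutR : ContDiff ℝ ∞ cutR := by
  unfold cutR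
  exact (Real.smoothTransition.contDiff.comp (by fun_prop)).mul
    (Real.smoothTransition.contDiff.comp (by fun_prop))

lemma contDiff_U0 : ContDiff ℝ ∞ U0 := by
  unfold U0
  exact ((contDiff_const.sub (contDiff_G.comp (by fun_prop))).sub
    (contDiff_G.comp (by fun_prop))).sub (contDiff_G.comp (by fun_prop))

lemma contDiff_betaf : ContDiff ℝ ∞ betaf := by
  unfold betaf
  have h1 := contDiff_cutR
  have h2 : ContDiff ℝ ∞ (fun s => U0 (s - 3)) := contDiff_U0.comp (by fun_prop)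
  exact contDiff_const.add (h1.mul (((contDiff_const.mul contDiff_id).mul h2).sub contDiff_const))

lemma contDiff_gammaf : ContDiff ℝ ∞ gammaf := by
  rw [contDiff_iff_contDiffAt]
  intro s
  rcases lt_or_ge s 1 with h | h
  · have : gammaf =ᶠ[𝓝 s] fun _ => 0 := by
      filter_upwards [Iio_mem_nhds h] with y hy
      unfold gammaf
      rw [cutR_eq_zero (le_of_lt hy)]; simp
    exact contDiffAt_const.congr_of_eventuallyEq this
  · have h2 : ContDiff ℝ ∞ (fun s => U0 (s - 3)) := contDiff_U0.comp (by fun_prop)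
    have h3 : ContDiff ℝ ∞ (fun s : ℝ => cutR s * (1 - 8 * s ^ 2 * U0 (s - 3))) :=
      contDiff_cutR.mul (contDiff_const.sub
        ((contDiff_const.mul (contDiff_id.pow 2)).mul h2))
    have h4 : ContDiff ℝ ∞ (fun s : ℝ => 4 * s ^ 2) := by fun_prop
    exact h3.contDiffAt.div h4.contDiffAt (by positivity)

lemma hasDerivAt_betaf (s : ℝ) : HasDerivAt betaf (deriv betaf s) s :=
  (contDiff_betaf.differentiable (by simp) s).hasDerivAt

lemma hasDerivAt_gammaf (s : ℝ) : HasDerivAt gammaf (deriv gammaf s) s :=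
  (contDiff_gammaf.differentiable (by simp) s).hasDerivAt

/-- Continuity and differentiability of the coordinates. -/
lemma hasFDerivAt_coord (i : Fin 2) (x : Sp 2) :
    HasFDerivAt (fun z : Sp 2 => z i) (EuclideanSpace.proj i : Sp 2 →L[ℝ] ℝ) x :=
  (EuclideanSpace.proj i : Sp 2 →L[ℝ] ℝ).hasFDerivAt

lemma grad_xi (z ζ : Sp 2) (i : Fin 2) :
    gradient (fun ζ => (1 / 2) * quad Amat z ζ) ζ i =
      betaf ((z 0 ^ 2 + z 1 ^ 2) / 2) * ζ i +
        gammaf ((z 0 ^ 2 + z 1 ^ 2) / 2) * (z 0 * ζ 0 + z 1 * ζ 1) * z i := by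
  rw [grad_apply]
  have e : (fun ζ => (1 / 2) * quad Amat z ζ) = fun ζ : Sp 2 => (1 / 2) *
      (betaf ((z 0 ^ 2 + z 1 ^ 2) / 2) * (ζ 0 ^ 2 + ζ 1 ^ 2) +
      gammaf ((z 0 ^ 2 + z 1 ^ 2) / 2) * (z 0 * ζ 0 + z 1 * ζ 1) ^ 2) := by
    funext ζ; rw [quad_eq]
  rw [e]
  have h0 := hasFDerivAt_coord 0 ζ
  have h1 := hasFDerivAt_coord 1 ζ
  have H := ((((h0.pow 2).add (h1.pow 2)).const_mul (betaf ((z 0 ^ 2 + z 1 ^ 2) / 2))).add
    ((((h0.const_mul (z 0)).add (h1.const_mul (z 1))).pow 2).const_mul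
      (gammaf ((z 0 ^ 2 + z 1 ^ 2) / 2)))).const_mul (1 / 2)
  refine (congrArg (fun L : Sp 2 →L[ℝ] ℝ => L (ev i)) H.fderiv).trans ?_
  fin_cases i <;> simp [ev] <;> ring

lemma grad_x (z ζ : Sp 2) (i : Fin 2) :
    gradient (fun z => (1 / 2) * quad Amat z ζ) z i =
      (1 / 2) * deriv betaf ((z 0 ^ 2 + z 1 ^ 2) / 2) * (ζ 0 ^ 2 + ζ 1 ^ 2) * z i +
      (1 / 2) * deriv gammaf ((z 0 ^ 2 + z 1 ^ 2) / 2) * (z 0 * ζ 0 + z 1 * ζ 1) ^ 2 * z i +
        gammaf ((z 0 ^ 2 + z 1 ^ 2) / 2) * (z 0 * ζ 0 + z 1 * ζ 1) * ζ i := by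
  rw [grad_apply]
  have e : (fun z => (1 / 2) * quad Amat z ζ) = fun z : Sp 2 => (1 / 2) *
      (betaf ((z 0 ^ 2 + z 1 ^ 2) / 2) * (ζ 0 ^ 2 + ζ 1 ^ 2) +
      gammaf ((z 0 ^ 2 + z 1 ^ 2) / 2) * (z 0 * ζ 0 + z 1 * ζ 1) ^ 2) := by
    funext z; rw [quad_eq]
  rw [e]
  have h0 := hasFDerivAt_coord 0 z
  have h1 := hasFDerivAt_coord 1 z
  have hs := (((h0.pow 2).add (h1.pow 2)).mul_const (1 / 2 : ℝ))
  have hs' : HasFDerivAt (fun z : Sp 2 => (z 0 ^ 2 + z 1 ^ 2) / 2)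
      (z 0 • (EuclideanSpace.proj 0 : Sp 2 →L[ℝ] ℝ) +
        z 1 • (EuclideanSpace.proj 1 : Sp 2 →L[ℝ] ℝ)) z := by
    have h := hs
    refine (h.congr_fderiv ?_).congr_of_eventuallyEq (Eventually.of_forall fun y => ?_)
    · ext v; simp; ring
    · simp; ring
  have hb := (hasDerivAt_betaf ((z 0 ^ 2 + z 1 ^ 2) / 2)).comp_hasFDerivAt z hs'
  have hg := (hasDerivAt_gammaf ((z 0 ^ 2 + z 1 ^ 2) / 2)).comp_hasFDerivAt z hs'
  have H := ((hb.mul_const (ζ 0 ^ 2 + ζ 1 ^ 2)).add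
    (hg.mul (((h0.mul_const (ζ 0)).add (h1.mul_const (ζ 1))).pow 2))).const_mul (1 / 2)
  refine (congrArg (fun L : Sp 2 →L[ℝ] ℝ => L (ev i)) H.fderiv).trans ?_
  fin_cases i <;> simp [ev] <;> ring

/-- The coordinates of a bicharacteristic. -/
lemma bichar_x {x ξ : ℝ → Sp 2} (h : IsBichar Amat x ξ) (i : Fin 2) (t : ℝ) :
    HasDerivAt (fun t => x t i)
      (betaf ((x t 0 ^ 2 + x t 1 ^ 2) / 2) * ξ t i +
        gammaf ((x t 0 ^ 2 + x t 1 ^ 2) / 2) * (x t 0 * ξ t 0 + x t 1 * ξ t 1) * x t i) t := by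
  have h1 := (EuclideanSpace.proj i : Sp 2 →L[ℝ] ℝ).hasFDerivAt.comp_hasDerivAt t (h t).1
  rw [← grad_xi]
  exact h1

lemma bichar_xi {x ξ : ℝ → Sp 2} (h : IsBichar Amat x ξ) (i : Fin 2) (t : ℝ) :
    HasDerivAt (fun t => ξ t i)
      (-((1 / 2) * deriv betaf ((x t 0 ^ 2 + x t 1 ^ 2) / 2) * (ξ t 0 ^ 2 + ξ t 1 ^ 2) * x t i +
      (1 / 2) * deriv gammaf ((x t 0 ^ 2 + x t 1 ^ 2) / 2) *
        (x t 0 * ξ t 0 + x t 1 * ξ t 1) ^ 2 * x t i +
        gammaf ((x t 0 ^ 2 + x t 1 ^ 2) / 2) * (x t 0 * ξ t 0 + x t 1 * ξ t 1) * ξ t i)) t := by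
  have h1 := (EuclideanSpace.proj i : Sp 2 →L[ℝ] ℝ).hasFDerivAt.comp_hasDerivAt t (h t).2
  rw [← grad_x]
  exact h1

/-- `s = |x|^2/2`. -/
noncomputable def sv (x : Sp 2) : ℝ := (x 0 ^ 2 + x 1 ^ 2) / 2

/-- `c = <x, ξ>`. -/
noncomputable def cv (x ξ : Sp 2) : ℝ := x 0 * ξ 0 + x 1 * ξ 1

/-- Energy. -/
noncomputable def en (x ξ : Sp 2) : ℝ :=
  (1 / 2) * (betaf (sv x) * (ξ 0 ^ 2 + ξ 1 ^ 2) + gammaf (sv x) * cv x ξ ^ 2)

/-- Angular momentum. -/
noncomputable def am (x ξ : Sp 2) : ℝ := x 0 * ξ 1 - x 1 * ξ 0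

lemma sv_eq (x : Sp 2) : sv x = ‖x‖ ^ 2 / 2 := by
  rw [EuclideanSpace.norm_sq_eq]; simp [Fin.sum_univ_two, sv]

lemma sv_nonneg (x : Sp 2) : 0 ≤ sv x := by unfold sv; positivity

lemma deriv_sv {x ξ : ℝ → Sp 2} (h : IsBichar Amat x ξ) (t : ℝ) :
    HasDerivAt (fun t => sv (x t))
      ((betaf (sv (x t)) + 2 * sv (x t) * gammaf (sv (x t))) * cv (x t) (ξ t)) t := by
  have h0 := bichar_x h 0 t
  have h1 := bichar_x h 1 t
  have H := ((h0.pow 2).add (h1.pow 2)).div_const 2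
  refine (H.congr_deriv ?_).congr_of_eventuallyEq (Eventually.of_forall fun y => ?_)
  · simp only [sv, cv]; ring
  · simp [sv]

lemma deriv_am {x ξ : ℝ → Sp 2} (h : IsBichar Amat x ξ) (t : ℝ) :
    HasDerivAt (fun t => am (x t) (ξ t)) 0 t := by
  have H := ((bichar_x h 0 t).mul (bichar_xi h 1 t)).sub ((bichar_x h 1 t).mul (bichar_xi h 0 t))
  refine (H.congr_deriv ?_).congr_of_eventuallyEq (Eventually.of_forall fun y => ?_)
  · ring
  · simp [am]

lemma deriv_en {x ξ : ℝ → Sp 2} (h : IsBichar Amat x ξ) (t : ℝ) :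
    HasDerivAt (fun t => en (x t) (ξ t)) 0 t := by
  have hx0 := bichar_x h 0 t
  have hx1 := bichar_x h 1 t
  have hk0 := bichar_xi h 0 t
  have hk1 := bichar_xi h 1 t
  have hs := deriv_sv h t
  have hb := (hasDerivAt_betaf (sv (x t))).comp t hs
  have hg := (hasDerivAt_gammaf (sv (x t))).comp t hs
  have H := ((hb.mul ((hk0.pow 2).add (hk1.pow 2))).add
    (hg.mul (((hx0.mul hk0).add (hx1.mul hk1)).pow 2))).const_mul (1 / 2)
  refine (H.congr_deriv ?_).congr_of_eventuallyEq (Eventually.of_forall fun y => ?_)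
  · simp [sv, cv, Function.comp]; ring
  · simp [en, cv, Function.comp]

lemma const_of_deriv_zero {f : ℝ → ℝ} (hf : ∀ t, HasDerivAt f 0 t) (t s : ℝ) : f t = f s :=
  is_const_of_deriv_eq_zero (fun t => (hf t).differentiableAt) (fun t => (hf t).deriv) t s

lemma Lc_eq : Lc = 2000 := rfl

/-- `V` as a function of `β`. -/
lemma Vf_eq {s : ℝ} (h : 0 < s) : betaf s / (4 * s) = Vf s := by
  unfold betaf Vf
  field_simp
  ring

lemma wf_eq {s : ℝ} (h : 0 < s) : 2 * s * (betaf s + 2 * s * gammaf s) = wf s := by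
  unfold betaf gammaf wf
  field_simp
  ring

lemma wf_pos {s : ℝ} (h : 0 < s) : 0 < wf s := by
  unfold wf
  have h0 := cutR_nonneg s
  have h1 := cutR_le_one s
  rcases eq_or_lt_of_le h1 with h2 | h2
  · rw [h2]; norm_num
  · have : 0 < (1 - cutR s) * (2 * s) := mul_pos (by linarith) (by linarith)
    linarith

lemma rate_pos {s : ℝ} (h : 0 ≤ s) : 0 < betaf s + 2 * s * gammaf s := by
  rcases eq_or_lt_of_le h with h | h
  · subst h
    unfold betaf
    rw [cutR_eq_zero (by norm_num)]; norm_num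
  · have h1 := wf_pos h
    rw [← wf_eq h] at h1
    exact pos_of_mul_pos_right h1 (by linarith)

lemma en_eq {x ξ : Sp 2} (h : 0 < sv x) :
    en x ξ = wf (sv x) * (cv x ξ / (2 * sv x)) ^ 2 / 2 + Vf (sv x) * am x ξ ^ 2 := by
  rw [← wf_eq h, ← Vf_eq h]
  have h1 : (ξ 0 ^ 2 + ξ 1 ^ 2) * (2 * sv x) = cv x ξ ^ 2 + am x ξ ^ 2 := by
    unfold sv cv am; ring
  have h2 : ξ 0 ^ 2 + ξ 1 ^ 2 = (cv x ξ ^ 2 + am x ξ ^ 2) / (2 * sv x) := by
    field_simp; linarith
  unfold en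
  rw [h2]
  field_simp
  ring

/-- For `z` between `L` and `2L + 1`. -/
lemma U0_eq {z : ℝ} (h : Lc ≤ z) :
    U0 z = 3 / 2 - G ((z - Lc) ^ 2) - G (((z - 2 * Lc) / Lc) ^ 2) := by
  unfold U0
  have : G ((z / Lc) ^ 2) = 1 / 2 := by
    apply G_of_ge
    have h1 : 1 ≤ z / Lc := by
      rw [one_le_div (by rw [Lc_eq]; norm_num)]; exact h
    nlinarith
  rw [this]; ring

lemma U0_le_one {z : ℝ} (h : Lc ≤ z) : U0 z ≤ 1 := by
  rw [U0_eq h]
  rcases le_total (4 / 9) ((z - Lc) ^ 2) with h1 | h1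
  · rw [G_of_ge h1]
    linarith [G_nonneg (sq_nonneg ((z - 2 * Lc) / Lc))]
  · have h2 : G (((z - 2 * Lc) / Lc) ^ 2) = 1 / 2 := by
      apply G_of_ge
      have h3 : z - Lc ≤ 1 := by nlinarith
      rw [Lc_eq] at *
      rw [div_pow, le_div_iff₀ (by norm_num)]
      nlinarith
    rw [h2]
    linarith [G_nonneg (sq_nonneg (z - Lc))]

lemma G_pos {q : ℝ} (h : 0 < q) : 0 < G q := by
  rcases le_total q (1 / 2) with h' | h'
  · exact h.trans_le (le_G h')
  · rw [G_of_ge (by linarith)]; norm_num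

lemma U0_lt_one {z : ℝ} (h : Lc < z) (h2 : z ≠ 2 * Lc) : U0 z < 1 := by
  rw [U0_eq h.le]
  rcases le_total (4 / 9) ((z - Lc) ^ 2) with h1 | h1
  · rw [G_of_ge h1]
    have : 0 < ((z - 2 * Lc) / Lc) ^ 2 := by
      have : (z - 2 * Lc) / Lc ≠ 0 := div_ne_zero (sub_ne_zero.2 h2) (by rw [Lc_eq]; norm_num)
      positivity
    linarith [G_pos this]
  · have h2 : G (((z - 2 * Lc) / Lc) ^ 2) = 1 / 2 := by
      apply G_of_ge
      have h3 : z - Lc ≤ 1 := by nlinarith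
      rw [Lc_eq] at *
      rw [div_pow, le_div_iff₀ (by norm_num)]
      nlinarith
    rw [h2]
    have : 0 < (z - Lc) ^ 2 := by
      have : 0 < z - Lc := sub_pos.2 h
      positivity
    linarith [G_pos this]

lemma Vf_sA : Vf sA = 1 := by
  unfold Vf sA
  rw [cutR_eq_one (by rw [Lc_eq]; norm_num) (by rw [Lc_eq]; norm_num)]
  have : U0 (3 + Lc - 3) = 1 := by
    rw [show 3 + Lc - 3 = Lc by ring, U0_eq le_rfl]
    have h2 : G (((Lc - 2 * Lc) / Lc) ^ 2) = 1 / 2 := by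
      apply G_of_ge
      rw [Lc_eq]; norm_num
    rw [h2, sub_self]
    norm_num [G_zero]
  rw [this]; norm_num

lemma Vf_le_one {s : ℝ} (h : sA ≤ s) : Vf s ≤ 1 := by
  unfold Vf
  unfold sA at h
  have h1 : U0 (s - 3) ≤ 1 := U0_le_one (by linarith)
  have h2 : 1 / (4 * s) ≤ 1 := by
    rw [Lc_eq] at h
    rw [div_le_one (by linarith)]; linarith
  have h3 := cutR_nonneg s
  have h4 := cutR_le_one s
  have h5 : (1 - cutR s) / (4 * s) = (1 - cutR s) * (1 / (4 * s)) := by ring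
  rw [h5]
  nlinarith

lemma Vf_eq_one {s : ℝ} (h : sA < s) (h1 : Vf s = 1) : s = sB := by
  by_contra hne
  unfold sA at h
  have h1' : U0 (s - 3) < 1 := U0_lt_one (by linarith) (by
    intro h2; exact hne (by unfold sB; linarith))
  have h2 : 1 / (4 * s) < 1 := by
    rw [Lc_eq] at h
    rw [div_lt_one (by linarith)]; linarith
  have h3 := cutR_nonneg s
  have h4 := cutR_le_one s
  have h5 : (1 - cutR s) / (4 * s) = (1 - cutR s) * (1 / (4 * s)) := by ring
  unfold Vf at h1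
  rw [h5] at h1
  rcases eq_or_lt_of_le h3 with h6 | h6
  · rw [← h6] at h1; linarith
  · nlinarith

lemma one_sub_Vf_le {s : ℝ} (h : sA + 1 ≤ s) (h1 : s ≤ sB) : 1 - Vf s ≤ (sB - s) ^ 2 := by
  unfold sA at h
  unfold sB at *
  unfold Vf
  rw [cutR_eq_one (by rw [Lc_eq] at *; linarith) (by linarith), U0_eq (by linarith),
    G_of_ge (q := (s - 3 - Lc) ^ 2) (by nlinarith)]
  have h3 := G_le (sq_nonneg ((s - 3 - 2 * Lc) / Lc))
  have h4 : ((s - 3 - 2 * Lc) / Lc) ^ 2 = (3 + 2 * Lc - s) ^ 2 / 4000000 := by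
    rw [Lc_eq]; ring
  have h5 := sq_nonneg (3 + 2 * Lc - s)
  rw [h4] at h3 ⊢
  rw [sub_self, zero_div, zero_add, one_mul]
  linarith

lemma wf_eq_one {s : ℝ} (h : sA ≤ s) (h1 : s ≤ sB) : wf s = 1 := by
  unfold wf
  unfold sA at h
  unfold sB at h1
  rw [cutR_eq_one (by rw [Lc_eq] at *; linarith) (by linarith)]; ring

end Cls

open Cls in
theorem no_return {x ξ : ℝ → Sp 2} (h : IsBichar Amat x ξ) (h1 : sA + 1 ≤ ‖x 0‖ ^ 2 / 2)
    (h2 : ‖x 0‖ ^ 2 / 2 ≤ sA + 2) (h3 : 0 < ⟪x 0, ξ 0⟫_ℝ) :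
    ∀ t : ℝ, 0 ≤ t → sA < ‖x t‖ ^ 2 / 2 := by
  have hsA : sA = 2003 := by unfold sA; rw [Lc_eq]; norm_num
  have hsB : sB = 4003 := by unfold sB; rw [Lc_eq]; norm_num
  rw [← sv_eq] at h1 h2
  have hc0 : 0 < cv (x 0) (ξ 0) := by
    have : ⟪x 0, ξ 0⟫_ℝ = cv (x 0) (ξ 0) := by
      simp only [PiLp.inner_apply, Fin.sum_univ_two, cv]
      simp; ring
    rw [← this]; exact h3
  set S : ℝ → ℝ := fun t => sv (x t) with hS
  set c : ℝ → ℝ := fun t => cv (x t) (ξ t) with hc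
  have hSd : ∀ t, HasDerivAt S ((betaf (S t) + 2 * S t * gammaf (S t)) * c t) t := deriv_sv h
  have hSc : Continuous S := continuous_iff_continuousAt.2 fun t => (hSd t).continuousAt
  have hcc : Continuous c := by
    have e : ∀ i, Continuous fun t => x t i := fun i =>
      continuous_iff_continuousAt.2 fun t => (bichar_x h i t).continuousAt
    have e' : ∀ i, Continuous fun t => ξ t i := fun i =>
      continuous_iff_continuousAt.2 fun t => (bichar_xi h i t).continuousAt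
    exact ((e 0).mul (e' 0)).add ((e 1).mul (e' 1))
  set E := en (x 0) (ξ 0) with hE
  set l := am (x 0) (ξ 0) with hl
  have hEt : ∀ t, en (x t) (ξ t) = E := fun t =>
    const_of_deriv_zero (f := fun t => en (x t) (ξ t)) (deriv_en h) t 0
  have hlt : ∀ t, am (x t) (ξ t) = l := fun t =>
    const_of_deriv_zero (f := fun t => am (x t) (ξ t)) (deriv_am h) t 0
  have key : ∀ t, 0 < S t → E = wf (S t) * (c t / (2 * S t)) ^ 2 / 2 + Vf (S t) * l ^ 2 := by
    intro t ht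
    rw [← hEt t, ← hlt t]
    exact en_eq ht
  have hE0 : 0 < E - Vf (S 0) * l ^ 2 := by
    have hS0 : 0 < S 0 := by linarith
    rw [key 0 hS0]
    have := wf_pos hS0
    have h4 : 0 < c 0 / (2 * S 0) := div_pos hc0 (by linarith)
    have : 0 < wf (S 0) * (c 0 / (2 * S 0)) ^ 2 / 2 := by positivity
    linarith
  intro t ht
  rw [← sv_eq]
  rcases lt_or_ge E (l ^ 2) with hcase | hcase
  · by_contra hcon
    push Not at hcon
    obtain ⟨u, hu, hu2⟩ : sA ∈ S '' Icc 0 t :=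
      intermediate_value_Icc' ht hSc.continuousOn ⟨hcon, by linarith⟩
    have hk := key u (by rw [hu2]; linarith)
    rw [hu2, Vf_sA] at hk
    have := wf_pos (s := sA) (by linarith)
    have h5 : 0 ≤ wf sA * (c u / (2 * sA)) ^ 2 / 2 := by positivity
    linarith
  · -- `c` stays positive
    have hpos : ∀ t, 0 ≤ t → 0 < c t := by
      by_contra hcon
      push Not at hcon
      obtain ⟨r, hr0, hr1⟩ := hcon
      -- first zero
      set Z : Set ℝ := {t | t ∈ Icc 0 r ∧ c t ≤ 0} with hZ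
      have hZc : IsCompact Z := by
        have : Z = Icc 0 r ∩ c ⁻¹' (Iic 0) := by ext; simp [hZ]
        rw [this]
        exact isCompact_Icc.inter_right (isClosed_Iic.preimage hcc)
      have hZn : Z.Nonempty := ⟨r, ⟨hr0, le_rfl⟩, hr1⟩
      obtain ⟨t1, ht1, ht1m⟩ := hZc.exists_isLeast hZn
      have hbefore : ∀ u, 0 ≤ u → u < t1 → 0 < c u := by
        intro u hu0 hu1
        by_contra hcu
        push Not at hcu
        have : u ∈ Z := ⟨⟨hu0, hu1.le.trans ht1.1.2⟩, hcu⟩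
        exact absurd (ht1m this) (not_le.2 hu1)
      have ht1pos : 0 < t1 := by
        rcases eq_or_lt_of_le ht1.1.1 with h4 | h4
        · exfalso; rw [← h4] at ht1; exact absurd ht1.2 (not_le.2 hc0)
        · exact h4
      have hct1 : c t1 = 0 := by
        apply le_antisymm ht1.2
        have hlim : Tendsto c (𝓝[<] t1) (𝓝 (c t1)) := (hcc.tendsto t1).mono_left nhdsWithin_le_nhds
        refine ge_of_tendsto hlim ?_
        have : Ioo 0 t1 ∈ 𝓝[<] t1 := Ioo_mem_nhdsLT ht1pos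
        filter_upwards [this] with u hu
        exact (hbefore u hu.1.le hu.2).le
      have hmono : MonotoneOn S (Icc 0 t1) := by
        apply monotoneOn_of_deriv_nonneg (convex_Icc 0 t1) hSc.continuousOn
        · exact fun u _ => (hSd u).differentiableAt.differentiableWithinAt
        · intro u hu
          rw [interior_Icc] at hu
          rw [(hSd u).deriv]
          exact mul_nonneg (rate_pos (sv_nonneg _)).le (hbefore u hu.1.le hu.2).le
      have hSge : ∀ u ∈ Icc 0 t1, sA + 1 ≤ S u := fun u hu =>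
        h1.trans (hmono ⟨le_rfl, ht1pos.le⟩ hu hu.1)
      have hk1 := key t1 (by linarith [hSge t1 ⟨ht1pos.le, le_rfl⟩])
      rw [hct1] at hk1
      simp only [zero_div, ne_eq, OfNat.ofNat_ne_zero, not_false_eq_true, zero_pow, mul_zero,
        zero_add] at hk1
      have hl0 : l ≠ 0 := by
        intro hl0
        rw [hl0] at hE0 hk1
        simp at hE0 hk1
        linarith
      have hl2 : 0 < l ^ 2 := by positivity
      have hV1 : Vf (S t1) = 1 := by
        apply le_antisymm (Vf_le_one (by linarith [hSge t1 ⟨ht1pos.le, le_rfl⟩]))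
        by_contra h6
        push Not at h6
        nlinarith
      have hSt1 : S t1 = sB :=
        Vf_eq_one (by linarith [hSge t1 ⟨ht1pos.le, le_rfl⟩]) hV1
      have hEl : E = l ^ 2 := by rw [hk1, hV1]; ring
      -- the decay estimate
      set D : ℝ → ℝ := fun u => sB - S u with hD
      set K : ℝ := 2 * (1 + l ^ 2) with hK
      have hSle : ∀ u ∈ Icc 0 t1, S u ≤ sB := fun u hu => by
        rw [← hSt1]; exact hmono hu ⟨ht1pos.le, le_rfl⟩ hu.2
      have hderivD : ∀ u, HasDerivAt D (-((betaf (S u) + 2 * S u * gammaf (S u)) * c u)) u :=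
        fun u => (hSd u).const_sub sB
      have hbound : ∀ u ∈ Icc 0 t1,
          (betaf (S u) + 2 * S u * gammaf (S u)) * c u ≤ K * D u := by
        intro u hu
        have hSu := hSge u hu
        have hSu2 := hSle u hu
        have hSpos : 0 < S u := by linarith
        have hw := wf_eq_one (s := S u) (by linarith) hSu2
        have hk := key u hSpos
        have hV := one_sub_Vf_le hSu hSu2
        have e1 : (betaf (S u) + 2 * S u * gammaf (S u)) * c u = c u / (2 * S u) := by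
          have := wf_eq hSpos
          rw [hw] at this
          have : betaf (S u) + 2 * S u * gammaf (S u) = 1 / (2 * S u) := by
            rw [eq_div_iff (by positivity)]; linarith
          rw [this]; ring
        rw [e1]
        set p := c u / (2 * S u) with hp
        rw [hw, hEl] at hk
        have hDn : 0 ≤ D u := by simp only [hD]; linarith
        have hp2 : p ^ 2 ≤ 2 * l ^ 2 * D u ^ 2 := by
          simp only [hD]
          nlinarith
        have hKp : 0 < K := by rw [hK]; positivity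
        have : p ^ 2 ≤ (K * D u) ^ 2 := by
          refine hp2.trans ?_
          rw [mul_pow]
          apply mul_le_mul_of_nonneg_right _ (sq_nonneg _)
          rw [hK]; nlinarith
        exact (abs_le_of_sq_le_sq' this (by positivity)).2
      have hmono2 : MonotoneOn (fun u => D u * Real.exp (K * u)) (Icc 0 t1) := by
        have hd : ∀ u, HasDerivAt (fun u => D u * Real.exp (K * u))
            (-((betaf (S u) + 2 * S u * gammaf (S u)) * c u) * Real.exp (K * u) +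
              D u * (Real.exp (K * u) * (K * 1))) u := fun u =>
          (hderivD u).mul (((hasDerivAt_id u).const_mul K).exp)
        apply monotoneOn_of_deriv_nonneg (convex_Icc 0 t1)
          (continuous_iff_continuousAt.2 fun u => (hd u).continuousAt).continuousOn
        · exact fun u _ => (hd u).differentiableAt.differentiableWithinAt
        · intro u hu
          rw [interior_Icc] at hu
          rw [(hd u).deriv]
          have hb := hbound u ⟨hu.1.le, hu.2.le⟩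
          have he := Real.exp_pos (K * u)
          nlinarith
      have hfin := hmono2 (a := 0) (b := t1) ⟨le_rfl, ht1pos.le⟩ ⟨ht1pos.le, le_rfl⟩ ht1pos.le
      simp only [hD, hSt1, sub_self, zero_mul, mul_zero, Real.exp_zero, mul_one] at hfin
      have : S 0 ≤ sA + 2 := h2
      linarith
    have hmono : MonotoneOn S (Icc 0 t) := by
      apply monotoneOn_of_deriv_nonneg (convex_Icc 0 t) hSc.continuousOn
      · exact fun u _ => (hSd u).differentiableAt.differentiableWithinAt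
      · intro u hu
        rw [interior_Icc] at hu
        rw [(hSd u).deriv]
        exact mul_nonneg (rate_pos (sv_nonneg _)).le (hpos u hu.1.le).le
    have := hmono ⟨le_rfl, ht⟩ ⟨ht, le_rfl⟩ ht
    have h6 : sA + 1 ≤ S t := h1.trans this
    have : S t = sv (x t) := rfl
    linarith

end Pool.Agent.Work.MP_5698f2_an

end

section

/-!
# MP_5698f2_an: energy estimates across the sharp top

`u'' = -(2 k^2 G(z^2) - 2 k p) u + h` on `-1 ≤ z ≤ 2`, `z = x - L`.
-/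

open MeasureTheory Filter Topology Set
open scoped ContDiff InnerProductSpace

namespace Pool.Agent.Work.MP_5698f2_an

namespace CrossD

/-- Gronwall inequality with a constant coefficient and a forcing term. -/
lemma gron {F F' q : ℝ → ℝ} {a b α β : ℝ} (hα : 0 ≤ α) (hβ : 0 ≤ β)
    (hq : Continuous q) (hq0 : ∀ x, 0 ≤ q x)
    (hF : ∀ x ∈ Icc a b, HasDerivAt F (F' x) x)
    (hle : ∀ x ∈ Icc a b, F' x ≤ α * F x + β * q x) :
    ∀ x ∈ Icc a b, F x ≤ Real.exp (α * (x - a)) * (F a + β * ∫ y in a..x, q y) := by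
  set Φ : ℝ → ℝ := fun x => Real.exp (-(α * (x - a))) * F x - β * ∫ y in a..x, q y with hΦ
  have hder : ∀ x ∈ Icc a b, HasDerivAt Φ
      ((Real.exp (-(α * (x - a))) * (-α)) * F x + Real.exp (-(α * (x - a))) * F' x - β * q x) x := by
    intro x hx
    have h1 : HasDerivAt (fun x => Real.exp (-(α * (x - a)))) (Real.exp (-(α * (x - a))) * (-α)) x := by
      have : HasDerivAt (fun x => -(α * (x - a))) (-α) x := by
        have := (((hasDerivAt_id x).sub_const a).const_mul α).fun_neg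
        simpa using this
      exact this.exp
    have h2 : HasDerivAt (fun x => ∫ y in a..x, q y) (q x) x :=
      intervalIntegral.integral_hasDerivAt_right (hq.intervalIntegrable _ _)
        (hq.stronglyMeasurableAtFilter _ _) hq.continuousAt
    exact (h1.mul (hF x hx)).sub (h2.const_mul β)
  have hanti : AntitoneOn Φ (Icc a b) := by
    apply antitoneOn_of_deriv_nonpos (convex_Icc a b)
    · intro x hx
      exact (hder x hx).continuousAt.continuousWithinAt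
    · intro x hx
      exact (hder x (interior_subset hx)).differentiableAt.differentiableWithinAt
    · intro x hx
      have hx' := interior_subset hx
      rw [(hder x hx').deriv]
      have he : 0 < Real.exp (-(α * (x - a))) := Real.exp_pos _
      have he1 : Real.exp (-(α * (x - a))) ≤ 1 := by
        apply Real.exp_le_one_iff.mpr
        have : 0 ≤ α * (x - a) := mul_nonneg hα (by linarith [hx'.1])
        linarith
      have h1 := hle x hx'
      have h2 : Real.exp (-(α * (x - a))) * (F' x - α * F x) ≤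
          Real.exp (-(α * (x - a))) * (β * q x) := mul_le_mul_of_nonneg_left (by linarith) he.le
      have h3 : Real.exp (-(α * (x - a))) * (β * q x) ≤ 1 * (β * q x) :=
        mul_le_mul_of_nonneg_right he1 (mul_nonneg hβ (hq0 x))
      nlinarith
  intro x hx
  have hab : a ≤ b := hx.1.trans hx.2
  have h := hanti (left_mem_Icc.mpr hab) hx hx.1
  simp only [hΦ, sub_self, mul_zero, neg_zero, Real.exp_zero, one_mul,
    intervalIntegral.integral_same, sub_zero] at h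
  have h4 : Real.exp (-(α * (x - a))) * F x ≤ F a + β * ∫ y in a..x, q y := by linarith
  have h5 := mul_le_mul_of_nonneg_left h4 (Real.exp_pos (α * (x - a))).le
  rw [← mul_assoc, ← Real.exp_add, add_neg_cancel, Real.exp_zero, one_mul] at h5
  exact h5

/-- The potential. -/
noncomputable def Om (k p x : ℝ) : ℝ := 2 * k ^ 2 * G ((x - Lc) ^ 2) - 2 * k * p

/-- Its derivative. -/
noncomputable def Om' (k x : ℝ) : ℝ := 2 * k ^ 2 * (deriv G ((x - Lc) ^ 2) * (2 * (x - Lc)))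

lemma hasDerivAt_Om (k p x : ℝ) : HasDerivAt (Om k p) (Om' k x) x := by
  have h1 : HasDerivAt (fun x : ℝ => (x - Lc) ^ 2) (2 * (x - Lc)) x := by
    have := ((hasDerivAt_id x).sub_const Lc).fun_pow 2
    simpa using this
  have h2 : HasDerivAt G (deriv G ((x - Lc) ^ 2)) ((x - Lc) ^ 2) :=
    (contDiff_G.differentiable (by simp)).differentiableAt.hasDerivAt
  have h3 : HasDerivAt (fun x : ℝ => G ((x - Lc) ^ 2)) (deriv G ((x - Lc) ^ 2) * (2 * (x - Lc))) x := by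
    have := HasDerivAt.comp x h2 h1
    exact this
  exact (h3.const_mul (2 * k ^ 2)).sub_const (2 * k * p)

lemma Om'_nonpos (k : ℝ) {x : ℝ} (hx : x ≤ Lc) : Om' k x ≤ 0 := by
  have h1 : 0 ≤ deriv G ((x - Lc) ^ 2) := G_mono.deriv_nonneg
  unfold Om'
  have : deriv G ((x - Lc) ^ 2) * (2 * (x - Lc)) ≤ 0 :=
    mul_nonpos_of_nonneg_of_nonpos h1 (by linarith)
  exact mul_nonpos_of_nonneg_of_nonpos (by positivity) this

lemma Om'_nonneg (k : ℝ) {x : ℝ} (hx : Lc ≤ x) : 0 ≤ Om' k x := by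
  have h1 : 0 ≤ deriv G ((x - Lc) ^ 2) := G_mono.deriv_nonneg
  unfold Om'
  have : 0 ≤ deriv G ((x - Lc) ^ 2) * (2 * (x - Lc)) :=
    mul_nonneg h1 (by linarith)
  positivity

lemma Om_le {k p : ℝ} (hk : 0 ≤ k) (hp : 0 ≤ p) (x : ℝ) : Om k p x ≤ k ^ 2 := by
  unfold Om
  have := G_le_half ((x - Lc) ^ 2)
  have h2 : 0 ≤ k * p := mul_nonneg hk hp
  nlinarith [sq_nonneg k]

/-- Parameters: `k` large, `p` large and `p/k` small. -/
structure Par (k p : ℝ) : Prop where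
  k1 : 1 ≤ k
  p1 : 1 ≤ p
  pk : 2 * p / k ≤ 1 / 9

/-- The turning radius. -/
noncomputable def zx (k p : ℝ) : ℝ := √(2 * p / k)

namespace Par

variable {k p : ℝ} (P : Par k p)
include P

lemma k0 : 0 < k := lt_of_lt_of_le one_pos P.k1
lemma p0 : 0 < p := lt_of_lt_of_le one_pos P.p1

lemma zsq : zx k p ^ 2 = 2 * p / k :=
  Real.sq_sqrt (by have := P.k0; have := P.p0; positivity)

lemma z0 : 0 < zx k p := Real.sqrt_pos.mpr (by have := P.k0; have := P.p0; positivity)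

lemma kz : k ^ 2 * zx k p ^ 2 = 2 * k * p := by
  rw [P.zsq]; have := P.k0; field_simp

lemma z3 : zx k p ≤ 1 / 3 := by
  have h := P.zsq
  have h1 := P.pk
  have h2 := P.z0
  nlinarith

/-- lower bound outside the turning radius -/
lemma Om_ge {x : ℝ} (h : zx k p ≤ |x - Lc|) : 2 * k * p ≤ Om k p x := by
  have hz := P.z0
  have h1 : zx k p ^ 2 ≤ (x - Lc) ^ 2 := by
    rw [← sq_abs (x - Lc)]; nlinarith
  have h2 : G (zx k p ^ 2) ≤ G ((x - Lc) ^ 2) := G_mono h1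
  rw [G_of_le (by rw [P.zsq]; exact P.pk)] at h2
  unfold Om
  have h3 := P.kz
  have hk := P.k0
  have h4 : 2 * k ^ 2 * zx k p ^ 2 ≤ 2 * k ^ 2 * G ((x - Lc) ^ 2) :=
    mul_le_mul_of_nonneg_left h2 (by positivity)
  nlinarith

/-- quadratic lower bound outside the turning radius -/
lemma Om_ge' {x : ℝ} (h : zx k p ≤ |x - Lc|) (h' : |x - Lc| ≤ 1) :
    k ^ 2 * (x - Lc) ^ 2 / 2 ≤ Om k p x := by
  have hz := P.z0
  have hk := P.k0
  have h1 : zx k p ^ 2 ≤ (x - Lc) ^ 2 := by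
    rw [← sq_abs (x - Lc)]; nlinarith
  have h3 := P.kz
  have h4 : k ^ 2 * zx k p ^ 2 ≤ k ^ 2 * (x - Lc) ^ 2 := mul_le_mul_of_nonneg_left h1 (by positivity)
  unfold Om
  rcases le_total ((x - Lc) ^ 2) (1 / 2) with h5 | h5
  · have h6 := le_G h5
    have h7 : 2 * k ^ 2 * (x - Lc) ^ 2 ≤ 2 * k ^ 2 * G ((x - Lc) ^ 2) :=
      mul_le_mul_of_nonneg_left h6 (by positivity)
    nlinarith [mul_nonneg (sq_nonneg k) (sq_nonneg (x - Lc))]
  · rw [G_of_ge (by linarith)]
    have h8 : (x - Lc) ^ 2 ≤ 1 := by rw [← sq_abs (x - Lc)]; nlinarith [abs_nonneg (x - Lc)]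
    have h9 : 2 * k * p ≤ k ^ 2 * (1 / 9) := by
      rw [← h3]
      apply mul_le_mul_of_nonneg_left _ (by positivity)
      rw [P.zsq]; exact P.pk
    have h10 : k ^ 2 * (x - Lc) ^ 2 ≤ k ^ 2 * 1 := mul_le_mul_of_nonneg_left h8 (by positivity)
    nlinarith [sq_nonneg k]

/-- bound inside the turning radius -/
lemma Om_abs {x : ℝ} (h : |x - Lc| ≤ zx k p) : -(2 * k * p) ≤ Om k p x ∧ Om k p x ≤ 2 * k * p := by
  have hz := P.z0
  have hk := P.k0
  have h1 : (x - Lc) ^ 2 ≤ zx k p ^ 2 := by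
    rw [← sq_abs (x - Lc)]; nlinarith [abs_nonneg (x - Lc)]
  have h3 := P.kz
  have h2 : G ((x - Lc) ^ 2) ≤ G (zx k p ^ 2) := G_mono h1
  rw [G_of_le (q := zx k p ^ 2) (by rw [P.zsq]; exact P.pk)] at h2
  have h5 := G_nonneg (sq_nonneg (x - Lc))
  unfold Om
  constructor
  · have : 0 ≤ 2 * k ^ 2 * G ((x - Lc) ^ 2) := by positivity
    linarith
  · have h4 : 2 * k ^ 2 * G ((x - Lc) ^ 2) ≤ 2 * k ^ 2 * zx k p ^ 2 :=
      mul_le_mul_of_nonneg_left h2 (by positivity)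
    nlinarith

end Par

/-- The frequency. -/
noncomputable def wx (k p : ℝ) : ℝ := √(2 * k * p)

lemma Par.wsq {k p : ℝ} (P : Par k p) : wx k p ^ 2 = 2 * k * p :=
  Real.sq_sqrt (by have := P.k0; have := P.p0; positivity)

lemma Par.w0 {k p : ℝ} (P : Par k p) : 0 < wx k p :=
  Real.sqrt_pos.mpr (by have := P.k0; have := P.p0; positivity)

lemma Par.wz {k p : ℝ} (P : Par k p) : wx k p * zx k p = 2 * p := by
  have h1 := P.wsq
  have h2 := P.zsq
  have h3 := P.w0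
  have h4 := P.z0
  have h5 : (wx k p * zx k p) ^ 2 = (2 * p) ^ 2 := by
    rw [mul_pow, h1, h2]
    have := P.k0
    field_simp
    try ring
  exact (sq_eq_sq₀ (by positivity) (by have := P.p0; positivity)).mp h5

/-- A solution. -/
structure Sol (k p : ℝ) (u v h : ℝ → ℝ) : Prop where
  hc : Continuous h
  du : ∀ x ∈ Icc (Lc - 1) (Lc + 2), HasDerivAt u (v x) x
  dv : ∀ x ∈ Icc (Lc - 1) (Lc + 2), HasDerivAt v (-(Om k p x) * u x + h x) x

/-- Energy with the variable potential. -/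
noncomputable def F1 (k p : ℝ) (u v : ℝ → ℝ) (x : ℝ) : ℝ := v x ^ 2 + Om k p x * u x ^ 2

/-- Energy with the constant frequency. -/
noncomputable def F2 (k p : ℝ) (u v : ℝ → ℝ) (x : ℝ) : ℝ := v x ^ 2 + 2 * k * p * u x ^ 2

namespace Sol

variable {k p : ℝ} {u v h : ℝ → ℝ}

lemma dF1 (S : Sol k p u v h) {x : ℝ} (hx : x ∈ Icc (Lc - 1) (Lc + 2)) :
    HasDerivAt (F1 k p u v) (Om' k x * u x ^ 2 + 2 * v x * h x) x := by
  have h1 := (S.dv x hx).fun_pow 2
  have h2 := (hasDerivAt_Om k p x).fun_mul ((S.du x hx).fun_pow 2)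
  have h3 := h1.fun_add h2
  refine h3.congr_deriv ?_
  simp only [Nat.cast_ofNat, Nat.add_one_sub_one, pow_one]
  ring

lemma dF2 (S : Sol k p u v h) {x : ℝ} (hx : x ∈ Icc (Lc - 1) (Lc + 2)) :
    HasDerivAt (F2 k p u v) (2 * u x * v x * (2 * k * p - Om k p x) + 2 * v x * h x) x := by
  have h1 := (S.dv x hx).fun_pow 2
  have h2 := ((S.du x hx).fun_pow 2).const_mul (2 * k * p)
  have h3 := h1.fun_add h2
  refine h3.congr_deriv ?_
  simp only [Nat.cast_ofNat, Nat.add_one_sub_one, pow_one]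
  ring


/-- The total forcing. -/
noncomputable def H (h : ℝ → ℝ) : ℝ := ∫ y in (Lc - 1)..(Lc + 2), h y ^ 2

lemma H_le {h : ℝ → ℝ} (hc : Continuous h) {a x : ℝ} (ha : Lc - 1 ≤ a) (hax : a ≤ x)
    (hx : x ≤ Lc + 2) : ∫ y in a..x, h y ^ 2 ≤ H h := by
  unfold H
  apply intervalIntegral.integral_mono_interval ha hax hx
  · exact Filter.Eventually.of_forall fun y => sq_nonneg _
  · exact (hc.pow 2).intervalIntegrable _ _

lemma H_nonneg (h : ℝ → ℝ) : 0 ≤ H h :=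
  intervalIntegral.integral_nonneg (by linarith) fun y _ => sq_nonneg _

lemma F1_eq_F2 (P : Par k p) {x : ℝ} (hx : (x - Lc) ^ 2 = zx k p ^ 2) :
    F1 k p u v x = F2 k p u v x := by
  unfold F1 F2 Om
  rw [hx, G_of_le (by rw [P.zsq]; exact P.pk)]
  have := P.kz
  have h2 : 2 * k ^ 2 * zx k p ^ 2 - 2 * k * p = 2 * k * p := by linarith
  rw [h2]

lemma left (P : Par k p) (S : Sol k p u v h) {x : ℝ} (hx : x ∈ Icc (Lc - 1) (Lc - zx k p)) :
    F1 k p u v x ≤ Real.exp 1 * (F1 k p u v (Lc - 1) + H h) := by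
  have hz := P.z0
  have hz3 := P.z3
  have hsub : ∀ y ∈ Icc (Lc - 1) (Lc - zx k p), y ∈ Icc (Lc - 1) (Lc + 2) := fun y hy =>
    ⟨hy.1, by linarith [hy.2]⟩
  have hOm : ∀ y ∈ Icc (Lc - 1) (Lc - zx k p), 0 ≤ Om k p y := by
    intro y hy
    have h1 : zx k p ≤ |y - Lc| := by
      rw [abs_of_nonpos (by linarith [hy.2])]; linarith [hy.2]
    have h2 := P.Om_ge h1
    have := P.k0; have := P.p0
    have : 0 ≤ 2 * k * p := by positivity
    linarith
  have h1 := gron (F := F1 k p u v) (q := fun y => h y ^ 2) (α := 1) (β := 1) zero_le_one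
    zero_le_one (S.hc.pow 2) (fun y => sq_nonneg _) (fun y hy => S.dF1 (hsub y hy))
    (by
      intro y hy
      have h2 := Om'_nonpos k (x := y) (by linarith [hy.2])
      have h3 := hOm y hy
      have h4 : Om' k y * u y ^ 2 ≤ 0 := mul_nonpos_of_nonpos_of_nonneg h2 (sq_nonneg _)
      have h5 : 0 ≤ Om k p y * u y ^ 2 := mul_nonneg h3 (sq_nonneg _)
      unfold F1
      nlinarith [sq_nonneg (v y - h y)]) x hx
  have h2 : Real.exp (1 * (x - (Lc - 1))) ≤ Real.exp 1 := by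
    apply Real.exp_le_exp.mpr; linarith [hx.2]
  have h3 := H_le S.hc le_rfl hx.1 (hsub x hx).2
  have h5 : 0 ≤ F1 k p u v (Lc - 1) := by
    have := hOm (Lc - 1) ⟨le_rfl, by linarith⟩
    unfold F1
    positivity
  have h6 : 0 ≤ H h := H_nonneg h
  calc F1 k p u v x ≤ _ := h1
    _ ≤ Real.exp (1 * (x - (Lc - 1))) * (F1 k p u v (Lc - 1) + H h) := by
        apply mul_le_mul_of_nonneg_left _ (Real.exp_pos _).le
        linarith
    _ ≤ _ := mul_le_mul_of_nonneg_right h2 (by linarith)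

lemma F2_nonneg (P : Par k p) (x : ℝ) : 0 ≤ F2 k p u v x := by
  have := P.k0; have := P.p0
  unfold F2; positivity

lemma abs_uv (P : Par k p) (x : ℝ) : 2 * |u x * v x| * wx k p ≤ F2 k p u v x := by
  have h1 := P.wsq
  have h2 := P.w0
  unfold F2
  rw [← h1, abs_mul]
  nlinarith [sq_nonneg (|v x| - wx k p * |u x|), sq_abs (u x), sq_abs (v x)]

lemma mid (P : Par k p) (S : Sol k p u v h) {x : ℝ}
    (hx : x ∈ Icc (Lc - zx k p) (Lc + zx k p)) :
    F2 k p u v x ≤ Real.exp (8 * p + 2) * (F2 k p u v (Lc - zx k p) + H h) := by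
  have hz := P.z0
  have hz3 := P.z3
  have hw := P.w0
  have hwsq := P.wsq
  have hwz := P.wz
  have hsub : ∀ y ∈ Icc (Lc - zx k p) (Lc + zx k p), y ∈ Icc (Lc - 1) (Lc + 2) := fun y hy =>
    ⟨by linarith [hy.1], by linarith [hy.2]⟩
  have h1 := gron (F := F2 k p u v) (q := fun y => h y ^ 2) (α := 2 * wx k p + 1 / zx k p)
    (β := zx k p) (by positivity) (by positivity)
    (S.hc.pow 2) (fun y => sq_nonneg _) (fun y hy => S.dF2 (hsub y hy))
    (by
      intro y hy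
      have h2 := P.Om_abs (x := y) (by rw [abs_le]; constructor <;> linarith [hy.1, hy.2])
      have h3 := abs_uv (u := u) (v := v) P y
      have h4 : 2 * u y * v y * (2 * k * p - Om k p y) ≤ 2 * wx k p * F2 k p u v y := by
        have h5 : u y * v y * (2 * k * p - Om k p y) ≤ |u y * v y| * (2 * wx k p ^ 2) := by
          apply mul_le_mul (le_abs_self _) (by rw [hwsq]; linarith [h2.1]) (by linarith [h2.2])
            (abs_nonneg _)
        nlinarith
      have h6 : 2 * v y * h y ≤ 1 / zx k p * v y ^ 2 + zx k p * h y ^ 2 := by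
        have h7 : 0 ≤ 1 / zx k p * (v y - zx k p * h y) ^ 2 := by positivity
        have h8 : 1 / zx k p * (v y - zx k p * h y) ^ 2 =
            1 / zx k p * v y ^ 2 + zx k p * h y ^ 2 - 2 * v y * h y := by
          field_simp
          ring
        linarith
      have h9 : v y ^ 2 ≤ F2 k p u v y := by
        have := P.k0; have := P.p0
        unfold F2
        have : 0 ≤ 2 * k * p * u y ^ 2 := by positivity
        linarith
      have h10 : 1 / zx k p * v y ^ 2 ≤ 1 / zx k p * F2 k p u v y :=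
        mul_le_mul_of_nonneg_left h9 (by positivity)
      nlinarith) x hx
  have h2 : Real.exp ((2 * wx k p + 1 / zx k p) * (x - (Lc - zx k p))) ≤ Real.exp (8 * p + 2) := by
    apply Real.exp_le_exp.mpr
    have h3 : x - (Lc - zx k p) ≤ 2 * zx k p := by linarith [hx.2]
    calc (2 * wx k p + 1 / zx k p) * (x - (Lc - zx k p))
        ≤ (2 * wx k p + 1 / zx k p) * (2 * zx k p) :=
          mul_le_mul_of_nonneg_left h3 (by positivity)
      _ = 4 * (wx k p * zx k p) + 2 := by field_simp; ring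
      _ = 8 * p + 2 := by rw [hwz]; ring
  have h3 := H_le S.hc (a := Lc - zx k p) (by linarith) hx.1 (hsub x hx).2
  have h5 : 0 ≤ F2 k p u v (Lc - zx k p) := F2_nonneg P _
  have h6 : 0 ≤ H h := H_nonneg h
  have h7 : zx k p * ∫ y in (Lc - zx k p)..x, h y ^ 2 ≤ H h := by
    have : 0 ≤ ∫ y in (Lc - zx k p)..x, h y ^ 2 :=
      intervalIntegral.integral_nonneg hx.1 fun y _ => sq_nonneg _
    nlinarith
  calc F2 k p u v x ≤ _ := h1
    _ ≤ Real.exp ((2 * wx k p + 1 / zx k p) * (x - (Lc - zx k p))) *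
          (F2 k p u v (Lc - zx k p) + H h) := by
        apply mul_le_mul_of_nonneg_left _ (Real.exp_pos _).le
        linarith
    _ ≤ _ := mul_le_mul_of_nonneg_right h2 (by linarith)

lemma right (P : Par k p) (S : Sol k p u v h) {x : ℝ}
    (hx : x ∈ Icc (Lc + zx k p) (Lc + 2)) :
    F1 k p u v x / Om k p x ≤
      Real.exp 2 * (F1 k p u v (Lc + zx k p) / Om k p (Lc + zx k p) + 1 / (2 * k * p) * H h) := by
  have hz := P.z0
  have hz3 := P.z3
  have hk := P.k0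
  have hp := P.p0
  have hkp : 0 < 2 * k * p := by positivity
  have hsub : ∀ y ∈ Icc (Lc + zx k p) (Lc + 2), y ∈ Icc (Lc - 1) (Lc + 2) := fun y hy =>
    ⟨by linarith [hy.1], by linarith [hy.2]⟩
  have hOm : ∀ y ∈ Icc (Lc + zx k p) (Lc + 2), 2 * k * p ≤ Om k p y := by
    intro y hy
    apply P.Om_ge
    rw [abs_of_nonneg (by linarith [hy.1])]; linarith [hy.1]
  have h1 := gron (F := fun y => F1 k p u v y / Om k p y) (q := fun y => h y ^ 2) (α := 1)
    (β := 1 / (2 * k * p)) zero_le_one (by positivity)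
    (S.hc.pow 2) (fun y => sq_nonneg _)
    (fun y hy => (S.dF1 (hsub y hy)).div (hasDerivAt_Om k p y)
      (by have := hOm y hy; exact (by linarith : (0:ℝ) < Om k p y).ne'))
    (by
      intro y hy
      have h2 := Om'_nonneg k (x := y) (by linarith [hy.1])
      have h3 := hOm y hy
      have h3' : 0 < Om k p y := by linarith
      have h4 : ((Om' k y * u y ^ 2 + 2 * v y * h y) * Om k p y - F1 k p u v y * Om' k y) /
          Om k p y ^ 2 = (2 * v y * h y * Om k p y - v y ^ 2 * Om' k y) / Om k p y ^ 2 := by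
        unfold F1; congr 1; ring
      rw [h4]
      have h5 : (2 * v y * h y * Om k p y - v y ^ 2 * Om' k y) / Om k p y ^ 2 ≤
          (2 * v y * h y) / Om k p y := by
        rw [div_le_div_iff₀ (by positivity) h3']
        have : 0 ≤ v y ^ 2 * Om' k y := by positivity
        nlinarith
      have h6 : (2 * v y * h y) / Om k p y ≤ (v y ^ 2 + h y ^ 2) / Om k p y := by
        apply div_le_div_of_nonneg_right _ h3'.le
        nlinarith [sq_nonneg (v y - h y)]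
      have h7 : v y ^ 2 / Om k p y ≤ F1 k p u v y / Om k p y := by
        apply div_le_div_of_nonneg_right _ h3'.le
        unfold F1
        have : 0 ≤ Om k p y * u y ^ 2 := by positivity
        linarith
      have h8 : h y ^ 2 / Om k p y ≤ 1 / (2 * k * p) * h y ^ 2 := by
        rw [one_div, inv_mul_eq_div]
        exact div_le_div_of_nonneg_left (sq_nonneg _) hkp h3
      rw [add_div] at h6
      linarith) x hx
  have h2 : Real.exp (1 * (x - (Lc + zx k p))) ≤ Real.exp 2 := by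
    apply Real.exp_le_exp.mpr; linarith [hx.2]
  have h3 := H_le S.hc (a := Lc + zx k p) (by linarith) hx.1 hx.2
  have h5 : 0 ≤ F1 k p u v (Lc + zx k p) / Om k p (Lc + zx k p) := by
    have := hOm (Lc + zx k p) ⟨le_rfl, by linarith⟩
    have : 0 ≤ Om k p (Lc + zx k p) := by linarith
    unfold F1
    positivity
  have h6 : 0 ≤ H h := H_nonneg h
  have h7 : 1 / (2 * k * p) * ∫ y in (Lc + zx k p)..x, h y ^ 2 ≤ 1 / (2 * k * p) * H h :=
    mul_le_mul_of_nonneg_left h3 (by positivity)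
  calc F1 k p u v x / Om k p x ≤ _ := h1
    _ ≤ Real.exp (1 * (x - (Lc + zx k p))) *
          (F1 k p u v (Lc + zx k p) / Om k p (Lc + zx k p) + 1 / (2 * k * p) * H h) := by
        apply mul_le_mul_of_nonneg_left _ (Real.exp_pos _).le
        linarith
    _ ≤ _ := mul_le_mul_of_nonneg_right h2 (by positivity)


/-- The initial size. -/
noncomputable def N0 (k : ℝ) (u v : ℝ → ℝ) : ℝ := u (Lc - 1) ^ 2 + (v (Lc - 1) / k) ^ 2

lemma F1_init (P : Par k p) : F1 k p u v (Lc - 1) ≤ k ^ 2 * N0 k u v := by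
  have hk := P.k0
  have h1 : Om k p (Lc - 1) ≤ k ^ 2 := Om_le hk.le P.p0.le _
  have h2 : k ^ 2 * N0 k u v = k ^ 2 * u (Lc - 1) ^ 2 + v (Lc - 1) ^ 2 := by
    unfold N0; field_simp
  rw [h2]
  unfold F1
  have := mul_le_mul_of_nonneg_right h1 (sq_nonneg (u (Lc - 1)))
  linarith

lemma N0_nonneg (k : ℝ) (u v : ℝ → ℝ) : 0 ≤ N0 k u v := by unfold N0; positivity

/-- size of the data -/
noncomputable def M0 (k : ℝ) (u v h : ℝ → ℝ) : ℝ := k ^ 2 * N0 k u v + H h

lemma M0_nonneg (k : ℝ) (u v h : ℝ → ℝ) : 0 ≤ M0 k u v h := by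
  have := N0_nonneg k u v; have := H_nonneg h
  unfold M0; positivity

lemma H_le_M0 (k : ℝ) (u v h : ℝ → ℝ) : H h ≤ M0 k u v h := by
  have := N0_nonneg k u v
  unfold M0
  have : 0 ≤ k ^ 2 * N0 k u v := by positivity
  linarith

lemma left' (P : Par k p) (S : Sol k p u v h) {x : ℝ} (hx : x ∈ Icc (Lc - 1) (Lc - zx k p)) :
    F1 k p u v x ≤ Real.exp 1 * M0 k u v h := by
  refine (S.left P hx).trans ?_
  apply mul_le_mul_of_nonneg_left _ (Real.exp_pos _).le
  have := F1_init (u := u) (v := v) P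
  unfold M0
  linarith

lemma mid' (P : Par k p) (S : Sol k p u v h) {x : ℝ}
    (hx : x ∈ Icc (Lc - zx k p) (Lc + zx k p)) :
    F2 k p u v x ≤ Real.exp (8 * p + 2) * ((Real.exp 1 + 1) * M0 k u v h) := by
  refine (S.mid P hx).trans ?_
  apply mul_le_mul_of_nonneg_left _ (Real.exp_pos _).le
  have h1 := S.left' P (x := Lc - zx k p) ⟨by linarith [P.z3], le_rfl⟩
  rw [F1_eq_F2 P (by ring)] at h1
  have := H_le_M0 k u v h
  linarith

lemma exp_p (P : Par k p) (hp : p ≤ Real.log k / 80) :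
    Real.exp (8 * p + 2) ≤ Real.exp 2 * k ^ (1 / 10 : ℝ) := by
  have hk := P.k0
  rw [Real.rpow_def_of_pos hk, ← Real.exp_add]
  apply Real.exp_le_exp.mpr
  linarith

/-- pointwise size -/
noncomputable def N1 (k : ℝ) (u v : ℝ → ℝ) (x : ℝ) : ℝ := u x ^ 2 + (v x / k) ^ 2

lemma N1_of_F2 (P : Par k p) {x B : ℝ} (h : F2 k p u v x ≤ B) : N1 k u v x ≤ 2 * (B / k) := by
  have hk := P.k0
  have hk1 := P.k1
  have hp1 := P.p1
  have h0 : 0 ≤ 2 * k * p * u x ^ 2 := by have := P.p0; positivity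
  have h1 : v x ^ 2 ≤ B := by unfold F2 at h; linarith
  have h2 : 2 * k * p * u x ^ 2 ≤ B := by unfold F2 at h; linarith [sq_nonneg (v x)]
  have h3 : u x ^ 2 ≤ B / k := by
    rw [le_div_iff₀ hk]
    have : k * u x ^ 2 ≤ 2 * k * p * u x ^ 2 := by
      apply mul_le_mul_of_nonneg_right _ (sq_nonneg _)
      nlinarith
    linarith
  have h4 : (v x / k) ^ 2 ≤ B / k := by
    rw [div_pow, div_le_div_iff₀ (by positivity) hk]
    have hB : 0 ≤ B := (sq_nonneg _).trans h1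
    have : v x ^ 2 * k ≤ B * k := mul_le_mul_of_nonneg_right h1 hk.le
    have : B * k ≤ B * k ^ 2 := mul_le_mul_of_nonneg_left (by nlinarith) hB
    linarith
  unfold N1
  linarith

lemma N1_of_F1 (P : Par k p) {x B : ℝ} (hOm : 2 * k * p ≤ Om k p x)
    (h : F1 k p u v x ≤ B) : N1 k u v x ≤ 2 * (B / k) := by
  apply N1_of_F2 P
  refine le_trans ?_ h
  unfold F1 F2
  have := mul_le_mul_of_nonneg_right hOm (sq_nonneg (u x))
  linarith

lemma N1_of_E (P : Par k p) {x B : ℝ} (hOm : 2 * k * p ≤ Om k p x)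
    (h : F1 k p u v x / Om k p x ≤ B) : N1 k u v x ≤ 2 * B := by
  have hk := P.k0
  have hp := P.p0
  have h0 : 0 < Om k p x := lt_of_lt_of_le (by positivity) hOm
  rw [div_le_iff₀ h0] at h
  have h1 : Om k p x * u x ^ 2 ≤ B * Om k p x := by
    unfold F1 at h; linarith [sq_nonneg (v x)]
  have h2 : v x ^ 2 ≤ B * Om k p x := by
    unfold F1 at h
    have : 0 ≤ Om k p x * u x ^ 2 := by positivity
    linarith
  have h3 : u x ^ 2 ≤ B := by nlinarith
  have hB : 0 ≤ B := (sq_nonneg _).trans h3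
  have h4 : (v x / k) ^ 2 ≤ B := by
    rw [div_pow, div_le_iff₀ (by positivity)]
    exact h2.trans (mul_le_mul_of_nonneg_left (Om_le hk.le hp.le x) hB)
  unfold N1
  linarith

lemma all (P : Par k p) (hp : p ≤ Real.log k / 80) (S : Sol k p u v h) {x : ℝ}
    (hx : x ∈ Icc (Lc - 1) (Lc + 2)) :
    N1 k u v x ≤ 2 * (Real.exp 2 * (Real.exp 2 * (Real.exp 1 + 1) + 1)) *
      (k ^ (1 / 10 : ℝ) * (M0 k u v h / k)) := by
  have hk := P.k0
  have hz := P.z0
  have hz3 := P.z3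
  have he := exp_p P hp
  have hM := M0_nonneg k u v h
  have hkk : (1 : ℝ) ≤ k ^ (1 / 10 : ℝ) := Real.one_le_rpow P.k1 (by norm_num)
  have hMk : 0 ≤ M0 k u v h / k := by positivity
  have he1 : 1 ≤ Real.exp 1 := Real.one_le_exp (by norm_num)
  have he2 : 1 ≤ Real.exp 2 := Real.one_le_exp (by norm_num)
  set Q : ℝ := k ^ (1 / 10 : ℝ) * (M0 k u v h / k) with hQ
  have hQ0 : 0 ≤ Q := by positivity
  have hQ1 : M0 k u v h / k ≤ Q := by
    rw [hQ]; exact le_mul_of_one_le_left hMk hkk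
  set e1 := Real.exp 1 with he1d
  set e2 := Real.exp 2 with he2d
  -- mid bound
  have hmid : ∀ y ∈ Icc (Lc - zx k p) (Lc + zx k p),
      F2 k p u v y / k ≤ e2 * (e1 + 1) * Q := by
    intro y hy
    have h1 := S.mid' P hy
    have h2 : F2 k p u v y ≤ (e2 * k ^ (1 / 10 : ℝ)) * ((e1 + 1) * M0 k u v h) :=
      h1.trans (mul_le_mul_of_nonneg_right he (by positivity))
    calc F2 k p u v y / k ≤ (e2 * k ^ (1 / 10 : ℝ)) * ((e1 + 1) * M0 k u v h) / k :=
          div_le_div_of_nonneg_right h2 hk.le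
      _ = _ := by rw [hQ]; ring
  rcases le_total x (Lc - zx k p) with hl | hl
  · have h1 := S.left' P ⟨hx.1, hl⟩
    have h2 : 2 * k * p ≤ Om k p x := by
      apply P.Om_ge
      rw [abs_of_nonpos (by linarith)]; linarith
    have h3 := N1_of_F1 P h2 h1
    have h4 : Real.exp 1 * M0 k u v h / k = e1 * (M0 k u v h / k) := by rw [mul_div_assoc]
    rw [h4] at h3
    have h5 : e1 * (M0 k u v h / k) ≤ e1 * Q := mul_le_mul_of_nonneg_left hQ1 (by positivity)
    have h6 : e1 * Q ≤ (e2 * (e2 * (e1 + 1) + 1)) * Q := by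
      apply mul_le_mul_of_nonneg_right _ hQ0
      nlinarith [mul_nonneg (sub_nonneg.mpr he2) (sub_nonneg.mpr he1)]
    nlinarith
  rcases le_total x (Lc + zx k p) with hr | hr
  · have h1 := hmid x ⟨hl, hr⟩
    have h3 := N1_of_F2 (u := u) (v := v) P (le_refl (F2 k p u v x))
    have h6 : e2 * (e1 + 1) * Q ≤ (e2 * (e2 * (e1 + 1) + 1)) * Q := by
      apply mul_le_mul_of_nonneg_right _ hQ0
      nlinarith [mul_nonneg (sub_nonneg.mpr he2) (sub_nonneg.mpr he1)]
    nlinarith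
  · have h1 := S.right P ⟨hr, hx.2⟩
    have h2 : 2 * k * p ≤ Om k p x := by
      apply P.Om_ge
      rw [abs_of_nonneg (by linarith)]; linarith
    have h3 := N1_of_E P h2 h1
    have h4 : Om k p (Lc + zx k p) = 2 * k * p := by
      unfold Om
      have h5 : (Lc + zx k p - Lc) ^ 2 = zx k p ^ 2 := by ring
      rw [h5, G_of_le (by rw [P.zsq]; exact P.pk)]
      have := P.kz
      linarith
    rw [F1_eq_F2 P (by ring), h4] at h3
    have h5 := hmid (Lc + zx k p) ⟨by linarith, le_rfl⟩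
    have hkp : k ≤ 2 * k * p := by nlinarith [P.p1]
    have h7 : F2 k p u v (Lc + zx k p) / (2 * k * p) ≤ F2 k p u v (Lc + zx k p) / k :=
      div_le_div_of_nonneg_left (F2_nonneg P _) hk hkp
    have h8 : 1 / (2 * k * p) * H h ≤ Q := by
      refine le_trans ?_ hQ1
      rw [one_div, inv_mul_eq_div]
      calc H h / (2 * k * p) ≤ H h / k := div_le_div_of_nonneg_left (H_nonneg h) hk hkp
        _ ≤ _ := div_le_div_of_nonneg_right (H_le_M0 k u v h) hk.le
    have h9 : F2 k p u v (Lc + zx k p) / (2 * k * p) + 1 / (2 * k * p) * H h ≤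
        (e2 * (e1 + 1) + 1) * Q := by
      have : (e2 * (e1 + 1) + 1) * Q = e2 * (e1 + 1) * Q + Q := by ring
      linarith
    have h10 := mul_le_mul_of_nonneg_left h9 (by positivity : 0 ≤ e2)
    nlinarith

end Sol

lemma par_of {k p : ℝ} (hk : Real.exp 320 ≤ k) (h1 : Real.log k / 320 ≤ p)
    (h2 : p ≤ Real.log k / 80) : Par k p := by
  have hk0 : 0 < k := lt_of_lt_of_le (Real.exp_pos _) hk
  have hlog : 320 ≤ Real.log k := (Real.le_log_iff_exp_le hk0).mpr hk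
  have hk1 : 1 ≤ k := (Real.one_le_exp (by norm_num)).trans hk
  refine ⟨hk1, by linarith, ?_⟩
  rw [div_le_iff₀ hk0]
  have : Real.log k ≤ k := (Real.log_le_sub_one_of_pos hk0).trans (by linarith)
  linarith

end CrossD

open CrossD in
/-- Energy estimate with forcing across the sharp top. -/
theorem cross2 : ∃ C K : ℝ, 0 < C ∧ ∀ k : ℝ, K ≤ k → ∀ p : ℝ, Real.log k / 320 ≤ p →
    p ≤ Real.log k / 80 → ∀ u v h : ℝ → ℝ, Continuous h →
    (∀ x ∈ Icc (Lc - 1) (Lc + 2), HasDerivAt u (v x) x) →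
    (∀ x ∈ Icc (Lc - 1) (Lc + 2),
      HasDerivAt v (-(2 * k ^ 2 * G ((x - Lc) ^ 2) - 2 * k * p) * u x + h x) x) →
    ∀ x ∈ Icc (Lc - 1) (Lc + 2), u x ^ 2 + (v x / k) ^ 2 ≤
      C * k ^ (11 / 10 : ℝ) * (u (Lc - 1) ^ 2 + (v (Lc - 1) / k) ^ 2 +
        (∫ y in (Lc - 1)..(Lc + 2), h y ^ 2) / k ^ 2) := by
  refine ⟨2 * (Real.exp 2 * (Real.exp 2 * (Real.exp 1 + 1) + 1)), Real.exp 320, by positivity, ?_⟩
  intro k hk p hp1 hp2 u v h hc hu hv x hx
  have P := par_of hk hp1 hp2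
  have S : Sol k p u v h := ⟨hc, hu, hv⟩
  have h1 := S.all P hp2 hx
  have hk0 := P.k0
  have h2 : k ^ (11 / 10 : ℝ) = k ^ (1 / 10 : ℝ) * k := by
    rw [show (11 / 10 : ℝ) = 1 / 10 + 1 by norm_num, Real.rpow_add hk0, Real.rpow_one]
  refine h1.trans (le_of_eq ?_)
  rw [h2]
  unfold Sol.M0 Sol.N0 Sol.H
  field_simp

open CrossD in
/-- `L^2` estimate on the left half of the sharp top. -/
theorem cross1 : ∃ C K : ℝ, 0 < C ∧ ∀ k : ℝ, K ≤ k → ∀ p : ℝ, Real.log k / 320 ≤ p →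
    p ≤ Real.log k / 80 → ∀ u v : ℝ → ℝ,
    (∀ x ∈ Icc (Lc - 1) (Lc + 2), HasDerivAt u (v x) x) →
    (∀ x ∈ Icc (Lc - 1) (Lc + 2),
      HasDerivAt v (-(2 * k ^ 2 * G ((x - Lc) ^ 2) - 2 * k * p) * u x) x) →
    ∫ x in (Lc - 1)..Lc, u x ^ 2 ≤
      C * k ^ (13 / 20 : ℝ) * (u (Lc - 1) ^ 2 + (v (Lc - 1) / k) ^ 2) := by
  refine ⟨2 * Real.exp 1 + Real.exp 2 * (Real.exp 1 + 1), Real.exp 320, by positivity, ?_⟩
  intro k hk p hp1 hp2 u v hu hv
  have P := par_of hk hp1 hp2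
  have S : Sol k p u v (fun _ => 0) := ⟨continuous_const, hu, fun x hx => by
    rw [add_zero]; exact hv x hx⟩
  have hk0 := P.k0
  have hk1 := P.k1
  have hp0 := P.p0
  have hp1' := P.p1
  have hz0 := P.z0
  have hz3 := P.z3
  have hN0 := Sol.N0_nonneg k u v
  have hM : Sol.M0 k u v (fun _ => 0) = k ^ 2 * Sol.N0 k u v := by
    unfold Sol.M0 Sol.H; simp
  have huc : ContinuousOn u (Icc (Lc - 1) (Lc + 2)) := fun x hx =>
    (hu x hx).continuousAt.continuousWithinAt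
  have hint : ∀ a b : ℝ, Lc - 1 ≤ a → a ≤ b → b ≤ Lc + 2 →
      IntervalIntegrable (fun x => u x ^ 2) volume a b := by
    intro a b ha hab hb
    apply ContinuousOn.intervalIntegrable
    rw [uIcc_of_le hab]
    exact (huc.mono (Icc_subset_Icc ha hb)).pow 2
  -- left part
  have hL : ∫ x in (Lc - 1)..(Lc - zx k p), u x ^ 2 ≤
      2 * Real.exp 1 * Sol.N0 k u v * (1 / zx k p) := by
    have hd : ∀ x ∈ uIcc (Lc - 1) (Lc - zx k p), HasDerivAt (fun x : ℝ => -(x - Lc)⁻¹)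
        (((x - Lc) ^ 2)⁻¹) x := by
      intro x hx
      rw [uIcc_of_le (by linarith)] at hx
      have hne : x - Lc ≠ 0 := by linarith [hx.2]
      have h1 : HasDerivAt (fun x : ℝ => x - Lc) 1 x := (hasDerivAt_id x).sub_const Lc
      have h2 := (h1.fun_inv hne).fun_neg
      refine h2.congr_deriv ?_
      field_simp
    have hcont : ContinuousOn (fun x : ℝ => ((x - Lc) ^ 2)⁻¹) (uIcc (Lc - 1) (Lc - zx k p)) := by
      rw [uIcc_of_le (by linarith)]
      apply ContinuousOn.inv₀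
      · fun_prop
      · intro x hx
        have hne : x - Lc ≠ 0 := by linarith [hx.2]
        positivity
    have hI : ∫ x in (Lc - 1)..(Lc - zx k p), ((x - Lc) ^ 2)⁻¹ = 1 / zx k p - 1 := by
      rw [intervalIntegral.integral_eq_sub_of_hasDerivAt hd hcont.intervalIntegrable]
      have h1 : Lc - zx k p - Lc = -zx k p := by ring
      have h2 : Lc - 1 - Lc = -1 := by ring
      rw [h1, h2]
      field_simp
      try ring
    calc ∫ x in (Lc - 1)..(Lc - zx k p), u x ^ 2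
        ≤ ∫ x in (Lc - 1)..(Lc - zx k p), 2 * Real.exp 1 * Sol.N0 k u v * ((x - Lc) ^ 2)⁻¹ := by
          apply intervalIntegral.integral_mono_on (by linarith)
            (hint _ _ le_rfl (by linarith) (by linarith))
            (hcont.intervalIntegrable.const_mul _)
          intro x hx
          have h1 := S.left' P hx
          rw [hM] at h1
          have hab : zx k p ≤ |x - Lc| := by
            rw [abs_of_nonpos (by linarith [hx.2])]; linarith [hx.2]
          have h2 := P.Om_ge' hab (by rw [abs_of_nonpos (by linarith [hx.2])]; linarith [hx.1])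
          have hne : x - Lc ≠ 0 := by linarith [hx.2]
          have h3 : k ^ 2 * (x - Lc) ^ 2 / 2 * u x ^ 2 ≤ Real.exp 1 * (k ^ 2 * Sol.N0 k u v) := by
            have h4 := mul_le_mul_of_nonneg_right h2 (sq_nonneg (u x))
            unfold F1 at h1
            nlinarith [sq_nonneg (v x)]
          rw [← div_eq_mul_inv, le_div_iff₀ (by positivity)]
          have h5 : k ^ 2 * ((x - Lc) ^ 2 * u x ^ 2) ≤
              k ^ 2 * (2 * Real.exp 1 * Sol.N0 k u v) := by nlinarith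
          have h6 := le_of_mul_le_mul_left h5 (by positivity)
          linarith
      _ = 2 * Real.exp 1 * Sol.N0 k u v * (1 / zx k p - 1) := by
          rw [intervalIntegral.integral_const_mul, hI]
      _ ≤ _ := by
          apply mul_le_mul_of_nonneg_left _ (by positivity)
          linarith
  -- middle part
  have hR : ∫ x in (Lc - zx k p)..Lc, u x ^ 2 ≤
      (zx k p) * (Real.exp 2 * (Real.exp 1 + 1) * (k ^ (1 / 10 : ℝ) * k ^ 2 * Sol.N0 k u v) /
        (2 * k * p)) := by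
    have h0 : ∫ x in (Lc - zx k p)..Lc, (Real.exp 2 * (Real.exp 1 + 1) *
        (k ^ (1 / 10 : ℝ) * k ^ 2 * Sol.N0 k u v) / (2 * k * p)) = (zx k p) *
        (Real.exp 2 * (Real.exp 1 + 1) * (k ^ (1 / 10 : ℝ) * k ^ 2 * Sol.N0 k u v) /
        (2 * k * p)) := by
      rw [intervalIntegral.integral_const]
      simp
    rw [← h0]
    apply intervalIntegral.integral_mono_on (by linarith)
      (hint _ _ (by linarith) (by linarith) (by linarith)) (by simp)
    intro x hx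
    have h1 := S.mid' P (x := x) ⟨hx.1, by linarith [hx.2]⟩
    rw [hM] at h1
    have h2 := mul_le_mul_of_nonneg_right (Sol.exp_p P hp2)
      (by positivity : 0 ≤ (Real.exp 1 + 1) * (k ^ 2 * Sol.N0 k u v))
    rw [le_div_iff₀ (by positivity)]
    unfold F2 at h1
    nlinarith [sq_nonneg (v x)]
  have hsplit : ∫ x in (Lc - 1)..Lc, u x ^ 2 =
      (∫ x in (Lc - 1)..(Lc - zx k p), u x ^ 2) + ∫ x in (Lc - zx k p)..Lc, u x ^ 2 := by
    rw [intervalIntegral.integral_add_adjacent_intervals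
      (hint _ _ le_rfl (by linarith) (by linarith))
      (hint _ _ (by linarith) (by linarith) (by linarith))]
  -- sizes
  have hzk : 1 / zx k p ≤ k ^ (1 / 2 : ℝ) := by
    rw [← Real.sqrt_eq_rpow, div_le_iff₀ hz0]
    unfold zx
    rw [← Real.sqrt_mul hk0.le]
    rw [show k * (2 * p / k) = 2 * p by field_simp]
    exact Real.one_le_sqrt.mpr (by linarith)
  have hzk2 : zx k p * (k ^ 2 / (2 * k * p)) ≤ k ^ (1 / 2 : ℝ) := by
    have h1 : zx k p * (k ^ 2 / (2 * k * p)) = 1 / zx k p := by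
      rw [← P.kz]
      field_simp
    rw [h1]; exact hzk
  have hpow1 : k ^ (1 / 2 : ℝ) ≤ k ^ (13 / 20 : ℝ) :=
    Real.rpow_le_rpow_of_exponent_le hk1 (by norm_num)
  have hpow2 : k ^ (1 / 10 : ℝ) * k ^ (1 / 2 : ℝ) ≤ k ^ (13 / 20 : ℝ) := by
    rw [← Real.rpow_add hk0]
    exact Real.rpow_le_rpow_of_exponent_le hk1 (by norm_num)
  have hN : u (Lc - 1) ^ 2 + (v (Lc - 1) / k) ^ 2 = Sol.N0 k u v := rfl
  rw [hsplit, hN]
  have hL2 : 2 * Real.exp 1 * Sol.N0 k u v * (1 / zx k p) ≤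
      2 * Real.exp 1 * Sol.N0 k u v * k ^ (13 / 20 : ℝ) :=
    mul_le_mul_of_nonneg_left (hzk.trans hpow1) (by positivity)
  have hR2 : (zx k p) * (Real.exp 2 * (Real.exp 1 + 1) *
      (k ^ (1 / 10 : ℝ) * k ^ 2 * Sol.N0 k u v) / (2 * k * p)) ≤
      Real.exp 2 * (Real.exp 1 + 1) * Sol.N0 k u v * k ^ (13 / 20 : ℝ) := by
    have h1 : (zx k p) * (Real.exp 2 * (Real.exp 1 + 1) *
      (k ^ (1 / 10 : ℝ) * k ^ 2 * Sol.N0 k u v) / (2 * k * p)) =
      Real.exp 2 * (Real.exp 1 + 1) * Sol.N0 k u v *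
        (k ^ (1 / 10 : ℝ) * (zx k p * (k ^ 2 / (2 * k * p)))) := by ring
    rw [h1]
    apply mul_le_mul_of_nonneg_left _ (by positivity)
    exact (mul_le_mul_of_nonneg_left hzk2 (by positivity)).trans hpow2
  calc _ ≤ _ := add_le_add (hL.trans hL2) (hR.trans hR2)
    _ = _ := by ring

end Pool.Agent.Work.MP_5698f2_an

end

section

/-!
# MP_5698f2_an: existence of the propagator
-/

open MeasureTheory Filter Topology Set
open scoped ContDiff InnerProductSpace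

namespace Pool.Agent.Work.MP_5698f2_an

theorem exists_group {n : ℕ} {A : Sp n → Matrix (Fin n) (Fin n) ℝ} (hA : Admissible A) :
    ∃ S : ℝ → (L2 n →L[ℂ] L2 n), IsSchrodingerGroup A S := by
  obtain ⟨R, hR, hR1, hR2⟩ := exists_resolvent hA
  have hdense : DenseRange (fun u : {u : Sp n → ℂ // IsTest u} => toL2 (u : Sp n → ℂ)) := by
    have h : Dense {f : L2 n | ∃ u, IsTest u ∧ toL2 u = f} := dense_test
    refine Dense.mono ?_ h
    rintro f ⟨u, hu, rfl⟩
    exact ⟨⟨u, hu⟩, rfl⟩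
  obtain ⟨S, h0, hadd, hnorm, hcont, hder⟩ := group_of_resolvent R hR hR1
    (fun u : {u : Sp n → ℂ // IsTest u} => toL2 (u : Sp n → ℂ))
    (fun u : {u : Sp n → ℂ // IsTest u} => toL2 (schrOp A (u : Sp n → ℂ)))
    hdense (fun u => hR2 u u.2)
  exact ⟨S, h0, hadd, hnorm, hcont, fun u hu t => hder ⟨u, hu⟩ t⟩

end Pool.Agent.Work.MP_5698f2_an

end

section

/-!
# MP_5698f2_an: oscillating functions on the plane
-/

open MeasureTheory Filter Topology Set
open scoped ContDiff InnerProductSpace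

namespace Pool.Agent.Work.MP_5698f2_an

/-- The angular factor `e^{ikθ}`. -/
noncomputable def ang (k : ℕ) (x : Sp 2) : ℂ :=
  (((x 0 : ℝ) + (x 1 : ℝ) * Complex.I) / (‖x‖ : ℝ)) ^ k

/-- `h(s) e^{ikθ}` with `s = |x|^2/2`. -/
noncomputable def sep (k : ℕ) (h : ℝ → ℂ) (x : Sp 2) : ℂ := ang k x * h (‖x‖ ^ 2 / 2)

/-- `x` rotated by `π/2`. -/
noncomputable def perp (x : Sp 2) : Sp 2 := !₂[-x 1, x 0]

/-- The covector `x^⊥/|x|^2 + σ x`. -/
noncomputable def dirv (σ : ℝ) (x : Sp 2) : Sp 2 := (‖x‖ ^ 2)⁻¹ • perp x + σ • x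

/-- `e^{i (kθ + κ s)}` with `s = |x|^2/2`. -/
noncomputable def osc (k : ℕ) (κ : ℝ) (x : Sp 2) : ℂ :=
  ang k x * Complex.exp (Complex.I * ((κ * (‖x‖ ^ 2 / 2) : ℝ) : ℂ))

end Pool.Agent.Work.MP_5698f2_an

end

section

/-!
# MP_5698f2_an: growth of the solution in the barrier
-/

open MeasureTheory Filter Topology Set
open scoped ContDiff InnerProductSpace

namespace Pool.Agent.Work.MP_5698f2_an

lemma mono_of_hasDeriv {f f' : ℝ → ℝ} {a b : ℝ} (hf : ∀ x ∈ Icc a b, HasDerivAt f (f' x) x)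
    (h0 : ∀ x ∈ Icc a b, 0 ≤ f' x) : MonotoneOn f (Icc a b) := by
  refine monotoneOn_of_deriv_nonneg (convex_Icc a b)
    (fun t ht => (hf t ht).continuousAt.continuousWithinAt) ?_ ?_
  · intro t ht
    rw [interior_Icc] at ht
    exact (hf t (Ioo_subset_Icc_self ht)).differentiableAt.differentiableWithinAt
  · intro t ht
    rw [interior_Icc] at ht
    rw [(hf t (Ioo_subset_Icc_self ht)).deriv]
    exact h0 t (Ioo_subset_Icc_self ht)

/-- In the barrier the solution with data `(0,1)` has `u ≥ 0`, `v ≥ 1` and `v` increasing. -/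
theorem grow_pos {u v Om : ℝ → ℝ} {T : ℝ} (hT : 0 ≤ T) (hOm : ∀ x ∈ Icc 0 T, Om x ≤ 0)
    (hu : ∀ x ∈ Icc 0 T, HasDerivAt u (v x) x)
    (hv : ∀ x ∈ Icc 0 T, HasDerivAt v (-Om x * u x) x) (hu0 : u 0 = 0) (hv0 : v 0 = 1) :
    (∀ x ∈ Icc 0 T, 0 ≤ u x ∧ 1 ≤ v x) ∧ MonotoneOn v (Icc 0 T) := by
  have h0m : (0 : ℝ) ∈ Icc 0 T := left_mem_Icc.mpr hT
  have huv : ∀ x ∈ Icc 0 T, HasDerivAt (fun y => u y * v y) (v x ^ 2 - Om x * u x ^ 2) x :=
    fun x hx => ((hu x hx).mul (hv x hx)).congr_deriv (by ring)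
  have huv0 : ∀ x ∈ Icc 0 T, 0 ≤ u x * v x := by
    intro x hx
    have h := mono_of_hasDeriv huv (fun x hx => by
      have := mul_nonneg (neg_nonneg.mpr (hOm x hx)) (sq_nonneg (u x))
      nlinarith [sq_nonneg (v x)]) h0m hx hx.1
    simpa [hu0] using h
  have hv2 : ∀ x ∈ Icc 0 T, HasDerivAt (fun y => v y ^ 2) (-2 * Om x * (u x * v x)) x :=
    fun x hx => ((hv x hx).pow 2).congr_deriv (by
      simp only [show (2 - 1 : ℕ) = 1 from rfl, pow_one]; push_cast; ring)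
  have hv21 : ∀ x ∈ Icc 0 T, 1 ≤ v x ^ 2 := by
    intro x hx
    have h := mono_of_hasDeriv hv2 (fun x hx => by
      have h1 := hOm x hx
      have h2 := huv0 x hx
      nlinarith [mul_nonneg (neg_nonneg.mpr h1) h2]) h0m hx hx.1
    simpa [hv0] using h
  have hvc : ContinuousOn v (Icc 0 T) := fun x hx => (hv x hx).continuousAt.continuousWithinAt
  have hvpos : ∀ x ∈ Icc 0 T, 1 ≤ v x := by
    intro x hx
    by_contra hcon
    push Not at hcon
    have h1 := hv21 x hx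
    have hneg : v x ≤ 0 := by
      by_contra h2
      push Not at h2
      nlinarith
    have h3 := intermediate_value_Icc' hx.1 (hvc.mono (Icc_subset_Icc le_rfl hx.2))
    have h4 : (0 : ℝ) ∈ Icc (v x) (v 0) := ⟨hneg, by rw [hv0]; norm_num⟩
    obtain ⟨y, hy, hy0⟩ := h3 h4
    have h5 := hv21 y ⟨hy.1, hy.2.trans hx.2⟩
    rw [hy0] at h5
    norm_num at h5
  have hu0' : ∀ x ∈ Icc 0 T, 0 ≤ u x := by
    intro x hx
    have h := mono_of_hasDeriv hu (fun x hx => by linarith [hvpos x hx]) h0m hx hx.1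
    simpa [hu0] using h
  refine ⟨fun x hx => ⟨hu0' x hx, hvpos x hx⟩, mono_of_hasDeriv hv ?_⟩
  intro x hx
  exact mul_nonneg (neg_nonneg.mpr (hOm x hx)) (hu0' x hx)

/-- Exponential lower bound. -/
theorem grow_exp {u v Om : ℝ → ℝ} {T w : ℝ} (hT : 0 ≤ T) (hw : 0 ≤ w)
    (hOm : ∀ x ∈ Icc 0 T, w ^ 2 ≤ -Om x)
    (hu : ∀ x ∈ Icc 0 T, HasDerivAt u (v x) x)
    (hv : ∀ x ∈ Icc 0 T, HasDerivAt v (-Om x * u x) x) (hu0 : u 0 = 0) (hv0 : v 0 = 1) :
    ∀ x ∈ Icc 0 T, Real.exp (w * x) / 2 ≤ v x := by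
  have h0m : (0 : ℝ) ∈ Icc 0 T := left_mem_Icc.mpr hT
  obtain ⟨hpos, -⟩ := grow_pos hT (fun x hx => by nlinarith [hOm x hx]) hu hv hu0 hv0
  intro x hx
  have h1 : ∀ x ∈ Icc 0 T, HasDerivAt (fun y => Real.exp (-(w * y)) * (v y + w * u y))
      (Real.exp (-(w * x)) * ((-Om x - w ^ 2) * u x)) x := by
    intro x hx
    have h := ((((hasDerivAt_id x).const_mul w).neg).exp).mul
      ((hv x hx).add ((hu x hx).const_mul w))
    exact h.congr_deriv (by simp; ring)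
  have h2 := mono_of_hasDeriv h1 (fun x hx => by
    have e1 := hOm x hx
    have e2 := (hpos x hx).1
    exact mul_nonneg (Real.exp_pos _).le (mul_nonneg (by linarith) e2)) h0m hx hx.1
  simp only [mul_zero, neg_zero, Real.exp_zero, hu0, hv0, add_zero, mul_one] at h2
  have h3 : Real.exp (w * x) ≤ v x + w * u x := by
    have e1 : Real.exp (w * x) * Real.exp (-(w * x)) = 1 := by
      rw [← Real.exp_add]; simp
    have e2 := mul_le_mul_of_nonneg_left h2 (Real.exp_pos (w * x)).le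
    rw [mul_one, ← mul_assoc, e1, one_mul] at e2
    exact e2
  have h4 : ∀ x ∈ Icc 0 T, HasDerivAt (fun y => v y ^ 2 - w ^ 2 * u y ^ 2)
      (2 * (u x * v x) * (-Om x - w ^ 2)) x := by
    intro x hx
    have h := ((hv x hx).pow 2).sub (((hu x hx).pow 2).const_mul (w ^ 2))
    exact h.congr_deriv (by
      simp only [show (2 - 1 : ℕ) = 1 from rfl, pow_one]; push_cast; ring)
  have h5 := mono_of_hasDeriv h4 (fun x hx => by
    have e1 := hOm x hx
    obtain ⟨e2, e3⟩ := hpos x hx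
    exact mul_nonneg (mul_nonneg (by norm_num) (mul_nonneg e2 (by linarith)))
      (by linarith)) h0m hx hx.1
  simp only [hu0, hv0] at h5
  obtain ⟨e2, e3⟩ := hpos x hx
  have h6 : w * u x ≤ v x := by
    by_contra hcon
    push Not at hcon
    nlinarith [mul_nonneg hw e2]
  linarith

/-- Upper bound on the growth. -/
theorem grow_up {u v Om : ℝ → ℝ} {T w : ℝ} (hT : 0 ≤ T) (hw : 0 ≤ w)
    (hOm : ∀ x ∈ Icc 0 T, Om x ≤ 0) (hOm2 : ∀ x ∈ Icc 0 T, -Om x ≤ w ^ 2)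
    (hu : ∀ x ∈ Icc 0 T, HasDerivAt u (v x) x)
    (hv : ∀ x ∈ Icc 0 T, HasDerivAt v (-Om x * u x) x) (hu0 : u 0 = 0) (hv0 : v 0 = 1)
    (hs : Real.exp (2 * w * T) ≤ 4) :
    ∀ x ∈ Icc 0 T, |u x| ≤ 2 * x ∧ |v x| ≤ 2 := by
  have h0m : (0 : ℝ) ∈ Icc 0 T := left_mem_Icc.mpr hT
  obtain ⟨hpos, -⟩ := grow_pos hT hOm hu hv hu0 hv0
  have hE : ∀ x ∈ Icc 0 T, HasDerivAt (fun y => v y ^ 2 + w ^ 2 * u y ^ 2)
      (2 * (u x * v x) * (-Om x + w ^ 2)) x := by
    intro x hx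
    have h := ((hv x hx).pow 2).add (((hu x hx).pow 2).const_mul (w ^ 2))
    exact h.congr_deriv (by
      simp only [show (2 - 1 : ℕ) = 1 from rfl, pow_one]; push_cast; ring)
  have hP : ∀ x ∈ Icc 0 T, HasDerivAt (fun y => 2 * w * y) (2 * w) x := by
    intro x _
    simpa using (hasDerivAt_id x).const_mul (2 * w)
  have hQ : ∀ x ∈ Icc 0 T, HasDerivAt (fun _ : ℝ => (0 : ℝ)) 0 x := fun x _ =>
    hasDerivAt_const x 0
  have hv2 : ∀ x ∈ Icc 0 T, v x ≤ 2 := by
    intro x hx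
    have key := gronwall_fwd hE hP hQ (fun _ _ => by positivity) (fun _ _ => le_rfl) (by
      intro t ht
      obtain ⟨e1, e2⟩ := hpos t ht
      have e3 := hOm2 t ht
      have e4 : 0 ≤ u t * v t := mul_nonneg e1 (by linarith)
      have e5 : 2 * (u t * v t) * (-Om t + w ^ 2) ≤ 2 * (u t * v t) * (2 * w ^ 2) :=
        mul_le_mul_of_nonneg_left (by linarith) (by linarith)
      have e6 : 0 ≤ 2 * w * (v t - w * u t) ^ 2 := by positivity
      nlinarith) h0m hx hx.1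
    simp only [mul_zero, hu0, hv0, sub_zero, add_zero] at key
    have e1 : Real.exp (2 * w * x) ≤ 4 := by
      refine le_trans (Real.exp_le_exp.mpr ?_) hs
      exact mul_le_mul_of_nonneg_left hx.2 (by positivity)
    have e2 : 0 ≤ w ^ 2 * u x ^ 2 := by positivity
    have e3 : v x ^ 2 ≤ 4 := by nlinarith
    nlinarith [(hpos x hx).2]
  intro x hx
  obtain ⟨e1, e2⟩ := hpos x hx
  refine ⟨?_, ?_⟩
  · rw [abs_of_nonneg e1]
    have h1 : ∀ x ∈ Icc 0 T, HasDerivAt (fun y => 2 * y - u y) (2 - v x) x := by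
      intro x hx
      have h := ((hasDerivAt_id x).const_mul (2 : ℝ)).sub (hu x hx)
      exact h.congr_deriv (by simp)
    have h2 := mono_of_hasDeriv h1 (fun x hx => by linarith [hv2 x hx]) h0m hx hx.1
    simp only [mul_zero, hu0, sub_zero] at h2
    linarith
  · rw [abs_of_nonneg (by linarith)]
    exact hv2 x hx

end Pool.Agent.Work.MP_5698f2_an

end

section

open MeasureTheory Filter Topology Set
open scoped ContDiff InnerProductSpace

namespace Pool.Agent.Work.MP_5698f2_an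

/-! # The Fourier transform of `c(x) e^{i(kθ + κ s)}` is concentrated near `k (x^⊥/|x|^2 + σ x)` -/

lemma contDiff_perp : ContDiff ℝ ∞ perp := by
  rw [contDiff_euclidean]
  intro i
  have h0 : ContDiff ℝ ∞ (fun x : Sp 2 => x 0) :=
    (EuclideanSpace.proj (𝕜 := ℝ) (0 : Fin 2)).contDiff
  have h1 : ContDiff ℝ ∞ (fun x : Sp 2 => x 1) :=
    (EuclideanSpace.proj (𝕜 := ℝ) (1 : Fin 2)).contDiff
  fin_cases i
  · simpa [perp] using h1.neg
  · simpa [perp] using h0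

lemma norm_sq_two_od (x : Sp 2) : ‖x‖ ^ 2 = x 0 ^ 2 + x 1 ^ 2 := by
  rw [EuclideanSpace.norm_sq_eq]
  simp

lemma perp_inner (x v : Sp 2) : ⟪perp x, v⟫_ℝ = -x 1 * v 0 + x 0 * v 1 := by
  simp [perp, PiLp.inner_apply, Fin.sum_univ_two]
  ring

lemma norm_ang_od {k : ℕ} {x : Sp 2} (hx : x ≠ 0) : ‖ang k x‖ = 1 := by
  have h1 : ‖((x 0 : ℝ) + (x 1 : ℝ) * Complex.I : ℂ)‖ = ‖x‖ := by
    rw [← sq_eq_sq₀ (norm_nonneg _) (norm_nonneg _), norm_sq_two_od, ← Complex.normSq_eq_norm_sq,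
      Complex.normSq_apply]
    simp
    ring
  unfold ang
  rw [norm_pow, norm_div, h1, Complex.norm_real, Real.norm_eq_abs, abs_norm,
    div_self (norm_ne_zero_iff.2 hx), one_pow]

lemma norm_ang_le (k : ℕ) (x : Sp 2) : ‖ang k x‖ ≤ 1 := by
  by_cases hx : x = 0
  · subst hx
    unfold ang
    rw [norm_pow]
    refine pow_le_one₀ (norm_nonneg _) ?_
    simp
  · exact (norm_ang_od hx).le

lemma norm_osc {k : ℕ} {κ : ℝ} {x : Sp 2} (hx : x ≠ 0) : ‖osc k κ x‖ = 1 := by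
  unfold osc
  rw [norm_mul, norm_ang_od hx, mul_comm Complex.I, Complex.norm_exp_ofReal_mul_I, one_mul]

lemma norm_osc_le (k : ℕ) (κ : ℝ) (x : Sp 2) : ‖osc k κ x‖ ≤ 1 := by
  unfold osc
  rw [norm_mul, mul_comm Complex.I, Complex.norm_exp_ofReal_mul_I, mul_one]
  exact norm_ang_le k x

lemma norm_wave_od {n : ℕ} (ξ x : Sp n) : ‖wave ξ x‖ = 1 := by
  unfold wave
  rw [mul_comm Complex.I, Complex.norm_exp_ofReal_mul_I]

lemma hasFDerivAt_wave {n : ℕ} (ξ x : Sp n) :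
    HasFDerivAt (wave ξ) ((Complex.I * wave ξ x) • (Complex.ofRealCLM.comp (innerSL ℝ ξ))) x := by
  have h1 : HasFDerivAt (fun y : Sp n => Complex.I * ((⟪ξ, y⟫_ℝ : ℝ) : ℂ))
      (Complex.I • (Complex.ofRealCLM.comp (innerSL ℝ ξ))) x :=
    ((Complex.ofRealCLM.comp (innerSL ℝ ξ)).hasFDerivAt (x := x)).const_mul Complex.I
  have h2 := h1.cexp
  rw [smul_smul, mul_comm] at h2
  exact h2

lemma hasFDerivAt_norm_sq_half {n : ℕ} (x : Sp n) :
    HasFDerivAt (fun y : Sp n => ‖y‖ ^ 2 / 2) (innerSL ℝ x) x := by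
  have h := (hasStrictFDerivAt_norm_sq x).hasFDerivAt
  have h2 := h.mul_const (2⁻¹ : ℝ)
  refine (h2.congr_fderiv ?_).congr_of_eventuallyEq ?_
  · ext v
    simp
  · exact Filter.Eventually.of_forall fun y => by simp [div_eq_mul_inv]

lemma hasFDerivAt_ang_od (k : ℕ) {x : Sp 2} (hx : x ≠ 0) :
    HasFDerivAt (ang k) ((Complex.I * ang k x) •
      (Complex.ofRealCLM.comp (innerSL ℝ (((k : ℝ) / ‖x‖ ^ 2) • perp x)))) x := by
  have hn : ‖x‖ ≠ 0 := norm_ne_zero_iff.2 hx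
  have hnC : ((‖x‖ : ℝ) : ℂ) ≠ 0 := by exact_mod_cast hn
  have h0 : HasFDerivAt (fun y : Sp 2 => ((y 0 : ℝ) : ℂ))
      (Complex.ofRealCLM.comp (EuclideanSpace.proj (𝕜 := ℝ) (0 : Fin 2))) x :=
    (Complex.ofRealCLM.comp (EuclideanSpace.proj (𝕜 := ℝ) (0 : Fin 2))).hasFDerivAt
  have h1 : HasFDerivAt (fun y : Sp 2 => ((y 1 : ℝ) : ℂ))
      (Complex.ofRealCLM.comp (EuclideanSpace.proj (𝕜 := ℝ) (1 : Fin 2))) x :=
    (Complex.ofRealCLM.comp (EuclideanSpace.proj (𝕜 := ℝ) (1 : Fin 2))).hasFDerivAt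
  have h2 := h0.add (h1.mul_const Complex.I)
  -- derivative of the norm
  have h3 : HasFDerivAt (fun y : Sp 2 => ‖y‖) (‖x‖⁻¹ • innerSL ℝ x) x := by
    have h := (hasStrictFDerivAt_norm_sq x).hasFDerivAt.sqrt (pow_ne_zero 2 hn)
    refine (h.congr_fderiv ?_).congr_of_eventuallyEq ?_
    · ext v
      simp [Real.sqrt_sq (norm_nonneg x)]
      field_simp
    · exact Filter.Eventually.of_forall fun y => by
        simp [Real.sqrt_sq (norm_nonneg y)]
  have h4 : HasFDerivAt (fun y : Sp 2 => ((‖y‖⁻¹ : ℝ) : ℂ))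
      (Complex.ofRealCLM.comp ((-(‖x‖ ^ 2)⁻¹) • (‖x‖⁻¹ • innerSL ℝ x))) x :=
    Complex.ofRealCLM.hasFDerivAt.comp x ((hasDerivAt_inv hn).comp_hasFDerivAt x h3)
  have h5 := (h2.mul h4).pow k
  refine (h5.congr_fderiv ?_).congr_of_eventuallyEq ?_
  · ext v
    simp
    rw [perp_inner]
    have hxv : ⟪x, v⟫_ℝ = x 0 * v 0 + x 1 * v 1 := by
      simp [PiLp.inner_apply, Fin.sum_univ_two]
      ring
    rw [hxv]
    have hn2 : ((‖x‖ : ℝ) : ℂ) ^ 2 = (x 0 : ℂ) ^ 2 + (x 1 : ℂ) ^ 2 := by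
      exact_mod_cast congrArg (fun r : ℝ => (r : ℂ)) (norm_sq_two_od x)
    have key : -(((x 0 : ℂ) + (x 1 : ℂ) * Complex.I) *
        ((((‖x‖ : ℝ) : ℂ) ^ 2)⁻¹ * ((((‖x‖ : ℝ) : ℂ))⁻¹ * ((x 0 * v 0 + x 1 * v 1 : ℝ) : ℂ)))) +
        ((((‖x‖ : ℝ) : ℂ))⁻¹ * (v 0 : ℂ) + (((‖x‖ : ℝ) : ℂ))⁻¹ * (Complex.I * (v 1 : ℂ))) =
        Complex.I * (((x 0 : ℂ) + (x 1 : ℂ) * Complex.I) * (((‖x‖ : ℝ) : ℂ))⁻¹) *
        (1 / ((‖x‖ : ℝ) : ℂ) ^ 2 * ((-x 1 * v 0 + x 0 * v 1 : ℝ) : ℂ)) := by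
      field_simp
      push_cast
      rw [hn2]
      linear_combination ((x 1 : ℂ) ^ 2 * (v 0 : ℂ) - (x 0 : ℂ) * (x 1 : ℂ) * (v 1 : ℂ)) *
        Complex.I_sq
    rcases Nat.eq_zero_or_pos k with hk | hk
    · subst hk
      simp
    · obtain ⟨j, rfl⟩ : ∃ j, k = j + 1 := ⟨k - 1, by omega⟩
      have hang : ang (j + 1) x = (((x 0 : ℂ) + (x 1 : ℂ) * Complex.I) *
          (((‖x‖ : ℝ) : ℂ))⁻¹) ^ j * (((x 0 : ℂ) + (x 1 : ℂ) * Complex.I) *
          (((‖x‖ : ℝ) : ℂ))⁻¹) := by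
        rw [← pow_succ]
        simp [ang, div_eq_mul_inv]
      rw [hang, Nat.add_sub_cancel]
      linear_combination (((j + 1 : ℕ) : ℂ)) * (((x 0 : ℂ) + (x 1 : ℂ) * Complex.I) *
          (((‖x‖ : ℝ) : ℂ))⁻¹) ^ j * key
  · refine Filter.Eventually.of_forall fun y => ?_
    simp [ang, div_eq_mul_inv]


lemma hasFDerivAt_osc (k : ℕ) (κ : ℝ) {x : Sp 2} (hx : x ≠ 0) :
    HasFDerivAt (osc k κ) ((Complex.I * osc k κ x) •
      (Complex.ofRealCLM.comp (innerSL ℝ (((k : ℝ) / ‖x‖ ^ 2) • perp x + κ • x)))) x := by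
  have h1 := hasFDerivAt_ang_od k hx
  have h2 : HasFDerivAt (fun y : Sp 2 => Complex.I * ((κ * (‖y‖ ^ 2 / 2) : ℝ) : ℂ))
      (Complex.I • (Complex.ofRealCLM.comp (κ • innerSL ℝ x))) x :=
    (Complex.ofRealCLM.hasFDerivAt.comp x
      ((hasFDerivAt_norm_sq_half x).const_mul κ)).const_mul Complex.I
  have h3 := h1.mul h2.cexp
  refine (h3.congr_fderiv ?_).congr_of_eventuallyEq (Filter.Eventually.of_forall fun y => rfl)
  ext v
  simp [osc]
  ring

lemma contDiffAt_ang_od (k : ℕ) {x : Sp 2} (hx : x ≠ 0) : ContDiffAt ℝ ∞ (ang k) x := by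
  have h0 : ContDiff ℝ ∞ (fun y : Sp 2 => ((y 0 : ℝ) : ℂ)) :=
    (Complex.ofRealCLM.comp (EuclideanSpace.proj (𝕜 := ℝ) (0 : Fin 2))).contDiff
  have h1 : ContDiff ℝ ∞ (fun y : Sp 2 => ((y 1 : ℝ) : ℂ)) :=
    (Complex.ofRealCLM.comp (EuclideanSpace.proj (𝕜 := ℝ) (1 : Fin 2))).contDiff
  have h2 : ContDiffAt ℝ ∞ (fun y : Sp 2 => ‖y‖⁻¹) x :=
    (contDiffAt_norm ℝ hx).inv (norm_ne_zero_iff.2 hx)
  have h3 : ContDiffAt ℝ ∞ (fun y : Sp 2 => ((‖y‖⁻¹ : ℝ) : ℂ)) x :=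
    Complex.ofRealCLM.contDiff.contDiffAt.comp x h2
  have h4 := (((h0.add (h1.mul (contDiff_const (c := Complex.I)))).contDiffAt (x := x)).mul
    h3).pow k
  refine h4.congr_of_eventuallyEq (Filter.Eventually.of_forall fun y => ?_)
  simp [ang, div_eq_mul_inv]

lemma contDiffAt_osc (k : ℕ) (κ : ℝ) {x : Sp 2} (hx : x ≠ 0) :
    ContDiffAt ℝ ∞ (osc k κ) x := by
  refine (contDiffAt_ang_od k hx).mul ?_
  have h1 : ContDiff ℝ ∞ (fun y : Sp 2 => κ * (‖y‖ ^ 2 / 2)) :=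
    contDiff_const.mul ((contDiff_norm_sq ℝ).div_const 2)
  have h2 : ContDiff ℝ ∞ (fun y : Sp 2 => Complex.I * ((κ * (‖y‖ ^ 2 / 2) : ℝ) : ℂ)) :=
    contDiff_const.mul (Complex.ofRealCLM.contDiff.comp h1)
  exact h2.cexp.contDiffAt

/-- The phase gradient as a function of the normalised parameters. -/
noncomputable def phb (σ : ℝ) (x : Sp 2) (P : Sp 4) : Sp 2 :=
  (P 0 * (‖x‖ ^ 2)⁻¹) • perp x + (σ * P 1) • x - !₂[P 2, P 3]

lemma contDiff_tail : ContDiff ℝ ∞ (fun P : Sp 4 => (!₂[P 2, P 3] : Sp 2)) := by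
  rw [contDiff_euclidean]
  intro i
  have h0 : ContDiff ℝ ∞ (fun x : Sp 4 => x 2) :=
    (EuclideanSpace.proj (𝕜 := ℝ) (2 : Fin 4)).contDiff
  have h1 : ContDiff ℝ ∞ (fun x : Sp 4 => x 3) :=
    (EuclideanSpace.proj (𝕜 := ℝ) (3 : Fin 4)).contDiff
  fin_cases i
  · simpa using h0
  · simpa using h1

lemma contDiffOn_phb (σ : ℝ) :
    ContDiffOn ℝ ∞ (fun z : Sp 2 × Sp 4 => phb σ z.1 z.2) {z | z.1 ≠ 0} := by
  intro z hz
  have h0 : ContDiffAt ℝ ∞ (fun z : Sp 2 × Sp 4 => z.2 0) z :=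
    ((EuclideanSpace.proj (𝕜 := ℝ) (0 : Fin 4)).contDiff.comp contDiff_snd).contDiffAt
  have h1 : ContDiffAt ℝ ∞ (fun z : Sp 2 × Sp 4 => z.2 1) z :=
    ((EuclideanSpace.proj (𝕜 := ℝ) (1 : Fin 4)).contDiff.comp contDiff_snd).contDiffAt
  have h2 : ContDiffAt ℝ ∞ (fun z : Sp 2 × Sp 4 => (‖z.1‖ ^ 2)⁻¹) z := by
    refine ContDiffAt.inv ?_ (pow_ne_zero 2 (norm_ne_zero_iff.2 hz))
    exact ((contDiff_norm_sq ℝ).comp contDiff_fst).contDiffAt
  have h3 : ContDiffAt ℝ ∞ (fun z : Sp 2 × Sp 4 => perp z.1) z :=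
    (contDiff_perp.comp contDiff_fst).contDiffAt
  have h4 : ContDiffAt ℝ ∞ (fun z : Sp 2 × Sp 4 => (!₂[z.2 2, z.2 3] : Sp 2)) z :=
    (contDiff_tail.comp contDiff_snd).contDiffAt
  have h5 : ContDiffAt ℝ ∞ (fun z : Sp 2 × Sp 4 => z.1) z := contDiff_fst.contDiffAt
  exact ((((h0.mul h2).smul h3).add ((contDiffAt_const.mul h1).smul h5)).sub
    h4).contDiffWithinAt

lemma phb_eq (σ : ℝ) (x : Sp 2) (P : Sp 4) :
    phb σ x P = P 0 • dirv σ x + (σ * (P 1 - P 0)) • x - !₂[P 2, P 3] := by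
  unfold phb dirv
  module

lemma continuousAt_dirv (σ : ℝ) {x : Sp 2} (hx : x ≠ 0) : ContinuousAt (dirv σ) x := by
  unfold dirv
  have h1 : ContinuousAt (fun x : Sp 2 => (‖x‖ ^ 2)⁻¹) x :=
    ((continuous_norm.pow 2).continuousAt).inv₀ (pow_ne_zero 2 (norm_ne_zero_iff.2 hx))
  have h2 : ContinuousAt (fun x : Sp 2 => σ • x) x := (continuous_const_smul σ).continuousAt
  exact (h1.smul contDiff_perp.continuous.continuousAt).add h2

/-- The set of normalised parameters. -/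
def Qset (σ ε δ : ℝ) (x₀ : Sp 2) : Set (Sp 4) :=
  {P | 0 ≤ P 0 ∧ P 0 + ‖(!₂[P 2, P 3] : Sp 2)‖ = 1 ∧ |P 1 - P 0| ≤ δ * P 0 ∧
    ε * P 0 ≤ ‖(!₂[P 2, P 3] : Sp 2) - P 0 • dirv σ x₀‖}

lemma isCompact_Qset (σ ε δ : ℝ) (hδ : 0 ≤ δ) (x₀ : Sp 2) : IsCompact (Qset σ ε δ x₀) := by
  have c0 : Continuous fun P : Sp 4 => P 0 := (EuclideanSpace.proj (𝕜 := ℝ) (0 : Fin 4)).continuous
  have c1 : Continuous fun P : Sp 4 => P 1 := (EuclideanSpace.proj (𝕜 := ℝ) (1 : Fin 4)).continuous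
  have ct : Continuous fun P : Sp 4 => (!₂[P 2, P 3] : Sp 2) := contDiff_tail.continuous
  have hcl : IsClosed (Qset σ ε δ x₀) := by
    refine (isClosed_le continuous_const c0).inter ((isClosed_eq (c0.add ct.norm)
      continuous_const).inter ((isClosed_le (c1.sub c0).abs (continuous_const.mul c0)).inter
      (isClosed_le (continuous_const.mul c0) (ct.sub (c0.smul continuous_const)).norm)))
  refine Metric.isCompact_of_isClosed_isBounded hcl ?_
  rw [isBounded_iff_forall_norm_le]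
  refine ⟨√(1 + (1 + δ) ^ 2 + 1), ?_⟩
  intro P hP
  obtain ⟨h0, h1, h2, -⟩ := hP
  refine Real.le_sqrt_of_sq_le ?_
  have ht : ‖(!₂[P 2, P 3] : Sp 2)‖ ^ 2 = P 2 ^ 2 + P 3 ^ 2 := by
    rw [norm_sq_two_od]
    simp
  have hn : ‖P‖ ^ 2 = P 0 ^ 2 + P 1 ^ 2 + (P 2 ^ 2 + P 3 ^ 2) := by
    rw [EuclideanSpace.norm_sq_eq]
    simp [Fin.sum_univ_four]
    ring
  have h3 : P 0 ≤ 1 := by
    have := norm_nonneg (!₂[P 2, P 3] : Sp 2)
    linarith
  have h4 : ‖(!₂[P 2, P 3] : Sp 2)‖ ≤ 1 := by linarith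
  have h5 : |P 1| ≤ 1 + δ := by
    have h6 : |P 1| ≤ |P 1 - P 0| + |P 0| := by
      have := abs_add_le (P 1 - P 0) (P 0)
      simpa using this
    rw [abs_of_nonneg h0] at h6
    nlinarith
  have h7 : P 1 ^ 2 ≤ (1 + δ) ^ 2 := by
    rw [← sq_abs]
    exact pow_le_pow_left₀ (abs_nonneg _) h5 2
  rw [hn, ← ht]
  have h8 : P 0 ^ 2 ≤ 1 := by nlinarith
  have h9 : ‖(!₂[P 2, P 3] : Sp 2)‖ ^ 2 ≤ 1 := by
    have := norm_nonneg (!₂[P 2, P 3] : Sp 2)
    nlinarith
  linarith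

theorem osc_decay {x₀ : Sp 2} (hx₀ : x₀ ≠ 0) {σ : ℝ} (hσ : σ = 1 ∨ σ = -1) {ε : ℝ}
    (hε : 0 < ε) : ∃ ρ : ℝ, 0 < ρ ∧ ρ < ‖x₀‖ ∧ ∀ c : Sp 2 → ℂ, ContDiff ℝ ∞ c →
      tsupport c ⊆ Metric.closedBall x₀ ρ → ∀ M : ℕ, ∃ C : ℝ, ∃ K : ℕ, ∀ k : ℕ, K ≤ k →
        ∀ κ : ℝ, |κ - k| ≤ √(k : ℝ) → ∀ η : Sp 2, ε * k ≤ ‖η - (k : ℝ) • dirv σ x₀‖ →
          ‖∫ x, c x * osc k (σ * κ) x * wave (-η) x‖ ≤ C * (k + ‖η‖) ^ (-(M : ℝ)) := by
  have hn0 : 0 < ‖x₀‖ := norm_pos_iff.2 hx₀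
  have hσ1 : |σ| = 1 := by rcases hσ with h | h <;> simp [h]
  obtain ⟨ρ0, hρ0, hρ1⟩ : ∃ ρ0 > 0, ∀ x, dist x x₀ < ρ0 → dist (dirv σ x) (dirv σ x₀) < ε / 2 :=
    Metric.continuousAt_iff.1 (continuousAt_dirv σ hx₀) (ε / 2) (by positivity)
  set ρ : ℝ := min (ρ0 / 2) (‖x₀‖ / 2) with hρdef
  have hρpos : 0 < ρ := lt_min (by positivity) (by positivity)
  have hρlt : ρ < ‖x₀‖ := (min_le_right _ _).trans_lt (by linarith)
  set δ : ℝ := ε / (8 * ‖x₀‖) with hδdef
  have hδ : 0 < δ := by positivity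
  refine ⟨ρ, hρpos, hρlt, ?_⟩
  intro c hc hcK M
  have hKball : ∀ x ∈ Metric.closedBall x₀ ρ, x ≠ 0 := by
    intro x hx h0
    rw [Metric.mem_closedBall, h0, dist_zero_left] at hx
    linarith
  have hOopen : IsOpen {z : Sp 2 × Sp 4 | z.1 ≠ 0} :=
    isOpen_compl_singleton.preimage continuous_fst
  obtain ⟨C, hC⟩ := nonstationary (b := phb σ) (K := Metric.closedBall x₀ ρ)
    (Q := Qset σ ε δ x₀) (isCompact_closedBall x₀ ρ) (isCompact_Qset σ ε δ hδ.le x₀)
    hOopen (fun z hz => hKball z.1 hz.1) (contDiffOn_phb σ)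
    (by
      intro x hx P hP h0
      obtain ⟨hP0, hP1, hP2, hP3⟩ := hP
      rw [phb_eq, sub_eq_zero] at h0
      have h1 : (!₂[P 2, P 3] : Sp 2) - P 0 • dirv σ x₀ =
          P 0 • (dirv σ x - dirv σ x₀) + (σ * (P 1 - P 0)) • x := by
        rw [← h0]
        module
      have hxn : ‖x‖ ≤ 2 * ‖x₀‖ := by
        rw [Metric.mem_closedBall, dist_eq_norm] at hx
        have := norm_le_norm_add_norm_sub' x x₀
        linarith
      have hdist : ‖dirv σ x - dirv σ x₀‖ ≤ ε / 2 := by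
        rw [← dist_eq_norm]
        refine (hρ1 x ?_).le
        rw [Metric.mem_closedBall] at hx
        have : ρ ≤ ρ0 / 2 := min_le_left _ _
        linarith
      have h2 : ‖(!₂[P 2, P 3] : Sp 2) - P 0 • dirv σ x₀‖ ≤ P 0 * (ε / 2) + P 0 * (ε / 4) := by
        rw [h1]
        refine (norm_add_le _ _).trans (add_le_add ?_ ?_)
        · rw [norm_smul, Real.norm_eq_abs, abs_of_nonneg hP0]
          exact mul_le_mul_of_nonneg_left hdist hP0
        · rw [norm_smul, Real.norm_eq_abs, abs_mul, hσ1, one_mul]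
          calc |P 1 - P 0| * ‖x‖ ≤ (δ * P 0) * (2 * ‖x₀‖) :=
                mul_le_mul hP2 hxn (norm_nonneg _) (by positivity)
            _ = P 0 * (ε / 4) := by
                rw [hδdef]
                field_simp
                ring
      have h3 : P 0 = 0 := by
        by_contra hne
        have hpos : 0 < P 0 := lt_of_le_of_ne hP0 (Ne.symm hne)
        nlinarith
      have h4 : P 1 = 0 := by
        rw [h3, sub_zero, mul_zero] at hP2
        exact abs_eq_zero.1 (le_antisymm hP2 (abs_nonneg _))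
      rw [h3, h4] at h0
      rw [h3, ← h0] at hP1
      simp at hP1) hc hcK M
  obtain ⟨K, hK⟩ := exists_nat_ge (max 1 (1 / δ ^ 2))
  refine ⟨C, K, ?_⟩
  intro k hk κ hκ η hη
  have hk1 : (1 : ℝ) ≤ k := ((le_max_left _ _).trans hK).trans (by exact_mod_cast hk)
  have hkδ : 1 / δ ^ 2 ≤ (k : ℝ) := ((le_max_right _ _).trans hK).trans (by exact_mod_cast hk)
  set r : ℝ := k + ‖η‖ with hr
  have hr1 : 1 ≤ r := by
    have := norm_nonneg η
    linarith
  have hr0 : 0 < r := by linarith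
  have hsqrt : √(k : ℝ) ≤ δ * k := by
    rw [Real.sqrt_le_left (by positivity)]
    rw [div_le_iff₀ (by positivity)] at hkδ
    nlinarith
  set P : Sp 4 := !₂[(k : ℝ) / r, κ / r, η 0 / r, η 1 / r] with hPdef
  have e0 : P 0 = k / r := by simp [hPdef]
  have e1 : P 1 = κ / r := by simp [hPdef]
  have e2 : P 2 = η 0 / r := by simp [hPdef]
  have e3 : P 3 = η 1 / r := by simp [hPdef]
  have et : (!₂[P 2, P 3] : Sp 2) = r⁻¹ • η := by
    ext i
    fin_cases i
    · simp [e2, div_eq_inv_mul]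
    · simp [e3, div_eq_inv_mul]
  have hPQ : P ∈ Qset σ ε δ x₀ := by
    refine ⟨?_, ?_, ?_, ?_⟩
    · rw [e0]; positivity
    · rw [e0, et, norm_smul, norm_inv, Real.norm_eq_abs, abs_of_pos hr0, hr]
      field_simp
    · rw [e0, e1, ← sub_div, abs_div, abs_of_pos hr0, ← mul_div_assoc]
      exact div_le_div_of_nonneg_right (hκ.trans hsqrt) hr0.le
    · rw [e0, et]
      have : r⁻¹ • η - ((k : ℝ) / r) • dirv σ x₀ = r⁻¹ • (η - (k : ℝ) • dirv σ x₀) := by
        rw [smul_sub, smul_smul, div_eq_inv_mul]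
      rw [this, norm_smul, norm_inv, Real.norm_eq_abs, abs_of_pos hr0, ← mul_div_assoc,
        div_eq_inv_mul]
      exact mul_le_mul_of_nonneg_left hη (by positivity)
  have hfin := hC P hPQ r hr1 (fun x => osc k (σ * κ) x * wave (-η) x)
    (by
      intro x
      rw [norm_mul, norm_wave_od, mul_one]
      exact norm_osc_le _ _ _)
    (by
      intro x hx
      have hx0 := hKball x hx
      have h1 := (hasFDerivAt_osc k (σ * κ) hx0).mul (hasFDerivAt_wave (-η) x)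
      refine h1.congr_fderiv ?_
      have hph : r • phb σ x P = ((k : ℝ) / ‖x‖ ^ 2) • perp x + (σ * κ) • x + (-η) := by
        unfold phb
        rw [et, e0, e1, smul_sub, smul_add, smul_smul, smul_smul, smul_smul,
          mul_inv_cancel₀ hr0.ne', one_smul, ← sub_eq_add_neg]
        congr 3
        · field_simp
        · field_simp
      have hph2 : ∀ v, r * ⟪phb σ x P, v⟫_ℝ =
          ⟪((k : ℝ) / ‖x‖ ^ 2) • perp x + (σ * κ) • x + (-η), v⟫_ℝ := by
        intro v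
        rw [← hph, real_inner_smul_left]
      ext v
      have h2 := congrArg (fun t : ℝ => (t : ℂ)) (hph2 v)
      rw [inner_add_left] at h2
      push_cast at h2
      simp only [_root_.add_apply, _root_.smul_apply, ContinuousLinearMap.comp_apply, innerSL_apply_apply, Complex.ofRealCLM_apply, smul_eq_mul]
      linear_combination (-Complex.I * osc k (σ * κ) x * wave (-η) x) * h2)
  have : (fun x => c x * osc k (σ * κ) x * wave (-η) x) =
      fun x => c x * (osc k (σ * κ) x * wave (-η) x) := by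
    funext x
    ring
  rw [this]
  exact hfin

end Pool.Agent.Work.MP_5698f2_an

end

section

/-!
# MP_5698f2_an: functions `h(s) e^{ikθ}`
-/

open MeasureTheory Filter Topology Set
open scoped ContDiff InnerProductSpace

namespace Pool.Agent.Work.MP_5698f2_an

lemma norm_coord (x : Sp 2) : ‖((x 0 : ℝ) + (x 1 : ℝ) * Complex.I : ℂ)‖ = ‖x‖ := by
  have h : ‖((x 0 : ℝ) + (x 1 : ℝ) * Complex.I : ℂ)‖ ^ 2 = ‖x‖ ^ 2 := by
    rw [norm_sq_two, ← Complex.normSq_eq_norm_sq, Complex.normSq_add_mul_I]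
  exact (sq_eq_sq₀ (norm_nonneg _) (norm_nonneg _)).mp h

lemma norm_ang (k : ℕ) {x : Sp 2} (hx : x ≠ 0) : ‖ang k x‖ = 1 := by
  unfold ang
  rw [norm_pow, norm_div, norm_coord, Complex.norm_real, norm_norm, div_self, one_pow]
  exact norm_ne_zero_iff.mpr hx

/-- The real linear map `v ↦ c <p, v>` with complex `c`. -/
noncomputable def covec (c : ℂ) (p : Sp 2) : Sp 2 →L[ℝ] ℂ :=
  c • (Complex.ofRealCLM.comp (innerSL ℝ p))

lemma covec_apply (c : ℂ) (p v : Sp 2) : covec c p v = c * (⟪p, v⟫_ℝ : ℝ) := rfl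

lemma inner_two (x y : Sp 2) : ⟪x, y⟫_ℝ = x 0 * y 0 + x 1 * y 1 := by
  rw [PiLp.inner_apply]; simp [Fin.sum_univ_two]; ring

lemma perp_zero' (x : Sp 2) : perp x 0 = - x 1 := rfl
lemma perp_one' (x : Sp 2) : perp x 1 = x 0 := rfl

lemma ofReal_norm_sq_two (x : Sp 2) : ((‖x‖ : ℝ) : ℂ) ^ 2 = (x 0 : ℂ) ^ 2 + (x 1 : ℂ) ^ 2 := by
  rw [← Complex.ofReal_pow, norm_sq_two]; push_cast; ring

lemma hasFDerivAt_half_sq (x : Sp 2) :
    HasFDerivAt (fun y : Sp 2 => ‖y‖ ^ 2 / 2) (innerSL ℝ x) x := by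
  have h := (hasStrictFDerivAt_norm_sq x).hasFDerivAt
  have h2 := h.const_mul (1 / 2 : ℝ)
  have e : (fun y : Sp 2 => ‖y‖ ^ 2 / 2) = fun y => (1 / 2) * ‖y‖ ^ 2 := by
    funext y; ring
  rw [e]
  refine h2.congr_fderiv ?_
  ext v
  simp

lemma hasFDerivAt_coord (j : Fin 2) (x : Sp 2) :
    HasFDerivAt (fun y : Sp 2 => ((y j : ℝ) : ℂ))
      (Complex.ofRealCLM.comp (EuclideanSpace.proj (𝕜 := ℝ) j : Sp 2 →L[ℝ] ℝ)) x :=
  (Complex.ofRealCLM.comp (EuclideanSpace.proj (𝕜 := ℝ) j : Sp 2 →L[ℝ] ℝ)).hasFDerivAt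

lemma hasFDerivAt_norm' {x : Sp 2} (hx : x ≠ 0) :
    HasFDerivAt (fun y : Sp 2 => ‖y‖) ((‖x‖)⁻¹ • innerSL ℝ x) x := by
  have h := (hasFDerivAt_half_sq x).const_mul (2 : ℝ)
  have h1 : HasFDerivAt (fun y : Sp 2 => Real.sqrt (2 * (‖y‖ ^ 2 / 2)))
      ((1 / (2 * Real.sqrt (2 * (‖x‖ ^ 2 / 2)))) • ((2 : ℝ) • innerSL ℝ x)) x := by
    refine h.sqrt ?_
    have : 0 < ‖x‖ := norm_pos_iff.mpr hx
    positivity
  have e : ∀ y : Sp 2, Real.sqrt (2 * (‖y‖ ^ 2 / 2)) = ‖y‖ := by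
    intro y
    rw [show 2 * (‖y‖ ^ 2 / 2) = ‖y‖ ^ 2 by ring, Real.sqrt_sq (norm_nonneg _)]
  have e1 : (fun y : Sp 2 => Real.sqrt (2 * (‖y‖ ^ 2 / 2))) = fun y => ‖y‖ := funext e
  rw [e1, e x] at h1
  refine h1.congr_fderiv ?_
  rw [smul_smul]
  congr 1
  have : ‖x‖ ≠ 0 := norm_ne_zero_iff.mpr hx
  field_simp

/-- The derivative of the angular factor. -/
lemma hasFDerivAt_ang (k : ℕ) {x : Sp 2} (hx : x ≠ 0) :
    HasFDerivAt (ang k) (covec (Complex.I * k * ang k x / ((‖x‖ : ℝ) : ℂ) ^ 2) (perp x)) x := by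
  have hn : (‖x‖ : ℝ) ≠ 0 := norm_ne_zero_iff.mpr hx
  have hnc : ((‖x‖ : ℝ) : ℂ) ≠ 0 := by exact_mod_cast hn
  have h1 : HasFDerivAt (fun y : Sp 2 => ((y 0 : ℝ) : ℂ) + (y 1 : ℝ) * Complex.I)
      (covec 1 !₂[1, 0] + covec Complex.I !₂[0, 1]) x := by
    refine ((hasFDerivAt_coord 0 x).add
      ((hasFDerivAt_coord 1 x).mul_const Complex.I)).congr_fderiv ?_
    ext v
    simp [covec_apply, inner_two]
  have h2 : HasFDerivAt (fun y : Sp 2 => (((‖y‖)⁻¹ : ℝ) : ℂ))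
      (covec (-(((‖x‖ : ℝ) : ℂ) ^ 3)⁻¹) x) x := by
    refine (Complex.ofRealCLM.hasFDerivAt.comp x
      ((hasDerivAt_inv hn).comp_hasFDerivAt x (hasFDerivAt_norm' hx))).congr_fderiv ?_
    ext v
    simp [covec_apply]
    ring
  have h3 : HasFDerivAt (fun y : Sp 2 =>
      ((((y 0 : ℝ) : ℂ) + (y 1 : ℝ) * Complex.I) * (((‖y‖)⁻¹ : ℝ) : ℂ)))
      (covec (Complex.I * ((((x 0 : ℝ) : ℂ) + (x 1 : ℝ) * Complex.I) * (((‖x‖)⁻¹ : ℝ) : ℂ))
        / ((‖x‖ : ℝ) : ℂ) ^ 2) (perp x)) x := by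
    refine (h1.mul h2).congr_fderiv ?_
    ext v
    simp only [covec_apply, inner_two, perp_zero', perp_one', _root_.add_apply,
      _root_.smul_apply, smul_eq_mul]
    simp
    have h6 := ofReal_norm_sq_two x
    field_simp
    linear_combination ((v 0 : ℂ) + Complex.I * (v 1 : ℂ)) * h6 +
      (x 1 : ℂ) * ((x 1 : ℂ) * (v 0 : ℂ) - (x 0 : ℂ) * (v 1 : ℂ)) * Complex.I_sq
  have h4 := h3.pow k
  have e : (fun y : Sp 2 =>
      ((((y 0 : ℝ) : ℂ) + (y 1 : ℝ) * Complex.I) * (((‖y‖)⁻¹ : ℝ) : ℂ)) ^ k)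
      = ang k := by
    funext y
    simp only [ang]
    rw [div_eq_mul_inv, Complex.ofReal_inv]
  rw [e] at h4
  refine h4.congr_fderiv ?_
  ext v
  simp only [covec_apply, _root_.smul_apply, smul_eq_mul, nsmul_eq_mul]
  rcases k with _ | k
  · simp
  · simp only [ang, Nat.add_sub_cancel, pow_succ, Complex.ofReal_inv]
    ring

/-- The derivative of `h(s) e^{ikθ}`. -/
lemma hasFDerivAt_sep (k : ℕ) {x : Sp 2} (hx : x ≠ 0) {h : ℝ → ℂ} {h' : ℂ}
    (hh : HasDerivAt h h' (‖x‖ ^ 2 / 2)) :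
    HasFDerivAt (sep k h)
      (covec (ang k x * h') x +
        covec (Complex.I * k * sep k h x / ((‖x‖ : ℝ) : ℂ) ^ 2) (perp x)) x := by
  have h1 : HasFDerivAt (fun y : Sp 2 => h (‖y‖ ^ 2 / 2)) (covec h' x) x := by
    have h2 := hh.hasFDerivAt.comp x (hasFDerivAt_half_sq x)
    refine h2.congr_fderiv ?_
    ext v
    simp [covec_apply]
    ring
  refine ((hasFDerivAt_ang k hx).mul h1).congr_fderiv ?_
  ext v
  simp only [covec_apply, _root_.add_apply, _root_.smul_apply, smul_eq_mul, sep]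
  ring

lemma contDiffAt_ang (k : ℕ) {x : Sp 2} (hx : x ≠ 0) : ContDiffAt ℝ ∞ (ang k) x := by
  have hn : (‖x‖ : ℝ) ≠ 0 := norm_ne_zero_iff.mpr hx
  have hnc : ((‖x‖ : ℝ) : ℂ) ≠ 0 := by exact_mod_cast hn
  have h0 : ContDiff ℝ ∞ (fun y : Sp 2 => ((y 0 : ℝ) : ℂ)) :=
    Complex.ofRealCLM.contDiff.comp (contDiff_coord 0)
  have h1 : ContDiff ℝ ∞ (fun y : Sp 2 => ((y 1 : ℝ) : ℂ)) :=
    Complex.ofRealCLM.contDiff.comp (contDiff_coord 1)
  have h2 : ContDiffAt ℝ ∞ (fun y : Sp 2 => ((y 0 : ℝ) : ℂ) + ((y 1 : ℝ) : ℂ) * Complex.I) x :=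
    (h0.add (h1.mul contDiff_const)).contDiffAt
  have h3 : ContDiffAt ℝ ∞ (fun y : Sp 2 => ((‖y‖ : ℝ) : ℂ)) x :=
    Complex.ofRealCLM.contDiff.contDiffAt.comp x (contDiffAt_norm ℝ hx)
  have h4 : ContDiffAt ℝ ∞ (fun y : Sp 2 => (((‖y‖ : ℝ) : ℂ))⁻¹) x := h3.inv hnc
  exact (h2.mul h4).pow k

lemma sep_eventually_zero (k : ℕ) {h : ℝ → ℂ} {a b : ℝ} (ha : 0 < a)
    (hs : Function.support h ⊆ Icc a b) : sep k h =ᶠ[𝓝 0] fun _ => 0 := by
  have h1 : ∀ᶠ x : Sp 2 in 𝓝 0, ‖x‖ ^ 2 / 2 < a := by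
    have : Continuous (fun x : Sp 2 => ‖x‖ ^ 2 / 2) := by fun_prop
    exact this.continuousAt.eventually_lt continuousAt_const (by simpa using ha)
  filter_upwards [h1] with x hx
  unfold sep
  have : h (‖x‖ ^ 2 / 2) = 0 := by
    by_contra hne
    exact absurd (hs hne).1 (not_le.mpr hx)
  rw [this, mul_zero]

lemma hasCompactSupport_sep (k : ℕ) {h : ℝ → ℂ} {a b : ℝ}
    (hs : Function.support h ⊆ Icc a b) : HasCompactSupport (sep k h) := by
  refine HasCompactSupport.of_support_subset_isCompact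
    (isCompact_closedBall (0 : Sp 2) (2 * |b| + 1)) ?_
  intro x hx
  rw [mem_closedBall_zero_iff]
  have h1 : h (‖x‖ ^ 2 / 2) ≠ 0 := by
    intro h0
    apply hx
    unfold sep
    rw [h0, mul_zero]
  have h2 := (hs h1).2
  have h3 := le_abs_self b
  have h4 := abs_nonneg b
  by_contra hlt
  rw [not_le] at hlt
  nlinarith

theorem isTest_sep (k : ℕ) {h : ℝ → ℂ} (hh : ContDiff ℝ ∞ h) {a b : ℝ} (ha : 0 < a)
    (hs : Function.support h ⊆ Icc a b) : IsTest (sep k h) := by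
  refine ⟨?_, hasCompactSupport_sep k hs⟩
  rw [contDiff_iff_contDiffAt]
  intro x
  by_cases hx : x = 0
  · subst hx
    exact contDiffAt_const.congr_of_eventuallyEq (sep_eventually_zero k ha hs)
  · exact (contDiffAt_ang k hx).mul (hh.comp contDiff_half_sq).contDiffAt

lemma continuous_sep (k : ℕ) {h : ℝ → ℂ} (hh : Continuous h) {a b : ℝ} (ha : 0 < a)
    (hs : Function.support h ⊆ Icc a b) : Continuous (sep k h) := by
  rw [continuous_iff_continuousAt]
  intro x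
  by_cases hx : x = 0
  · subst hx
    exact continuousAt_const.congr (sep_eventually_zero k ha hs).symm
  · exact (contDiffAt_ang k hx).continuousAt.mul
      (hh.comp contDiff_half_sq.continuous).continuousAt

lemma inner_ev (x : Sp 2) (j : Fin 2) : ⟪x, ev j⟫_ℝ = x j := by
  rw [inner_two]
  fin_cases j <;> simp [ev]

lemma support_deriv_subset_Icc {h : ℝ → ℂ} {a b : ℝ} (hs : Function.support h ⊆ Icc a b) :
    Function.support (deriv h) ⊆ Icc a b :=
  support_deriv_subset.trans (closure_minimal hs isClosed_Icc)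

/-- The flux `A grad u` of `u = h(s) e^{ikθ}`. -/
lemma flux_sep (k : ℕ) {h : ℝ → ℂ} (hh : ContDiff ℝ ∞ h)
    (hs : Function.support h ⊆ Icc 2 (2 * Lc + 4)) (z : Sp 2) (j : Fin 2) :
    ∑ l, (Amat z j l : ℂ) * fderiv ℝ (sep k h) z (ev l) =
      (z j : ℂ) * sep k (fun s => deriv h s / (2 * (s : ℂ))) z +
        (perp z j : ℂ) *
          sep k (fun s => 2 * Complex.I * k * (U0 (s - 3) : ℂ) * h s) z := by
  by_cases hz : z = 0
  · subst hz
    have h1 : fderiv ℝ (sep k h) 0 = 0 := by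
      rw [(sep_eventually_zero k two_pos hs).fderiv_eq]
      simp
    rw [h1]
    fin_cases j <;> simp [perp]
  · have hn : (‖z‖ : ℝ) ≠ 0 := norm_ne_zero_iff.mpr hz
    have hpos : 0 < ‖z‖ := norm_pos_iff.mpr hz
    set s := ‖z‖ ^ 2 / 2 with hsdef
    have hspos : 0 < s := by positivity
    have hd : HasDerivAt h (deriv h s) s :=
      (hh.differentiable (by simp)).differentiableAt.hasDerivAt
    have hf := (hasFDerivAt_sep k hz hd).fderiv
    have hN : ((‖z‖ : ℝ) : ℂ) ^ 2 = 2 * (s : ℂ) := by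
      rw [hsdef]; push_cast; ring
    have hN' : (z 0 : ℂ) ^ 2 + (z 1 : ℂ) ^ 2 = 2 * (s : ℂ) := by
      rw [← ofReal_norm_sq_two, hN]
    have hsc : (s : ℂ) ≠ 0 := by exact_mod_cast hspos.ne'
    -- the coefficients on the support
    have e1 : deriv h s * ((betaf s : ℂ) + 2 * s * (gammaf s : ℂ)) = deriv h s / (2 * s) := by
      by_cases h0 : deriv h s = 0
      · rw [h0]; simp
      · have hmem := support_deriv_subset_Icc hs h0
        have hr := radial_eig hspos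
        rw [cutR_of_mem hmem] at hr
        have hrc : (betaf s : ℂ) + 2 * s * (gammaf s : ℂ) = 1 / (2 * s) := by
          have := congrArg (fun r : ℝ => (r : ℂ)) hr
          push_cast at this
          rw [this]; ring
        rw [hrc]; ring
    have e2 : (betaf s : ℂ) * h s = 4 * s * (U0 (s - 3) : ℂ) * h s := by
      by_cases h0 : h s = 0
      · rw [h0]; simp
      · have hmem := hs h0
        have : betaf s = 4 * s * U0 (s - 3) := by
          unfold betaf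
          rw [cutR_of_mem hmem]; ring
        rw [this]; push_cast; ring
    have hA : ∀ l, (Amat z j l : ℂ) =
        (betaf s : ℂ) * (if j = l then (1 : ℂ) else 0) + (gammaf s : ℂ) * z j * z l := by
      intro l
      unfold Amat
      rw [Matrix.one_apply, ← hsdef]
      split_ifs <;> push_cast <;> rfl
    rw [hf]
    simp only [hA, _root_.add_apply, covec_apply, inner_ev, Fin.sum_univ_two, hN]
    have p0 : ((perp z 0 : ℝ) : ℂ) = - (z 1 : ℂ) := by rw [perp_zero']; push_cast; rfl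
    have p1 : ((perp z 1 : ℝ) : ℂ) = (z 0 : ℂ) := by rw [perp_one']
    rw [p0, p1]
    have e3 : (betaf s : ℂ) * h s / (2 * s) = 2 * (U0 (s - 3) : ℂ) * h s := by
      rw [e2]; field_simp; ring
    unfold sep
    rw [← hsdef]
    obtain rfl | rfl : j = 0 ∨ j = 1 := by fin_cases j <;> simp
    · rw [if_pos rfl, if_neg (by decide), p0]
      linear_combination ang k z * (z 0 : ℂ) * e1 - ang k z * (z 1 : ℂ) * Complex.I * k * e3 +
        (gammaf s : ℂ) * (z 0 : ℂ) * deriv h s * ang k z * hN'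
    · rw [if_pos rfl, if_neg (by decide), p1]
      linear_combination ang k z * (z 1 : ℂ) * e1 + ang k z * (z 0 : ℂ) * Complex.I * k * e3 +
        (gammaf s : ℂ) * (z 1 : ℂ) * deriv h s * ang k z * hN'

theorem schrOp_sep (k : ℕ) {h : ℝ → ℂ} (hh : ContDiff ℝ ∞ h)
    (hs : Function.support h ⊆ Icc 2 (2 * Lc + 4)) :
    schrOp Amat (sep k h) =
      sep k (fun s => -(1 / 2) * deriv (deriv h) s + (k : ℂ) ^ 2 * (U0 (s - 3) : ℂ) * h s) := by
  funext x
  unfold schrOp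
  simp only [flux_sep k hh hs]
  set g1 : ℝ → ℂ := fun s => deriv h s / (2 * (s : ℂ)) with hg1
  set g2 : ℝ → ℂ := fun s => 2 * Complex.I * k * (U0 (s - 3) : ℂ) * h s with hg2
  have hs1 := support_deriv_subset_Icc hs
  have hs2 := support_deriv_subset_Icc hs1
  have s1 : Function.support g1 ⊆ Icc 2 (2 * Lc + 4) := by
    intro t ht
    apply hs1
    intro h0
    apply ht
    rw [hg1]
    simp only
    rw [h0, zero_div]
  have s2 : Function.support g2 ⊆ Icc 2 (2 * Lc + 4) := by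
    intro t ht
    apply hs
    intro h0
    apply ht
    rw [hg2]
    simp only
    rw [h0, mul_zero]
  by_cases hx : x = 0
  · subst hx
    have e : ∀ j : Fin 2, fderiv ℝ (fun z : Sp 2 => (z j : ℂ) * sep k g1 z +
        (perp z j : ℂ) * sep k g2 z) 0 = 0 := by
      intro j
      have : (fun z : Sp 2 => (z j : ℂ) * sep k g1 z + (perp z j : ℂ) * sep k g2 z)
          =ᶠ[𝓝 0] fun _ => 0 := by
        filter_upwards [sep_eventually_zero k two_pos s1, sep_eventually_zero k two_pos s2]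
          with z h1 h2
        rw [h1, h2]; ring
      rw [this.fderiv_eq]
      simp
    simp only [e]
    have h0 : h 0 = 0 := by
      by_contra hne
      have := (hs hne).1
      linarith
    have h2 : deriv (deriv h) 0 = 0 := by
      by_contra hne
      have := (hs2 hne).1
      linarith
    unfold sep
    simp [h0, h2]
  · have hn : (‖x‖ : ℝ) ≠ 0 := norm_ne_zero_iff.mpr hx
    have hpos : 0 < ‖x‖ := norm_pos_iff.mpr hx
    obtain ⟨s, hsdef⟩ : ∃ s : ℝ, s = ‖x‖ ^ 2 / 2 := ⟨_, rfl⟩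
    have hspos : 0 < s := by rw [hsdef]; positivity
    have hsc : (s : ℂ) ≠ 0 := by exact_mod_cast hspos.ne'
    have hN : ((‖x‖ : ℝ) : ℂ) ^ 2 = 2 * (s : ℂ) := by
      rw [hsdef]; push_cast; ring
    have hN' : (x 0 : ℂ) ^ 2 + (x 1 : ℂ) ^ 2 = 2 * (s : ℂ) := by
      rw [← ofReal_norm_sq_two, hN]
    have hh' : ContDiff ℝ ∞ (deriv h) := by
      have := contDiff_infty_iff_deriv.mp hh
      exact this.2
    have d0 : HasDerivAt h (deriv h s) s :=
      (hh.differentiable (by simp)).differentiableAt.hasDerivAt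
    have d1 : HasDerivAt (deriv h) (deriv (deriv h) s) s :=
      (hh'.differentiable (by simp)).differentiableAt.hasDerivAt
    have dU : HasDerivAt (fun t : ℝ => ((U0 (t - 3) : ℝ) : ℂ))
        ((deriv (fun t : ℝ => U0 (t - 3)) s : ℝ) : ℂ) s := by
      have hU : ContDiff ℝ ∞ (fun s : ℝ => U0 (s - 3)) := contDiff_U0.comp (by fun_prop)
      have := (hU.differentiable (by simp)).differentiableAt.hasDerivAt (x := s)
      exact this.ofReal_comp
    have dg1 : HasDerivAt g1 (deriv (deriv h) s / (2 * (s : ℂ)) - deriv h s / (2 * (s : ℂ) ^ 2))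
        s := by
      have hid : HasDerivAt (fun t : ℝ => 2 * (t : ℂ)) (2 * 1) s :=
        (HasDerivAt.ofReal_comp (hasDerivAt_id s)).const_mul 2
      refine (d1.div hid (by simpa using hsc)).congr_deriv ?_
      field_simp
    have dg2 : HasDerivAt g2 (2 * Complex.I * k * ((deriv (fun t : ℝ => U0 (t - 3)) s : ℝ) : ℂ) *
        h s + 2 * Complex.I * k * (U0 (s - 3) : ℂ) * deriv h s) s := by
      refine ((dU.const_mul (2 * Complex.I * k)).mul d0)
    rw [hsdef] at dg1 dg2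
    have f1 := hasFDerivAt_sep k hx dg1
    have f2 := hasFDerivAt_sep k hx dg2
    rw [← hsdef] at f1 f2
    have c0 := hasFDerivAt_coord 0 x
    have c1 := hasFDerivAt_coord 1 x
    have F0 := ((c0.mul f1).add (c1.neg.mul f2)).fderiv
    have F1 := ((c1.mul f1).add (c0.mul f2)).fderiv
    have E0 : (fun z : Sp 2 => (z 0 : ℂ) * sep k g1 z + (perp z 0 : ℂ) * sep k g2 z) =
        fun z : Sp 2 => (z 0 : ℂ) * sep k g1 z + -(z 1 : ℂ) * sep k g2 z := by
      funext z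
      rw [perp_zero']; push_cast; rfl
    have E1 : (fun z : Sp 2 => (z 1 : ℂ) * sep k g1 z + (perp z 1 : ℂ) * sep k g2 z) =
        fun z : Sp 2 => (z 1 : ℂ) * sep k g1 z + (z 0 : ℂ) * sep k g2 z := by
      funext z
      rw [perp_one']
    rw [Fin.sum_univ_two, E0, E1]
    have F0' : fderiv ℝ (fun z : Sp 2 => (z 0 : ℂ) * sep k g1 z + -(z 1 : ℂ) * sep k g2 z) x
        = _ := F0
    have F1' : fderiv ℝ (fun z : Sp 2 => (z 1 : ℂ) * sep k g1 z + (z 0 : ℂ) * sep k g2 z) x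
        = _ := F1
    rw [F0', F1']
    have q00 : (EuclideanSpace.proj (𝕜 := ℝ) (0 : Fin 2) : Sp 2 →L[ℝ] ℝ) (ev 0) = 1 := by
      simp [ev]
    have q10 : (EuclideanSpace.proj (𝕜 := ℝ) (1 : Fin 2) : Sp 2 →L[ℝ] ℝ) (ev 0) = 0 := by
      simp [ev]
    have q01 : (EuclideanSpace.proj (𝕜 := ℝ) (0 : Fin 2) : Sp 2 →L[ℝ] ℝ) (ev 1) = 0 := by
      simp [ev]
    have q11 : (EuclideanSpace.proj (𝕜 := ℝ) (1 : Fin 2) : Sp 2 →L[ℝ] ℝ) (ev 1) = 1 := by
      simp [ev]
    have G1 : sep k g1 x = ang k x * (deriv h s / (2 * (s : ℂ))) := by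
      unfold sep
      rw [← hsdef]
    have G2 : sep k g2 x = ang k x * (2 * Complex.I * k * (U0 (s - 3) : ℂ) * h s) := by
      unfold sep
      rw [← hsdef]
    have G3 : sep k (fun s => -(1 / 2) * deriv (deriv h) s +
        (k : ℂ) ^ 2 * (U0 (s - 3) : ℂ) * h s) x =
        ang k x * (-(1 / 2) * deriv (deriv h) s + (k : ℂ) ^ 2 * (U0 (s - 3) : ℂ) * h s) := by
      unfold sep
      rw [← hsdef]
    have k1 : 2 * (s : ℂ) * (deriv (deriv h) s / (2 * (s : ℂ)) - deriv h s / (2 * (s : ℂ) ^ 2))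
        = deriv (deriv h) s - deriv h s / s := by
      field_simp
    have k2 : 2 * (s : ℂ) * ((2 * Complex.I * k * (U0 (s - 3) : ℂ) * h s) / (2 * (s : ℂ))) =
        2 * Complex.I * k * (U0 (s - 3) : ℂ) * h s := by
      field_simp
    simp only [_root_.add_apply, _root_.smul_apply, covec_apply, inner_ev, hN,
      ContinuousLinearMap.comp_apply, Complex.ofRealCLM_apply, smul_eq_mul, perp_zero', perp_one',
      _root_.neg_apply, q00, q10, q01, q11, G1, G2, G3, Complex.ofReal_neg, Complex.ofReal_zero,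
      Complex.ofReal_one, Pi.neg_apply]
    linear_combination (-(1 / 2) * (ang k x * (deriv (deriv h) s / (2 * (s : ℂ)) -
      deriv h s / (2 * (s : ℂ) ^ 2)) + Complex.I * k * ang k x *
        ((2 * Complex.I * k * (U0 (s - 3) : ℂ) * h s) / (2 * (s : ℂ))))) * hN' +
      (-(1 / 2) * ang k x) * k1 + (-(1 / 2) * Complex.I * k * ang k x) * k2 -
      (k : ℂ) ^ 2 * ang k x * (U0 (s - 3) : ℂ) * h s * Complex.I_sq

lemma memLp_sep (k : ℕ) {h : ℝ → ℂ} (hh : Continuous h) {a b : ℝ} (ha : 0 < a)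
    (hs : Function.support h ⊆ Icc a b) : MemLp (sep k h) 2 (volume : Measure (Sp 2)) :=
  (continuous_sep k hh ha hs).memLp_of_hasCompactSupport (hasCompactSupport_sep k hs)

lemma integral_Ioi_sq (F : ℝ → ℂ) :
    ∫ y in Ioi (0 : ℝ), y • F (y ^ 2 / 2) = ∫ s in Ioi (0 : ℝ), F s := by
  have h1 := integral_comp_rpow_Ioi_of_pos (g := fun y => F (y / 2)) (p := 2) two_pos
  have h2 := integral_comp_mul_right_Ioi F 0 (b := 1 / 2) (by norm_num)
  have h3 : ∫ y in Ioi (0 : ℝ), F (y / 2) = 2 * ∫ s in Ioi (0 : ℝ), F s := by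
    have e : (fun y : ℝ => F (y / 2)) = fun y => F (y * (1 / 2)) := by
      funext y; congr 1; ring
    rw [e, h2]
    norm_num
  have h4 : ∫ x in Ioi (0 : ℝ), ((2 : ℝ) * x ^ ((2 : ℝ) - 1)) • F (x ^ (2 : ℝ) / 2) =
      2 * ∫ y in Ioi (0 : ℝ), y • F (y ^ 2 / 2) := by
    rw [← integral_const_mul]
    refine setIntegral_congr_fun measurableSet_Ioi (fun x _ => ?_)
    rw [show (2 : ℝ) - 1 = 1 by norm_num, Real.rpow_one, Real.rpow_two, mul_smul]
    simp
  rw [h4, h3] at h1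
  exact mul_left_cancel₀ two_ne_zero h1

/-- Radial integration in the plane in the variable `s = |x|^2/2`. -/
lemma integral_radial {F : ℝ → ℂ} {a b : ℝ} (ha : 0 < a)
    (hs : Function.support F ⊆ Icc a b) :
    ∫ x : Sp 2, F (‖x‖ ^ 2 / 2) = 2 * Real.pi * ∫ s in a..b, F s := by
  have h1 := MeasureTheory.integral_fun_norm_addHaar (volume : Measure (Sp 2))
    (fun r : ℝ => F (r ^ 2 / 2))
  have hv : (volume : Measure (Sp 2)).real (Metric.ball 0 1) = Real.pi := by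
    rw [Measure.real, EuclideanSpace.volume_ball_fin_two]
    simp [Real.pi_pos.le]
  have hd : Module.finrank ℝ (Sp 2) = 2 := by simp
  rw [h1, hv, hd]
  simp only [Nat.add_one_sub_one, pow_one]
  rw [integral_Ioi_sq F]
  have h2 : ∫ s in Ioi (0 : ℝ), F s = ∫ s in a..b, F s := by
    rcases le_or_gt a b with hab | hab
    · rw [intervalIntegral.integral_of_le hab, ← integral_Icc_eq_integral_Ioc]
      refine (setIntegral_eq_of_subset_of_forall_sdiff_eq_zero measurableSet_Ioi ?_ ?_)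
      · intro s hs'; exact lt_of_lt_of_le ha hs'.1
      · intro s hs'
        by_contra hne
        exact hs'.2 (hs hne)
    · have : F = fun _ => 0 := by
        funext s
        by_contra hne
        have := hs hne
        exact absurd (this.1.trans this.2) (not_le.mpr hab)
      rw [this]; simp
  rw [h2]
  simp only [nsmul_eq_mul, Complex.real_smul]
  push_cast
  ring

theorem inner_sep (k : ℕ) {h g : ℝ → ℂ} (hh : Continuous h) (hg : Continuous g) {a b : ℝ}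
    (ha : 0 < a) (hs : Function.support h ⊆ Icc a b) (gs : Function.support g ⊆ Icc a b) :
    ⟪toL2 (sep k h), toL2 (sep k g)⟫_ℂ =
      2 * Real.pi * ∫ s in a..b, (starRingEnd ℂ) (h s) * g s := by
  have m1 := memLp_sep k hh ha hs
  have m2 := memLp_sep k hg ha gs
  unfold toL2
  rw [dif_pos m1, dif_pos m2, MeasureTheory.L2.inner_def]
  have e1 : ∀ᵐ x : Sp 2, ⟪(m1.toLp (sep k h) : Sp 2 → ℂ) x, (m2.toLp (sep k g) : Sp 2 → ℂ) x⟫_ℂ =
      (fun t => (starRingEnd ℂ) (h t) * g t) (‖x‖ ^ 2 / 2) := by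
    filter_upwards [m1.coeFn_toLp, m2.coeFn_toLp] with x h1 h2
    rw [h1, h2]
    by_cases hx : x = 0
    · subst hx
      have h0 : h 0 = 0 := by
        by_contra hne
        have := (hs hne).1
        linarith
      unfold sep
      simp [h0]
    · have hn := norm_ang k hx
      have h3 : (starRingEnd ℂ) (ang k x) * ang k x = 1 := by
        rw [mul_comm, Complex.mul_conj, Complex.normSq_eq_norm_sq, hn]; simp
      unfold sep
      rw [RCLike.inner_apply]
      simp only [map_mul]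
      linear_combination (starRingEnd ℂ (h (‖x‖ ^ 2 / 2)) * g (‖x‖ ^ 2 / 2)) * h3
  rw [integral_congr_ae e1]
  refine integral_radial (F := fun t => (starRingEnd ℂ) (h t) * g t) (b := b) ha ?_
  intro t ht
  apply hs
  intro h0
  apply ht
  simp [h0]

theorem norm_sep (k : ℕ) {h : ℝ → ℂ} (hh : Continuous h) {a b : ℝ}
    (ha : 0 < a) (_hab : a ≤ b) (hs : Function.support h ⊆ Icc a b) :
    ‖toL2 (sep k h)‖ ^ 2 = 2 * Real.pi * ∫ s in a..b, ‖h s‖ ^ 2 := by
  have h1 := inner_sep k hh hh ha hs hs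
  rw [inner_self_eq_norm_sq_to_K] at h1
  have h2 : (∫ s in a..b, (starRingEnd ℂ) (h s) * h s) =
      ((∫ s in a..b, ‖h s‖ ^ 2 : ℝ) : ℂ) := by
    rw [← intervalIntegral.integral_ofReal]
    refine intervalIntegral.integral_congr (fun s _ => ?_)
    rw [mul_comm, Complex.mul_conj, Complex.normSq_eq_norm_sq]
  rw [h2] at h1
  have h3 : ((‖toL2 (sep k h)‖ ^ 2 : ℝ) : ℂ) =
      ((2 * Real.pi * ∫ s in a..b, ‖h s‖ ^ 2 : ℝ) : ℂ) := by
    push_cast
    exact h1
  exact_mod_cast h3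

end Pool.Agent.Work.MP_5698f2_an

end

section

/-!
# MP_5698f2_an: bounds for the potential on the blunt side
-/

open MeasureTheory Filter Topology Set
open scoped ContDiff InnerProductSpace

namespace Pool.Agent.Work.MP_5698f2_an.BS

/-- Derivative of `G`. -/
noncomputable def dG : ℝ → ℝ := deriv G

/-- Second derivative of `G`. -/
noncomputable def ddG : ℝ → ℝ := deriv dG

lemma hasDerivAt_G (q : ℝ) : HasDerivAt G (dG q) q :=
  ((contDiff_G.differentiable (by simp)) q).hasDerivAt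

lemma contDiff_dG : ContDiff ℝ ∞ dG :=
  (contDiff_infty_iff_deriv.mp contDiff_G).2

lemma hasDerivAt_dG (q : ℝ) : HasDerivAt dG (ddG q) q :=
  ((contDiff_dG.differentiable (by simp)) q).hasDerivAt

lemma contDiff_ddG : ContDiff ℝ ∞ ddG :=
  (contDiff_infty_iff_deriv.mp contDiff_dG).2

lemma dG_nonneg (q : ℝ) : 0 ≤ dG q := by
  exact G_mono.deriv_nonneg

lemma dG_of_gt {q : ℝ} (h : 4 / 9 < q) : dG q = 0 := by
  have h1 : G =ᶠ[𝓝 q] fun _ => 1 / 2 := by
    filter_upwards [lt_mem_nhds h] with y hy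
    exact G_of_ge hy.le
  unfold dG
  rw [h1.deriv_eq]
  simp

lemma half_le_G {q : ℝ} (_h0 : 0 ≤ q) (h1 : q ≤ 1) : q / 2 ≤ G q := by
  rcases le_total q (1 / 2) with h | h
  · linarith [le_G h]
  · rw [G_of_ge (by linarith)]; linarith

lemma exists_bound : ∃ B : ℝ, 1 ≤ B ∧ ∀ q ∈ Icc (0 : ℝ) 1, |dG q| ≤ B ∧ |ddG q| ≤ B := by
  obtain ⟨B1, h1⟩ := isCompact_Icc.exists_bound_of_continuousOn (f := dG) (s := Icc (0 : ℝ) 1)
    contDiff_dG.continuous.continuousOn
  obtain ⟨B2, h2⟩ := isCompact_Icc.exists_bound_of_continuousOn (f := ddG) (s := Icc (0 : ℝ) 1)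
    contDiff_ddG.continuous.continuousOn
  refine ⟨max 1 (max B1 B2), le_max_left _ _, fun q hq => ⟨?_, ?_⟩⟩
  · exact (h1 q hq).trans ((le_max_left _ _).trans (le_max_right _ _))
  · exact (h2 q hq).trans ((le_max_right _ _).trans (le_max_right _ _))

/-- The potential. -/
noncomputable def Om (k p x : ℝ) : ℝ := 2 * k ^ 2 * G ((x / Lc) ^ 2) - 2 * k * p

/-- Its derivative. -/
noncomputable def Om1 (k x : ℝ) : ℝ := 2 * k ^ 2 * (dG ((x / Lc) ^ 2) * (2 * x / Lc ^ 2))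

/-- Its second derivative. -/
noncomputable def Om2 (k x : ℝ) : ℝ :=
  2 * k ^ 2 * (ddG ((x / Lc) ^ 2) * (2 * x / Lc ^ 2) ^ 2 + dG ((x / Lc) ^ 2) * (2 / Lc ^ 2))

lemma Lc_pos : (0 : ℝ) < Lc := by unfold Lc; norm_num

lemma hasDerivAt_arg (x : ℝ) : HasDerivAt (fun y : ℝ => (y / Lc) ^ 2) (2 * x / Lc ^ 2) x := by
  have h := ((hasDerivAt_id x).div_const Lc).pow 2
  refine h.congr_deriv ?_
  have := Lc_pos.ne'
  simp only [show (2 - 1 : ℕ) = 1 from rfl, pow_one, id]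
  push_cast
  field_simp

lemma hasDerivAt_Om (k p x : ℝ) : HasDerivAt (Om k p) (Om1 k x) x := by
  have h := (((hasDerivAt_G ((x / Lc) ^ 2)).comp x (hasDerivAt_arg x)).const_mul
    (2 * k ^ 2)).sub_const (2 * k * p)
  exact h

lemma hasDerivAt_Om1 (k x : ℝ) : HasDerivAt (Om1 k) (Om2 k x) x := by
  have h1 := (hasDerivAt_dG ((x / Lc) ^ 2)).comp x (hasDerivAt_arg x)
  have h2 : HasDerivAt (fun y : ℝ => 2 * y / Lc ^ 2) (2 / Lc ^ 2) x := by
    have := ((hasDerivAt_id x).const_mul (2 : ℝ)).div_const (Lc ^ 2)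
    exact this.congr_deriv (by simp)
  have h3 := (h1.mul h2).const_mul (2 * k ^ 2)
  refine h3.congr_deriv ?_
  unfold Om2
  simp only [Function.comp]
  ring

lemma Om1_nonneg (k : ℝ) {x : ℝ} (hx : 0 ≤ x) : 0 ≤ Om1 k x := by
  unfold Om1
  have := dG_nonneg ((x / Lc) ^ 2)
  have := Lc_pos
  positivity

lemma arg_le_one {x : ℝ} (h0 : 0 ≤ x) (h1 : x ≤ Lc) : (x / Lc) ^ 2 ≤ 1 := by
  have h2 : x / Lc ≤ 1 := (div_le_one Lc_pos).mpr h1
  have h3 : 0 ≤ x / Lc := div_nonneg h0 Lc_pos.le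
  nlinarith

lemma Om_lower (k p : ℝ) {x : ℝ} (h0 : 0 ≤ x) (h1 : x ≤ Lc) :
    k ^ 2 * (x / Lc) ^ 2 - 2 * k * p ≤ Om k p x := by
  unfold Om
  have := half_le_G (sq_nonneg (x / Lc)) (arg_le_one h0 h1)
  nlinarith [sq_nonneg k]

lemma Om_upper (k p : ℝ) (x : ℝ) :
    Om k p x ≤ 10 * (k ^ 2 * (x / Lc) ^ 2) - 2 * k * p := by
  unfold Om
  have := G_le (sq_nonneg (x / Lc))
  nlinarith [sq_nonneg k]

lemma Om_upper' (k p : ℝ) (x : ℝ) : Om k p x ≤ k ^ 2 - 2 * k * p := by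
  unfold Om
  have := G_le_half ((x / Lc) ^ 2)
  nlinarith [sq_nonneg k]

lemma Om_eq (k p : ℝ) {x : ℝ} (h0 : 0 ≤ x) (h1 : x ≤ Lc / 3) :
    Om k p x = 2 * k ^ 2 * (x / Lc) ^ 2 - 2 * k * p := by
  unfold Om
  rw [G_of_le]
  have h2 : x / Lc ≤ 1 / 3 := by rw [div_le_iff₀ Lc_pos]; linarith
  have h3 : 0 ≤ x / Lc := div_nonneg h0 Lc_pos.le
  nlinarith

lemma Om_end (k p : ℝ) : Om k p (Lc - 1) = k ^ 2 - 2 * k * p := by
  unfold Om
  rw [G_of_ge (by unfold Lc; norm_num)]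
  ring

lemma Om1_end (k : ℝ) : Om1 k (Lc - 1) = 0 := by
  unfold Om1
  rw [dG_of_gt (by unfold Lc; norm_num)]
  ring

lemma abs_Om1_le {B : ℝ} (hB : ∀ q ∈ Icc (0 : ℝ) 1, |dG q| ≤ B ∧ |ddG q| ≤ B) (k : ℝ) {x : ℝ}
    (h0 : 0 ≤ x) (h1 : x ≤ Lc) : |Om1 k x| ≤ 4 * B * k ^ 2 * (x / Lc) / Lc := by
  unfold Om1
  have hq := (hB _ ⟨sq_nonneg (x / Lc), arg_le_one h0 h1⟩).1
  have hL := Lc_pos
  rw [abs_mul (2 * k ^ 2), abs_mul (dG _), abs_of_nonneg (by positivity : 0 ≤ 2 * k ^ 2),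
    abs_of_nonneg (by positivity : 0 ≤ 2 * x / Lc ^ 2)]
  calc 2 * k ^ 2 * (|dG ((x / Lc) ^ 2)| * (2 * x / Lc ^ 2))
      ≤ 2 * k ^ 2 * (B * (2 * x / Lc ^ 2)) := by gcongr
    _ = 4 * B * k ^ 2 * (x / Lc) / Lc := by field_simp; ring

lemma abs_Om2_le {B : ℝ} (hB : ∀ q ∈ Icc (0 : ℝ) 1, |dG q| ≤ B ∧ |ddG q| ≤ B) (k : ℝ) {x : ℝ}
    (h0 : 0 ≤ x) (h1 : x ≤ Lc) : |Om2 k x| ≤ 12 * B * k ^ 2 / Lc ^ 2 := by
  unfold Om2
  obtain ⟨hq1, hq2⟩ := hB _ ⟨sq_nonneg (x / Lc), arg_le_one h0 h1⟩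
  have hL := Lc_pos
  have hB0 : 0 ≤ B := (abs_nonneg _).trans hq1
  rw [abs_mul (2 * k ^ 2), abs_of_nonneg (by positivity : 0 ≤ 2 * k ^ 2)]
  have e1 : |ddG ((x / Lc) ^ 2) * (2 * x / Lc ^ 2) ^ 2 + dG ((x / Lc) ^ 2) * (2 / Lc ^ 2)| ≤
      B * (4 / Lc ^ 2) + B * (2 / Lc ^ 2) := by
    refine (abs_add_le _ _).trans ?_
    rw [abs_mul, abs_mul, abs_of_nonneg (by positivity : 0 ≤ (2 * x / Lc ^ 2) ^ 2),
      abs_of_nonneg (by positivity : 0 ≤ 2 / Lc ^ 2)]
    have e2 : (2 * x / Lc ^ 2) ^ 2 ≤ 4 / Lc ^ 2 := by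
      have e3 : (2 * x / Lc ^ 2) ^ 2 = 4 * (x / Lc) ^ 2 / Lc ^ 2 := by field_simp; ring
      rw [e3]
      have := arg_le_one h0 h1
      gcongr
      linarith
    gcongr
  calc 2 * k ^ 2 * |ddG ((x / Lc) ^ 2) * (2 * x / Lc ^ 2) ^ 2 + dG ((x / Lc) ^ 2) * (2 / Lc ^ 2)|
      ≤ 2 * k ^ 2 * (B * (4 / Lc ^ 2) + B * (2 / Lc ^ 2)) := by gcongr
    _ = 12 * B * k ^ 2 / Lc ^ 2 := by field_simp; ring

end Pool.Agent.Work.MP_5698f2_an.BS

end
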