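import Pool.Agent.Work.MP_5698f2_an.Bd.B02
import Pool.Agent.Work.MP_5698f2_an.Bd.B01

/-! Bundle of small proof modules (one section per former module). -/

section

/-!
# MP_5698f2_an: decay of pairings with oscillating functions from microlocal smoothness
-/

open MeasureTheory Filter Topology Set
open scoped ContDiff InnerProductSpace

namespace Pool.Agent.Work.MP_5698f2_an

/-- The pairing as an integral. -/
lemma inner_toL2_eq {n : ℕ} {u : Sp n → ℂ} (hu : MemLp u 2 (volume : Measure (Sp n)))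
    (f : L2 n) : ⟪toL2 u, f⟫_ℂ = ∫ x, (starRingEnd ℂ) (u x) * (f : Sp n → ℂ) x := by
  rw [integral_mul_eq_inner (memLp_conj hu)]
  simp

lemma contDiff_div_of_tsupport {n : ℕ} {c φ : Sp n → ℂ} (hc : ContDiff ℝ ∞ c)
    (hφ : ContDiff ℝ ∞ φ) (h : ∀ x ∈ tsupport c, φ x ≠ 0) :
    ContDiff ℝ ∞ (fun x => c x * (φ x)⁻¹) := by
  rw [contDiff_iff_contDiffAt]
  intro x
  by_cases hx : x ∈ tsupport c
  · exact hc.contDiffAt.mul (hφ.contDiffAt.inv (h x hx))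
  · have h2 : (fun x => c x * (φ x)⁻¹) =ᶠ[𝓝 x] fun _ => 0 := by
      have h1 : ∀ᶠ y in 𝓝 x, y ∉ tsupport c := (isClosed_tsupport c).isOpen_compl.mem_nhds hx
      filter_upwards [h1] with y hy
      rw [image_eq_zero_of_notMem_tsupport hy, zero_mul]
    exact contDiffAt_const.congr_of_eventuallyEq h2

lemma contDiff_mul_osc {c : Sp 2 → ℂ} (hc : ContDiff ℝ ∞ c) (h : (0 : Sp 2) ∉ tsupport c)
    (k : ℕ) (κ : ℝ) : ContDiff ℝ ∞ (fun x => c x * osc k κ x) := by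
  rw [contDiff_iff_contDiffAt]
  intro x
  by_cases hx : x ∈ tsupport c
  · have hx0 : x ≠ 0 := fun h0 => h (h0 ▸ hx)
    exact hc.contDiffAt.mul (contDiffAt_osc k κ hx0)
  · have h2 : (fun x => c x * osc k κ x) =ᶠ[𝓝 x] fun _ => 0 := by
      have h1 : ∀ᶠ y in 𝓝 x, y ∉ tsupport c := (isClosed_tsupport c).isOpen_compl.mem_nhds hx
      filter_upwards [h1] with y hy
      rw [image_eq_zero_of_notMem_tsupport hy, zero_mul]
    exact contDiffAt_const.congr_of_eventuallyEq h2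

lemma hasCompactSupport_of_ball {n : ℕ} {c : Sp n → ℂ} {x₀ : Sp n} {ρ : ℝ}
    (h : tsupport c ⊆ Metric.closedBall x₀ ρ) : HasCompactSupport c :=
  (isCompact_closedBall x₀ ρ).of_isClosed_subset (isClosed_tsupport c) h

lemma zero_notMem_of_ball {n : ℕ} {c : Sp n → ℂ} {x₀ : Sp n} {ρ : ℝ} (hρ : ρ < ‖x₀‖)
    (h : tsupport c ⊆ Metric.closedBall x₀ ρ) : (0 : Sp n) ∉ tsupport c := by
  intro h0
  have := h h0
  rw [Metric.mem_closedBall, dist_zero_left] at this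
  linarith

lemma isTest_mul_osc {c : Sp 2 → ℂ} {x₀ : Sp 2} {ρ : ℝ} (hρ : ρ < ‖x₀‖)
    (hc : ContDiff ℝ ∞ c) (h : tsupport c ⊆ Metric.closedBall x₀ ρ) (k : ℕ) (κ : ℝ) :
    IsTest (fun x => c x * osc k κ x) :=
  ⟨contDiff_mul_osc hc (zero_notMem_of_ball hρ h) k κ,
    (hasCompactSupport_of_ball h).mul_right⟩

lemma isTest_conj {n : ℕ} {u : Sp n → ℂ} (hu : IsTest u) :
    IsTest (fun x => (starRingEnd ℂ) (u x)) := by
  refine ⟨?_, ?_⟩
  · have h1 : ContDiff ℝ ∞ (fun z : ℂ => (starRingEnd ℂ) z) := Complex.conjCLE.contDiff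
    exact h1.comp hu.1
  · refine hu.2.mono fun x hx => ?_
    rw [Function.mem_support] at hx ⊢
    intro h0
    exact hx (by rw [h0, map_zero])

lemma memLp_test {n : ℕ} {u : Sp n → ℂ} (hu : IsTest u) :
    MemLp u 2 (volume : Measure (Sp n)) := memLp_of_cc hu.1.continuous hu.2

/-- One sided bounds for the transform of an oscillating function. -/
lemma osc_two_bounds {x₀ : Sp 2} {σ ε ρ : ℝ} (hε : 0 < ε)
    (hdec : ∀ c : Sp 2 → ℂ, ContDiff ℝ ∞ c →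
      tsupport c ⊆ Metric.closedBall x₀ ρ → ∀ M : ℕ, ∃ C : ℝ, ∃ K : ℕ, ∀ k : ℕ, K ≤ k →
        ∀ κ : ℝ, |κ - k| ≤ √(k : ℝ) → ∀ η : Sp 2, ε * k ≤ ‖η - (k : ℝ) • dirv σ x₀‖ →
          ‖∫ x, c x * osc k (σ * κ) x * wave (-η) x‖ ≤ C * (k + ‖η‖) ^ (-(M : ℝ)))
    {c : Sp 2 → ℂ} (hc : ContDiff ℝ ∞ c) (hcs : tsupport c ⊆ Metric.closedBall x₀ ρ) :
    ∃ B : ℝ, 0 ≤ B ∧ ∃ K : ℕ, 1 ≤ K ∧ ∀ k : ℕ, K ≤ k → ∀ κ : ℝ, |κ - k| ≤ √(k : ℝ) →
      ∀ η : Sp 2,
        ‖∫ x, c x * osc k (σ * κ) x * wave (-η) x‖ ≤ B * (k : ℝ) ^ 3 * (1 + ‖η‖) ^ (-(3 : ℝ)) ∧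
        (ε * k ≤ ‖η - (k : ℝ) • dirv σ x₀‖ →
          ‖∫ x, c x * osc k (σ * κ) x * wave (-η) x‖ ≤
            B * ((k : ℝ) ^ 13)⁻¹ * (1 + ‖η‖) ^ (-(3 : ℝ))) := by
  obtain ⟨C, K, hCK⟩ := hdec c hc hcs 16
  set c0 : ℝ := ∫ x, ‖c x‖ with hc0
  have hc00 : 0 ≤ c0 := integral_nonneg fun x => norm_nonneg _
  set R : ℝ := 1 + ‖dirv σ x₀‖ + ε with hR
  have hR0 : 0 < R := by positivity
  refine ⟨|C| + c0 * R ^ 3, by positivity, max K 1, le_max_right _ _, ?_⟩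
  intro k hk κ hκ η
  have hkK : K ≤ k := (le_max_left _ _).trans hk
  have hk1 : (1 : ℝ) ≤ k := by exact_mod_cast (le_max_right K 1).trans hk
  have hk0 : (0 : ℝ) < k := by linarith
  have hη0 := norm_nonneg η
  have hg0 : 0 < (1 + ‖η‖) ^ (-(3 : ℝ)) := Real.rpow_pos_of_pos (by linarith) _
  have hfar : ε * k ≤ ‖η - (k : ℝ) • dirv σ x₀‖ →
      ‖∫ x, c x * osc k (σ * κ) x * wave (-η) x‖ ≤
        |C| * ((k : ℝ) ^ 13)⁻¹ * (1 + ‖η‖) ^ (-(3 : ℝ)) := by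
    intro hf
    refine (hCK k hkK κ hκ η hf).trans ?_
    have h1 : ((k : ℝ) + ‖η‖) ^ (-((16 : ℕ) : ℝ)) ≤
        ((k : ℝ) ^ 13)⁻¹ * (1 + ‖η‖) ^ (-(3 : ℝ)) := by
      have h2 : (-((16 : ℕ) : ℝ)) = (-((13 : ℕ) : ℝ)) + (-(3 : ℝ)) := by norm_num
      rw [h2, Real.rpow_add (by linarith)]
      refine mul_le_mul ?_ ?_ (Real.rpow_nonneg (by linarith) _) (by positivity)
      · rw [Real.rpow_neg (by linarith), Real.rpow_natCast]
        exact inv_anti₀ (by positivity) (pow_le_pow_left₀ hk0.le (by linarith) _)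
      · exact Real.rpow_le_rpow_of_nonpos (by linarith) (by linarith) (by norm_num)
    calc C * ((k : ℝ) + ‖η‖) ^ (-((16 : ℕ) : ℝ))
        ≤ |C| * ((k : ℝ) + ‖η‖) ^ (-((16 : ℕ) : ℝ)) :=
          mul_le_mul_of_nonneg_right (le_abs_self C) (Real.rpow_nonneg (by linarith) _)
      _ ≤ |C| * (((k : ℝ) ^ 13)⁻¹ * (1 + ‖η‖) ^ (-(3 : ℝ))) :=
          mul_le_mul_of_nonneg_left h1 (abs_nonneg _)
      _ = _ := by ring
  have hall : ‖∫ x, c x * osc k (σ * κ) x * wave (-η) x‖ ≤ c0 := by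
    refine (norm_integral_le_integral_norm _).trans ?_
    refine integral_mono_of_nonneg (Eventually.of_forall fun x => norm_nonneg _)
      ((hc.continuous.integrable_of_hasCompactSupport (hasCompactSupport_of_ball hcs)).norm) ?_
    refine Eventually.of_forall fun x => ?_
    simp only
    rw [norm_mul, norm_mul, norm_wave, mul_one]
    exact mul_le_of_le_one_right (norm_nonneg _) (norm_osc_le _ _ _)
  have hnn : 0 ≤ c0 * R ^ 3 := by positivity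
  refine ⟨?_, fun hf => ?_⟩
  · by_cases hf : ε * k ≤ ‖η - (k : ℝ) • dirv σ x₀‖
    · refine (hfar hf).trans ?_
      have h3 : ((k : ℝ) ^ 13)⁻¹ ≤ (k : ℝ) ^ 3 := by
        have h4 : ((k : ℝ) ^ 13)⁻¹ ≤ 1 := inv_le_one_of_one_le₀ (one_le_pow₀ hk1)
        exact h4.trans (one_le_pow₀ hk1)
      refine mul_le_mul_of_nonneg_right ?_ hg0.le
      calc |C| * ((k : ℝ) ^ 13)⁻¹ ≤ |C| * (k : ℝ) ^ 3 :=
            mul_le_mul_of_nonneg_left h3 (abs_nonneg _)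
        _ ≤ (|C| + c0 * R ^ 3) * (k : ℝ) ^ 3 :=
            mul_le_mul_of_nonneg_right (by linarith) (by positivity)
    · rw [not_le] at hf
      have h5 : ‖η‖ ≤ k * (‖dirv σ x₀‖ + ε) := by
        have h6 : ‖η‖ ≤ ‖η - (k : ℝ) • dirv σ x₀‖ + ‖(k : ℝ) • dirv σ x₀‖ := by
          have := norm_add_le (η - (k : ℝ) • dirv σ x₀) ((k : ℝ) • dirv σ x₀)
          rwa [sub_add_cancel] at this
        rw [norm_smul, Real.norm_eq_abs, abs_of_pos hk0] at h6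
        nlinarith
      have h7 : 1 + ‖η‖ ≤ R * k := by
        rw [hR]
        nlinarith
      have h8 : ((R * k) ^ 3)⁻¹ ≤ (1 + ‖η‖) ^ (-(3 : ℝ)) := by
        have h9 : (R * k) ^ (-(3 : ℝ)) ≤ (1 + ‖η‖) ^ (-(3 : ℝ)) :=
          Real.rpow_le_rpow_of_nonpos (by linarith) h7 (by norm_num)
        refine le_trans (le_of_eq ?_) h9
        rw [show (-(3 : ℝ)) = -((3 : ℕ) : ℝ) by norm_num,
          Real.rpow_neg (by positivity), Real.rpow_natCast]
      calc ‖∫ x, c x * osc k (σ * κ) x * wave (-η) x‖ ≤ c0 := hall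
        _ = c0 * R ^ 3 * (k : ℝ) ^ 3 * ((R * k) ^ 3)⁻¹ := by
            field_simp
        _ ≤ c0 * R ^ 3 * (k : ℝ) ^ 3 * (1 + ‖η‖) ^ (-(3 : ℝ)) :=
            mul_le_mul_of_nonneg_left h8 (by positivity)
        _ ≤ (|C| + c0 * R ^ 3) * (k : ℝ) ^ 3 * (1 + ‖η‖) ^ (-(3 : ℝ)) := by
            refine mul_le_mul_of_nonneg_right ?_ hg0.le
            refine mul_le_mul_of_nonneg_right ?_ (by positivity)
            have := abs_nonneg C
            linarith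
  · refine (hfar hf).trans ?_
    refine mul_le_mul_of_nonneg_right ?_ hg0.le
    exact mul_le_mul_of_nonneg_right (by linarith) (by positivity)

lemma dirv_one_ne_zero {y : Sp 2} (hy : y ≠ 0) : dirv 1 y ≠ 0 := by
  intro h
  have h1 : ⟪dirv 1 y, y⟫_ℝ = ‖y‖ ^ 2 := by
    unfold dirv
    rw [inner_add_left, inner_smul_left, perp_inner, inner_smul_left,
      real_inner_self_eq_norm_sq]
    simp
    ring_nf
    simp
  rw [h, inner_zero_left] at h1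
  exact pow_ne_zero 2 (norm_ne_zero_iff.2 hy) h1.symm

/-- The local decay of pairings. -/
lemma local_decay {T : L2 2 →L[ℂ] L2 2} {x₀ y₀ : Sp 2} (hx : x₀ ≠ 0) (hy : y₀ ≠ 0) {σ : ℝ}
    (hσ : σ = 1 ∨ σ = -1) (hms : MicroSmooth T x₀ (dirv σ x₀) y₀ (dirv 1 y₀)) :
    ∃ ρ : ℝ, 0 < ρ ∧ ρ < ‖x₀‖ ∧ ρ < ‖y₀‖ ∧ ∀ c ψ : Sp 2 → ℂ, ContDiff ℝ ∞ c →
      ContDiff ℝ ∞ ψ → tsupport c ⊆ Metric.closedBall x₀ ρ →
      tsupport ψ ⊆ Metric.closedBall y₀ ρ → ∃ C : ℝ, 0 ≤ C ∧ ∃ K : ℕ, ∀ k : ℕ, K ≤ k →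
        ∀ κ κ' : ℝ, |κ - k| ≤ √(k : ℝ) → |κ' - k| ≤ √(k : ℝ) →
          ‖⟪toL2 (fun x => c x * osc k (σ * κ') x), T (toL2 fun y => ψ y * osc k κ y)⟫_ℂ‖ ≤
            C * ((k : ℝ) ^ 10)⁻¹ := by
  obtain ⟨φ₀, ψ₀, hφ₀, hψ₀, hφx, hψy, Γ, hΓo, hΓm, hΓc, hΓ⟩ := hms
  have hη₀ : dirv 1 y₀ ≠ 0 := dirv_one_ne_zero hy
  have hη₀' : 0 < ‖dirv 1 y₀‖ := norm_pos_iff.2 hη₀
  obtain ⟨ε₀, hε₀, hball⟩ := Metric.isOpen_iff.1 hΓo _ hΓm
  set ε : ℝ := min (ε₀ / 2) (‖dirv 1 y₀‖ / 2) with hεd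
  have hε : 0 < ε := lt_min (by linarith) (by linarith)
  have hεε₀ : ε < ε₀ := (min_le_left _ _).trans_lt (by linarith)
  have hεη : ε ≤ ‖dirv 1 y₀‖ / 2 := min_le_right _ _
  obtain ⟨ρ₁, hρ₁, hρ₁x, hdec₁⟩ := osc_decay hx hσ hε
  obtain ⟨ρ₂, hρ₂, hρ₂y, hdec₂⟩ := osc_decay hy (Or.inl rfl : (1 : ℝ) = 1 ∨ (1 : ℝ) = -1) hε
  obtain ⟨ρ₃, hρ₃, hφne⟩ : ∃ ρ₃ > 0, ∀ x, dist x x₀ < ρ₃ → φ₀ x ≠ 0 := by
    have h := hφ₀.1.continuous.continuousAt.eventually_ne hφx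
    exact Metric.eventually_nhds_iff.1 h
  obtain ⟨ρ₄, hρ₄, hψne⟩ : ∃ ρ₄ > 0, ∀ x, dist x y₀ < ρ₄ → ψ₀ x ≠ 0 := by
    have h := hψ₀.1.continuous.continuousAt.eventually_ne hψy
    exact Metric.eventually_nhds_iff.1 h
  set ρ : ℝ := min (min ρ₁ ρ₂) (min (ρ₃ / 2) (ρ₄ / 2)) with hρd
  have hρ : 0 < ρ := lt_min (lt_min hρ₁ hρ₂) (lt_min (by linarith) (by linarith))
  have hρρ₁ : ρ ≤ ρ₁ := (min_le_left _ _).trans (min_le_left _ _)
  have hρρ₂ : ρ ≤ ρ₂ := (min_le_left _ _).trans (min_le_right _ _)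
  have hρρ₃ : ρ < ρ₃ := ((min_le_right _ _).trans (min_le_left _ _)).trans_lt (by linarith)
  have hρρ₄ : ρ < ρ₄ := ((min_le_right _ _).trans (min_le_right _ _)).trans_lt (by linarith)
  refine ⟨ρ, hρ, hρρ₁.trans_lt hρ₁x, hρρ₂.trans_lt hρ₂y, ?_⟩
  intro c ψ hc hψ hcs hψs
  have hρx : ρ < ‖x₀‖ := hρρ₁.trans_lt hρ₁x
  have hρy : ρ < ‖y₀‖ := hρρ₂.trans_lt hρ₂y
  -- quotients
  have hφ0c : ContDiff ℝ ∞ (fun x => (starRingEnd ℂ) (φ₀ x)) := (isTest_conj hφ₀).1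
  set c₁ : Sp 2 → ℂ := fun x => c x * ((starRingEnd ℂ) (φ₀ x))⁻¹ with hc₁
  set ψ₁ : Sp 2 → ℂ := fun y => ψ y * (ψ₀ y)⁻¹ with hψ₁
  have hφne' : ∀ x ∈ tsupport c, φ₀ x ≠ 0 := fun x hxc =>
    hφne x ((Metric.mem_closedBall.1 (hcs hxc)).trans_lt hρρ₃)
  have hψne' : ∀ y ∈ tsupport ψ, ψ₀ y ≠ 0 := fun y hyc =>
    hψne y ((Metric.mem_closedBall.1 (hψs hyc)).trans_lt hρρ₄)
  have hc₁s : ContDiff ℝ ∞ c₁ := contDiff_div_of_tsupport hc hφ0c fun x hxc => by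
    rw [ne_eq, map_eq_zero]
    exact hφne' x hxc
  have hψ₁s : ContDiff ℝ ∞ ψ₁ := contDiff_div_of_tsupport hψ hψ₀.1 hψne'
  have hc₁t : tsupport c₁ ⊆ Metric.closedBall x₀ ρ :=
    (closure_mono (Function.support_mul_subset_left _ _)).trans hcs
  have hψ₁t : tsupport ψ₁ ⊆ Metric.closedBall y₀ ρ :=
    (closure_mono (Function.support_mul_subset_left _ _)).trans hψs
  obtain ⟨B, hB, K₁, hK₁, hBb⟩ := osc_two_bounds hε hdec₁ hc₁s
    (hc₁t.trans (Metric.closedBall_subset_closedBall hρρ₁))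
  obtain ⟨A, hA, K₂, hK₂, hAb⟩ := osc_two_bounds hε hdec₂ hψ₁s
    (hψ₁t.trans (Metric.closedBall_subset_closedBall hρρ₂))
  obtain ⟨CN, hCN⟩ := hΓ 16
  obtain ⟨K0, hK0⟩ : ∃ K0 : ℝ, K0 = ‖toL2 φ₀‖ * ‖T‖ * ‖toL2 ψ₀‖ := ⟨_, rfl⟩
  have hK00 : 0 ≤ K0 := by
    rw [hK0]
    exact mul_nonneg (mul_nonneg (norm_nonneg _) (norm_nonneg _)) (norm_nonneg _)
  obtain ⟨q, hq⟩ : ∃ q : ℝ, q = ‖dirv 1 y₀‖ / 2 := ⟨_, rfl⟩
  have hq0 : 0 < q := by rw [hq]; linarith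
  obtain ⟨D, hD⟩ : ∃ D : ℝ, D = B * A * (K0 + |CN| * (q ^ 16)⁻¹) := ⟨_, rfl⟩
  have hD0 : 0 ≤ D := by rw [hD]; positivity
  have hgi : Integrable (fun x : Sp 2 => (1 + ‖x‖) ^ (-(3 : ℝ))) := by
    apply integrable_one_add_norm
    rw [finrank_euclideanSpace_fin]
    norm_num
  have hgg : Integrable (fun z : Sp 2 × Sp 2 =>
      (1 + ‖z.1‖) ^ (-(3 : ℝ)) * (1 + ‖z.2‖) ^ (-(3 : ℝ))) := hgi.mul_prod hgi
  obtain ⟨G, hG⟩ : ∃ G : ℝ, G = ∫ z : Sp 2 × Sp 2,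
      (1 + ‖z.1‖) ^ (-(3 : ℝ)) * (1 + ‖z.2‖) ^ (-(3 : ℝ)) := ⟨_, rfl⟩
  have hG0 : 0 ≤ G := by
    rw [hG]
    exact integral_nonneg fun z => mul_nonneg (Real.rpow_nonneg (by positivity) _)
      (Real.rpow_nonneg (by positivity) _)
  refine ⟨D * G, mul_nonneg hD0 hG0, max K₁ K₂, ?_⟩
  intro k hk κ κ' hκ hκ'
  have hkK₁ : K₁ ≤ k := (le_max_left _ _).trans hk
  have hkK₂ : K₂ ≤ k := (le_max_right _ _).trans hk
  have hk1 : (1 : ℝ) ≤ k := by exact_mod_cast hK₁.trans hkK₁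
  have hk0 : (0 : ℝ) < k := by linarith
  -- the two test functions
  have hbT : IsTest (fun x => (starRingEnd ℂ) (c₁ x * osc k (σ * κ') x)) :=
    isTest_conj (isTest_mul_osc hρx hc₁s hc₁t k _)
  have haT : IsTest (fun y => ψ₁ y * osc k κ y) := isTest_mul_osc hρy hψ₁s hψ₁t k _
  have hcT : IsTest (fun x => c x * osc k (σ * κ') x) := isTest_mul_osc hρx hc hcs k _
  have e1 : ⟪toL2 (fun x => c x * osc k (σ * κ') x), T (toL2 fun y => ψ y * osc k κ y)⟫_ℂ =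
      ∫ x, φ₀ x * (starRingEnd ℂ) (c₁ x * osc k (σ * κ') x) *
        (T (toL2 fun y => ψ₀ y * (ψ₁ y * osc k κ y)) : Sp 2 → ℂ) x := by
    rw [inner_toL2_eq (memLp_test hcT)]
    have h1 : (fun y => ψ₀ y * (ψ₁ y * osc k κ y)) = fun y => ψ y * osc k κ y := by
      funext y
      by_cases hyt : y ∈ tsupport ψ
      · have := hψne' y hyt
        simp only [hψ₁]
        field_simp
      · simp [hψ₁, image_eq_zero_of_notMem_tsupport hyt]
    have h2 : (fun x => φ₀ x * (starRingEnd ℂ) (c₁ x * osc k (σ * κ') x)) =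
        fun x => (starRingEnd ℂ) (c x * osc k (σ * κ') x) := by
      funext x
      by_cases hxt : x ∈ tsupport c
      · have h3 := hφne' x hxt
        simp only [hc₁, map_mul, map_inv₀, Complex.conj_conj]
        field_simp
      · simp [hc₁, image_eq_zero_of_notMem_tsupport hxt]
    rw [h1]
    refine integral_congr_ae (Eventually.of_forall fun x => ?_)
    simp only
    rw [← congrFun h2 x]
  rw [e1]
  have hmaj : ∀ ξ η : Sp 2, ‖∫ x, (starRingEnd ℂ) (c₁ x * osc k (σ * κ') x) * wave ξ x‖ *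
      ‖∫ x, (ψ₁ x * osc k κ x) * wave (-η) x‖ * ‖kernelFourier T φ₀ ψ₀ ξ η‖ ≤
      (fun z : Sp 2 × Sp 2 => D * ((k : ℝ) ^ 10)⁻¹ *
        ((1 + ‖z.1‖) ^ (-(3 : ℝ)) * (1 + ‖z.2‖) ^ (-(3 : ℝ)))) (ξ, η) := by
    intro ξ η
    simp only
    have e2 : ‖∫ x, (starRingEnd ℂ) (c₁ x * osc k (σ * κ') x) * wave ξ x‖ =
        ‖∫ x, c₁ x * osc k (σ * κ') x * wave (-ξ) x‖ := by
      rw [← RCLike.norm_conj, ← integral_conj]
      congr 1
      refine integral_congr_ae (Eventually.of_forall fun x => ?_)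
      simp only [map_mul, Complex.conj_conj]
      congr 1
      unfold wave
      rw [← Complex.exp_conj]
      congr 1
      simp [inner_neg_left]
    rw [e2]
    obtain ⟨hB1, hB2⟩ := hBb k hkK₁ κ' hκ' ξ
    obtain ⟨hA1, hA2⟩ := hAb k hkK₂ κ hκ η
    simp only [one_mul] at hA1 hA2
    set X := ‖∫ x, c₁ x * osc k (σ * κ') x * wave (-ξ) x‖ with hX
    set Y := ‖∫ x, ψ₁ x * osc k κ x * wave (-η) x‖ with hY
    set Z := ‖kernelFourier T φ₀ ψ₀ ξ η‖ with hZ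
    have hX0 : 0 ≤ X := norm_nonneg _
    have hY0 : 0 ≤ Y := norm_nonneg _
    have hZ0 : 0 ≤ Z := norm_nonneg _
    have hZK : Z ≤ K0 := by rw [hK0]; exact norm_kernelFourier_le T hφ₀ hψ₀ ξ η
    have hξ0 := norm_nonneg ξ
    have hηn0 := norm_nonneg η
    set gx : ℝ := (1 + ‖ξ‖) ^ (-(3 : ℝ)) with hgx
    set gy : ℝ := (1 + ‖η‖) ^ (-(3 : ℝ)) with hgy
    have hgx0 : 0 < gx := Real.rpow_pos_of_pos (by linarith) _
    have hgy0 : 0 < gy := Real.rpow_pos_of_pos (by linarith) _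
    have hDge : B * A * K0 ≤ D := by
      rw [hD]
      have : 0 ≤ B * A * (|CN| * (q ^ 16)⁻¹) := by positivity
      linarith
    have hkk : ((k : ℝ) ^ 13)⁻¹ * (k : ℝ) ^ 3 = ((k : ℝ) ^ 10)⁻¹ := by field_simp
    by_cases hf1 : ε * k ≤ ‖ξ - (k : ℝ) • dirv σ x₀‖
    · calc X * Y * Z ≤ (B * ((k : ℝ) ^ 13)⁻¹ * gx) * (A * (k : ℝ) ^ 3 * gy) * K0 := by
            have := hB2 hf1
            gcongr
        _ = B * A * K0 * (((k : ℝ) ^ 13)⁻¹ * (k : ℝ) ^ 3) * (gx * gy) := by ring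
        _ ≤ D * ((k : ℝ) ^ 10)⁻¹ * (gx * gy) := by
            rw [hkk]
            gcongr
    · by_cases hf2 : ε * k ≤ ‖η - (k : ℝ) • dirv 1 y₀‖
      · calc X * Y * Z ≤ (B * (k : ℝ) ^ 3 * gx) * (A * ((k : ℝ) ^ 13)⁻¹ * gy) * K0 := by
              have := hA2 hf2
              gcongr
          _ = B * A * K0 * (((k : ℝ) ^ 13)⁻¹ * (k : ℝ) ^ 3) * (gx * gy) := by ring
          _ ≤ D * ((k : ℝ) ^ 10)⁻¹ * (gx * gy) := by
              rw [hkk]
              gcongr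
      · rw [not_le] at hf1 hf2
        -- both near
        have hmem : (ξ, η) ∈ Γ := by
          have h1 : ((k : ℝ)⁻¹ • (ξ, η) : Sp 2 × Sp 2) ∈ Γ := by
            apply hball
            rw [Metric.mem_ball, Prod.dist_eq, max_lt_iff]
            constructor
            · rw [dist_eq_norm]
              have h2 : ((k : ℝ)⁻¹ • (ξ, η) : Sp 2 × Sp 2).1 - dirv σ x₀ =
                  (k : ℝ)⁻¹ • (ξ - (k : ℝ) • dirv σ x₀) := by
                rw [smul_sub, smul_smul, inv_mul_cancel₀ hk0.ne', one_smul]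
                rfl
              rw [h2, norm_smul, norm_inv, Real.norm_eq_abs, abs_of_pos hk0,
                inv_mul_lt_iff₀ hk0]
              nlinarith
            · rw [dist_eq_norm]
              have h2 : ((k : ℝ)⁻¹ • (ξ, η) : Sp 2 × Sp 2).2 - dirv 1 y₀ =
                  (k : ℝ)⁻¹ • (η - (k : ℝ) • dirv 1 y₀) := by
                rw [smul_sub, smul_smul, inv_mul_cancel₀ hk0.ne', one_smul]
                rfl
              rw [h2, norm_smul, norm_inv, Real.norm_eq_abs, abs_of_pos hk0,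
                inv_mul_lt_iff₀ hk0]
              nlinarith
          have h3 := hΓc _ h1 k hk0
          rwa [smul_smul, mul_inv_cancel₀ hk0.ne', one_smul] at h3
        have hηk : q * k ≤ ‖η‖ := by
          have h6 : ‖(k : ℝ) • dirv 1 y₀‖ ≤ ‖η - (k : ℝ) • dirv 1 y₀‖ + ‖η‖ := by
            have := norm_sub_le η (η - (k : ℝ) • dirv 1 y₀)
            rw [sub_sub_cancel] at this
            linarith
          rw [norm_smul, Real.norm_eq_abs, abs_of_pos hk0] at h6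
          rw [hq]
          nlinarith
        have hZ2 : Z ≤ |CN| * ((q ^ 16)⁻¹ * ((k : ℝ) ^ 16)⁻¹) := by
          have h1 := hCN (ξ, η) hmem
          simp only at h1
          have h2 : (1 + ‖ξ‖ + ‖η‖) ^ (-((16 : ℕ) : ℝ)) ≤ (q ^ 16)⁻¹ * ((k : ℝ) ^ 16)⁻¹ := by
            rw [Real.rpow_neg (by positivity), Real.rpow_natCast, ← mul_inv, ← mul_pow]
            exact inv_anti₀ (by positivity) (pow_le_pow_left₀ (by positivity) (by linarith) _)
          calc Z ≤ CN * (1 + ‖ξ‖ + ‖η‖) ^ (-((16 : ℕ) : ℝ)) := h1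
            _ ≤ |CN| * (1 + ‖ξ‖ + ‖η‖) ^ (-((16 : ℕ) : ℝ)) :=
                mul_le_mul_of_nonneg_right (le_abs_self _) (by positivity)
            _ ≤ _ := mul_le_mul_of_nonneg_left h2 (abs_nonneg _)
        calc X * Y * Z ≤ (B * (k : ℝ) ^ 3 * gx) * (A * (k : ℝ) ^ 3 * gy) *
              (|CN| * ((q ^ 16)⁻¹ * ((k : ℝ) ^ 16)⁻¹)) := by gcongr
          _ = B * A * (|CN| * (q ^ 16)⁻¹) * (((k : ℝ) ^ 16)⁻¹ * (k : ℝ) ^ 6) * (gx * gy) := by
              ring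
          _ = B * A * (|CN| * (q ^ 16)⁻¹) * ((k : ℝ) ^ 10)⁻¹ * (gx * gy) := by
              congr 2
              field_simp
          _ ≤ D * ((k : ℝ) ^ 10)⁻¹ * (gx * gy) := by
              have : B * A * (|CN| * (q ^ 16)⁻¹) ≤ D := by
                rw [hD]
                have : 0 ≤ B * A * K0 := by positivity
                linarith
              gcongr
  refine (pairing_le T hφ₀ hψ₀ haT hbT (hgg.const_mul _) hmaj).trans (le_of_eq ?_)
  rw [integral_const_mul, ← hG]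
  ring

/-- The local decay for both signs. -/
lemma local_decay_both {T : L2 2 →L[ℂ] L2 2} {x₀ y₀ : Sp 2} (hx : x₀ ≠ 0) (hy : y₀ ≠ 0)
    (hms : ∀ σ : ℝ, (σ = 1 ∨ σ = -1) → MicroSmooth T x₀ (dirv σ x₀) y₀ (dirv 1 y₀)) :
    ∃ ρ : ℝ, 0 < ρ ∧ ρ < ‖x₀‖ ∧ ρ < ‖y₀‖ ∧ ∀ c ψ : Sp 2 → ℂ, ContDiff ℝ ∞ c →
      ContDiff ℝ ∞ ψ → tsupport c ⊆ Metric.closedBall x₀ ρ →
      tsupport ψ ⊆ Metric.closedBall y₀ ρ → ∃ C : ℝ, 0 ≤ C ∧ ∃ K : ℕ, ∀ k : ℕ, K ≤ k →
        ∀ κ κ' : ℝ, |κ - k| ≤ √(k : ℝ) → |κ' - k| ≤ √(k : ℝ) →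
          ∀ σ : ℝ, (σ = 1 ∨ σ = -1) →
          ‖⟪toL2 (fun x => c x * osc k (σ * κ') x), T (toL2 fun y => ψ y * osc k κ y)⟫_ℂ‖ ≤
            C * ((k : ℝ) ^ 10)⁻¹ := by
  obtain ⟨ρ₁, hρ₁, hρ₁x, hρ₁y, h₁⟩ := local_decay hx hy (Or.inl rfl) (hms 1 (Or.inl rfl))
  obtain ⟨ρ₂, hρ₂, hρ₂x, hρ₂y, h₂⟩ := local_decay hx hy (Or.inr rfl) (hms (-1) (Or.inr rfl))
  refine ⟨min ρ₁ ρ₂, lt_min hρ₁ hρ₂, (min_le_left _ _).trans_lt hρ₁x,
    (min_le_left _ _).trans_lt hρ₁y, ?_⟩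
  intro c ψ hc hψ hcs hψs
  obtain ⟨C₁, hC₁, K₁, hK₁⟩ := h₁ c ψ hc hψ
    (hcs.trans (Metric.closedBall_subset_closedBall (min_le_left _ _)))
    (hψs.trans (Metric.closedBall_subset_closedBall (min_le_left _ _)))
  obtain ⟨C₂, hC₂, K₂, hK₂⟩ := h₂ c ψ hc hψ
    (hcs.trans (Metric.closedBall_subset_closedBall (min_le_right _ _)))
    (hψs.trans (Metric.closedBall_subset_closedBall (min_le_right _ _)))
  refine ⟨C₁ + C₂, by positivity, max K₁ K₂, ?_⟩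
  intro k hk κ κ' hκ hκ' σ hσ
  have hp : 0 ≤ ((k : ℝ) ^ 10)⁻¹ := by positivity
  rcases hσ with rfl | rfl
  · refine (hK₁ k ((le_max_left _ _).trans hk) κ κ' hκ hκ').trans ?_
    exact mul_le_mul_of_nonneg_right (by linarith) hp
  · refine (hK₂ k ((le_max_right _ _).trans hk) κ κ' hκ hκ').trans ?_
    exact mul_le_mul_of_nonneg_right (by linarith) hp

theorem pairing_decay {T : L2 2 →L[ℂ] L2 2} (hT : ∀ f, ‖T f‖ ≤ ‖f‖) {y₀ : Sp 2}
    (hy : y₀ ≠ 0) {a₁ a₂ : ℝ} (ha₁ : 0 < a₁)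
    (hyp : ∀ x₀ : Sp 2, ‖x₀‖ ^ 2 / 2 ∈ Icc a₁ a₂ → ∀ σ : ℝ, (σ = 1 ∨ σ = -1) →
      MicroSmooth T x₀ (dirv σ x₀) y₀ (dirv 1 y₀))
    {b : ℝ → ℂ} (hb : ContDiff ℝ ∞ b) (hbs : Function.support b ⊆ Icc a₁ a₂) :
    ∃ ρ : ℝ, 0 < ρ ∧ ∀ ψ : Sp 2 → ℂ, IsTest ψ → Function.support ψ ⊆ Metric.ball y₀ ρ →
      ∃ C : ℝ, ∃ K : ℕ, ∀ k : ℕ, K ≤ k → ∀ κ κ' : ℝ, |κ - k| ≤ √(k : ℝ) →
        |κ' - k| ≤ √(k : ℝ) → ∀ σ : ℝ, (σ = 1 ∨ σ = -1) →
          ‖⟪toL2 (fun x => b (‖x‖ ^ 2 / 2) * osc k (σ * κ') x),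
            T (toL2 fun y => ψ y * osc k κ y)⟫_ℂ‖ ≤ C * (k : ℝ) ^ (-10 : ℝ) := by
  classical
  -- the annulus
  set S : Set (Sp 2) := {x | ‖x‖ ^ 2 / 2 ∈ Icc a₁ a₂} with hS
  have hsc : Continuous fun x : Sp 2 => ‖x‖ ^ 2 / 2 := by fun_prop
  have hScl : IsClosed S := isClosed_Icc.preimage hsc
  have hSc : IsCompact S := by
    refine Metric.isCompact_of_isClosed_isBounded hScl ?_
    rw [isBounded_iff_forall_norm_le]
    refine ⟨1 + 2 * a₂, fun x hx => ?_⟩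
    have h1 : ‖x‖ ^ 2 / 2 ≤ a₂ := hx.2
    nlinarith [norm_nonneg x, sq_nonneg (‖x‖ - 1)]
  have hS0 : ∀ x ∈ S, x ≠ 0 := by
    rintro x hx rfl
    have h1 : a₁ ≤ ‖(0 : Sp 2)‖ ^ 2 / 2 := hx.1
    rw [norm_zero] at h1
    norm_num at h1
    linarith
  have hloc : ∀ x₀ : S, ∃ ρ : ℝ, 0 < ρ ∧ ρ < ‖(x₀ : Sp 2)‖ ∧ ρ < ‖y₀‖ ∧
      ∀ c ψ : Sp 2 → ℂ, ContDiff ℝ ∞ c →
      ContDiff ℝ ∞ ψ → tsupport c ⊆ Metric.closedBall (x₀ : Sp 2) ρ →
      tsupport ψ ⊆ Metric.closedBall y₀ ρ → ∃ C : ℝ, 0 ≤ C ∧ ∃ K : ℕ, ∀ k : ℕ, K ≤ k →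
        ∀ κ κ' : ℝ, |κ - k| ≤ √(k : ℝ) → |κ' - k| ≤ √(k : ℝ) →
          ∀ σ : ℝ, (σ = 1 ∨ σ = -1) →
          ‖⟪toL2 (fun x => c x * osc k (σ * κ') x), T (toL2 fun y => ψ y * osc k κ y)⟫_ℂ‖ ≤
            C * ((k : ℝ) ^ 10)⁻¹ := fun x₀ =>
    local_decay_both (hS0 _ x₀.2) hy (hyp _ x₀.2)
  choose r hr hrx hry hmain using hloc
  -- finite subcover by balls of half radius
  obtain ⟨t, ht⟩ := hSc.elim_finite_subcover (fun x₀ : S => Metric.ball (x₀ : Sp 2) (r x₀ / 2))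
    (fun _ => Metric.isOpen_ball) (fun x hx => Set.mem_iUnion.2 ⟨⟨x, hx⟩, by
      simpa using half_pos (hr ⟨x, hx⟩)⟩)
  -- bump functions
  let f : ∀ x₀ : S, ContDiffBump (x₀ : Sp 2) := fun x₀ =>
    ⟨r x₀ / 2, r x₀, half_pos (hr x₀), half_lt_self (hr x₀)⟩
  let Φ : Sp 2 → ℝ := fun x => ∑ x₀ ∈ t, f x₀ x
  have hΦs : ContDiff ℝ ∞ Φ := ContDiff.sum fun x₀ _ => (f x₀).contDiff
  have hΦpos : ∀ x ∈ S, 0 < Φ x := by
    intro x hx
    obtain ⟨x₀, hx₀t, hx₀⟩ := Set.mem_iUnion₂.1 (ht hx)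
    have h1 : 0 < f x₀ x := (f x₀).pos_of_mem_ball (by
      have : x ∈ Metric.ball (x₀ : Sp 2) (r x₀ / 2) := hx₀
      exact Metric.ball_subset_ball (half_le_self (hr x₀).le) this)
    exact lt_of_lt_of_le h1 (Finset.single_le_sum (f := fun x₀ => f x₀ x)
      (fun i _ => (f i).nonneg) hx₀t)
  have hΦC : ContDiff ℝ ∞ (fun x => ((Φ x : ℝ) : ℂ)) := Complex.ofRealCLM.contDiff.comp hΦs
  -- the radial function
  have hbx : ContDiff ℝ ∞ (fun x : Sp 2 => b (‖x‖ ^ 2 / 2)) :=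
    hb.comp ((contDiff_norm_sq ℝ).div_const 2)
  have hbS : tsupport (fun x : Sp 2 => b (‖x‖ ^ 2 / 2)) ⊆ S := by
    refine closure_minimal (fun x hx => ?_) hScl
    exact hbs (by simpa using hx)
  let c : S → Sp 2 → ℂ := fun x₀ x => (b (‖x‖ ^ 2 / 2) * ((f x₀ x : ℝ) : ℂ)) * ((Φ x : ℝ) : ℂ)⁻¹
  have hcs : ∀ x₀, ContDiff ℝ ∞ (c x₀) := by
    intro x₀
    refine contDiff_div_of_tsupport (hbx.mul (Complex.ofRealCLM.contDiff.comp (f x₀).contDiff))
      hΦC fun x hx => ?_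
    have h1 : x ∈ S := hbS (closure_mono (Function.support_mul_subset_left _ _) hx)
    exact_mod_cast (hΦpos x h1).ne'
  have hct : ∀ x₀, tsupport (c x₀) ⊆ Metric.closedBall (x₀ : Sp 2) (r x₀) := by
    intro x₀
    refine (closure_minimal (fun x hx => ?_) Metric.isClosed_closedBall)
    have h1 : f x₀ x ≠ 0 := by
      intro h0
      apply hx
      simp [c, h0]
    have h2 : x ∈ Function.support (f x₀) := h1
    rw [(f x₀).support_eq] at h2
    exact Metric.ball_subset_closedBall h2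
  have hsum : ∀ x, ∑ x₀ ∈ t, c x₀ x = b (‖x‖ ^ 2 / 2) := by
    intro x
    simp only [c]
    rw [← Finset.sum_mul, ← Finset.mul_sum]
    by_cases hx : b (‖x‖ ^ 2 / 2) = 0
    · simp [hx]
    · have hxS : x ∈ S := hbs (by simpa using hx)
      have h1 : ((Φ x : ℝ) : ℂ) ≠ 0 := by exact_mod_cast (hΦpos x hxS).ne'
      have h2 : ∑ x₀ ∈ t, ((f x₀ x : ℝ) : ℂ) = ((Φ x : ℝ) : ℂ) := by
        simp only [Φ]
        push_cast
        rfl
      rw [h2, mul_assoc, mul_inv_cancel₀ h1, mul_one]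
  -- the radius for the second variable
  obtain ⟨ρ, hρ, hρr⟩ : ∃ ρ : ℝ, 0 < ρ ∧ ∀ x₀ ∈ t, ρ ≤ r x₀ := by
    by_cases hte : t.Nonempty
    · refine ⟨t.inf' hte r, ?_, fun x₀ hx₀ => Finset.inf'_le _ hx₀⟩
      rw [Finset.lt_inf'_iff]
      exact fun x₀ _ => hr x₀
    · rw [Finset.not_nonempty_iff_eq_empty] at hte
      exact ⟨1, one_pos, by simp [hte]⟩
  refine ⟨ρ, hρ, fun ψ hψ hψs => ?_⟩
  have hψt : tsupport ψ ⊆ Metric.closedBall y₀ ρ :=
    closure_minimal (hψs.trans Metric.ball_subset_closedBall) Metric.isClosed_closedBall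
  have hbound : ∀ x₀ : S, ∃ C : ℝ, 0 ≤ C ∧ ∃ K : ℕ, x₀ ∈ t → ∀ k : ℕ, K ≤ k →
        ∀ κ κ' : ℝ, |κ - k| ≤ √(k : ℝ) → |κ' - k| ≤ √(k : ℝ) →
          ∀ σ : ℝ, (σ = 1 ∨ σ = -1) →
          ‖⟪toL2 (fun x => c x₀ x * osc k (σ * κ') x),
            T (toL2 fun y => ψ y * osc k κ y)⟫_ℂ‖ ≤ C * ((k : ℝ) ^ 10)⁻¹ := by
    intro x₀
    by_cases hx₀ : x₀ ∈ t
    · obtain ⟨C, hC, K, hK⟩ := hmain x₀ (c x₀) ψ (hcs x₀) hψ.1 (hct x₀)
        (hψt.trans (Metric.closedBall_subset_closedBall (hρr x₀ hx₀)))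
      exact ⟨C, hC, K, fun _ => hK⟩
    · exact ⟨0, le_rfl, 0, fun h => absurd h hx₀⟩
  choose C hC K hK using hbound
  refine ⟨∑ x₀ ∈ t, C x₀, max 1 (t.sup K), ?_⟩
  intro k hk κ κ' hκ hκ' σ hσ
  have hk1 : 1 ≤ k := (le_max_left _ _).trans hk
  have hkK : ∀ x₀ ∈ t, K x₀ ≤ k := fun x₀ hx₀ =>
    (Finset.le_sup hx₀).trans ((le_max_right _ _).trans hk)
  have hk10 : (k : ℝ) ^ (-10 : ℝ) = ((k : ℝ) ^ 10)⁻¹ := by
    rw [show (-10 : ℝ) = -((10 : ℕ) : ℝ) by norm_num, Real.rpow_neg (Nat.cast_nonneg k),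
      Real.rpow_natCast]
  have htest : ∀ x₀, IsTest (fun x => c x₀ x * osc k (σ * κ') x) := fun x₀ =>
    isTest_mul_osc (hrx x₀) (hcs x₀) (hct x₀) k _
  have htestsum : MemLp (fun x => b (‖x‖ ^ 2 / 2) * osc k (σ * κ') x) 2
      (volume : Measure (Sp 2)) := by
    have h1 : MemLp (fun x => ∑ x₀ ∈ t, c x₀ x * osc k (σ * κ') x) 2
      (volume : Measure (Sp 2)) := memLp_finsetSum t fun x₀ _ => memLp_test (htest x₀)
    refine h1.ae_eq (Eventually.of_forall fun x => ?_)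
    simp only
    rw [← Finset.sum_mul, hsum]
  set g : L2 2 := T (toL2 fun y => ψ y * osc k κ y) with hg
  have hdecomp : ⟪toL2 (fun x => b (‖x‖ ^ 2 / 2) * osc k (σ * κ') x), g⟫_ℂ =
      ∑ x₀ ∈ t, ⟪toL2 (fun x => c x₀ x * osc k (σ * κ') x), g⟫_ℂ := by
    rw [inner_toL2_eq htestsum]
    have h1 : ∀ x₀ ∈ t, ⟪toL2 (fun x => c x₀ x * osc k (σ * κ') x), g⟫_ℂ =
        ∫ x, (starRingEnd ℂ) (c x₀ x * osc k (σ * κ') x) * (g : Sp 2 → ℂ) x := fun x₀ _ =>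
      inner_toL2_eq (memLp_test (htest x₀)) g
    rw [Finset.sum_congr rfl h1, ← integral_finsetSum]
    · refine integral_congr_ae (Eventually.of_forall fun x => ?_)
      simp only
      rw [← Finset.sum_mul, ← map_sum, ← Finset.sum_mul, hsum]
    · intro x₀ _
      exact integrable_mul_L2 (memLp_conj (memLp_test (htest x₀))) g
  rw [hdecomp, hk10, Finset.sum_mul]
  refine (norm_sum_le _ _).trans (Finset.sum_le_sum fun x₀ hx₀ => ?_)
  exact hK x₀ hx₀ k (hkK x₀ hx₀) κ κ' hκ hκ' σ hσ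

end Pool.Agent.Work.MP_5698f2_an

end

section

/-!
# MP_5698f2_an: the solution on the blunt side
-/

open MeasureTheory Filter Topology Set
open scoped ContDiff InnerProductSpace

namespace Pool.Agent.Work.MP_5698f2_an

namespace BS

/-- Normalised parameters: `k = r^2`, `p = s^2`, `log k = l^2`. -/
structure Par (k p r l s : ℝ) : Prop where
  hk : k = r ^ 2
  hp : p = s ^ 2
  hlog : Real.log k = l ^ 2
  hl : 1 ≤ l
  hr : 9000 * l ≤ r
  hs0 : 0 < s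
  hs : 8 * s ≤ l
  hs' : l ^ 2 ≤ 320 * p

lemma exists_par : ∃ K : ℝ, ∀ k : ℝ, K ≤ k → ∀ p : ℝ, Real.log k / 320 ≤ p →
    p ≤ Real.log k / 80 → ∃ r l s : ℝ, Par k p r l s := by
  have h1 : ∀ᶠ k : ℝ in atTop, Real.log k ≤ (1 / 9000 ^ 2) * k := by
    have := (Real.isLittleO_log_id_atTop).def (show (0 : ℝ) < 1 / 9000 ^ 2 by norm_num)
    filter_upwards [this, eventually_ge_atTop (1 : ℝ)] with k hk hk1
    simp only [id, Real.norm_eq_abs] at hk
    rw [abs_of_nonneg (Real.log_nonneg hk1), abs_of_nonneg (by linarith)] at hk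
    exact hk
  have h2 : ∀ᶠ k : ℝ in atTop, (1 : ℝ) ≤ Real.log k :=
    Real.tendsto_log_atTop.eventually_ge_atTop 1
  obtain ⟨K, hK⟩ := (h1.and (h2.and (eventually_ge_atTop (1 : ℝ)))).exists_forall_of_atTop
  refine ⟨K, fun k hk p hp1 hp2 => ?_⟩
  obtain ⟨e1, e2, e3⟩ := hK k hk
  have hp0 : 0 < p := by linarith
  refine ⟨Real.sqrt k, Real.sqrt (Real.log k), Real.sqrt p, ?_, ?_, ?_, ?_, ?_, ?_, ?_, ?_⟩
  · rw [Real.sq_sqrt (by linarith)]
  · rw [Real.sq_sqrt hp0.le]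
  · rw [Real.sq_sqrt (by linarith)]
  · rw [Real.one_le_sqrt]; exact e2
  · rw [show (9000 : ℝ) = Real.sqrt (9000 ^ 2) by rw [Real.sqrt_sq (by norm_num)],
      ← Real.sqrt_mul (by norm_num)]
    apply Real.sqrt_le_sqrt
    linarith
  · exact Real.sqrt_pos.mpr hp0
  · rw [show (8 : ℝ) = Real.sqrt (8 ^ 2) by rw [Real.sqrt_sq (by norm_num)],
      ← Real.sqrt_mul (by norm_num)]
    apply Real.sqrt_le_sqrt
    linarith
  · rw [Real.sq_sqrt (by linarith)]; linarith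

variable {k p r l s : ℝ}

lemma Par.r_pos (h : Par k p r l s) : 0 < r := by linarith [h.hr, h.hl]

lemma Par.xt_le (h : Par k p r l s) : Lc * s / r ≤ Lc * l / r := by
  have := h.r_pos
  have := Lc_pos
  have := h.hs
  have := h.hs0
  gcongr
  linarith

lemma Par.xe_le (h : Par k p r l s) : Lc * l / r ≤ 1 := by
  rw [div_le_one h.r_pos]
  have := h.hr
  have := h.hl
  unfold Lc
  linarith

/-- In the barrier the potential is nonpositive. -/
lemma Par.Om_nonpos (h : Par k p r l s) {x : ℝ} (h0 : 0 ≤ x) (h1 : x ≤ Lc * s / r) :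
    Om k p x ≤ 0 := by
  have hr := h.r_pos
  have hL := Lc_pos
  have h2 : x ≤ Lc / 3 := by
    have := h.xt_le; have := h.xe_le
    have : (1 : ℝ) ≤ Lc / 3 := by unfold Lc; norm_num
    linarith
  rw [Om_eq k p h0 h2, h.hk, h.hp]
  have h3 : x / Lc ≤ s / r := by
    rw [div_le_div_iff₀ hL hr]
    rw [le_div_iff₀ hr] at h1
    linarith
  have h4 : (x / Lc) ^ 2 ≤ (s / r) ^ 2 := by
    have : 0 ≤ x / Lc := by positivity
    gcongr
  have h5 : r ^ 2 * (s / r) ^ 2 = s ^ 2 := by field_simp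
  nlinarith [mul_le_mul_of_nonneg_left h4 (by positivity : 0 ≤ (r ^ 2) ^ 2)]

lemma Par.Om_half (h : Par k p r l s) {x : ℝ} (h0 : 0 ≤ x) (h1 : x ≤ Lc * s / r / 2) :
    (6 / 5 * r * s) ^ 2 ≤ -Om k p x := by
  have hr := h.r_pos
  have hL := Lc_pos
  have hs := h.hs0
  have h2 : x ≤ Lc / 3 := by
    have := h.xt_le; have := h.xe_le
    have : (1 : ℝ) ≤ Lc / 3 := by unfold Lc; norm_num
    have : 0 ≤ Lc * s / r := by positivity
    linarith
  rw [Om_eq k p h0 h2, h.hk, h.hp]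
  have h3 : x / Lc ≤ s / r / 2 := by
    rw [div_le_iff₀ hL]
    calc x ≤ Lc * s / r / 2 := h1
      _ = s / r / 2 * Lc := by ring
  have h4 : (x / Lc) ^ 2 ≤ (s / r / 2) ^ 2 := by
    have : 0 ≤ x / Lc := by positivity
    gcongr
  have h5 : (r ^ 2) ^ 2 * (s / r / 2) ^ 2 = r ^ 2 * s ^ 2 / 4 := by field_simp; ring
  nlinarith [mul_le_mul_of_nonneg_left h4 (by positivity : 0 ≤ (r ^ 2) ^ 2),
    (by positivity : 0 ≤ r ^ 2 * s ^ 2)]

/-- Beyond the turning point the potential is nonnegative. -/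
lemma Par.Om_nonneg (h : Par k p r l s) {x : ℝ} (h1 : Lc * s / r ≤ x) (h2 : x ≤ Lc) :
    0 ≤ Om k p x := by
  have hr := h.r_pos
  have hL := Lc_pos
  have hs := h.hs0
  have h0 : 0 ≤ Lc * s / r := by positivity
  have hm : MonotoneOn (Om k p) (Icc 0 Lc) :=
    mono_of_hasDeriv (fun x _ => hasDerivAt_Om k p x) (fun x hx => Om1_nonneg k hx.1)
  have h3 : Om k p (Lc * s / r) = 0 := by
    rw [Om_eq k p h0 ?_, h.hk, h.hp]
    · field_simp; ring
    · have := h.xt_le; have := h.xe_le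
      have : (1 : ℝ) ≤ Lc / 3 := by unfold Lc; norm_num
      linarith
  rw [← h3]
  exact hm ⟨h0, h1.trans h2⟩ ⟨h0.trans h1, h2⟩ h1


/-! ## Bounds in the Liouville-Green zone -/

/-- Basic facts at a point `x ≥ x_e`, with `a = k x / L` and `σ^4 = Om`. -/
lemma Par.sigma (h : Par k p r l s) {x : ℝ} (h1 : Lc * l / r ≤ x) (h2 : x ≤ Lc) :
    0 < Om k p x ∧ ∃ σ : ℝ, 0 < σ ∧ σ ^ 4 = Om k p x ∧
      Om k p x ^ (-(1/4) : ℝ) = 1 / σ ∧ Om k p x ^ (-(5/4) : ℝ) = 1 / σ ^ 5 ∧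
      Om k p x ^ (-(9/4) : ℝ) = 1 / σ ^ 9 ∧
      7 / 10 * (r ^ 2 * x / Lc) ≤ σ ^ 2 ∧ σ ^ 2 ≤ 4 * (r ^ 2 * x / Lc) ∧ σ ^ 2 ≤ r ^ 2 ∧
      r * l ≤ r ^ 2 * x / Lc := by
  have hr := h.r_pos
  have hL := Lc_pos
  have hs := h.hs0
  have hl := h.hl
  have hx0 : 0 < x := lt_of_lt_of_le (by positivity) h1
  set a := r ^ 2 * x / Lc with ha
  have ha0 : 0 < a := by positivity
  have hra : r * l ≤ a := by
    rw [ha, le_div_iff₀ hL]
    rw [div_le_iff₀ hr] at h1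
    nlinarith
  have hk2 : k ^ 2 * (x / Lc) ^ 2 = a ^ 2 := by
    rw [h.hk, ha]; field_simp
  have hkp : 2 * k * p ≤ a ^ 2 / 32 := by
    have e1 : 2 * k * p = 2 * (r * s) ^ 2 := by rw [h.hk, h.hp]; ring
    have e2 : 8 * (r * s) ≤ a := by
      have := h.hs
      nlinarith
    have e3 : 0 ≤ r * s := by positivity
    nlinarith
  have hkp0 : 0 ≤ 2 * k * p := by rw [h.hk, h.hp]; positivity
  have hlow : a ^ 2 / 2 ≤ Om k p x := by
    have := Om_lower k p hx0.le h2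
    nlinarith [sq_nonneg a]
  have hup : Om k p x ≤ 10 * a ^ 2 := by
    have := Om_upper k p x
    linarith
  have hup' : Om k p x ≤ (r ^ 2) ^ 2 := by
    have := Om_upper' k p x
    rw [h.hk] at this hkp0
    rw [h.hk]
    linarith
  have hpos : 0 < Om k p x := lt_of_lt_of_le (by positivity) hlow
  refine ⟨hpos, Om k p x ^ ((1/4) : ℝ), Real.rpow_pos_of_pos hpos _, ?_, ?_, ?_, ?_, ?_, ?_, ?_,
    hra⟩
  · rw [← Real.rpow_natCast, ← Real.rpow_mul hpos.le]; norm_num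
  · rw [Real.rpow_neg hpos.le]; exact (one_div _).symm
  · rw [Real.rpow_neg hpos.le, one_div, ← Real.rpow_natCast, ← Real.rpow_mul hpos.le]; norm_num
  · rw [Real.rpow_neg hpos.le, one_div, ← Real.rpow_natCast, ← Real.rpow_mul hpos.le]; norm_num
  · have e1 : (Om k p x ^ ((1/4) : ℝ)) ^ 4 = Om k p x := by
      rw [← Real.rpow_natCast, ← Real.rpow_mul hpos.le]; norm_num
    have e2 : 0 ≤ (Om k p x ^ ((1/4) : ℝ)) ^ 2 := by positivity
    by_contra hcon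
    push Not at hcon
    nlinarith
  · have e1 : (Om k p x ^ ((1/4) : ℝ)) ^ 4 = Om k p x := by
      rw [← Real.rpow_natCast, ← Real.rpow_mul hpos.le]; norm_num
    by_contra hcon
    push Not at hcon
    nlinarith
  · have e1 : (Om k p x ^ ((1/4) : ℝ)) ^ 4 = Om k p x := by
      rw [← Real.rpow_natCast, ← Real.rpow_mul hpos.le]; norm_num
    by_contra hcon
    push Not at hcon
    have : 0 < r ^ 2 := by positivity
    nlinarith

/-- `|m m''| ≤ c / x^3`. -/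
lemma Par.mm_le {B : ℝ} (hB1 : 1 ≤ B) (hB : ∀ q ∈ Icc (0 : ℝ) 1, |dG q| ≤ B ∧ |ddG q| ≤ B)
    (h : Par k p r l s) {x : ℝ} (h1 : Lc * l / r ≤ x) (h2 : x ≤ Lc) :
    |Om k p x ^ (-(1/4) : ℝ) * (-(1/4) * Om2 k x * Om k p x ^ (-(5/4) : ℝ) +
      (5/16) * Om1 k x ^ 2 * Om k p x ^ (-(9/4) : ℝ))| ≤ (39 * B ^ 2 * Lc / r ^ 2) / x ^ 3 := by
  have hr := h.r_pos
  have hL := Lc_pos
  have hs := h.hs0
  have hl := h.hl
  have hx0 : 0 < x := lt_of_lt_of_le (by positivity) h1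
  obtain ⟨-, σ, hσ, -, e1, e2, e3, e4, -, -, -⟩ := h.sigma h1 h2
  rw [e1, e2, e3]
  set a := r ^ 2 * x / Lc with ha
  have ha0 : 0 < a := by positivity
  have b1 := abs_Om1_le hB k hx0.le h2
  have b2 := abs_Om2_le hB k hx0.le h2
  have b1' : |Om1 k x| ≤ 4 * B * r ^ 2 * a / Lc := by
    refine b1.trans (le_of_eq ?_)
    rw [ha, h.hk]; field_simp
  have b1'' : Om1 k x ^ 2 ≤ 16 * B ^ 2 * r ^ 4 * a ^ 2 / Lc ^ 2 := by
    rw [← sq_abs]
    calc |Om1 k x| ^ 2 ≤ (4 * B * r ^ 2 * a / Lc) ^ 2 := by gcongr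
      _ = _ := by field_simp; ring
  have b2' : |Om2 k x| ≤ 12 * B ^ 2 * r ^ 4 / Lc ^ 2 := by
    refine b2.trans ?_
    rw [h.hk, show ((r ^ 2) ^ 2 : ℝ) = r ^ 4 by ring]
    gcongr
    nlinarith
  have c1 : 1 / σ ^ 2 ≤ 10 / 7 / a := by
    rw [div_le_div_iff₀ (by positivity) ha0]
    linarith
  have c0 : 0 ≤ 1 / σ ^ 2 := by positivity
  have c3 : 1 / σ ^ 6 ≤ 3 / a ^ 3 := by
    calc 1 / σ ^ 6 = (1 / σ ^ 2) ^ 3 := by field_simp
      _ ≤ (10 / 7 / a) ^ 3 := by gcongr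
      _ = (10 / 7) ^ 3 / a ^ 3 := by field_simp
      _ ≤ 3 / a ^ 3 := by gcongr; norm_num
  have c5 : 1 / σ ^ 10 ≤ 6 / a ^ 5 := by
    calc 1 / σ ^ 10 = (1 / σ ^ 2) ^ 5 := by field_simp
      _ ≤ (10 / 7 / a) ^ 5 := by gcongr
      _ = (10 / 7) ^ 5 / a ^ 5 := by field_simp
      _ ≤ 6 / a ^ 5 := by gcongr; norm_num
  have e5 : 1 / σ * (-(1/4) * Om2 k x * (1 / σ ^ 5) + (5/16) * Om1 k x ^ 2 * (1 / σ ^ 9)) =
      -((1/4) * Om2 k x * (1 / σ ^ 6)) + (5/16) * Om1 k x ^ 2 * (1 / σ ^ 10) := by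
    field_simp
  rw [e5]
  refine (abs_add_le _ _).trans ?_
  rw [abs_neg, abs_mul, abs_mul, abs_of_nonneg (by positivity : 0 ≤ 1 / σ ^ 6),
    abs_of_nonneg (by norm_num : (0 : ℝ) ≤ 1 / 4),
    abs_of_nonneg (by positivity : 0 ≤ (5/16) * Om1 k x ^ 2 * (1 / σ ^ 10))]
  calc 1 / 4 * |Om2 k x| * (1 / σ ^ 6) + 5 / 16 * Om1 k x ^ 2 * (1 / σ ^ 10)
      ≤ 1 / 4 * (12 * B ^ 2 * r ^ 4 / Lc ^ 2) * (3 / a ^ 3) +
        5 / 16 * (16 * B ^ 2 * r ^ 4 * a ^ 2 / Lc ^ 2) * (6 / a ^ 5) := by gcongr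
    _ = 39 * B ^ 2 * r ^ 4 / Lc ^ 2 / a ^ 3 := by field_simp; ring
    _ = (39 * B ^ 2 * Lc / r ^ 2) / x ^ 3 := by rw [ha]; field_simp


/-- The data of the inhomogeneous problem. -/
structure Sol (k p : ℝ) (u v h : ℝ → ℝ) : Prop where
  hc : Continuous h
  hu : ∀ x ∈ Icc 0 (Lc - 1), HasDerivAt u (v x) x
  hv : ∀ x ∈ Icc 0 (Lc - 1), HasDerivAt v (-Om k p x * u x + h x) x
  h0 : u 0 = 0

/-- `S = N^2 + k^(-3/2) H`. -/
noncomputable def Sf (r : ℝ) (u v h : ℝ → ℝ) : ℝ :=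
  u (Lc - 1) ^ 2 + (v (Lc - 1) / r ^ 2) ^ 2 + (∫ t in (0 : ℝ)..(Lc - 1), h t ^ 2) / r ^ 3

lemma one_le_Lc1 : (1 : ℝ) ≤ Lc - 1 := by unfold Lc; norm_num

lemma Sf_nonneg {u v h : ℝ → ℝ} (hr : 0 < r) : 0 ≤ Sf r u v h := by
  unfold Sf
  have := int_sq_nonneg (h := h) (a := 0) (b := Lc - 1) (by linarith [one_le_Lc1])
  positivity

lemma H_le {u v h : ℝ → ℝ} (hr : 0 < r) :
    (∫ t in (0 : ℝ)..(Lc - 1), h t ^ 2) ≤ r ^ 3 * Sf r u v h := by
  unfold Sf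
  have e1 : r ^ 3 * ((∫ t in (0 : ℝ)..(Lc - 1), h t ^ 2) / r ^ 3) =
      ∫ t in (0 : ℝ)..(Lc - 1), h t ^ 2 := by field_simp
  have e2 : 0 ≤ r ^ 3 * (u (Lc - 1) ^ 2 + (v (Lc - 1) / r ^ 2) ^ 2) := by positivity
  nlinarith

/-- Liouville-Green zone: the energy is at most `C1 r^2 S`. -/
lemma Par.lgE {B : ℝ} (hB1 : 1 ≤ B) (hB : ∀ q ∈ Icc (0 : ℝ) 1, |dG q| ≤ B ∧ |ddG q| ≤ B)
    (h : Par k p r l s) {u v f : ℝ → ℝ} (hS : Sol k p u v f) {x : ℝ} (h1 : Lc * l / r ≤ x)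
    (h2 : x ≤ Lc - 1) :
    (u x / Om k p x ^ (-(1/4) : ℝ)) ^ 2 +
        (Om k p x ^ (-(1/4) : ℝ) * v x -
          (-(1/4) * Om1 k x * Om k p x ^ (-(5/4) : ℝ)) * u x) ^ 2 ≤
      2 * Real.exp (B ^ 2 + Lc) * r ^ 2 * Sf r u v f := by
  have hr := h.r_pos
  have hL := Lc_pos
  have hl := h.hl
  have hr1 : 9000 ≤ r := by linarith [h.hr]
  have ha : 0 < Lc * l / r := by positivity
  have hxe := h.xe_le
  have hL1 := one_le_Lc1
  have hsub : Icc (Lc * l / r) (Lc - 1) ⊆ Icc 0 (Lc - 1) := Icc_subset_Icc ha.le le_rfl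
  have key := lg_zone (a := Lc * l / r) (b := Lc - 1) (c := 39 * B ^ 2 * Lc / r ^ 2)
    (d := 2 / r) ha (by positivity) (by positivity) hS.hc
    (fun x _ => hasDerivAt_Om k p x) (fun x _ => hasDerivAt_Om1 k x)
    (fun x hx => (h.sigma hx.1 (hx.2.trans (by linarith))).1)
    (fun x hx => hS.hu x (hsub hx)) (fun x hx => hS.hv x (hsub hx))
    (fun x hx => h.mm_le hB1 hB hx.1 (hx.2.trans (by linarith))) ?_ x ⟨h1, h2⟩
  · refine key.trans ?_
    obtain ⟨hpos, σ, hσ, e4, e1, e2, e3, e5, e6, e7, e8⟩ :=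
      h.sigma (x := Lc - 1) (hxe.trans hL1) (by linarith)
    rw [Om1_end, e1]
    have f1 : σ ^ 4 = r ^ 4 - 2 * (r * s) ^ 2 := by
      rw [e4, Om_end, h.hk, h.hp]; ring
    have f2 : r ^ 2 / 2 ≤ σ ^ 2 := by
      have hs := h.hs
      have hs0 := h.hs0
      have g1 : 8 * (r * s) ≤ r * l := by nlinarith
      have g2 : r * l ≤ r ^ 2 := by nlinarith [h.hr]
      have g3 : 0 ≤ r * s := by positivity
      have g4 : (r * s) ^ 2 ≤ r ^ 4 / 64 := by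
        have g7 : r * s ≤ r ^ 2 / 8 := by linarith
        calc (r * s) ^ 2 ≤ (r ^ 2 / 8) ^ 2 := by gcongr
          _ = r ^ 4 / 64 := by ring
      by_contra hcon
      push Not at hcon
      have g5 := pow_lt_pow_left₀ hcon (by positivity) two_ne_zero
      have g6 : (σ ^ 2) ^ 2 = σ ^ 4 := by ring
      have g7 : (r ^ 2 / 2) ^ 2 = r ^ 4 / 4 := by ring
      have g8 : 0 < r ^ 4 := by positivity
      rw [g6, g7, f1] at g5
      linarith
    have f3 : (u (Lc - 1) / (1 / σ)) ^ 2 + (1 / σ * v (Lc - 1) -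
        -(1 / 4) * 0 * Om k p (Lc - 1) ^ (-(5 / 4) : ℝ) * u (Lc - 1)) ^ 2 ≤
        2 * r ^ 2 * (u (Lc - 1) ^ 2 + (v (Lc - 1) / r ^ 2) ^ 2) := by
      have g1 : (u (Lc - 1) / (1 / σ)) ^ 2 = σ ^ 2 * u (Lc - 1) ^ 2 := by field_simp
      have g2 : (1 / σ * v (Lc - 1) -
        -(1 / 4) * 0 * Om k p (Lc - 1) ^ (-(5 / 4) : ℝ) * u (Lc - 1)) ^ 2 =
        1 / σ ^ 2 * v (Lc - 1) ^ 2 := by field_simp; ring
      rw [g1, g2]
      have g3 : 1 / σ ^ 2 ≤ 2 / r ^ 2 := by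
        rw [div_le_div_iff₀ (by positivity) (by positivity)]; linarith
      have g4 : 2 * r ^ 2 * (u (Lc - 1) ^ 2 + (v (Lc - 1) / r ^ 2) ^ 2) =
        2 * r ^ 2 * u (Lc - 1) ^ 2 + 2 / r ^ 2 * v (Lc - 1) ^ 2 := by field_simp
      rw [g4]
      have g5 : σ ^ 2 * u (Lc - 1) ^ 2 ≤ 2 * r ^ 2 * u (Lc - 1) ^ 2 := by
        have : 0 ≤ r ^ 2 := by positivity
        exact mul_le_mul_of_nonneg_right (by linarith) (sq_nonneg _)
      have g6 : 1 / σ ^ 2 * v (Lc - 1) ^ 2 ≤ 2 / r ^ 2 * v (Lc - 1) ^ 2 :=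
        mul_le_mul_of_nonneg_right g3 (sq_nonneg _)
      linarith
    have f4 : 2 / r * (∫ t in (Lc * l / r)..(Lc - 1), f t ^ 2) ≤
        2 * r ^ 2 * ((∫ t in (0 : ℝ)..(Lc - 1), f t ^ 2) / r ^ 3) := by
      have g1 : 2 * r ^ 2 * ((∫ t in (0 : ℝ)..(Lc - 1), f t ^ 2) / r ^ 3) =
        2 / r * (∫ t in (0 : ℝ)..(Lc - 1), f t ^ 2) := by field_simp
      rw [g1]
      exact mul_le_mul_of_nonneg_left
        (int_sq_mono hS.hc ha.le (hxe.trans hL1) le_rfl) (by positivity)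
    have f5 : 39 * B ^ 2 * Lc / r ^ 2 / (2 * (Lc * l / r) ^ 2) + (Lc - 1 - Lc * l / r) ≤
        B ^ 2 + Lc := by
      have g1 : 39 * B ^ 2 * Lc / r ^ 2 / (2 * (Lc * l / r) ^ 2) = 39 * B ^ 2 / (2 * Lc * l ^ 2) := by
        field_simp
      have g2 : 39 * B ^ 2 / (2 * Lc * l ^ 2) ≤ B ^ 2 := by
        rw [div_le_iff₀ (by positivity)]
        have g3 : 39 ≤ 2 * Lc * l ^ 2 := by
          have : (1 : ℝ) ≤ l ^ 2 := one_le_pow₀ hl
          unfold Lc; linarith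
        have g4 := mul_le_mul_of_nonneg_left g3 (sq_nonneg B)
        linarith
      rw [g1]
      linarith
    have f6 : 0 ≤ Sf r u v f := Sf_nonneg hr
    have f7 : 0 ≤ ∫ t in (Lc * l / r)..(Lc - 1), f t ^ 2 := int_sq_nonneg (hxe.trans hL1)
    have f8 : 2 * Real.exp (B ^ 2 + Lc) * r ^ 2 * Sf r u v f =
        Real.exp (B ^ 2 + Lc) * (2 * r ^ 2 * Sf r u v f) := by ring
    rw [f8]
    refine mul_le_mul (Real.exp_le_exp.mpr f5) ?_ (by positivity) (Real.exp_pos _).le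
    have f9 : 2 * r ^ 2 * Sf r u v f = 2 * r ^ 2 * (u (Lc - 1) ^ 2 + (v (Lc - 1) / r ^ 2) ^ 2) +
        2 * r ^ 2 * ((∫ t in (0 : ℝ)..(Lc - 1), f t ^ 2) / r ^ 3) := by
      unfold Sf; ring
    rw [f9]
    exact add_le_add f3 f4
  · intro x hx
    obtain ⟨hpos, σ, hσ, e4, e1, e2, e3, e5, e6, e7, e8⟩ :=
      h.sigma (x := x) hx.1 (hx.2.trans (by linarith))
    rw [e1]
    have g1 : (1 / σ) ^ 2 = 1 / σ ^ 2 := by field_simp
    rw [g1, div_le_div_iff₀ (by positivity) hr]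
    have g2 : r * 1 ≤ r * l := mul_le_mul_of_nonneg_left hl hr.le
    linarith

/-- Consequences: the size of `u` in the Liouville-Green zone, and the energy at `x_e`. -/
lemma Par.lgU {B : ℝ} (hB1 : 1 ≤ B) (hB : ∀ q ∈ Icc (0 : ℝ) 1, |dG q| ≤ B ∧ |ddG q| ≤ B)
    (h : Par k p r l s) {u v f : ℝ → ℝ} (hS : Sol k p u v f) {x : ℝ} (h1 : Lc * l / r ≤ x)
    (h2 : x ≤ Lc - 1) :
    u x ^ 2 ≤ 2 * Lc * (2 * Real.exp (B ^ 2 + Lc)) * Sf r u v f / x := by
  have hr := h.r_pos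
  have hL := Lc_pos
  have hl := h.hl
  have hx0 : 0 < x := lt_of_lt_of_le (by positivity) h1
  have key := h.lgE hB1 hB hS h1 h2
  obtain ⟨hpos, σ, hσ, e4, e1, e2, e3, e5, e6, e7, e8⟩ := h.sigma (x := x) h1 (by linarith)
  rw [e1] at key
  have g1 : (u x / (1 / σ)) ^ 2 = σ ^ 2 * u x ^ 2 := by field_simp
  rw [g1] at key
  have g2 : σ ^ 2 * u x ^ 2 ≤ 2 * Real.exp (B ^ 2 + Lc) * r ^ 2 * Sf r u v f :=
    (le_add_of_nonneg_right (sq_nonneg _)).trans key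
  have g3 : 7 / 10 * (r ^ 2 * x / Lc) * u x ^ 2 ≤
      2 * Real.exp (B ^ 2 + Lc) * r ^ 2 * Sf r u v f :=
    (mul_le_mul_of_nonneg_right e5 (sq_nonneg _)).trans g2
  have hS0 : 0 ≤ Sf r u v f := Sf_nonneg hr
  rw [le_div_iff₀ hx0]
  have g4 : 7 / 10 * (r ^ 2 * x / Lc) * u x ^ 2 = r ^ 2 * (7 / 10 * (x * u x ^ 2) / Lc) := by ring
  have g5 : 2 * Real.exp (B ^ 2 + Lc) * r ^ 2 * Sf r u v f =
      r ^ 2 * (2 * Real.exp (B ^ 2 + Lc) * Sf r u v f) := by ring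
  rw [g4, g5] at g3
  have g6 := le_of_mul_le_mul_left g3 (by positivity : 0 < r ^ 2)
  rw [div_le_iff₀ hL] at g6
  have g7 : 0 ≤ 2 * Real.exp (B ^ 2 + Lc) * Sf r u v f * Lc := by positivity
  nlinarith

lemma Par.lgF {B : ℝ} (hB1 : 1 ≤ B) (hB : ∀ q ∈ Icc (0 : ℝ) 1, |dG q| ≤ B ∧ |ddG q| ≤ B)
    (h : Par k p r l s) {u v f : ℝ → ℝ} (hS : Sol k p u v f) :
    v (Lc * l / r) ^ 2 + Om k p (Lc * l / r) * u (Lc * l / r) ^ 2 ≤
      (12 + 2 * B ^ 2) * (2 * Real.exp (B ^ 2 + Lc)) * (l * r ^ 3) * Sf r u v f := by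
  have hr := h.r_pos
  have hL := Lc_pos
  have hl := h.hl
  have hr1 : 9000 ≤ r := by linarith [h.hr]
  have hx2 : Lc * l / r ≤ Lc - 1 := h.xe_le.trans one_le_Lc1
  set x := Lc * l / r with hx
  have hx0 : 0 < x := by positivity
  have key := h.lgE hB1 hB hS le_rfl hx2
  rw [← hx] at key
  obtain ⟨hpos, σ, hσ, e4, e1, e2, e3, e5, e6, e7, e8⟩ :=
    h.sigma (x := x) le_rfl (by linarith)
  have b1 := abs_Om1_le hB k hx0.le (by linarith : x ≤ Lc)
  rw [e1, e2] at key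
  have hax : r ^ 2 * x / Lc = r * l := by rw [hx]; field_simp
  rw [hax] at e5 e6
  set E := 2 * Real.exp (B ^ 2 + Lc) * r ^ 2 * Sf r u v f with hE
  have hS0 : 0 ≤ Sf r u v f := Sf_nonneg hr
  have hE0 : 0 ≤ E := by positivity
  set m' := -(1 / 4) * Om1 k x * (1 / σ ^ 5) with hm'
  set D := 1 / σ * v x - m' * u x with hD
  have g1 : (u x / (1 / σ)) ^ 2 = (σ * u x) ^ 2 := by field_simp
  rw [g1] at key
  -- bound for `m'^2`
  have b2 : m' ^ 2 ≤ B ^ 2 * (r * l) := by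
    have b3 : |Om1 k x| ≤ 4 * B * r ^ 3 * l / Lc := by
      refine b1.trans (le_of_eq ?_)
      rw [hx, h.hk]; field_simp
    have b4 : Om1 k x ^ 2 ≤ (4 * B * r ^ 3 * l / Lc) ^ 2 := by
      rw [← sq_abs]; gcongr
    have c1 : 1 / σ ^ 2 ≤ 10 / 7 / (r * l) := by
      rw [div_le_div_iff₀ (by positivity) (by positivity)]
      linarith
    have c5 : 1 / σ ^ 10 ≤ 6 / (r * l) ^ 5 := by
      calc 1 / σ ^ 10 = (1 / σ ^ 2) ^ 5 := by field_simp
        _ ≤ (10 / 7 / (r * l)) ^ 5 := by gcongr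
        _ = (10 / 7) ^ 5 / (r * l) ^ 5 := by field_simp
        _ ≤ 6 / (r * l) ^ 5 := by gcongr; norm_num
    calc m' ^ 2 = 1 / 16 * Om1 k x ^ 2 * (1 / σ ^ 10) := by rw [hm']; field_simp; ring
      _ ≤ 1 / 16 * (4 * B * r ^ 3 * l / Lc) ^ 2 * (6 / (r * l) ^ 5) := by gcongr
      _ = B ^ 2 * (r * l) * (6 / (Lc ^ 2 * l ^ 4)) := by field_simp; ring
      _ ≤ B ^ 2 * (r * l) * 1 := by
          gcongr
          rw [div_le_one (by positivity)]
          have h14 : (1 : ℝ) ≤ l ^ 4 := one_le_pow₀ hl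
          unfold Lc
          linarith
      _ = _ := by ring
  have g2 : v x = σ * D + m' * (σ * u x) := by
    rw [hD]; field_simp; ring
  have g3 : v x ^ 2 ≤ 2 * (σ ^ 2 * D ^ 2) + 2 * (m' ^ 2 * (σ * u x) ^ 2) := by
    rw [g2]
    nlinarith [sq_nonneg (σ * D - m' * (σ * u x))]
  have g4 : Om k p x * u x ^ 2 = σ ^ 2 * (σ * u x) ^ 2 := by rw [← e4]; ring
  have g5 : D ^ 2 ≤ E := (le_add_of_nonneg_left (sq_nonneg _)).trans key
  have g6 : (σ * u x) ^ 2 ≤ E := (le_add_of_nonneg_right (sq_nonneg _)).trans key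
  have g7 : σ ^ 2 * D ^ 2 ≤ 4 * (r * l) * E := by
    have : 0 ≤ r * l := by positivity
    exact mul_le_mul e6 g5 (sq_nonneg _) (by positivity)
  have g8 : m' ^ 2 * (σ * u x) ^ 2 ≤ B ^ 2 * (r * l) * E :=
    mul_le_mul b2 g6 (sq_nonneg _) (by positivity)
  have g9 : σ ^ 2 * (σ * u x) ^ 2 ≤ 4 * (r * l) * E :=
    mul_le_mul e6 g6 (sq_nonneg _) (by positivity)
  rw [g4]
  have g10 : (12 + 2 * B ^ 2) * (2 * Real.exp (B ^ 2 + Lc)) * (l * r ^ 3) * Sf r u v f =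
      (12 + 2 * B ^ 2) * (r * l) * E := by rw [hE]; ring
  rw [g10]
  linarith

end BS

open BS

theorem evan : ∃ K : ℝ, ∀ k : ℝ, K ≤ k → ∀ p : ℝ, Real.log k / 320 ≤ p →
    p ≤ Real.log k / 80 → ∀ u v : ℝ → ℝ,
    (∀ x ∈ Icc 0 (Lc - 1), HasDerivAt u (v x) x) →
    (∀ x ∈ Icc 0 (Lc - 1),
      HasDerivAt v (-(2 * k ^ 2 * G ((x / Lc) ^ 2) - 2 * k * p) * u x) x) →
    u 0 = 0 → v 0 = 1 →
    k ^ 7 ≤ k ^ 2 * u (Lc - 1) ^ 2 + v (Lc - 1) ^ 2 ∧
      ∀ x ∈ Icc 0 (2 / k), |u x| ≤ 4 / k ∧ |v x| ≤ 2 := by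
  obtain ⟨K, hK⟩ := exists_par
  refine ⟨K, fun k hk p hp1 hp2 u v hu hv hu0 hv0 => ?_⟩
  obtain ⟨r, l, s, h⟩ := hK k hk p hp1 hp2
  have hr := h.r_pos
  have hL := Lc_pos
  have hs := h.hs0
  have hl := h.hl
  have hk0 : 0 < k := by rw [h.hk]; positivity
  have hr1 : 9000 ≤ r := by linarith [h.hr]
  have hL1 : (1 : ℝ) ≤ Lc - 1 := by unfold Lc; norm_num
  have hv' : ∀ x ∈ Icc 0 (Lc - 1), HasDerivAt v (-(Om k p x) * u x) x := hv
  set T := Lc * s / r with hT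
  have hT0 : 0 < T := by positivity
  have hT1 : T ≤ 1 := (h.xt_le).trans h.xe_le
  have hsub : Icc 0 T ⊆ Icc 0 (Lc - 1) := Icc_subset_Icc le_rfl (by linarith)
  obtain ⟨hpos, hmono⟩ := grow_pos hT0.le (fun x hx => h.Om_nonpos hx.1 hx.2)
    (fun x hx => hu x (hsub hx)) (fun x hx => hv' x (hsub hx)) hu0 hv0
  constructor
  · -- growth
    have hsub2 : Icc 0 (T / 2) ⊆ Icc 0 (Lc - 1) := Icc_subset_Icc le_rfl (by linarith)
    have h1 := grow_exp (T := T / 2) (w := 6 / 5 * r * s) (by positivity) (by positivity)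
      (fun x hx => h.Om_half hx.1 hx.2) (fun x hx => hu x (hsub2 hx))
      (fun x hx => hv' x (hsub2 hx)) hu0 hv0 (T / 2) (right_mem_Icc.mpr (by positivity))
    have h2 : 6 / 5 * r * s * (T / 2) = 1200 * p := by
      rw [hT, h.hp]; unfold Lc; field_simp; ring
    rw [h2] at h1
    have h3 : v (T / 2) ≤ v T :=
      hmono ⟨by positivity, by linarith⟩ (right_mem_Icc.mpr hT0.le) (by linarith)
    have h4 : k ^ 7 * r ≤ Real.exp (1200 * p) ^ 2 := by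
      have e1 : k ^ 7 * r = Real.exp (15 / 2 * Real.log k) := by
        have e2 : k = r ^ 2 := h.hk
        have e3 : Real.log k = 2 * Real.log r := by rw [e2, Real.log_pow]; push_cast; ring
        rw [e3, show 15 / 2 * (2 * Real.log r) = Real.log r * ((15 : ℕ) : ℝ) by push_cast; ring,
          Real.exp_mul, Real.exp_log hr, Real.rpow_natCast, e2]
        ring
      rw [e1, ← Real.exp_nat_mul]
      apply Real.exp_le_exp.mpr
      push_cast
      linarith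
    have h5 : k ^ 7 ≤ v T ^ 2 := by
      have e1 : 0 < Real.exp (1200 * p) := Real.exp_pos _
      have e2 : (Real.exp (1200 * p) / 2) ^ 2 ≤ v T ^ 2 := by
        have : Real.exp (1200 * p) / 2 ≤ v T := h1.trans h3
        gcongr
      have e3 : 0 ≤ k ^ 7 := by positivity
      nlinarith
    -- the energy increases beyond the turning point
    have hF : ∀ x ∈ Icc T (Lc - 1), HasDerivAt (fun y => v y ^ 2 + Om k p y * u y ^ 2)
        (Om1 k x * u x ^ 2) x := by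
      intro x hx
      have hx' : x ∈ Icc 0 (Lc - 1) := ⟨hT0.le.trans hx.1, hx.2⟩
      exact (((hv' x hx').pow 2).add ((hasDerivAt_Om k p x).mul ((hu x hx').pow 2))).congr_deriv
        (by simp only [show (2 - 1 : ℕ) = 1 from rfl, pow_one, Pi.pow_apply]; push_cast; ring)
    have h6 := mono_of_hasDeriv hF
      (fun x hx => mul_nonneg (Om1_nonneg k (hT0.le.trans hx.1)) (sq_nonneg _))
      (left_mem_Icc.mpr (by linarith)) (right_mem_Icc.mpr (by linarith)) (by linarith : T ≤ Lc - 1)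
    simp only at h6
    have h7 : 0 ≤ Om k p T * u T ^ 2 :=
      mul_nonneg (h.Om_nonneg le_rfl (by linarith)) (sq_nonneg _)
    have h8 : Om k p (Lc - 1) * u (Lc - 1) ^ 2 ≤ k ^ 2 * u (Lc - 1) ^ 2 := by
      rw [Om_end]
      have hp0 : 0 ≤ p := by rw [h.hp]; positivity
      have : 0 ≤ 2 * k * p := by positivity
      exact mul_le_mul_of_nonneg_right (by linarith) (sq_nonneg _)
    linarith
  · -- short interval
    have h2k : 2 / k ≤ T := by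
      rw [hT, h.hk, div_le_div_iff₀ (by positivity) hr]
      have e1 : 1 ≤ 320 * s ^ 2 := by
        have := h.hs'
        rw [h.hp] at this
        nlinarith
      have e2 : 1 ≤ 20 * s := by nlinarith
      have e3 : (2 : ℝ) * r ≤ Lc * s * r ^ 2 := by
        unfold Lc
        have : 1 ≤ r := by linarith
        nlinarith [mul_le_mul_of_nonneg_right e2 (by positivity : (0 : ℝ) ≤ r ^ 2)]
      exact e3
    have hsub3 : Icc 0 (2 / k) ⊆ Icc 0 (Lc - 1) := Icc_subset_Icc le_rfl (by linarith)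
    have h1 := grow_up (T := 2 / k) (w := 3 / 2 * r * s) (by positivity) (by positivity)
      (fun x hx => h.Om_nonpos hx.1 (hx.2.trans h2k)) (fun x hx => by
        have e1 := Om_lower k p hx.1 (hx.2.trans (by linarith))
        have e2 : 0 ≤ k ^ 2 * (x / Lc) ^ 2 := by positivity
        have e3 : 2 * k * p = 2 * r ^ 2 * s ^ 2 := by rw [h.hk, h.hp]
        have e4 : 0 ≤ r ^ 2 * s ^ 2 := by positivity
        nlinarith) (fun x hx => hu x (hsub3 hx))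
      (fun x hx => hv' x (hsub3 hx)) hu0 hv0 (by
        have e1 : 2 * (3 / 2 * r * s) * (2 / k) ≤ 1 := by
          rw [h.hk]
          have e2 : 2 * (3 / 2 * r * s) * (2 / r ^ 2) = 6 * s / r := by field_simp; ring
          rw [e2, div_le_one hr]
          linarith [h.hs, h.hr, h.hl]
        have e3 := Real.exp_le_exp.mpr e1
        have e4 := Real.exp_one_lt_d9
        linarith)
    intro x hx
    obtain ⟨e1, e2⟩ := h1 x hx
    refine ⟨e1.trans ?_, e2⟩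
    have := hx.2
    calc 2 * x ≤ 2 * (2 / k) := by linarith
      _ = 4 / k := by ring


namespace BS

variable {k p r l s : ℝ}

/-- Transition zone. -/
lemma Par.trF {B : ℝ} (hB1 : 1 ≤ B) (hB : ∀ q ∈ Icc (0 : ℝ) 1, |dG q| ≤ B ∧ |ddG q| ≤ B)
    (h : Par k p r l s) {u v f : ℝ → ℝ} (hS : Sol k p u v f) {x : ℝ} (h1 : Lc * s / r ≤ x)
    (h2 : x ≤ Lc * l / r) :
    v x ^ 2 + Om k p x * u x ^ 2 ≤
      Real.exp 1 * (Lc + (12 + 2 * B ^ 2) * (2 * Real.exp (B ^ 2 + Lc))) * (l * r ^ 3) *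
        Sf r u v f := by
  have hr := h.r_pos
  have hL := Lc_pos
  have hl := h.hl
  have hs := h.hs0
  have hr1 : 9000 ≤ r := by linarith [h.hr]
  have hxe := h.xe_le
  have hL1 := one_le_Lc1
  have hxe0 : 0 < Lc * l / r := by positivity
  have hxt0 : 0 < Lc * s / r := by positivity
  have hsub : Icc (Lc * s / r) (Lc * l / r) ⊆ Icc 0 (Lc - 1) :=
    Icc_subset_Icc hxt0.le (by linarith)
  have key := transition_zone (a := Lc * s / r) (b := Lc * l / r) (c := Lc * l / r) hxe0 hS.hc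
    (fun x _ => hasDerivAt_Om k p x) (fun x hx => h.Om_nonneg hx.1 (by linarith [hx.2]))
    (fun x hx => Om1_nonneg k (hxt0.le.trans hx.1)) (fun x hx => hS.hu x (hsub hx))
    (fun x hx => hS.hv x (hsub hx)) x ⟨h1, h2⟩
  refine key.trans ?_
  have hF := h.lgF hB1 hB hS
  have hx0 : 0 < x := hxt0.trans_le h1
  have hS0 : 0 ≤ Sf r u v f := Sf_nonneg hr
  have e1 : (Lc * l / r - x) / (Lc * l / r) ≤ 1 := by
    rw [div_le_one hxe0]; linarith
  have e2 : (∫ t in x..(Lc * l / r), f t ^ 2) ≤ r ^ 3 * Sf r u v f :=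
    (int_sq_mono hS.hc hx0.le h2 (by linarith)).trans (H_le hr)
  have e3 : Lc * l / r * (∫ t in x..(Lc * l / r), f t ^ 2) ≤ Lc * (l * r ^ 3) * Sf r u v f := by
    calc Lc * l / r * (∫ t in x..(Lc * l / r), f t ^ 2)
        ≤ Lc * l / r * (r ^ 3 * Sf r u v f) := mul_le_mul_of_nonneg_left e2 hxe0.le
      _ = Lc * (l * r ^ 2) * Sf r u v f * 1 := by field_simp
      _ ≤ Lc * (l * r ^ 2) * Sf r u v f * r := by gcongr; linarith
      _ = _ := by ring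
  have e4 : 0 ≤ Om k p (Lc * l / r) :=
    h.Om_nonneg (h.xt_le) (by linarith)
  have e5 : 0 ≤ (∫ t in x..(Lc * l / r), f t ^ 2) := int_sq_nonneg h2
  calc _ ≤ Real.exp 1 * ((12 + 2 * B ^ 2) * (2 * Real.exp (B ^ 2 + Lc)) * (l * r ^ 3) *
        Sf r u v f + Lc * (l * r ^ 3) * Sf r u v f) := by
        refine mul_le_mul (Real.exp_le_exp.mpr e1) (add_le_add hF e3) ?_ (Real.exp_pos _).le
        positivity
    _ = _ := by ring

/-- Transition zone: size of `u`. -/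
lemma Par.trU {B C1 C2 : ℝ} (hB1 : 1 ≤ B)
    (hB : ∀ q ∈ Icc (0 : ℝ) 1, |dG q| ≤ B ∧ |ddG q| ≤ B)
    (hC1 : C1 = 2 * Real.exp (B ^ 2 + Lc))
    (hC2 : C2 = Real.exp 1 * (Lc + (12 + 2 * B ^ 2) * C1))
    (h : Par k p r l s) {u v f : ℝ → ℝ} (hS : Sol k p u v f) {x : ℝ} (h1 : Lc * s / r ≤ x)
    (h2 : x ≤ Lc * l / r) :
    v x ^ 2 ≤ C2 * (l * r ^ 3) * Sf r u v f ∧
    u x ^ 2 ≤ (4 * C1 + 2 * Lc ^ 2 * C2) * (l ^ 3 * r) * Sf r u v f := by
  have hr := h.r_pos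
  have hL := Lc_pos
  have hl := h.hl
  have hs := h.hs0
  have hr1 : 9000 ≤ r := by linarith [h.hr]
  have hxe := h.xe_le
  have hL1 := one_le_Lc1
  have hxe0 : 0 < Lc * l / r := by positivity
  have hxt0 : 0 < Lc * s / r := by positivity
  have hS0 : 0 ≤ Sf r u v f := Sf_nonneg hr
  have hC10 : 0 ≤ C1 := by rw [hC1]; positivity
  have hC20 : 0 ≤ C2 := by rw [hC2]; positivity
  have hv : ∀ y ∈ Icc (Lc * s / r) (Lc * l / r), v y ^ 2 ≤ C2 * (l * r ^ 3) * Sf r u v f := by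
    intro y hy
    have e1 := h.trF hB1 hB hS hy.1 hy.2
    have e2 : 0 ≤ Om k p y * u y ^ 2 :=
      mul_nonneg (h.Om_nonneg hy.1 (by linarith [hy.2])) (sq_nonneg _)
    rw [hC2, hC1]
    linarith
  refine ⟨hv x ⟨h1, h2⟩, ?_⟩
  set V := Real.sqrt (C2 * (l * r ^ 3) * Sf r u v f) with hV
  have hV0 : 0 ≤ V := Real.sqrt_nonneg _
  have hV2 : V ^ 2 = C2 * (l * r ^ 3) * Sf r u v f := Real.sq_sqrt (by positivity)
  have hsub : Icc (Lc * s / r) (Lc * l / r) ⊆ Icc 0 (Lc - 1) :=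
    Icc_subset_Icc hxt0.le (by linarith)
  have e1 : ‖u x - u (Lc * l / r)‖ ≤ V * ‖x - Lc * l / r‖ := by
    refine Convex.norm_image_sub_le_of_norm_hasDerivWithin_le (f := u) (f' := v)
      (s := Icc (Lc * s / r) (Lc * l / r)) (fun y hy => (hS.hu y (hsub hy)).hasDerivWithinAt)
      (fun y hy => ?_) (convex_Icc _ _) (right_mem_Icc.mpr h.xt_le) ⟨h1, h2⟩
    rw [Real.norm_eq_abs]
    exact Real.abs_le_sqrt (hv y hy)
  have e2 : ‖x - Lc * l / r‖ ≤ Lc * l / r := by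
    rw [Real.norm_eq_abs, abs_le]; constructor <;> linarith
  have e3 : |u x - u (Lc * l / r)| ≤ V * (Lc * l / r) := by
    rw [← Real.norm_eq_abs]
    exact e1.trans (mul_le_mul_of_nonneg_left e2 hV0)
  have e4 : (u x - u (Lc * l / r)) ^ 2 ≤ (V * (Lc * l / r)) ^ 2 := by
    rw [← sq_abs]; gcongr
  have e5 : u x ^ 2 ≤ 2 * u (Lc * l / r) ^ 2 + 2 * (u x - u (Lc * l / r)) ^ 2 := by
    nlinarith [sq_nonneg (u x - 2 * u (Lc * l / r))]
  have e6 := h.lgU hB1 hB hS le_rfl (by linarith : Lc * l / r ≤ Lc - 1)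
  rw [← hC1] at e6
  have e7 : 2 * Lc * C1 * Sf r u v f / (Lc * l / r) ≤ 2 * C1 * (l ^ 3 * r) * Sf r u v f := by
    have g1 : 2 * Lc * C1 * Sf r u v f / (Lc * l / r) = 2 * C1 * Sf r u v f * r * (1 / l) := by
      field_simp
    have g2 : 1 / l ≤ l ^ 3 := by
      rw [div_le_iff₀ (by linarith)]
      have : (1 : ℝ) ≤ l ^ 4 := one_le_pow₀ hl
      linarith
    rw [g1]
    calc 2 * C1 * Sf r u v f * r * (1 / l) ≤ 2 * C1 * Sf r u v f * r * l ^ 3 := by gcongr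
      _ = _ := by ring
  have e8 : (V * (Lc * l / r)) ^ 2 = Lc ^ 2 * C2 * (l ^ 3 * r) * Sf r u v f := by
    rw [mul_pow, hV2]; field_simp
  rw [e8] at e4
  have e9 : (4 * C1 + 2 * Lc ^ 2 * C2) * (l ^ 3 * r) * Sf r u v f =
      2 * (2 * C1 * (l ^ 3 * r) * Sf r u v f) + 2 * (Lc ^ 2 * C2 * (l ^ 3 * r) * Sf r u v f) := by
    ring
  rw [e9]
  linarith

/-- Barrier: size of `u`. -/
lemma Par.baU {B C1 C2 C3 : ℝ} (hB1 : 1 ≤ B)
    (hB : ∀ q ∈ Icc (0 : ℝ) 1, |dG q| ≤ B ∧ |ddG q| ≤ B)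
    (hC1 : C1 = 2 * Real.exp (B ^ 2 + Lc))
    (hC2 : C2 = Real.exp 1 * (Lc + (12 + 2 * B ^ 2) * C1))
    (hC3 : C3 = 4 * C1 + 2 * Lc ^ 2 * C2)
    (h : Par k p r l s) {u v f : ℝ → ℝ} (hS : Sol k p u v f) {x : ℝ} (h1 : 0 ≤ x)
    (h2 : x ≤ Lc * s / r) :
    u x ^ 2 ≤ (4 * C3 + 4 * Lc ^ 2 * C2 + 16 * Lc ^ 3) * (l ^ 3 * r) * Sf r u v f := by
  have hr := h.r_pos
  have hL := Lc_pos
  have hl := h.hl
  have hs := h.hs0
  have hsl : s ≤ l := by linarith [h.hs]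
  have hr1 : 9000 ≤ r := by linarith [h.hr]
  have hxe := h.xe_le
  have hxt := h.xt_le
  have hL1 := one_le_Lc1
  have hxt0 : 0 < Lc * s / r := by positivity
  have hS0 : 0 ≤ Sf r u v f := Sf_nonneg hr
  have hC10 : 0 ≤ C1 := by rw [hC1]; positivity
  have hC20 : 0 ≤ C2 := by rw [hC2]; positivity
  obtain ⟨hv2, hu2⟩ := h.trU hB1 hB hC1 hC2 hS le_rfl hxt
  rw [← hC3] at hu2
  have hsub : Icc 0 (Lc * s / r) ⊆ Icc 0 (Lc - 1) := Icc_subset_Icc le_rfl (by linarith)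
  have key := barrier_zone (T := Lc * s / r) hxt0 hS.hc
    (fun y _ => (hasDerivAt_Om k p y).continuousAt.continuousWithinAt)
    (fun y hy => h.Om_nonpos hy.1 hy.2) (fun y hy => hS.hu y (hsub hy))
    (fun y hy => hS.hv y (hsub hy)) hS.h0 x ⟨h1, h2⟩
  set T := Lc * s / r with hT
  have e1 : 8 * T * |u T * v T| ≤ 4 * u T ^ 2 + 4 * (T ^ 2 * v T ^ 2) := by
    have g1 : 8 * T * |u T * v T| = 8 * (|u T| * (T * |v T|)) := by rw [abs_mul]; ring
    have g2 : 4 * u T ^ 2 + 4 * (T ^ 2 * v T ^ 2) = 4 * |u T| ^ 2 + 4 * (T * |v T|) ^ 2 := by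
      rw [mul_pow, sq_abs, sq_abs]
    rw [g1, g2]
    nlinarith [sq_nonneg (|u T| - T * |v T|)]
  have e2 : T ^ 2 * v T ^ 2 ≤ Lc ^ 2 * C2 * (l ^ 3 * r) * Sf r u v f := by
    calc T ^ 2 * v T ^ 2 ≤ T ^ 2 * (C2 * (l * r ^ 3) * Sf r u v f) := by gcongr
      _ = Lc ^ 2 * C2 * (l * s ^ 2 * r) * Sf r u v f := by rw [hT]; field_simp
      _ ≤ Lc ^ 2 * C2 * (l * l ^ 2 * r) * Sf r u v f := by gcongr
      _ = _ := by ring
  have e3 : (∫ t in (0 : ℝ)..T, f t ^ 2) ≤ r ^ 3 * Sf r u v f :=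
    (int_sq_mono hS.hc le_rfl hxt0.le (by linarith)).trans (H_le hr)
  have e4 : 16 * T ^ 3 * (∫ t in (0 : ℝ)..T, f t ^ 2) ≤ 16 * Lc ^ 3 * (l ^ 3 * r) * Sf r u v f := by
    calc 16 * T ^ 3 * (∫ t in (0 : ℝ)..T, f t ^ 2) ≤ 16 * T ^ 3 * (r ^ 3 * Sf r u v f) := by
          gcongr
      _ = 16 * Lc ^ 3 * (s ^ 3 * 1) * Sf r u v f := by rw [hT]; field_simp
      _ ≤ 16 * Lc ^ 3 * (l ^ 3 * r) * Sf r u v f := by gcongr; linarith
  have e5 : (4 * C3 + 4 * Lc ^ 2 * C2 + 16 * Lc ^ 3) * (l ^ 3 * r) * Sf r u v f =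
      4 * (C3 * (l ^ 3 * r) * Sf r u v f) + 4 * (Lc ^ 2 * C2 * (l ^ 3 * r) * Sf r u v f) +
      16 * Lc ^ 3 * (l ^ 3 * r) * Sf r u v f := by ring
  rw [e5]
  linarith

end BS

theorem bside : ∃ C K : ℝ, 0 < C ∧ ∀ k : ℝ, K ≤ k → ∀ p : ℝ, Real.log k / 320 ≤ p →
    p ≤ Real.log k / 80 → ∀ u v h : ℝ → ℝ, Continuous h →
    (∀ x ∈ Icc 0 (Lc - 1), HasDerivAt u (v x) x) →
    (∀ x ∈ Icc 0 (Lc - 1),
      HasDerivAt v (-(2 * k ^ 2 * G ((x / Lc) ^ 2) - 2 * k * p) * u x + h x) x) →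
    u 0 = 0 →
    ∫ x in (0 : ℝ)..(Lc - 1), u x ^ 2 ≤ C * Real.log k ^ 2 *
      (u (Lc - 1) ^ 2 + (v (Lc - 1) / k) ^ 2 +
        k ^ (-(3 / 2) : ℝ) * ∫ x in (0 : ℝ)..(Lc - 1), h x ^ 2) := by
  obtain ⟨B, hB1, hB⟩ := exists_bound
  obtain ⟨K, hK⟩ := exists_par
  obtain ⟨C1, hC1⟩ : ∃ C1 : ℝ, C1 = 2 * Real.exp (B ^ 2 + Lc) := ⟨_, rfl⟩
  obtain ⟨C2, hC2⟩ : ∃ C2 : ℝ, C2 = Real.exp 1 * (Lc + (12 + 2 * B ^ 2) * C1) := ⟨_, rfl⟩
  obtain ⟨C3, hC3⟩ : ∃ C3 : ℝ, C3 = 4 * C1 + 2 * Lc ^ 2 * C2 := ⟨_, rfl⟩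
  obtain ⟨C4, hC4⟩ : ∃ C4 : ℝ, C4 = 4 * C3 + 4 * Lc ^ 2 * C2 + 16 * Lc ^ 3 := ⟨_, rfl⟩
  have hL := Lc_pos
  have hC10 : 0 < C1 := by rw [hC1]; positivity
  have hC20 : 0 < C2 := by rw [hC2]; positivity
  have hC30 : 0 < C3 := by rw [hC3]; positivity
  have hC40 : 0 < C4 := by rw [hC4]; positivity
  have hC34 : C3 ≤ C4 := by
    have : 0 ≤ 4 * Lc ^ 2 * C2 + 16 * Lc ^ 3 := by positivity
    rw [hC4]; linarith
  refine ⟨Lc * C4 + 2 * Lc * C1, K, by positivity, fun k hk p hp1 hp2 u v f hc hu hv h0 => ?_⟩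
  obtain ⟨r, l, s, h⟩ := hK k hk p hp1 hp2
  have hS : Sol k p u v f := ⟨hc, hu, hv, h0⟩
  have hr := h.r_pos
  have hl := h.hl
  have hs := h.hs0
  have hr1 : 9000 ≤ r := by linarith [h.hr]
  have hxe := h.xe_le
  have hxt := h.xt_le
  have hL1 := one_le_Lc1
  have hxe0 : 0 < Lc * l / r := by positivity
  have hS0 : 0 ≤ Sf r u v f := Sf_nonneg hr
  have huc : ContinuousOn (fun x => u x ^ 2) (Icc 0 (Lc - 1)) := fun x hx =>
    ((hu x hx).continuousAt.continuousWithinAt).pow 2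
  have hint : ∀ {a b : ℝ}, a ∈ Icc 0 (Lc - 1) → b ∈ Icc 0 (Lc - 1) →
      IntervalIntegrable (fun x => u x ^ 2) volume a b := by
    intro a b ha hb
    refine (huc.mono ?_).intervalIntegrable
    exact (convex_Icc (0 : ℝ) (Lc - 1)).ordConnected.uIcc_subset ha hb
  have m0 : (0 : ℝ) ∈ Icc 0 (Lc - 1) := left_mem_Icc.mpr (by linarith)
  have m1 : Lc - 1 ∈ Icc 0 (Lc - 1) := right_mem_Icc.mpr (by linarith)
  have me : Lc * l / r ∈ Icc 0 (Lc - 1) := ⟨hxe0.le, by linarith⟩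
  have hU : ∀ x ∈ Icc 0 (Lc * l / r), u x ^ 2 ≤ C4 * (l ^ 3 * r) * Sf r u v f := by
    intro x hx
    rcases le_total x (Lc * s / r) with h1 | h1
    · rw [hC4]; exact h.baU hB1 hB hC1 hC2 hC3 hS hx.1 h1
    · have e1 := (h.trU hB1 hB hC1 hC2 hS h1 hx.2).2
      rw [← hC3] at e1
      refine e1.trans ?_
      gcongr
  have i1 : ∫ x in (0 : ℝ)..(Lc * l / r), u x ^ 2 ≤ Lc * C4 * l ^ 4 * Sf r u v f := by
    have e1 : ∫ x in (0 : ℝ)..(Lc * l / r), u x ^ 2 ≤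
        ∫ x in (0 : ℝ)..(Lc * l / r), C4 * (l ^ 3 * r) * Sf r u v f :=
      intervalIntegral.integral_mono_on hxe0.le (hint m0 me)
        (_root_.intervalIntegrable_const) hU
    rw [intervalIntegral.integral_const, smul_eq_mul] at e1
    refine e1.trans (le_of_eq ?_)
    field_simp
    ring
  have i2 : ∫ x in (Lc * l / r)..(Lc - 1), u x ^ 2 ≤ 2 * Lc * C1 * l ^ 4 * Sf r u v f := by
    have hci : ContinuousOn (fun x : ℝ => 2 * Lc * C1 * Sf r u v f * x⁻¹)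
        (uIcc (Lc * l / r) (Lc - 1)) := by
      refine continuousOn_const.mul (continuousOn_inv₀.mono ?_)
      intro x hx
      rw [uIcc_of_le (by linarith)] at hx
      exact (hxe0.trans_le hx.1).ne'
    have e1 : ∫ x in (Lc * l / r)..(Lc - 1), u x ^ 2 ≤
        ∫ x in (Lc * l / r)..(Lc - 1), 2 * Lc * C1 * Sf r u v f * x⁻¹ := by
      refine intervalIntegral.integral_mono_on (by linarith) (hint me m1)
        hci.intervalIntegrable ?_
      intro x hx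
      have e2 := h.lgU hB1 hB hS hx.1 hx.2
      rw [← hC1] at e2
      rw [← div_eq_mul_inv]
      exact e2
    rw [intervalIntegral.integral_const_mul, integral_inv_of_pos hxe0 (by linarith)] at e1
    refine e1.trans ?_
    have e3 : Real.log ((Lc - 1) / (Lc * l / r)) ≤ l ^ 4 := by
      have g1 : (Lc - 1) / (Lc * l / r) ≤ r := by
        rw [div_le_iff₀ hxe0]
        have : r * (Lc * l / r) = Lc * l := by field_simp
        rw [this]
        nlinarith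
      have g2 : Real.log ((Lc - 1) / (Lc * l / r)) ≤ Real.log r :=
        Real.log_le_log (by positivity) g1
      have g3 : Real.log r = l ^ 2 / 2 := by
        have g4 := h.hlog
        rw [h.hk, Real.log_pow] at g4
        push_cast at g4
        linarith
      have g5 : (1 : ℝ) ≤ l ^ 2 := one_le_pow₀ hl
      nlinarith
    calc 2 * Lc * C1 * Sf r u v f * Real.log ((Lc - 1) / (Lc * l / r))
        ≤ 2 * Lc * C1 * Sf r u v f * l ^ 4 := by gcongr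
      _ = _ := by ring
  have i3 : ∫ x in (0 : ℝ)..(Lc - 1), u x ^ 2 =
      (∫ x in (0 : ℝ)..(Lc * l / r), u x ^ 2) + ∫ x in (Lc * l / r)..(Lc - 1), u x ^ 2 :=
    (intervalIntegral.integral_add_adjacent_intervals (hint m0 me) (hint me m1)).symm
  have i4 : k ^ (-(3 / 2) : ℝ) = (r ^ 3)⁻¹ := by
    rw [h.hk, ← Real.rpow_natCast, ← Real.rpow_mul hr.le]
    rw [show ((2 : ℕ) : ℝ) * (-(3 / 2)) = -((3 : ℕ) : ℝ) by push_cast; norm_num]
    rw [Real.rpow_neg hr.le, Real.rpow_natCast]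
  have i5 : u (Lc - 1) ^ 2 + (v (Lc - 1) / k) ^ 2 +
      k ^ (-(3 / 2) : ℝ) * (∫ x in (0 : ℝ)..(Lc - 1), f x ^ 2) = Sf r u v f := by
    unfold Sf
    rw [i4, h.hk]
    ring
  rw [i5, h.hlog, i3]
  calc _ ≤ Lc * C4 * l ^ 4 * Sf r u v f + 2 * Lc * C1 * l ^ 4 * Sf r u v f := add_le_add i1 i2
    _ = _ := by ring

end Pool.Agent.Work.MP_5698f2_an

end

section

/-!
# MP_5698f2_an: the main statement on the ordinary differential equation
-/

open MeasureTheory Filter Topology Set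
open scoped ContDiff InnerProductSpace

namespace Pool.Agent.Work.MP_5698f2_an

lemma contDiff_U0_ode : ContDiff ℝ ∞ U0 := by
  unfold U0
  have h1 : ContDiff ℝ ∞ (fun z : ℝ => G ((z / Lc) ^ 2)) := contDiff_G.comp (by fun_prop)
  have h2 : ContDiff ℝ ∞ (fun z : ℝ => G ((z - Lc) ^ 2)) := contDiff_G.comp (by fun_prop)
  have h3 : ContDiff ℝ ∞ (fun z : ℝ => G (((z - 2 * Lc) / Lc) ^ 2)) :=
    contDiff_G.comp (by fun_prop)
  exact ((contDiff_const.sub h1).sub h2).sub h3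

lemma U0_left {x : ℝ} (hx : x ∈ Icc 0 (Lc - 1)) : U0 x = 1 - G ((x / Lc) ^ 2) := by
  obtain ⟨h0, h1⟩ := hx
  unfold U0
  have hL : Lc = 2000 := rfl
  have h2 : G ((x - Lc) ^ 2) = 1 / 2 := by
    apply G_of_ge
    nlinarith
  have h3 : G (((x - 2 * Lc) / Lc) ^ 2) = 1 / 2 := by
    apply G_of_ge
    have : (x - 2 * Lc) / Lc ≤ -1 := by
      rw [div_le_iff₀ (by rw [hL]; norm_num)]
      linarith
    nlinarith
  rw [h2, h3]; ring

lemma U0_mid {x : ℝ} (hx : x ∈ Icc (Lc - 1) (Lc + 2)) : U0 x = 1 - G ((x - Lc) ^ 2) := by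
  obtain ⟨h0, h1⟩ := hx
  unfold U0
  have hL : Lc = 2000 := rfl
  have h2 : G ((x / Lc) ^ 2) = 1 / 2 := by
    apply G_of_ge
    have : 2 / 3 ≤ x / Lc := by
      rw [le_div_iff₀ (by rw [hL]; norm_num)]
      rw [hL] at h0 h1 ⊢; linarith
    nlinarith
  have h3 : G (((x - 2 * Lc) / Lc) ^ 2) = 1 / 2 := by
    apply G_of_ge
    have : (x - 2 * Lc) / Lc ≤ -(2 / 3) := by
      rw [div_le_iff₀ (by rw [hL]; norm_num)]
      rw [hL] at h0 h1 ⊢; linarith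
    nlinarith
  rw [h2, h3]; ring

lemma U0_symm (x : ℝ) : U0 (2 * Lc - x) = U0 x := by
  unfold U0
  have h1 : ((2 * Lc - x) / Lc) ^ 2 = ((x - 2 * Lc) / Lc) ^ 2 := by
    rw [div_pow, div_pow]; congr 1; ring
  have h2 : (2 * Lc - x - Lc) ^ 2 = (x - Lc) ^ 2 := by ring
  have h3 : ((2 * Lc - x - 2 * Lc) / Lc) ^ 2 = (x / Lc) ^ 2 := by
    rw [div_pow, div_pow]; congr 1; ring
  rw [h1, h2, h3]; ring

lemma U0_plateau {x : ℝ} (h0 : 1400 ≤ x) (h1 : x ≤ 1999) : U0 x = 1 / 2 := by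
  have hL : Lc = 2000 := rfl
  rw [U0_left ⟨by linarith, by rw [hL]; linarith⟩, G_of_ge]
  · norm_num
  · have : 2 / 3 ≤ x / Lc := by
      rw [le_div_iff₀ (by rw [hL]; norm_num), hL]; linarith
    nlinarith

/-- Solutions of `u'' = -(2 λ - 2 k^2 U) u`, written with `v = u'`. -/
def SolP (k lam : ℝ) (u v : ℝ → ℝ) : Prop :=
  (∀ x, HasDerivAt u (v x) x) ∧ ∀ x, HasDerivAt v (-(2 * lam - 2 * k ^ 2 * U0 x) * u x) x

lemma SolP.contU {k lam : ℝ} {u v : ℝ → ℝ} (h : SolP k lam u v) : Continuous u :=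
  continuous_iff_continuousAt.2 fun x => (h.1 x).continuousAt

lemma SolP.contV {k lam : ℝ} {u v : ℝ → ℝ} (h : SolP k lam u v) : Continuous v :=
  continuous_iff_continuousAt.2 fun x => (h.2 x).continuousAt

lemma SolP.smul {k lam : ℝ} {u v : ℝ → ℝ} (h : SolP k lam u v) (c : ℝ) :
    SolP k lam (fun x => c * u x) (fun x => c * v x) := by
  refine ⟨fun x => (h.1 x).const_mul c, fun x => ?_⟩
  exact ((h.2 x).const_mul c).congr_deriv (by ring)

lemma SolP.reflect {k lam : ℝ} {u v : ℝ → ℝ} (h : SolP k lam u v) :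
    SolP k lam (fun x => -u (2 * Lc - x)) (fun x => v (2 * Lc - x)) := by
  have hin : ∀ x : ℝ, HasDerivAt (fun y : ℝ => 2 * Lc - y) (-1) x := fun x => by
    simpa using (hasDerivAt_id x).const_sub (2 * Lc)
  refine ⟨fun x => ?_, fun x => ?_⟩
  · exact ((h.1 (2 * Lc - x)).comp x (hin x)).neg.congr_deriv (by ring)
  · refine ((h.2 (2 * Lc - x)).comp x (hin x)).congr_deriv ?_
    rw [U0_symm]; ring

lemma SolP.sub_source {k lam δ : ℝ} {u v z w : ℝ → ℝ} (h : SolP k lam u v)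
    (hz : SolP k (lam + δ) z w) :
    (∀ x, HasDerivAt (fun x => z x - u x) (w x - v x) x) ∧
    ∀ x, HasDerivAt (fun x => w x - v x)
      (-(2 * (lam + δ) - 2 * k ^ 2 * U0 x) * (z x - u x) + (-2 * δ * u x)) x := by
  refine ⟨fun x => (hz.1 x).sub (h.1 x), fun x => ?_⟩
  exact ((hz.2 x).sub (h.2 x)).congr_deriv (by ring)

/-- The equation on the blunt side. -/
lemma eq_left {k lam p x a b : ℝ} (hp : lam = k ^ 2 - k * p) (hx : x ∈ Icc 0 (Lc - 1)) :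
    -(2 * lam - 2 * k ^ 2 * U0 x) * a + b
      = -(2 * k ^ 2 * G ((x / Lc) ^ 2) - 2 * k * p) * a + b := by
  rw [U0_left hx, hp]; ring

lemma eq_mid {k lam p x a b : ℝ} (hp : lam = k ^ 2 - k * p)
    (hx : x ∈ Icc (Lc - 1) (Lc + 2)) :
    -(2 * lam - 2 * k ^ 2 * U0 x) * a + b
      = -(2 * k ^ 2 * G ((x - Lc) ^ 2) - 2 * k * p) * a + b := by
  rw [U0_mid hx, hp]; ring

lemma SolP.left {k lam p : ℝ} {u v : ℝ → ℝ} (h : SolP k lam u v) (hp : lam = k ^ 2 - k * p) :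
    (∀ x ∈ Icc 0 (Lc - 1), HasDerivAt u (v x) x) ∧ ∀ x ∈ Icc 0 (Lc - 1),
      HasDerivAt v (-(2 * k ^ 2 * G ((x / Lc) ^ 2) - 2 * k * p) * u x) x := by
  refine ⟨fun x _ => h.1 x, fun x hx => ?_⟩
  have := eq_left (a := u x) (b := 0) hp hx
  rw [add_zero, add_zero] at this
  rw [← this]; exact h.2 x

lemma SolP.mid {k lam p : ℝ} {u v : ℝ → ℝ} (h : SolP k lam u v) (hp : lam = k ^ 2 - k * p) :
    (∀ x ∈ Icc (Lc - 1) (Lc + 2), HasDerivAt u (v x) x) ∧ ∀ x ∈ Icc (Lc - 1) (Lc + 2),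
      HasDerivAt v (-(2 * k ^ 2 * G ((x - Lc) ^ 2) - 2 * k * p) * u x) x := by
  refine ⟨fun x _ => h.1 x, fun x hx => ?_⟩
  have := eq_mid (a := u x) (b := 0) hp hx
  rw [add_zero, add_zero] at this
  rw [← this]; exact h.2 x

/-- Conservation of the plateau energy. -/
lemma plateau_energy {k lam : ℝ} {u v : ℝ → ℝ} (h : SolP k lam u v) {x y : ℝ}
    (hx : 1400 ≤ x) (hxy : x ≤ y) (hy : y ≤ 1999) :
    v x ^ 2 + (2 * lam - k ^ 2) * u x ^ 2 = v y ^ 2 + (2 * lam - k ^ 2) * u y ^ 2 := by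
  have hd : ∀ t ∈ Icc x y, HasDerivAt
      (fun t => v t ^ 2 + (2 * lam - k ^ 2) * u t ^ 2) 0 t := by
    intro t ht
    have h1 := ((h.2 t).pow 2).add (((h.1 t).pow 2).const_mul (2 * lam - k ^ 2))
    rw [U0_plateau (hx.trans ht.1) (ht.2.trans hy)] at h1
    refine h1.congr_deriv ?_
    push_cast; ring
  have hc : ContinuousOn (fun t => v t ^ 2 + (2 * lam - k ^ 2) * u t ^ 2) (Icc x y) :=
    fun t ht => (hd t ht).continuousAt.continuousWithinAt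
  have := constant_of_has_deriv_right_zero hc
    (fun t ht => (hd t ⟨ht.1, ht.2.le⟩).hasDerivWithinAt) y ⟨hxy, le_refl y⟩
  exact this.symm

/-- `(log k)^n k^(-a)` tends to zero. -/
lemma tendsto_log_mul (n : ℕ) {a : ℝ} (ha : 0 < a) :
    Tendsto (fun k : ℕ => Real.log (k : ℝ) ^ n * (k : ℝ) ^ (-a)) atTop (𝓝 0) := by
  have h1 : Tendsto (fun x : ℝ => Real.log x ^ (n : ℝ) / x ^ a) atTop (𝓝 0) :=
    (isLittleO_log_rpow_rpow_atTop (n : ℝ) ha).tendsto_div_nhds_zero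
  have h2 := h1.comp tendsto_natCast_atTop_atTop
  refine h2.congr fun k => ?_
  simp only [Function.comp]
  rw [Real.rpow_natCast, Real.rpow_neg (by positivity), div_eq_mul_inv]

/-- Normalisation of the solution decaying towards `0`. -/
lemma exists_normalize : ∃ K : ℝ, ∀ k : ℝ, K ≤ k → ∀ p : ℝ, Real.log k / 320 ≤ p →
    p ≤ Real.log k / 80 → ∀ lam : ℝ, lam = k ^ 2 - k * p → ∀ u v : ℝ → ℝ, SolP k lam u v →
    u 0 = 0 → v 0 = 1 → ∃ c : ℝ, 0 < c ∧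
      (c * u (Lc - 1)) ^ 2 + (c * v (Lc - 1) / k) ^ 2 = 1 ∧
      ∀ x ∈ Icc 0 (2 / k), |c * u x| ≤ 1 / k ^ 3 ∧ |c * v x| ≤ 1 / k ^ 2 := by
  obtain ⟨K, hK⟩ := evan
  refine ⟨max K 16, fun k hk p hp1 hp2 lam hlam u v h h0 h1 => ?_⟩
  have hkK : K ≤ k := le_trans (le_max_left _ _) hk
  have hk16 : 16 ≤ k := le_trans (le_max_right _ _) hk
  have hk0 : 0 < k := by linarith
  obtain ⟨hl1, hl2⟩ := h.left hlam
  obtain ⟨e1, e2⟩ := hK k hkK p hp1 hp2 u v hl1 hl2 h0 h1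
  set N : ℝ := u (Lc - 1) ^ 2 + (v (Lc - 1) / k) ^ 2 with hN
  have hNk : k ^ 5 ≤ N := by
    have : k ^ 2 * N = k ^ 2 * u (Lc - 1) ^ 2 + v (Lc - 1) ^ 2 := by
      rw [hN]; field_simp
    have h2 : k ^ 2 * k ^ 5 ≤ k ^ 2 * N := by rw [this]; linarith [e1, (by ring : k ^ 2 * k ^ 5 = k ^ 7)]
    exact le_of_mul_le_mul_left h2 (by positivity)
  have hNpos : 0 < N := lt_of_lt_of_le (by positivity) hNk
  have hc : 0 < 1 / √N := by positivity
  have hc2 : (1 / √N) ^ 2 = 1 / N := by rw [div_pow, Real.sq_sqrt hNpos.le, one_pow]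
  have hcle : 1 / √N ≤ 1 / (4 * k ^ 2) := by
    apply one_div_le_one_div_of_le (by positivity)
    apply Real.le_sqrt_of_sq_le
    refine le_trans ?_ hNk
    have : (4 * k ^ 2) ^ 2 = 16 * k ^ 4 := by ring
    rw [this, show k ^ 5 = k * k ^ 4 by ring]
    gcongr
  refine ⟨1 / √N, hc, ?_, fun x hx => ?_⟩
  · have : (1 / √N * u (Lc - 1)) ^ 2 + (1 / √N * v (Lc - 1) / k) ^ 2 = (1 / √N) ^ 2 * N := by
      rw [hN]; ring
    rw [this, hc2]; field_simp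
  · obtain ⟨a1, a2⟩ := e2 x hx
    constructor
    · rw [abs_mul, abs_of_pos hc]
      calc 1 / √N * |u x| ≤ 1 / (4 * k ^ 2) * (4 / k) := by gcongr
        _ = 1 / k ^ 3 := by field_simp
    · rw [abs_mul, abs_of_pos hc]
      calc 1 / √N * |v x| ≤ 1 / (4 * k ^ 2) * 2 := by gcongr
        _ ≤ 1 / k ^ 2 := by
          rw [div_mul_eq_mul_div, div_le_div_iff₀ (by positivity) (by positivity)]
          nlinarith [sq_nonneg k]

/-- Existence of the modes. -/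
lemma exists_mode : ∃ K : ℝ, ∀ k : ℝ, K ≤ k → ∃ lam p : ℝ, ∃ u v : ℝ → ℝ,
    lam = k ^ 2 - k * p ∧ Real.log k / 160 ≤ p ∧ p ≤ Real.log k / 80 ∧ SolP k lam u v ∧
    u 0 = 0 ∧ u Lc = 0 ∧ u (Lc - 1) ^ 2 + (v (Lc - 1) / k) ^ 2 = 1 ∧
    ∀ x ∈ Icc 0 (2 / k), |u x| ≤ 1 / k ^ 3 ∧ |v x| ≤ 1 / k ^ 2 := by
  obtain ⟨K, hK⟩ := exists_normalize
  have hlog : ∀ᶠ k : ℝ in atTop, 5 ≤ Real.log k ∧ Real.log k ≤ k ∧ K ≤ k ∧ 1 ≤ k := by
    have h1 := Real.tendsto_log_atTop.eventually_ge_atTop (5 : ℝ)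
    filter_upwards [h1, eventually_ge_atTop K, eventually_ge_atTop (1 : ℝ)] with k h1 h2 h3
    exact ⟨h1, (Real.log_le_sub_one_of_pos (by linarith)).trans (by linarith), h2, h3⟩
  obtain ⟨K', hK'⟩ := eventually_atTop.1 hlog
  refine ⟨K', fun k hk => ?_⟩
  obtain ⟨l5, llek, hKk, hk1⟩ := hK' k hk
  have hk0 : 0 < k := by linarith
  set Λ : ℝ := Real.log k / 160 with hΛ
  have hΛ1 : 1 / 32 ≤ Λ := by rw [hΛ]; linarith
  have hΛk : 4 * Λ ≤ k / 40 := by rw [hΛ]; linarith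
  have hL : Lc = 2000 := rfl
  have hgap : 4 * Real.pi ≤ (√(2 * (k ^ 2 - k * Λ) - k ^ 2) - √(2 * (k ^ 2 - k * (2 * Λ)) - k ^ 2))
      * ((1900 : ℝ) - 1400) := by
    have e1 : 2 * (k ^ 2 - k * Λ) - k ^ 2 = k * (k - 2 * Λ) := by ring
    have e2 : 2 * (k ^ 2 - k * (2 * Λ)) - k ^ 2 = k * (k - 4 * Λ) := by ring
    rw [e1, e2]
    have ha : 0 ≤ k * (k - 2 * Λ) := mul_nonneg hk0.le (by linarith)
    have hb : 0 ≤ k * (k - 4 * Λ) := mul_nonneg hk0.le (by linarith)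
    have hA : √(k * (k - 2 * Λ)) ≤ k := by
      rw [Real.sqrt_le_left hk0.le]; nlinarith
    have hB : √(k * (k - 4 * Λ)) ≤ k := by
      rw [Real.sqrt_le_left hk0.le]; nlinarith
    have hA2 := Real.sq_sqrt ha
    have hB2 := Real.sq_sqrt hb
    have hA0 := Real.sqrt_nonneg (k * (k - 2 * Λ))
    have hB0 := Real.sqrt_nonneg (k * (k - 4 * Λ))
    have hmono : √(k * (k - 4 * Λ)) ≤ √(k * (k - 2 * Λ)) := by
      apply Real.sqrt_le_sqrt; nlinarith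
    have hdiff : Λ ≤ √(k * (k - 2 * Λ)) - √(k * (k - 4 * Λ)) := by
      have : 2 * k * Λ = (√(k * (k - 2 * Λ)) - √(k * (k - 4 * Λ))) *
          (√(k * (k - 2 * Λ)) + √(k * (k - 4 * Λ))) := by
        have : (√(k * (k - 2 * Λ)) - √(k * (k - 4 * Λ))) *
          (√(k * (k - 2 * Λ)) + √(k * (k - 4 * Λ)))
            = √(k * (k - 2 * Λ)) ^ 2 - √(k * (k - 4 * Λ)) ^ 2 := by ring
        rw [this, hA2, hB2]; ring
      have h3 : 2 * k * Λ ≤ (√(k * (k - 2 * Λ)) - √(k * (k - 4 * Λ))) * (2 * k) := by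
        rw [this]
        gcongr
        · linarith
      nlinarith
    have hpi := Real.pi_lt_d2
    nlinarith
  obtain ⟨l, hl, u, v, hu, hv, hu0, hv0, huL⟩ := exists_eigenvalue
    (q := fun x => 2 * k ^ 2 * U0 x) (by have := contDiff_U0_ode.continuous; fun_prop)
    (L := Lc) (a := 1400) (b := 1900) (c := k ^ 2)
    (l1 := 2 * (k ^ 2 - k * (2 * Λ))) (l2 := 2 * (k ^ 2 - k * Λ))
    (by norm_num) (by norm_num) (by rw [hL]; norm_num)
    (fun x hx => by rw [U0_plateau hx.1 (by linarith [hx.2])]; ring)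
    (by nlinarith) (by nlinarith) hgap
  have hsol : SolP k (l / 2) u v := by
    refine ⟨hu, fun x => (hv x).congr_deriv ?_⟩
    ring
  set p : ℝ := (k ^ 2 - l / 2) / k with hp
  have hlam : l / 2 = k ^ 2 - k * p := by rw [hp]; field_simp; ring
  have hp1 : Real.log k / 160 ≤ p := by
    rw [hp, le_div_iff₀ hk0]
    have := hl.2
    nlinarith
  have hp2 : p ≤ Real.log k / 80 := by
    rw [hp, div_le_iff₀ hk0]
    have := hl.1
    have e : Real.log k / 80 = 2 * Λ := by rw [hΛ]; ring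
    rw [e]
    nlinarith
  obtain ⟨c, hc, hn, hs⟩ := hK k hKk p (by linarith) hp2 _ hlam u v hsol hu0 hv0
  exact ⟨l / 2, p, fun x => c * u x, fun x => c * v x, hlam, hp1, hp2, hsol.smul c,
    by simp [hu0], by simp [huL], hn, hs⟩

/-- Solutions vanishing at the sharp top are odd about it. -/
lemma SolP.odd {k lam : ℝ} {u v : ℝ → ℝ} (h : SolP k lam u v) (h0 : u Lc = 0) :
    ∀ x, u (2 * Lc - x) = -u x ∧ v (2 * Lc - x) = v x := by
  have hr := h.reflect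
  have hq : Continuous fun x => 2 * lam - 2 * k ^ 2 * U0 x := by
    have := contDiff_U0_ode.continuous; fun_prop
  have key := solution_unique hq (u := fun x => u x - -u (2 * Lc - x))
    (v := fun x => v x - v (2 * Lc - x))
    (fun x => (h.1 x).sub (hr.1 x))
    (fun x => ((h.2 x).sub (hr.2 x)).congr_deriv (by ring)) (x₀ := Lc)
    (by
      have : 2 * Lc - Lc = Lc := by ring
      simp [this, h0])
    (by
      have : 2 * Lc - Lc = Lc := by ring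
      simp [this])
  intro x
  obtain ⟨a, b⟩ := key x
  constructor <;> linarith

lemma integral_reflect {f : ℝ → ℝ} (hf : ∀ x, f (2 * Lc - x) = f x) (a b : ℝ) :
    ∫ x in (2 * Lc - b)..(2 * Lc - a), f x = ∫ x in a..b, f x := by
  rw [← intervalIntegral.integral_comp_sub_left]
  exact intervalIntegral.integral_congr fun x _ => hf x

lemma tendsto_log_mul_real (n : ℕ) {a : ℝ} (ha : 0 < a) :
    Tendsto (fun k : ℝ => Real.log k ^ n * k ^ (-a)) atTop (𝓝 0) := by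
  have h1 : Tendsto (fun x : ℝ => Real.log x ^ (n : ℝ) / x ^ a) atTop (𝓝 0) :=
    (isLittleO_log_rpow_rpow_atTop (n : ℝ) ha).tendsto_div_nhds_zero
  refine h1.congr' ?_
  filter_upwards [eventually_gt_atTop (0 : ℝ)] with k hk
  rw [Real.rpow_natCast, Real.rpow_neg hk.le, div_eq_mul_inv]

/-- Wronskian estimate. -/
lemma wronskian_bound {k lam δ B : ℝ} {u v z w : ℝ → ℝ} (hδ : 0 < δ) (h : SolP k lam u v)
    (hz : SolP k (lam + δ) z w) (hu0 : u 0 = 0) (hz0 : z 0 = 0)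
    (hB1 : ∫ x in (0 : ℝ)..(Lc - 1), u x ^ 2 ≤ B) (hB2 : ∫ x in (0 : ℝ)..(Lc - 1), z x ^ 2 ≤ B) :
    |u (Lc - 1) * w (Lc - 1) - v (Lc - 1) * z (Lc - 1)| ≤ 2 * δ * B := by
  have hd : ∀ x, HasDerivAt (fun x => u x * w x - v x * z x) (-2 * δ * (u x * z x)) x := by
    intro x
    exact (((h.1 x).mul (hz.2 x)).sub ((h.2 x).mul (hz.1 x))).congr_deriv (by ring)
  have hcu := h.contU
  have hcz := hz.contU
  have hL : (0 : ℝ) ≤ Lc - 1 := by
    have : Lc = 2000 := rfl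
    rw [this]; norm_num
  have hint := intervalIntegral.integral_eq_sub_of_hasDerivAt (a := 0) (b := Lc - 1)
    (fun x _ => hd x) (by
      apply Continuous.intervalIntegrable
      fun_prop)
  simp only [hu0, hz0, zero_mul, mul_zero, sub_zero] at hint
  rw [← hint]
  have h1 : |∫ x in (0 : ℝ)..(Lc - 1), -2 * δ * (u x * z x)| ≤
      ∫ x in (0 : ℝ)..(Lc - 1), δ * (u x ^ 2 + z x ^ 2) := by
    rw [← Real.norm_eq_abs]
    refine intervalIntegral.norm_integral_le_of_norm_le hL ?_ ?_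
    · refine Eventually.of_forall fun x _ => ?_
      rw [Real.norm_eq_abs, abs_mul, abs_mul, abs_neg, abs_two, abs_of_pos hδ]
      have := two_mul_le_add_sq (|u x|) (|z x|)
      rw [sq_abs, sq_abs] at this
      rw [abs_mul]
      nlinarith
    · apply Continuous.intervalIntegrable
      fun_prop
  refine h1.trans ?_
  rw [intervalIntegral.integral_const_mul, intervalIntegral.integral_add
    (Continuous.intervalIntegrable (by fun_prop) _ _)
    (Continuous.intervalIntegrable (by fun_prop) _ _)]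
  nlinarith

/-- Two unit vectors of the plane with small cross product and nonnegative inner product. -/
lemma unit_close {a b c d X : ℝ} (h1 : a ^ 2 + b ^ 2 = 1) (h2 : c ^ 2 + d ^ 2 = 1)
    (hX : a * d - b * c = X) (hdot : 0 ≤ a * c + b * d) :
    (c - a) ^ 2 + (d - b) ^ 2 ≤ 2 * X ^ 2 := by
  have e : (a * c + b * d) ^ 2 + X ^ 2 = 1 := by
    rw [← hX]
    have : (a * c + b * d) ^ 2 + (a * d - b * c) ^ 2 = (a ^ 2 + b ^ 2) * (c ^ 2 + d ^ 2) := by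
      ring
    rw [this, h1, h2]; norm_num
  have hle : a * c + b * d ≤ 1 := by nlinarith [sq_nonneg X]
  nlinarith

/-- Small quantities: eventual smallness of the error function. -/
lemma error_small (δ C₁ C₂ C₃ ε : ℝ) (hε : 0 < ε) : ∀ᶠ k : ℝ in atTop,
    C₁ * Real.log k ^ 2 * (2 * ((2 * δ * (C₁ * Real.log k ^ 2)) / k) ^ 2 +
      k ^ (-(3 / 2) : ℝ) * (4 * δ ^ 2 * (C₁ * Real.log k ^ 2))) +
    3 * (C₃ * k ^ (11 / 10 : ℝ) * (2 * ((2 * δ * (C₁ * Real.log k ^ 2)) / k) ^ 2 +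
      4 * δ ^ 2 * (2 * (C₂ * k ^ (13 / 20 : ℝ)) + C₁ * Real.log k ^ 2) / k ^ 2)) < ε := by
  have t1 := (tendsto_log_mul_real 6 (a := 2) (by norm_num)).const_mul (8 * δ ^ 2 * C₁ ^ 3)
  have t2 := (tendsto_log_mul_real 4 (a := 3 / 2) (by norm_num)).const_mul (4 * δ ^ 2 * C₁ ^ 2)
  have t3 := (tendsto_log_mul_real 4 (a := 9 / 10) (by norm_num)).const_mul
    (24 * δ ^ 2 * C₃ * C₁ ^ 2)
  have t4 := (tendsto_log_mul_real 0 (a := 1 / 4) (by norm_num)).const_mul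
    (24 * δ ^ 2 * C₃ * C₂)
  have t5 := (tendsto_log_mul_real 2 (a := 9 / 10) (by norm_num)).const_mul
    (12 * δ ^ 2 * C₃ * C₁)
  have t := (((t1.add t2).add t3).add t4).add t5
  simp only [mul_zero, add_zero] at t
  filter_upwards [t.eventually_lt_const hε, eventually_gt_atTop (0 : ℝ)] with k hk hk0
  refine lt_of_eq_of_lt ?_ hk
  have r1 : k ^ (-2 : ℝ) = (k ^ 2)⁻¹ := by
    rw [Real.rpow_neg hk0.le]; norm_num
  have r2 : k ^ (11 / 10 : ℝ) = k ^ (-(9 / 10) : ℝ) * k ^ 2 := by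
    rw [← Real.rpow_natCast, ← Real.rpow_add hk0]; norm_num
  have r3 : k ^ (-(1 / 4) : ℝ) = k ^ (-(9 / 10) : ℝ) * k ^ (13 / 20 : ℝ) := by
    rw [← Real.rpow_add hk0]; norm_num
  have r4 : k ^ (-(3 / 2) : ℝ) = k ^ (-(3 / 2) : ℝ) := rfl
  rw [r1, r2, r3]
  field_simp
  ring

/-- Bounds of a normalised odd solution on the mirrored plateau. -/
lemma mirrored_bounds {k lam p : ℝ} {u v : ℝ → ℝ} (hk0 : 0 < k) (hlam : lam = k ^ 2 - k * p)
    (hp0 : 0 ≤ p) (hpk : p ≤ k / 80) (h : SolP k lam u v) (huL : u Lc = 0)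
    (hn : u (Lc - 1) ^ 2 + (v (Lc - 1) / k) ^ 2 = 1) {x : ℝ}
    (hx : x ∈ Icc (Lc + 1) (Lc + 2)) : u x ^ 2 ≤ 2 ∧ v x ^ 2 ≤ k ^ 2 := by
  have hL : Lc = 2000 := rfl
  have hsymm := h.odd huL
  have hx' : 2 * Lc - x ∈ Icc (Lc - 2) (Lc - 1) := ⟨by linarith [hx.2], by linarith [hx.1]⟩
  have hen := plateau_energy h (x := 2 * Lc - x) (y := Lc - 1)
    (by have := hx'.1; rw [hL] at this ⊢; linarith) hx'.2 (by rw [hL]; norm_num)
  rw [(hsymm x).1, (hsymm x).2, neg_sq] at hen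
  have hlk : 2 * lam - k ^ 2 = k ^ 2 - 2 * k * p := by rw [hlam]; ring
  have hkp : 2 * k * p ≤ k ^ 2 / 2 := by
    have : k * p ≤ k * (k / 80) := by gcongr
    nlinarith
  have e1 : k ^ 2 * u (Lc - 1) ^ 2 + v (Lc - 1) ^ 2 = k ^ 2 := by
    have e1 : k ^ 2 * (u (Lc - 1) ^ 2 + (v (Lc - 1) / k) ^ 2) = k ^ 2 := by rw [hn, mul_one]
    have e2 : k ^ 2 * (u (Lc - 1) ^ 2 + (v (Lc - 1) / k) ^ 2) =
      k ^ 2 * u (Lc - 1) ^ 2 + v (Lc - 1) ^ 2 := by field_simp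
    rw [← e2, e1]
  have hkp0 : 0 ≤ k * p := mul_nonneg hk0.le hp0
  rw [hlk] at hen
  generalize u (Lc - 1) = a at *
  generalize v (Lc - 1) = b at *
  have hbound : v x ^ 2 + (k ^ 2 - 2 * k * p) * u x ^ 2 ≤ k ^ 2 := by
    rw [hen]
    have := mul_nonneg hkp0 (sq_nonneg a)
    linarith
  have hu0 := sq_nonneg (u x)
  have hv0 := sq_nonneg (v x)
  have hpos : 0 ≤ (k ^ 2 - 2 * k * p) * u x ^ 2 := mul_nonneg (by nlinarith) hu0
  constructor
  · have h1 : k ^ 2 / 2 * u x ^ 2 ≤ (k ^ 2 - 2 * k * p) * u x ^ 2 := by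
      apply mul_le_mul_of_nonneg_right _ hu0
      linarith
    have h2 : k ^ 2 / 2 * u x ^ 2 ≤ k ^ 2 / 2 * 2 := by linarith
    exact le_of_mul_le_mul_left h2 (by positivity)
  · linarith

lemma close_bounds {k a b c d η : ℝ} (hk0 : 0 < k) (hη : η ≤ 1 / 100) (ha : a ^ 2 ≤ 2)
    (hb : b ^ 2 ≤ k ^ 2) (h : (c - a) ^ 2 + ((d - b) / k) ^ 2 ≤ η) :
    |c| ≤ 2 ∧ |d| ≤ 2 * k := by
  have hdz : (c - a) ^ 2 ≤ 1 / 100 := by linarith [sq_nonneg ((d - b) / k)]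
  have hdw : ((d - b) / k) ^ 2 ≤ 1 / 100 := by linarith [sq_nonneg (c - a)]
  constructor
  · have h1 : |a| ≤ 3 / 2 := abs_le.2 (abs_le_of_sq_le_sq' (by linarith) (by norm_num))
    have h2 : |c - a| ≤ 1 / 10 :=
      abs_le.2 (abs_le_of_sq_le_sq' (by linarith) (by norm_num))
    calc |c| = |(c - a) + a| := by ring_nf
      _ ≤ |c - a| + |a| := abs_add_le _ _
      _ ≤ 2 := by linarith
  · have h1 : |b| ≤ k := abs_le.2 (abs_le_of_sq_le_sq' hb hk0.le)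
    have h2 : |(d - b) / k| ≤ 1 / 10 :=
      abs_le.2 (abs_le_of_sq_le_sq' (by linarith) (by norm_num))
    have h3 : |d - b| ≤ k / 10 := by
      rw [abs_div, abs_of_pos hk0, div_le_iff₀ hk0] at h2
      linarith
    calc |d| = |(d - b) + b| := by ring_nf
      _ ≤ |d - b| + |b| := abs_add_le _ _
      _ ≤ 2 * k := by linarith

/-- Comparison of the modes with nearby energies. -/
lemma mode_close {δ ε : ℝ} (hδ : 0 < δ) (hε : 0 < ε) : ∃ K : ℝ, ∀ k : ℝ, K ≤ k →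
    ∀ lam p : ℝ, ∀ u v : ℝ → ℝ, lam = k ^ 2 - k * p → Real.log k / 160 ≤ p →
    p ≤ Real.log k / 80 → SolP k lam u v → u 0 = 0 → u Lc = 0 →
    u (Lc - 1) ^ 2 + (v (Lc - 1) / k) ^ 2 = 1 →
    ∃ z w : ℝ → ℝ, SolP k (lam + δ) z w ∧
      (∀ x ∈ Icc 0 (2 / k), |z x| ≤ 1 / k ^ 3 ∧ |w x| ≤ 1 / k ^ 2) ∧
      z (Lc - 1) ^ 2 + (w (Lc - 1) / k) ^ 2 = 1 ∧
      (∀ x ∈ Icc (Lc + 1) (Lc + 2), |z x| ≤ 2 ∧ |w x| ≤ 2 * k) ∧
      ∫ x in (0 : ℝ)..(Lc + 2), (z x - u x) ^ 2 ≤ ε := by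
  obtain ⟨K₀, hK₀⟩ := exists_normalize
  obtain ⟨C₁, K₁, hC₁, hK₁⟩ := bside
  obtain ⟨C₂, K₂, hC₂, hK₂⟩ := cross1
  obtain ⟨C₃, K₃, hC₃, hK₃⟩ := cross2
  have hlog := Real.tendsto_log_atTop.eventually_ge_atTop (320 * δ)
  have hlogk : ∀ᶠ k : ℝ in atTop, Real.log k ≤ k := by
    filter_upwards [eventually_ge_atTop (1 : ℝ)] with k h3
    exact (Real.log_le_sub_one_of_pos (by linarith)).trans (by linarith)
  obtain ⟨K, hK⟩ := eventually_atTop.1 ((eventually_ge_atTop K₀).and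
    ((eventually_ge_atTop K₁).and ((eventually_ge_atTop K₂).and ((eventually_ge_atTop K₃).and
    (hlog.and (hlogk.and ((eventually_ge_atTop (4 : ℝ)).and
    ((error_small δ C₁ C₂ C₃ (min ε (3/100)) (by positivity)).and
      (error_small δ C₁ C₂ C₃ (min ε (3/100)) (by positivity))))))))))
  refine ⟨K, fun k hk lam p u v hlam hp1 hp2 h hu0 huL hn => ?_⟩
  obtain ⟨hk0', hk1, hk2, hk3, hlog1, hlogk1, hk4, herr, -⟩ := hK k hk
  have hk0 : 0 < k := by linarith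
  have hL : Lc = 2000 := rfl
  have hL0 : (0 : ℝ) ≤ Lc - 1 := by rw [hL]; norm_num
  have hlogpos : 0 ≤ Real.log k := Real.log_nonneg (by linarith)
  -- the second energy
  have hlam2 : lam + δ = k ^ 2 - k * (p - δ / k) := by rw [hlam]; field_simp; ring
  have hδk : δ / k ≤ Real.log k / 320 := by
    rw [div_le_div_iff₀ hk0 (by norm_num)]
    nlinarith
  have hδk0 : 0 ≤ δ / k := by positivity
  have hp1' : Real.log k / 320 ≤ p - δ / k := by linarith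
  have hp2' : p - δ / k ≤ Real.log k / 80 := by linarith
  have hp1'' : Real.log k / 320 ≤ p := by linarith
  obtain ⟨z₀, w₀, hz₁, hz₂, hz0, hw0⟩ := exists_solution
    (q := fun x => 2 * (lam + δ) - 2 * k ^ 2 * U0 x)
    (by have := contDiff_U0_ode.continuous; fun_prop) 0 0 1
  have hsol0 : SolP k (lam + δ) z₀ w₀ := ⟨hz₁, fun x => (hz₂ x).congr_deriv (by ring)⟩
  obtain ⟨c, hc, hcn, hcs⟩ := hK₀ k hk0' _ hp1' hp2' _ hlam2 z₀ w₀ hsol0 hz0 hw0
  -- choice of the sign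
  obtain ⟨s, hs, hdot⟩ : ∃ s : ℝ, (s = 1 ∨ s = -1) ∧
      0 ≤ u (Lc - 1) * (s * (c * z₀ (Lc - 1))) +
        (v (Lc - 1) / k) * (s * (c * w₀ (Lc - 1)) / k) := by
    rcases le_total 0 (u (Lc - 1) * (c * z₀ (Lc - 1)) +
        (v (Lc - 1) / k) * (c * w₀ (Lc - 1) / k)) with h | h
    · exact ⟨1, Or.inl rfl, by simpa using h⟩
    · refine ⟨-1, Or.inr rfl, ?_⟩
      have : u (Lc - 1) * (-1 * (c * z₀ (Lc - 1))) + (v (Lc - 1) / k) *
        (-1 * (c * w₀ (Lc - 1)) / k) = -(u (Lc - 1) * (c * z₀ (Lc - 1)) +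
        (v (Lc - 1) / k) * (c * w₀ (Lc - 1) / k)) := by ring
      rw [this]; linarith
  have hs2 : s ^ 2 = 1 := by rcases hs with h | h <;> rw [h] <;> norm_num
  have hsabs : |s| = 1 := by rcases hs with h | h <;> rw [h] <;> norm_num
  set z : ℝ → ℝ := fun x => s * (c * z₀ x) with hz
  set w : ℝ → ℝ := fun x => s * (c * w₀ x) with hw
  have hzsol : SolP k (lam + δ) z w := (hsol0.smul c).smul s
  have hzn : z (Lc - 1) ^ 2 + (w (Lc - 1) / k) ^ 2 = 1 := by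
    rw [hz, hw]
    have : (s * (c * z₀ (Lc - 1))) ^ 2 + (s * (c * w₀ (Lc - 1)) / k) ^ 2
      = s ^ 2 * ((c * z₀ (Lc - 1)) ^ 2 + (c * w₀ (Lc - 1) / k) ^ 2) := by ring
    show (s * (c * z₀ (Lc - 1))) ^ 2 + (s * (c * w₀ (Lc - 1)) / k) ^ 2 = 1
    rw [this, hs2, hcn, one_mul]
  have hz00 : z 0 = 0 := by simp [hz, hz0]
  -- norms on the blunt side
  have hB1 : ∫ x in (0 : ℝ)..(Lc - 1), u x ^ 2 ≤ C₁ * Real.log k ^ 2 := by
    obtain ⟨a1, a2⟩ := h.left hlam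
    have := hK₁ k hk1 p hp1'' hp2 u v (fun _ => 0) continuous_const a1
      (by simpa using a2) hu0
    simpa [hn] using this
  have hB2 : ∫ x in (0 : ℝ)..(Lc - 1), z x ^ 2 ≤ C₁ * Real.log k ^ 2 := by
    obtain ⟨a1, a2⟩ := hzsol.left hlam2
    have := hK₁ k hk1 _ hp1' hp2' z w (fun _ => 0) continuous_const a1
      (by simpa using a2) hz00
    simpa [hzn] using this
  set B : ℝ := C₁ * Real.log k ^ 2 with hB
  have hB0 : 0 ≤ B := by positivity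
  have hX := wronskian_bound hδ h hzsol hu0 hz00 hB1 hB2
  set X : ℝ := u (Lc - 1) * w (Lc - 1) - v (Lc - 1) * z (Lc - 1) with hXdef
  have hND : (z (Lc - 1) - u (Lc - 1)) ^ 2 + ((w (Lc - 1) - v (Lc - 1)) / k) ^ 2
      ≤ 2 * ((2 * δ * B) / k) ^ 2 := by
    have h1 := unit_close (a := u (Lc - 1)) (b := v (Lc - 1) / k) (c := z (Lc - 1))
      (d := w (Lc - 1) / k) (X := X / k) hn hzn (by rw [hXdef]; ring) hdot
    have h2 : (X / k) ^ 2 ≤ ((2 * δ * B) / k) ^ 2 := by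
      have hX2 : X ^ 2 ≤ (2 * δ * B) ^ 2 := by
        rw [← sq_abs X]; exact pow_le_pow_left₀ (abs_nonneg _) hX 2
      rw [div_pow, div_pow]
      exact div_le_div_of_nonneg_right hX2 (by positivity)
    have h3 : (w (Lc - 1) - v (Lc - 1)) / k = w (Lc - 1) / k - v (Lc - 1) / k := by ring
    rw [h3]
    linarith
  set N : ℝ := (z (Lc - 1) - u (Lc - 1)) ^ 2 + ((w (Lc - 1) - v (Lc - 1)) / k) ^ 2 with hN
  have hN0 : 0 ≤ N := by positivity
  -- the difference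
  obtain ⟨d1, d2⟩ := h.sub_source hzsol
  have hcu := h.contU
  have hch : Continuous fun x => -2 * δ * u x := by fun_prop
  have hcz := hzsol.contU
  have hI : ∀ a b : ℝ, ∫ x in a..b, (-2 * δ * u x) ^ 2 = 4 * δ ^ 2 * ∫ x in a..b, u x ^ 2 := by
    intro a b
    rw [← intervalIntegral.integral_const_mul]
    exact intervalIntegral.integral_congr fun x _ => by ring
  have hD1 : ∫ x in (0 : ℝ)..(Lc - 1), (z x - u x) ^ 2 ≤
      C₁ * Real.log k ^ 2 * (2 * ((2 * δ * B) / k) ^ 2 +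
        k ^ (-(3 / 2) : ℝ) * (4 * δ ^ 2 * B)) := by
    have := hK₁ k hk1 _ hp1' hp2' (fun x => z x - u x) (fun x => w x - v x)
      (fun x => -2 * δ * u x) hch (fun x _ => d1 x)
      (fun x hx => (d2 x).congr_deriv (eq_left hlam2 hx)) (by simp [hu0, hz00])
    refine this.trans ?_
    rw [hI]
    gcongr
  have hsymm := h.odd huL
  have hsq : ∀ x, (fun x => u x ^ 2) (2 * Lc - x) = (fun x => u x ^ 2) x := by
    intro x
    simp only [(hsymm x).1]; ring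
  have hint : ∀ a b : ℝ, IntervalIntegrable (fun x => u x ^ 2) volume a b := fun a b =>
    Continuous.intervalIntegrable (by fun_prop) _ _
  have hB3 : ∫ x in (Lc - 1)..(Lc + 2), u x ^ 2 ≤ 2 * (C₂ * k ^ (13 / 20 : ℝ)) + B := by
    obtain ⟨a1, a2⟩ := h.mid hlam
    have c1 := hK₂ k hk2 p hp1'' hp2 u v a1 a2
    rw [hn, mul_one] at c1
    have c2 : ∫ x in Lc..(Lc + 1), u x ^ 2 = ∫ x in (Lc - 1)..Lc, u x ^ 2 := by
      have := integral_reflect (f := fun x => u x ^ 2) hsq (Lc - 1) Lc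
      rw [← this]
      congr 1 <;> ring
    have c3 : ∫ x in (Lc + 1)..(Lc + 2), u x ^ 2 = ∫ x in (Lc - 2)..(Lc - 1), u x ^ 2 := by
      have := integral_reflect (f := fun x => u x ^ 2) hsq (Lc - 2) (Lc - 1)
      rw [← this]
      congr 1 <;> ring
    have c4 : ∫ x in (Lc - 2)..(Lc - 1), u x ^ 2 ≤ ∫ x in (0 : ℝ)..(Lc - 1), u x ^ 2 := by
      rw [← intervalIntegral.integral_add_adjacent_intervals (hint 0 (Lc - 2))
        (hint (Lc - 2) (Lc - 1))]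
      have : 0 ≤ ∫ x in (0 : ℝ)..(Lc - 2), u x ^ 2 :=
        intervalIntegral.integral_nonneg (by rw [hL]; norm_num) fun x _ => sq_nonneg _
      linarith
    rw [← intervalIntegral.integral_add_adjacent_intervals (hint (Lc - 1) (Lc + 1))
        (hint (Lc + 1) (Lc + 2)), ← intervalIntegral.integral_add_adjacent_intervals
        (hint (Lc - 1) Lc) (hint Lc (Lc + 1)), c2, c3]
    linarith
  set η : ℝ := C₃ * k ^ (11 / 10 : ℝ) * (2 * ((2 * δ * B) / k) ^ 2 +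
      4 * δ ^ 2 * (2 * (C₂ * k ^ (13 / 20 : ℝ)) + B) / k ^ 2) with hη
  have hD2 : ∀ x ∈ Icc (Lc - 1) (Lc + 2), (z x - u x) ^ 2 + ((w x - v x) / k) ^ 2 ≤ η := by
    intro x hx
    have := hK₃ k hk3 _ hp1' hp2' (fun x => z x - u x) (fun x => w x - v x)
      (fun x => -2 * δ * u x) hch (fun x _ => d1 x)
      (fun x hx => (d2 x).congr_deriv (eq_mid hlam2 hx)) x hx
    refine this.trans ?_
    rw [hI, hη]
    gcongr
  have hη0 : 0 ≤ η := by
    refine le_trans ?_ (hD2 (Lc - 1) ⟨le_refl _, by linarith⟩)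
    positivity
  have hA0 : 0 ≤ C₁ * Real.log k ^ 2 * (2 * ((2 * δ * B) / k) ^ 2 +
        k ^ (-(3 / 2) : ℝ) * (4 * δ ^ 2 * B)) := by positivity
  have hsum : C₁ * Real.log k ^ 2 * (2 * ((2 * δ * B) / k) ^ 2 +
        k ^ (-(3 / 2) : ℝ) * (4 * δ ^ 2 * B)) + 3 * η < min ε (3 / 100) := herr
  have hηs : η ≤ 1 / 100 := by
    have := lt_of_lt_of_le hsum (min_le_right _ _)
    linarith
  refine ⟨z, w, hzsol, fun x hx => ?_, hzn, fun x hx => ?_, ?_⟩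
  · obtain ⟨b1, b2⟩ := hcs x hx
    constructor
    · rw [hz]; simp only; rw [abs_mul, hsabs, one_mul]; exact b1
    · rw [hw]; simp only; rw [abs_mul, hsabs, one_mul]; exact b2
  · have hm := mirrored_bounds hk0 hlam (by linarith) (by linarith) h huL hn hx
    exact close_bounds hk0 hηs hm.1 hm.2 (hD2 x ⟨by linarith [hx.1], hx.2⟩)
  · have hi : ∀ a b : ℝ, IntervalIntegrable (fun x => (z x - u x) ^ 2) volume a b := fun a b =>
      Continuous.intervalIntegrable (by fun_prop) _ _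
    rw [← intervalIntegral.integral_add_adjacent_intervals (hi 0 (Lc - 1))
        (hi (Lc - 1) (Lc + 2))]
    have h2 : ∫ x in (Lc - 1)..(Lc + 2), (z x - u x) ^ 2 ≤ 3 * η := by
      have : ∫ x in (Lc - 1)..(Lc + 2), (z x - u x) ^ 2 ≤ ∫ x in (Lc - 1)..(Lc + 2), η := by
        apply intervalIntegral.integral_mono_on (by linarith) (hi _ _) (by simp)
        intro x hx
        exact le_trans (le_add_of_nonneg_right (sq_nonneg _)) (hD2 x hx)
      refine this.trans (le_of_eq ?_)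
      rw [intervalIntegral.integral_const]
      simp only [smul_eq_mul]; ring
    have := lt_of_lt_of_le hsum (min_le_left _ _)
    linarith

end Pool.Agent.Work.MP_5698f2_an

end

section

/-!
# MP_5698f2_an: quasimodes built from solutions of the ordinary differential equation
-/

open MeasureTheory Filter Topology Set
open scoped ContDiff InnerProductSpace

namespace Pool.Agent.Work.MP_5698f2_an

/-! ## The smooth step and its derivatives -/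

noncomputable def st0 : ℝ → ℝ := Real.smoothTransition
noncomputable def st1 : ℝ → ℝ := deriv st0
noncomputable def st2 : ℝ → ℝ := deriv st1

lemma contDiff_st0 : ContDiff ℝ ∞ st0 := Real.smoothTransition.contDiff

lemma contDiff_st1 : ContDiff ℝ ∞ st1 := by
  have h : ContDiff ℝ (∞ + 1) st0 := by
    have := contDiff_st0
    exact this.of_le (by simp)
  exact (contDiff_succ_iff_deriv.1 h).2.2

lemma contDiff_st2 : ContDiff ℝ ∞ st2 := by
  have h : ContDiff ℝ (∞ + 1) st1 := by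
    have := contDiff_st1
    exact this.of_le (by simp)
  exact (contDiff_succ_iff_deriv.1 h).2.2

lemma hasDerivAt_st0 (x : ℝ) : HasDerivAt st0 (st1 x) x :=
  ((contDiff_st0.differentiable (by simp)) x).hasDerivAt

lemma hasDerivAt_st1 (x : ℝ) : HasDerivAt st1 (st2 x) x :=
  ((contDiff_st1.differentiable (by simp)) x).hasDerivAt

lemma st0_nonneg (x : ℝ) : 0 ≤ st0 x := Real.smoothTransition.nonneg x
lemma st0_le_one (x : ℝ) : st0 x ≤ 1 := Real.smoothTransition.le_one x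
lemma st0_of_le {x : ℝ} (h : x ≤ 0) : st0 x = 0 := Real.smoothTransition.zero_of_nonpos h
lemma st0_of_ge {x : ℝ} (h : 1 ≤ x) : st0 x = 1 := Real.smoothTransition.one_of_one_le h

lemma st1_eq_zero {x : ℝ} (h : x ≤ 0 ∨ 1 ≤ x) : st1 x = 0 := by
  -- one-sided derivative of a constant
  rcases h with h | h
  · have h1 : HasDerivWithinAt st0 0 (Iic x) x :=
      (hasDerivWithinAt_const x (Iic x) (0 : ℝ)).congr (fun y hy => st0_of_le (hy.trans h))
        (st0_of_le h)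
    exact (uniqueDiffWithinAt_Iic x).eq_deriv _ (hasDerivAt_st0 x).hasDerivWithinAt h1
  · have h1 : HasDerivWithinAt st0 0 (Ici x) x :=
      (hasDerivWithinAt_const x (Ici x) (1 : ℝ)).congr
        (fun y hy => st0_of_ge (le_trans h hy)) (st0_of_ge h)
    exact (uniqueDiffWithinAt_Ici x).eq_deriv _ (hasDerivAt_st0 x).hasDerivWithinAt h1

lemma st2_eq_zero {x : ℝ} (h : x ≤ 0 ∨ 1 ≤ x) : st2 x = 0 := by
  rcases h with h | h
  · have h1 : HasDerivWithinAt st1 0 (Iic x) x :=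
      (hasDerivWithinAt_const x (Iic x) (0 : ℝ)).congr
        (fun y hy => st1_eq_zero (Or.inl (hy.trans h))) (st1_eq_zero (Or.inl h))
    exact (uniqueDiffWithinAt_Iic x).eq_deriv _ (hasDerivAt_st1 x).hasDerivWithinAt h1
  · have h1 : HasDerivWithinAt st1 0 (Ici x) x :=
      (hasDerivWithinAt_const x (Ici x) (0 : ℝ)).congr
        (fun y hy => st1_eq_zero (Or.inr (le_trans h hy))) (st1_eq_zero (Or.inr h))
    exact (uniqueDiffWithinAt_Ici x).eq_deriv _ (hasDerivAt_st1 x).hasDerivWithinAt h1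

lemma exists_st_bound : ∃ C : ℝ, 1 ≤ C ∧ ∀ x, |st1 x| ≤ C ∧ |st2 x| ≤ C := by
  have h1 := isCompact_Icc.exists_bound_of_continuousOn
    (contDiff_st1.continuous.continuousOn (s := Icc (0 : ℝ) 1))
  have h2 := isCompact_Icc.exists_bound_of_continuousOn
    (contDiff_st2.continuous.continuousOn (s := Icc (0 : ℝ) 1))
  obtain ⟨C1, hC1⟩ := h1
  obtain ⟨C2, hC2⟩ := h2
  refine ⟨max 1 (max C1 C2), le_max_left _ _, fun x => ?_⟩
  by_cases hx : x ∈ Icc (0 : ℝ) 1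
  · exact ⟨(hC1 x hx).trans ((le_max_left _ _).trans (le_max_right _ _)),
      (hC2 x hx).trans ((le_max_right _ _).trans (le_max_right _ _))⟩
  · have : x ≤ 0 ∨ 1 ≤ x := by
      by_contra hcon
      push Not at hcon
      exact hx ⟨hcon.1.le, hcon.2.le⟩
    rw [st1_eq_zero this, st2_eq_zero this]
    simp only [abs_zero]
    have : (0 : ℝ) ≤ max 1 (max C1 C2) := le_trans zero_le_one (le_max_left _ _)
    exact ⟨this, this⟩

/-! ## Cutoffs -/

/-- Cutoff near the two ends. -/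
noncomputable def chE (k s : ℝ) : ℝ := st0 (k * (s - 3) - 1) * st0 (k * (sB - s) - 1)

noncomputable def chE1 (k s : ℝ) : ℝ :=
  k * st1 (k * (s - 3) - 1) * st0 (k * (sB - s) - 1)
    - k * st0 (k * (s - 3) - 1) * st1 (k * (sB - s) - 1)

noncomputable def chE2 (k s : ℝ) : ℝ :=
  k ^ 2 * st2 (k * (s - 3) - 1) * st0 (k * (sB - s) - 1)
    - 2 * k ^ 2 * st1 (k * (s - 3) - 1) * st1 (k * (sB - s) - 1)
    + k ^ 2 * st0 (k * (s - 3) - 1) * st2 (k * (sB - s) - 1)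

lemma hasDerivAt_arg1 (k s : ℝ) : HasDerivAt (fun s => k * (s - 3) - 1) k s := by
  simpa using (((hasDerivAt_id s).sub_const 3).const_mul k).sub_const 1

lemma hasDerivAt_arg2 (k s : ℝ) : HasDerivAt (fun s => k * (sB - s) - 1) (-k) s := by
  simpa using (((hasDerivAt_id s).const_sub sB).const_mul k).sub_const 1

lemma hasDerivAt_chE (k s : ℝ) : HasDerivAt (chE k) (chE1 k s) s := by
  have h1 := (hasDerivAt_st0 (k * (s - 3) - 1)).comp s (hasDerivAt_arg1 k s)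
  have h2 := (hasDerivAt_st0 (k * (sB - s) - 1)).comp s (hasDerivAt_arg2 k s)
  refine (h1.mul h2).congr_deriv ?_
  simp only [Function.comp, chE1]; ring

lemma hasDerivAt_chE1 (k s : ℝ) : HasDerivAt (chE1 k) (chE2 k s) s := by
  have h1 := (hasDerivAt_st0 (k * (s - 3) - 1)).comp s (hasDerivAt_arg1 k s)
  have h2 := (hasDerivAt_st0 (k * (sB - s) - 1)).comp s (hasDerivAt_arg2 k s)
  have h3 := (hasDerivAt_st1 (k * (s - 3) - 1)).comp s (hasDerivAt_arg1 k s)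
  have h4 := (hasDerivAt_st1 (k * (sB - s) - 1)).comp s (hasDerivAt_arg2 k s)
  refine (((h3.const_mul k).mul h2).sub ((h1.const_mul k).mul h4)).congr_deriv ?_
  simp only [Function.comp, chE2]; ring

lemma contDiff_chE (k : ℝ) : ContDiff ℝ ∞ (chE k) := by
  unfold chE
  exact (contDiff_st0.comp (by fun_prop)).mul (contDiff_st0.comp (by fun_prop))

lemma chE_nonneg (k s : ℝ) : 0 ≤ chE k s := mul_nonneg (st0_nonneg _) (st0_nonneg _)

lemma chE_le_one (k s : ℝ) : chE k s ≤ 1 :=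
  mul_le_one₀ (st0_le_one _) (st0_nonneg _) (st0_le_one _)

lemma chE_support {k : ℝ} (hk : 0 < k) : Function.support (chE k) ⊆ Icc 3 sB := by
  intro s hs
  by_contra hcon
  apply hs
  rw [mem_Icc, not_and_or, not_le, not_le] at hcon
  unfold chE
  rcases hcon with h | h
  · rw [st0_of_le (by nlinarith), zero_mul]
  · rw [st0_of_le (x := k * (sB - s) - 1) (by nlinarith), mul_zero]

/-- Where the end cutoff is not locally constant. -/
def EndZone (k s : ℝ) : Prop := (s - 3 ∈ Icc 0 (2 / k)) ∨ (sB - s ∈ Icc 0 (2 / k))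

lemma chE_off {k s : ℝ} (hk : 0 < k) (h : ¬ EndZone k s) : chE1 k s = 0 ∧ chE2 k s = 0 := by
  unfold EndZone at h
  rw [not_or, mem_Icc, mem_Icc, not_and_or, not_and_or, not_le, not_le, not_le, not_le] at h
  obtain ⟨h1, h2⟩ := h
  have c1 : k * (s - 3) - 1 ≤ 0 ∨ 1 ≤ k * (s - 3) - 1 := by
    rcases h1 with h | h
    · left; nlinarith
    · right
      rw [div_lt_iff₀ hk] at h
      linarith
  have c2 : k * (sB - s) - 1 ≤ 0 ∨ 1 ≤ k * (sB - s) - 1 := by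
    rcases h2 with h | h
    · left; nlinarith
    · right
      rw [div_lt_iff₀ hk] at h
      linarith
  unfold chE1 chE2
  rw [st1_eq_zero c1, st1_eq_zero c2, st2_eq_zero c1, st2_eq_zero c2]
  constructor <;> ring

lemma chE_one {k s : ℝ} (hk : 0 < k) (h1 : 3 + 2 / k ≤ s) (h2 : s ≤ sB - 2 / k) :
    chE k s = 1 := by
  unfold chE
  have e1 : 2 ≤ k * (s - 3) := by
    have : 2 / k ≤ s - 3 := by linarith
    rwa [div_le_iff₀ hk, mul_comm] at this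
  have e2 : 2 ≤ k * (sB - s) := by
    have : 2 / k ≤ sB - s := by linarith
    rwa [div_le_iff₀ hk, mul_comm] at this
  rw [st0_of_ge (by linarith), st0_of_ge (by linarith), one_mul]

lemma chE_bounds {C k s : ℝ} (hC : 1 ≤ C) (hb : ∀ x, |st1 x| ≤ C ∧ |st2 x| ≤ C)
    (hk : 0 < k) : |chE1 k s| ≤ 2 * C * k ∧ |chE2 k s| ≤ 4 * C ^ 2 * k ^ 2 := by
  have a0 : ∀ x, |st0 x| ≤ 1 := fun x => by
    rw [abs_of_nonneg (st0_nonneg x)]; exact st0_le_one x
  set x := k * (s - 3) - 1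
  set y := k * (sB - s) - 1
  have hC2 : C ≤ C ^ 2 := by nlinarith
  constructor
  · have e : chE1 k s = k * (st1 x * st0 y - st0 x * st1 y) := by unfold chE1; ring
    rw [e, abs_mul, abs_of_pos hk]
    have h1 : |st1 x * st0 y| ≤ C * 1 := by
      rw [abs_mul]; gcongr
      · exact (hb x).1
      · exact a0 y
    have h2 : |st0 x * st1 y| ≤ 1 * C := by
      rw [abs_mul]; gcongr
      · exact a0 x
      · exact (hb y).1
    have h3 : |st1 x * st0 y - st0 x * st1 y| ≤ 2 * C := (abs_sub _ _).trans (by linarith)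
    calc k * |st1 x * st0 y - st0 x * st1 y| ≤ k * (2 * C) := by gcongr
      _ = 2 * C * k := by ring
  · have e : chE2 k s = k ^ 2 * (st2 x * st0 y - 2 * (st1 x * st1 y) + st0 x * st2 y) := by
      unfold chE2; ring
    rw [e, abs_mul, abs_of_pos (by positivity : (0 : ℝ) < k ^ 2)]
    have h1 : |st2 x * st0 y| ≤ C * 1 := by
      rw [abs_mul]; gcongr
      · exact (hb x).2
      · exact a0 y
    have h2 : |st0 x * st2 y| ≤ 1 * C := by
      rw [abs_mul]; gcongr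
      · exact a0 x
      · exact (hb y).2
    have h3 : |2 * (st1 x * st1 y)| ≤ 2 * (C * C) := by
      rw [abs_mul, abs_two, abs_mul]; gcongr
      · exact (hb x).1
      · exact (hb y).1
    have h4 : |st2 x * st0 y - 2 * (st1 x * st1 y) + st0 x * st2 y| ≤ 4 * C ^ 2 := by
      refine (abs_add_le _ _).trans ?_
      have := abs_sub (st2 x * st0 y) (2 * (st1 x * st1 y))
      nlinarith
    calc k ^ 2 * |st2 x * st0 y - 2 * (st1 x * st1 y) + st0 x * st2 y|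
        ≤ k ^ 2 * (4 * C ^ 2) := by gcongr
      _ = 4 * C ^ 2 * k ^ 2 := by ring

/-- The cutoff in the middle of the inner well: `0` for `s ≤ sA - 2`, `1` for `s ≥ sA - 1`. -/
noncomputable def chM (s : ℝ) : ℝ := st0 (s - (sA - 2))
noncomputable def chM1 (s : ℝ) : ℝ := st1 (s - (sA - 2))
noncomputable def chM2 (s : ℝ) : ℝ := st2 (s - (sA - 2))

lemma hasDerivAt_chM (s : ℝ) : HasDerivAt chM (chM1 s) s := by
  have h := (hasDerivAt_st0 (s - (sA - 2))).comp s ((hasDerivAt_id s).sub_const (sA - 2))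
  rw [mul_one] at h
  exact h

lemma hasDerivAt_chM1 (s : ℝ) : HasDerivAt chM1 (chM2 s) s := by
  have h := (hasDerivAt_st1 (s - (sA - 2))).comp s ((hasDerivAt_id s).sub_const (sA - 2))
  rw [mul_one] at h
  exact h

lemma contDiff_chM : ContDiff ℝ ∞ chM := contDiff_st0.comp (by fun_prop)
lemma contDiff_chM1 : ContDiff ℝ ∞ chM1 := contDiff_st1.comp (by fun_prop)
lemma contDiff_chM2 : ContDiff ℝ ∞ chM2 := contDiff_st2.comp (by fun_prop)

lemma chM1_off {s : ℝ} (h : s ∉ Icc (sA - 2) (sA - 1)) : chM1 s = 0 ∧ chM2 s = 0 := by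
  rw [mem_Icc, not_and_or, not_le, not_le] at h
  have : s - (sA - 2) ≤ 0 ∨ 1 ≤ s - (sA - 2) := by
    rcases h with h | h
    · left; linarith
    · right; linarith
  exact ⟨st1_eq_zero this, st2_eq_zero this⟩

lemma chM_nonneg (s : ℝ) : 0 ≤ chM s := st0_nonneg _
lemma chM_le_one (s : ℝ) : chM s ≤ 1 := st0_le_one _
lemma chM_zero {s : ℝ} (h : s ≤ sA - 2) : chM s = 0 := st0_of_le (by linarith)
lemma chM_one {s : ℝ} (h : sA - 1 ≤ s) : chM s = 1 := st0_of_ge (by linarith)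

/-! ## Truncated modes -/

/-- Admissible truncations `c₀ + ς chM` with values in `[0,1]`. -/
structure Trunc (c₀ ς : ℝ) : Prop where
  cases : (c₀ = 0 ∧ ς = 1) ∨ (c₀ = 1 ∧ ς = -1) ∨ (c₀ = 1 ∧ ς = 0)

/-- The truncation function. -/
noncomputable def tr (c₀ ς s : ℝ) : ℝ := c₀ + ς * chM s

lemma Trunc.abs_le {c₀ ς : ℝ} (h : Trunc c₀ ς) (s : ℝ) : |tr c₀ ς s| ≤ 1 := by
  have h0 := chM_nonneg s
  have h1 := chM_le_one s
  unfold tr
  rw [_root_.abs_le]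
  rcases h.cases with ⟨a, b⟩ | ⟨a, b⟩ | ⟨a, b⟩ <;> rw [a, b] <;> constructor <;> linarith

lemma Trunc.abs_sign {c₀ ς : ℝ} (h : Trunc c₀ ς) : |ς| ≤ 1 := by
  rcases h.cases with ⟨_, b⟩ | ⟨_, b⟩ | ⟨_, b⟩ <;> rw [b] <;> simp

lemma hasDerivAt_tr (c₀ ς s : ℝ) : HasDerivAt (tr c₀ ς) (ς * chM1 s) s :=
  ((hasDerivAt_chM s).const_mul ς).const_add c₀

/-- The truncated mode (as a function of `s`). -/
noncomputable def md (k c₀ ς : ℝ) (u : ℝ → ℝ) (s : ℝ) : ℝ := tr c₀ ς s * chE k s * u (s - 3)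

/-- The flux part of the error. -/
noncomputable def fl (ς : ℝ) (u v : ℝ → ℝ) (s : ℝ) : ℝ :=
  -(1 / 2) * (ς * chM2 s * u (s - 3) + 2 * (ς * chM1 s) * v (s - 3))

/-- The end part of the error. -/
noncomputable def en (k c₀ ς : ℝ) (u v : ℝ → ℝ) (s : ℝ) : ℝ :=
  -(1 / 2) * (tr c₀ ς s * (chE2 k s * u (s - 3) + 2 * chE1 k s * v (s - 3)))

lemma sA_val : sA = 2003 := by unfold sA Lc; norm_num
lemma sB_val : sB = 4003 := by unfold sB Lc; norm_num

/-- On the support of the derivative of the middle cutoff the end cutoff is `1`. -/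
lemma mid_end {k s : ℝ} (hk : 2 ≤ k) :
    chM1 s * chE k s = chM1 s ∧ chM2 s * chE k s = chM2 s ∧ chM1 s * chE1 k s = 0 := by
  by_cases hs : s ∈ Icc (sA - 2) (sA - 1)
  · have hk0 : 0 < k := by linarith
    have h2k : 2 / k ≤ 1 := by rw [div_le_one hk0]; exact hk
    have hz : ¬ EndZone k s := by
      unfold EndZone
      rw [sA_val] at hs
      rw [sB_val, mem_Icc, mem_Icc]
      have h1 := hs.1
      have h2 := hs.2
      rintro (⟨_, h⟩ | ⟨_, h⟩) <;> linarith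
    have h1 : chE k s = 1 := by
      rw [sA_val] at hs
      refine chE_one hk0 (by linarith [hs.1]) ?_
      rw [sB_val]
      linarith [hs.2]
    rw [h1, (chE_off hk0 hz).1]
    simp
  · rw [(chM1_off hs).1, (chM1_off hs).2]; simp

lemma sol_shift {k μ : ℝ} {u v : ℝ → ℝ} (h : SolP k μ u v) (s : ℝ) :
    HasDerivAt (fun s => u (s - 3)) (v (s - 3)) s ∧
    HasDerivAt (fun s => v (s - 3)) (-(2 * μ - 2 * k ^ 2 * U0 (s - 3)) * u (s - 3)) s := by
  have h1 := (h.1 (s - 3)).comp s ((hasDerivAt_id s).sub_const 3)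
  have h2 := (h.2 (s - 3)).comp s ((hasDerivAt_id s).sub_const 3)
  rw [mul_one] at h1 h2
  exact ⟨h1, h2⟩

/-- First derivative of the truncated mode. -/
noncomputable def md1 (k c₀ ς : ℝ) (u v : ℝ → ℝ) (s : ℝ) : ℝ :=
  (ς * chM1 s * chE k s + tr c₀ ς s * chE1 k s) * u (s - 3) + tr c₀ ς s * chE k s * v (s - 3)

lemma hasDerivAt_md {k μ c₀ ς : ℝ} {u v : ℝ → ℝ} (h : SolP k μ u v) (s : ℝ) :
    HasDerivAt (md k c₀ ς u) (md1 k c₀ ς u v s) s := by
  obtain ⟨h1, _⟩ := sol_shift h s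
  refine (((hasDerivAt_tr c₀ ς s).mul (hasDerivAt_chE k s)).mul h1).congr_deriv ?_
  simp only [md1, Pi.mul_apply]

lemma hasDerivAt_md1 {k μ c₀ ς : ℝ} {u v : ℝ → ℝ} (hk : 2 ≤ k) (h : SolP k μ u v) (s : ℝ) :
    HasDerivAt (md1 k c₀ ς u v)
      (-2 * (μ * md k c₀ ς u s + (fl ς u v s + en k c₀ ς u v s)
        - k ^ 2 * U0 (s - 3) * md k c₀ ς u s)) s := by
  obtain ⟨h1, h2⟩ := sol_shift h s
  obtain ⟨e1, e2, e3⟩ := mid_end (s := s) hk
  have d1 := hasDerivAt_tr c₀ ς s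
  have d2 := hasDerivAt_chE k s
  have d3 := hasDerivAt_chE1 k s
  have d4 := (hasDerivAt_chM1 s).const_mul ς
  refine ((((d4.mul d2).add (d1.mul d3)).mul h1).add ((d1.mul d2).mul h2)).congr_deriv ?_
  simp only [md, fl, en, Pi.mul_apply, Pi.add_apply]
  linear_combination (ς * u (s - 3)) * e2 + 2 * ς * v (s - 3) * e1 + 2 * ς * u (s - 3) * e3

/-- Complexification of a real function. -/
noncomputable def cx (f : ℝ → ℝ) (s : ℝ) : ℂ := (f s : ℂ)

lemma contDiff_cx {f : ℝ → ℝ} (hf : ContDiff ℝ ∞ f) : ContDiff ℝ ∞ (cx f) :=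
  Complex.ofRealCLM.contDiff.comp hf

lemma continuous_cx {f : ℝ → ℝ} (hf : Continuous f) : Continuous (cx f) :=
  Complex.continuous_ofReal.comp hf

lemma support_cx (f : ℝ → ℝ) : Function.support (cx f) = Function.support f := by
  ext s; simp [cx]

lemma SolP.smooth {k μ : ℝ} {u v : ℝ → ℝ} (h : SolP k μ u v) :
    ContDiff ℝ ∞ u ∧ ContDiff ℝ ∞ v := by
  refine solution_smooth (q := fun x => 2 * μ - 2 * k ^ 2 * U0 x) ?_ h.1
    (fun x => (h.2 x).congr_deriv (by ring))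
  exact contDiff_const.sub (contDiff_const.mul contDiff_U0_ode)

lemma contDiff_md {k μ c₀ ς : ℝ} {u v : ℝ → ℝ} (h : SolP k μ u v) :
    ContDiff ℝ ∞ (md k c₀ ς u) := by
  have h1 : ContDiff ℝ ∞ (fun s => u (s - 3)) := h.smooth.1.comp (by fun_prop)
  have h2 : ContDiff ℝ ∞ (tr c₀ ς) := contDiff_const.add (contDiff_const.mul contDiff_chM)
  exact (h2.mul (contDiff_chE k)).mul h1

lemma support_md {k c₀ ς : ℝ} (hk : 0 < k) (u : ℝ → ℝ) :
    Function.support (md k c₀ ς u) ⊆ Icc 3 sB := by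
  intro s hs
  apply chE_support hk
  intro h0
  apply hs
  simp only [md]
  rw [h0]; ring

lemma continuous_fl {ς : ℝ} {u v : ℝ → ℝ} (hu : Continuous u) (hv : Continuous v) :
    Continuous (fl ς u v) := by
  have h1 := contDiff_chM1.continuous
  have h2 := contDiff_chM2.continuous
  unfold fl; fun_prop

lemma support_fl (ς : ℝ) (u v : ℝ → ℝ) :
    Function.support (fl ς u v) ⊆ Icc (sA - 2) (sA - 1) := by
  intro s hs
  by_contra hcon
  apply hs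
  simp only [fl]
  rw [(chM1_off hcon).1, (chM1_off hcon).2]; ring

lemma continuous_chE1 (k : ℝ) : Continuous (chE1 k) := by
  have h0 := contDiff_st0.continuous
  have h1 := contDiff_st1.continuous
  unfold chE1; fun_prop

lemma continuous_chE2 (k : ℝ) : Continuous (chE2 k) := by
  have h0 := contDiff_st0.continuous
  have h1 := contDiff_st1.continuous
  have h2 := contDiff_st2.continuous
  unfold chE2; fun_prop

lemma continuous_en {k c₀ ς : ℝ} {u v : ℝ → ℝ} (hu : Continuous u) (hv : Continuous v) :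
    Continuous (en k c₀ ς u v) := by
  have h1 := continuous_chE1 k
  have h2 := continuous_chE2 k
  have h3 : Continuous (tr c₀ ς) := continuous_const.add
    (continuous_const.mul contDiff_chM.continuous)
  unfold en; fun_prop

lemma support_en {k c₀ ς : ℝ} (hk : 2 ≤ k) (u v : ℝ → ℝ) :
    Function.support (en k c₀ ς u v) ⊆ Icc 3 sB := by
  intro s hs
  by_contra hcon
  apply hs
  have hk0 : 0 < k := by linarith
  have h2k : 2 / k ≤ 1 := by rw [div_le_one hk0]; exact hk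
  -- outside the core all derivatives of the cutoff vanish
  have hz : chE1 k s = 0 ∧ chE2 k s = 0 := by
    rw [mem_Icc, not_and_or, not_le, not_le] at hcon
    have c : (k * (s - 3) - 1 ≤ 0 ∧ 1 ≤ k * (sB - s) - 1) ∨
        (1 ≤ k * (s - 3) - 1 ∧ k * (sB - s) - 1 ≤ 0) := by
      rw [sB_val] at *
      rcases hcon with h | h
      · left; constructor <;> nlinarith
      · right; constructor <;> nlinarith
    unfold chE1 chE2
    rcases c with ⟨c1, c2⟩ | ⟨c1, c2⟩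
    · rw [st1_eq_zero (Or.inl c1), st2_eq_zero (Or.inl c1), st1_eq_zero (Or.inr c2),
        st2_eq_zero (Or.inr c2)]
      constructor <;> ring
    · rw [st1_eq_zero (Or.inr c1), st2_eq_zero (Or.inr c1), st1_eq_zero (Or.inl c2),
        st2_eq_zero (Or.inl c2)]
      constructor <;> ring
  simp only [en]
  rw [hz.1, hz.2]; ring

lemma deriv_cx {f : ℝ → ℝ} {f' : ℝ → ℝ} (h : ∀ s, HasDerivAt f (f' s) s) :
    deriv (cx f) = cx f' := by
  funext s
  exact (h s).ofReal_comp.deriv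

/-- The truncated mode is an approximate eigenfunction. -/
lemma schrOp_mode {k : ℕ} {μ c₀ ς : ℝ} {u v : ℝ → ℝ} (hk : 2 ≤ k) (h : SolP k μ u v) :
    schrOp Amat (sep k (cx (md k c₀ ς u))) = (μ : ℂ) • sep k (cx (md k c₀ ς u)) +
      (sep k (cx (fl ς u v)) + sep k (cx (en k c₀ ς u v))) := by
  have hk' : (2 : ℝ) ≤ k := by exact_mod_cast hk
  have hk0 : (0 : ℝ) < k := by linarith
  have hsupp : Function.support (cx (md k c₀ ς u)) ⊆ Icc 2 (2 * Lc + 4) := by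
    rw [support_cx]
    refine (support_md hk0 u).trans (Icc_subset_Icc (by norm_num) ?_)
    unfold sB; linarith
  rw [schrOp_sep k (contDiff_cx (contDiff_md h)) hsupp, deriv_cx (hasDerivAt_md h),
    deriv_cx (hasDerivAt_md1 hk' h)]
  funext x
  simp only [sep, cx, Pi.add_apply, Pi.smul_apply, smul_eq_mul]
  push_cast
  ring

end Pool.Agent.Work.MP_5698f2_an

end

section

/-!
# MP_5698f2_an: estimates on the truncated modes in `L^2`
-/

open MeasureTheory Filter Topology Set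
open scoped ContDiff InnerProductSpace

namespace Pool.Agent.Work.MP_5698f2_an

lemma toL2_add_mem {n : ℕ} {u w : Sp n → ℂ} (hu : MemLp u 2 (volume : Measure (Sp n)))
    (hw : MemLp w 2 (volume : Measure (Sp n))) : toL2 (u + w) = toL2 u + toL2 w := by
  rw [toL2_of hu, toL2_of hw, toL2_of (hu.add hw)]; exact MemLp.toLp_add hu hw

lemma toL2_smul_mem {n : ℕ} {u : Sp n → ℂ} (hu : MemLp u 2 (volume : Measure (Sp n)))
    (c : ℂ) : toL2 (c • u) = c • toL2 u := by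
  rw [toL2_of hu, toL2_of (hu.const_smul c)]; exact MemLp.toLp_const_smul c hu

lemma memLp_cx {k : ℕ} {f : ℝ → ℝ} (hf : Continuous f) {a b : ℝ} (ha : 0 < a)
    (hs : Function.support f ⊆ Icc a b) :
    MemLp (sep k (cx f)) 2 (volume : Measure (Sp 2)) :=
  memLp_sep k (continuous_cx hf) ha (by rw [support_cx]; exact hs)

lemma sA_pos : (0 : ℝ) < sA - 2 := by rw [sA_val]; norm_num

lemma toL2_schrOp_mode {k : ℕ} {μ c₀ ς : ℝ} {u v : ℝ → ℝ} (hk : 2 ≤ k) (h : SolP k μ u v) :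
    toL2 (schrOp Amat (sep k (cx (md k c₀ ς u)))) =
      (μ : ℂ) • toL2 (sep k (cx (md k c₀ ς u))) +
      (toL2 (sep k (cx (fl ς u v))) + toL2 (sep k (cx (en k c₀ ς u v)))) := by
  have hk' : (2 : ℝ) ≤ k := by exact_mod_cast hk
  have hk0 : (0 : ℝ) < k := by linarith
  have m1 := memLp_cx (k := k) (contDiff_md (c₀ := c₀) (ς := ς) h).continuous
    (by norm_num : (0 : ℝ) < 3) (support_md hk0 u)
  have m2 := memLp_cx (k := k) (continuous_fl (ς := ς) h.contU h.contV) sA_pos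
    (support_fl ς u v)
  have m3 := memLp_cx (k := k) (continuous_en (k := k) (c₀ := c₀) (ς := ς) h.contU h.contV)
    (by norm_num : (0 : ℝ) < 3) (support_en hk' u v)
  rw [schrOp_mode hk h, toL2_add_mem (m1.const_smul _) (m2.add m3), toL2_smul_mem m1,
    toL2_add_mem m2 m3]

/-- Norm bound by the supremum. -/
lemma norm_sep_le {k : ℕ} {f : ℝ → ℝ} (hf : Continuous f) {a b M : ℝ} (ha : 0 < a)
    (hab : a ≤ b) (hs : Function.support f ⊆ Icc a b) (hM : ∀ s, |f s| ≤ M) :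
    ‖toL2 (sep k (cx f))‖ ^ 2 ≤ 2 * Real.pi * ((b - a) * M ^ 2) := by
  rw [norm_sep k (continuous_cx hf) ha hab (by rw [support_cx]; exact hs)]
  have : ∫ s in a..b, ‖cx f s‖ ^ 2 ≤ ∫ s in a..b, M ^ 2 := by
    apply intervalIntegral.integral_mono_on hab
    · exact Continuous.intervalIntegrable (((continuous_cx hf).norm).pow 2) _ _
    · simp
    · intro s _
      simp only [cx, Complex.norm_real, Real.norm_eq_abs]
      exact pow_le_pow_left₀ (abs_nonneg _) (hM s) 2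
  rw [intervalIntegral.integral_const, smul_eq_mul] at this
  have hpi := Real.pi_pos
  gcongr

/-- The end conditions. -/
def EndCond (k c₀ ς : ℝ) (u v : ℝ → ℝ) : Prop :=
  (∀ x ∈ Icc 0 (2 / k), tr c₀ ς (x + 3) = 0 ∨ (|u x| ≤ 1 / k ^ 3 ∧ |v x| ≤ 1 / k ^ 2)) ∧
  ∀ x ∈ Icc 0 (2 / k), tr c₀ ς (sB - x) = 0 ∨
    (|u (2 * Lc - x)| ≤ 1 / k ^ 3 ∧ |v (2 * Lc - x)| ≤ 1 / k ^ 2)

lemma norm_en_le : ∃ C : ℝ, 0 ≤ C ∧ ∀ k : ℕ, 2 ≤ k → ∀ c₀ ς : ℝ, Trunc c₀ ς → ∀ u v : ℝ → ℝ,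
    Continuous u → Continuous v → EndCond k c₀ ς u v →
    ‖toL2 (sep k (cx (en k c₀ ς u v)))‖ ≤ C / k := by
  obtain ⟨C, hC1, hC⟩ := exists_st_bound
  refine ⟨√(2 * Real.pi * 4000) * (4 * C ^ 2), by positivity, fun k hk c₀ ς ht u v hu hv hE => ?_⟩
  have hk' : (2 : ℝ) ≤ k := by exact_mod_cast hk
  have hk0 : (0 : ℝ) < k := by linarith
  have hpt : ∀ s, |en k c₀ ς u v s| ≤ 4 * C ^ 2 / k := by
    intro s
    obtain ⟨b1, b2⟩ := chE_bounds (s := s) hC1 hC hk0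
    have hpos : 0 ≤ 4 * C ^ 2 / (k : ℝ) := by positivity
    have gen : ∀ a b : ℝ, |a| ≤ 1 / (k : ℝ) ^ 3 → |b| ≤ 1 / (k : ℝ) ^ 2 →
        |(1 / 2 : ℝ)| * (|tr c₀ ς s| * |chE2 k s * a + 2 * chE1 k s * b|) ≤ 4 * C ^ 2 / k := by
      intro a b ha hb
      have e1 : |chE2 k s * a| ≤ 4 * C ^ 2 * (k : ℝ) ^ 2 * (1 / (k : ℝ) ^ 3) := by
        rw [abs_mul]; gcongr
      have e2 : |2 * chE1 k s * b| ≤ 2 * (2 * C * k) * (1 / (k : ℝ) ^ 2) := by
        rw [abs_mul, abs_mul, abs_two]; gcongr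
      have e3 : 4 * C ^ 2 * (k : ℝ) ^ 2 * (1 / (k : ℝ) ^ 3) = 4 * C ^ 2 / k := by
        field_simp
      have e4 : 2 * (2 * C * k) * (1 / (k : ℝ) ^ 2) = 4 * C / k := by
        field_simp; ring
      have e5 : 4 * C / (k : ℝ) ≤ 4 * C ^ 2 / k := by
        gcongr; nlinarith
      have e6 := abs_add_le (chE2 k s * a) (2 * chE1 k s * b)
      have e7 := ht.abs_le s
      rw [abs_of_pos (by norm_num : (0 : ℝ) < 1 / 2)]
      have e8 : |chE2 k s * a + 2 * chE1 k s * b| ≤ 2 * (4 * C ^ 2 / k) := by linarith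
      calc (1 / 2 : ℝ) * (|tr c₀ ς s| * |chE2 k s * a + 2 * chE1 k s * b|)
          ≤ (1 / 2 : ℝ) * (1 * (2 * (4 * C ^ 2 / k))) := by gcongr
        _ = 4 * C ^ 2 / k := by ring
    have hen : |en k c₀ ς u v s| = |(1 / 2 : ℝ)| * (|tr c₀ ς s| *
        |chE2 k s * u (s - 3) + 2 * chE1 k s * v (s - 3)|) := by
      simp only [en]
      rw [abs_mul, abs_neg, abs_mul]
    by_cases hz : EndZone k s
    · rcases hz with hz | hz
      · rcases hE.1 _ hz with h0 | ⟨h1, h2⟩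
        · rw [sub_add_cancel] at h0
          rw [hen, h0]; simpa using hpos
        · rw [hen]; exact gen _ _ h1 h2
      · have e : 2 * Lc - (sB - s) = s - 3 := by unfold sB; ring
        rcases hE.2 _ hz with h0 | ⟨h1, h2⟩
        · rw [sub_sub_cancel] at h0
          rw [hen, h0]; simpa using hpos
        · rw [e] at h1 h2
          rw [hen]; exact gen _ _ h1 h2
    · obtain ⟨z1, z2⟩ := chE_off hk0 hz
      rw [hen, z1, z2]; simpa using hpos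
  have h1 := norm_sep_le (k := k) (continuous_en (k := k) (c₀ := c₀) (ς := ς) hu hv)
    (by norm_num : (0 : ℝ) < 3) (by rw [sB_val]; norm_num) (support_en hk' u v) hpt
  have h2 : ‖toL2 (sep k (cx (en k c₀ ς u v)))‖ ^ 2 ≤
      (√(2 * Real.pi * 4000) * (4 * C ^ 2) / k) ^ 2 := by
    refine h1.trans (le_of_eq ?_)
    have e : (√(2 * Real.pi * 4000) * (4 * C ^ 2) / (k : ℝ)) ^ 2 =
        (2 * Real.pi * 4000) * (4 * C ^ 2 / k) ^ 2 := by
      rw [mul_div_assoc, mul_pow, Real.sq_sqrt (by positivity)]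
    rw [e, sB_val]
    ring
  exact (pow_le_pow_iff_left₀ (norm_nonneg _) (by positivity) two_ne_zero).1 h2

/-! ## Plateau form -/

lemma plateau_form {k μ κ : ℝ} (hκ2 : κ ^ 2 = 2 * μ - k ^ 2) {u v : ℝ → ℝ}
    (h : SolP k μ u v) {p q : ℝ} (hpq : p ≤ q) (hU : ∀ x ∈ Icc p q, U0 x = 1 / 2) :
    ∃ C : ℂ, (∀ x ∈ Icc p q, (v x : ℂ) + Complex.I * κ * u x =
      C * Complex.exp (Complex.I * (κ * (x + 3) : ℝ))) ∧
      ∀ x ∈ Icc p q, ‖C‖ ^ 2 = v x ^ 2 + κ ^ 2 * u x ^ 2 := by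
  set f : ℝ → ℂ := fun x => ((v x : ℂ) + Complex.I * κ * u x) *
    Complex.exp (-(Complex.I * (κ * (x + 3) : ℝ))) with hf
  have hd : ∀ x ∈ Icc p q, HasDerivAt f 0 x := by
    intro x hx
    have h1 := (h.1 x).ofReal_comp
    have h2 := (h.2 x).ofReal_comp
    have h3 : HasDerivAt (fun x : ℝ => Complex.exp (-(Complex.I * (κ * (x + 3) : ℝ))))
        (Complex.exp (-(Complex.I * (κ * (x + 3) : ℝ))) * (-(Complex.I * κ))) x := by
      have h0 : HasDerivAt (fun x : ℝ => (-(Complex.I * (κ * (x + 3) : ℝ)) : ℂ))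
          (-(Complex.I * κ)) x := by
        have h := ((((hasDerivAt_id x).add_const 3).const_mul κ).ofReal_comp.const_mul
          Complex.I).neg
        refine h.congr_deriv ?_
        simp
      exact h0.cexp
    refine ((h2.add (h1.const_mul (Complex.I * κ))).mul h3).congr_deriv ?_
    rw [hU x hx]
    have hk2 : ((2 * μ - 2 * k ^ 2 * (1 / 2) : ℝ) : ℂ) = (κ : ℂ) ^ 2 := by
      rw [← Complex.ofReal_pow, hκ2]; push_cast; ring
    have e1 : ((-(2 * μ - 2 * k ^ 2 * (1 / 2)) * u x : ℝ) : ℂ) = -((κ : ℂ) ^ 2 * u x) := by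
      rw [← hk2]; push_cast; ring
    rw [e1]
    have hI : Complex.I ^ 2 = -1 := Complex.I_sq
    simp only [Pi.add_apply]
    linear_combination (-(κ : ℂ) ^ 2 * u x *
      Complex.exp (-(Complex.I * (κ * (x + 3) : ℝ)))) * hI
  have hc : ContinuousOn f (Icc p q) := fun x hx => (hd x hx).continuousAt.continuousWithinAt
  have hconst : ∀ x ∈ Icc p q, f x = f p := fun x hx =>
    constant_of_has_deriv_right_zero hc (fun y hy => (hd y ⟨hy.1, hy.2.le⟩).hasDerivWithinAt) x hx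
  refine ⟨f p, fun x hx => ?_, fun x hx => ?_⟩
  · rw [← hconst x hx, hf]
    simp only
    have e : Complex.exp (-(Complex.I * (κ * (x + 3) : ℝ))) *
        Complex.exp (Complex.I * (κ * (x + 3) : ℝ)) = 1 := by
      rw [← Complex.exp_add, neg_add_cancel, Complex.exp_zero]
    linear_combination (-((v x : ℂ) + Complex.I * κ * u x)) * e
  · rw [← hconst x hx, hf]
    simp only
    rw [norm_mul]
    have : ‖Complex.exp (-(Complex.I * (κ * (x + 3) : ℝ)))‖ = 1 := by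
      have e : -(Complex.I * ((κ * (x + 3) : ℝ) : ℂ)) = ((-(κ * (x + 3)) : ℝ) : ℂ) * Complex.I := by
        push_cast; ring
      rw [e, Complex.norm_exp_ofReal_mul_I]
    rw [this, mul_one]
    have e : (v x : ℂ) + Complex.I * κ * u x = (v x : ℂ) + ((κ * u x : ℝ) : ℂ) * Complex.I := by
      push_cast; ring
    rw [e, ← Complex.normSq_eq_norm_sq, Complex.normSq_add_mul_I]
    ring

/-- The oscillating profile with amplitude `b(s)`. -/
noncomputable def bosc (k : ℕ) (b : ℝ → ℝ) (κ : ℝ) (x : Sp 2) : ℂ :=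
  (fun s => (b s : ℂ)) (‖x‖ ^ 2 / 2) * osc k κ x

lemma bosc_eq_sep (k : ℕ) (b : ℝ → ℝ) (κ : ℝ) :
    bosc k b κ = sep k (fun s => (b s : ℂ) * Complex.exp (Complex.I * ((κ * s : ℝ) : ℂ))) := by
  funext x
  simp only [bosc, osc, sep]
  ring

lemma memLp_bosc {k : ℕ} {b : ℝ → ℝ} (hb : Continuous b) {κ a₁ a₂ : ℝ} (ha : 0 < a₁)
    (hs : Function.support b ⊆ Icc a₁ a₂) :
    MemLp (bosc k b κ) 2 (volume : Measure (Sp 2)) := by
  rw [bosc_eq_sep]
  refine memLp_sep k ?_ ha (b := a₂) ?_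
  · have : Continuous fun s : ℝ => Complex.exp (Complex.I * ((κ * s : ℝ) : ℂ)) :=
      Complex.continuous_exp.comp (continuous_const.mul (Complex.continuous_ofReal.comp
        (continuous_const.mul continuous_id)))
    exact (Complex.continuous_ofReal.comp hb).mul this
  · intro s hs'
    apply hs
    intro h0
    apply hs'
    simp [h0]

lemma support_chM1 : Function.support chM1 ⊆ Icc (sA - 2) (sA - 1) := by
  intro s hs
  by_contra h
  exact hs (chM1_off h).1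

lemma support_chM2 : Function.support chM2 ⊆ Icc (sA - 2) (sA - 1) := by
  intro s hs
  by_contra h
  exact hs (chM1_off h).2

/-- The flux function in terms of the oscillating profiles. -/
lemma fl_eq {k : ℕ} {κ ς : ℝ} (hκ : 0 < κ)
    {u v : ℝ → ℝ} {C : ℂ}
    (hC : ∀ x ∈ Icc (Lc - 2) (Lc - 1), (v x : ℂ) + Complex.I * κ * u x =
      C * Complex.exp (Complex.I * (κ * (x + 3) : ℝ))) :
    sep k (cx (fl ς u v)) =
      (-(ς : ℂ) * C / (4 * Complex.I * κ)) • bosc k chM2 (1 * κ) +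
      (((ς : ℂ) * (starRingEnd ℂ) C / (4 * Complex.I * κ)) • bosc k chM2 (-1 * κ) +
      ((-(ς : ℂ) * C / 2) • bosc k chM1 (1 * κ) +
        (-(ς : ℂ) * (starRingEnd ℂ) C / 2) • bosc k chM1 (-1 * κ))) := by
  funext x
  simp only [Pi.add_apply, Pi.smul_apply, smul_eq_mul, bosc, sep, osc, cx]
  set s := ‖x‖ ^ 2 / 2 with hs
  by_cases hmem : s ∈ Icc (sA - 2) (sA - 1)
  · have hx : s - 3 ∈ Icc (Lc - 2) (Lc - 1) := by
      unfold sA at hmem
      exact ⟨by linarith [hmem.1], by linarith [hmem.2]⟩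
    have h1 := hC _ hx
    rw [sub_add_cancel] at h1
    have h2 := congrArg (starRingEnd ℂ) h1
    simp only [map_add, map_mul, Complex.conj_ofReal, Complex.conj_I, ← Complex.exp_conj] at h2
    have hκc : (κ : ℂ) ≠ 0 := by exact_mod_cast hκ.ne'
    have hIc : Complex.I ≠ 0 := Complex.I_ne_zero
    have ep : Complex.exp (Complex.I * ((1 * κ * s : ℝ) : ℂ)) =
        Complex.exp (Complex.I * ((κ * s : ℝ) : ℂ)) := by rw [one_mul]
    have em : Complex.exp (Complex.I * ((-1 * κ * s : ℝ) : ℂ)) =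
        Complex.exp (-Complex.I * ((κ * s : ℝ) : ℂ)) := by
      congr 1; push_cast; ring
    rw [ep, em]
    set Ep := Complex.exp (Complex.I * ((κ * s : ℝ) : ℂ))
    set Em := Complex.exp (-Complex.I * ((κ * s : ℝ) : ℂ))
    have hv : (v (s - 3) : ℂ) = (C * Ep + (starRingEnd ℂ) C * Em) / 2 := by
      rw [← h1, ← h2]; ring
    have hu : (u (s - 3) : ℂ) = (C * Ep - (starRingEnd ℂ) C * Em) / (2 * Complex.I * κ) := by
      rw [← h1, ← h2]; field_simp; ring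
    simp only [fl]
    push_cast
    rw [hv, hu]
    field_simp
    ring
  · obtain ⟨z1, z2⟩ := chM1_off hmem
    simp only [fl]
    rw [z1, z2]; simp

/-- The flux pairing. -/
lemma flux_pairing {k : ℕ} {μ κ ς B : ℝ} (hκ : 1 ≤ κ) (hκ2 : κ ^ 2 = 2 * μ - (k : ℝ) ^ 2)
    {u v : ℝ → ℝ} (h : SolP k μ u v) (hς : |ς| ≤ 1)
    (hn : v (Lc - 1) ^ 2 + κ ^ 2 * u (Lc - 1) ^ 2 ≤ 9 * (k : ℝ) ^ 2) {F : L2 2}
    (h1 : ∀ σ : ℝ, (σ = 1 ∨ σ = -1) → ‖⟪toL2 (bosc k chM1 (σ * κ)), F⟫_ℂ‖ ≤ B)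
    (h2 : ∀ σ : ℝ, (σ = 1 ∨ σ = -1) → ‖⟪toL2 (bosc k chM2 (σ * κ)), F⟫_ℂ‖ ≤ B) :
    ‖⟪toL2 (sep k (cx (fl ς u v))), F⟫_ℂ‖ ≤ 5 * k * B := by
  have hL : Lc = 2000 := rfl
  obtain ⟨C, hC, hCn⟩ := plateau_form (p := Lc - 2) (q := Lc - 1) hκ2 h (by linarith)
    (fun x hx => U0_plateau (by linarith [hx.1, hL]) (by linarith [hx.2, hL]))
  have hCk : ‖C‖ ≤ 3 * k := by
    have := hCn (Lc - 1) ⟨by linarith, le_refl _⟩
    have h3 : ‖C‖ ^ 2 ≤ (3 * (k : ℝ)) ^ 2 := by rw [this]; linarith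
    exact (pow_le_pow_iff_left₀ (norm_nonneg _) (by positivity) two_ne_zero).1 h3
  have hκ0 : 0 < κ := by linarith
  rw [fl_eq hκ0 hC]
  have mm : ∀ b : ℝ → ℝ, Continuous b → Function.support b ⊆ Icc (sA - 2) (sA - 1) →
      ∀ κ' : ℝ, MemLp (bosc k b κ') 2 (volume : Measure (Sp 2)) := fun b hb hs κ' =>
    memLp_bosc hb sA_pos hs
  have m1 := mm chM1 contDiff_chM1.continuous support_chM1
  have m2 := mm chM2 contDiff_chM2.continuous support_chM2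
  have hB : 0 ≤ B := le_trans (norm_nonneg _) (h1 1 (Or.inl rfl))
  rw [toL2_add_mem ((m2 _).const_smul _) (((m2 _).const_smul _).add
      (((m1 _).const_smul _).add ((m1 _).const_smul _))),
    toL2_add_mem ((m2 _).const_smul _) (((m1 _).const_smul _).add ((m1 _).const_smul _)),
    toL2_add_mem ((m1 _).const_smul _) ((m1 _).const_smul _),
    toL2_smul_mem (m2 _), toL2_smul_mem (m2 _), toL2_smul_mem (m1 _), toL2_smul_mem (m1 _),
    inner_add_left, inner_add_left, inner_add_left, inner_smul_left, inner_smul_left,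
    inner_smul_left, inner_smul_left]
  have hςn : ‖(ς : ℂ)‖ ≤ 1 := by rw [Complex.norm_real]; exact hς
  have c1 : ‖-(ς : ℂ) * C / (4 * Complex.I * κ)‖ ≤ 3 * k / 4 := by
    rw [norm_div, norm_mul, norm_neg, norm_mul, norm_mul, Complex.norm_I, Complex.norm_real κ,
      Real.norm_eq_abs, abs_of_pos hκ0]
    have : ‖(4 : ℂ)‖ = 4 := by norm_num
    rw [this, mul_one]
    have h4 : 4 ≤ 4 * κ := by linarith
    calc ‖(ς : ℂ)‖ * ‖C‖ / (4 * κ) ≤ 1 * (3 * k) / 4 := by gcongr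
      _ = 3 * k / 4 := by ring
  have c2 : ‖(ς : ℂ) * (starRingEnd ℂ) C / (4 * Complex.I * κ)‖ ≤ 3 * k / 4 := by
    rw [norm_div, norm_mul, norm_mul, norm_mul, Complex.norm_I, Complex.norm_real κ,
      Real.norm_eq_abs, abs_of_pos hκ0, RCLike.norm_conj]
    have : ‖(4 : ℂ)‖ = 4 := by norm_num
    rw [this, mul_one]
    have h4 : 4 ≤ 4 * κ := by linarith
    calc ‖(ς : ℂ)‖ * ‖C‖ / (4 * κ) ≤ 1 * (3 * k) / 4 := by gcongr
      _ = 3 * k / 4 := by ring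
  have c3 : ‖-(ς : ℂ) * C / 2‖ ≤ 3 * k / 2 := by
    rw [norm_div, norm_mul, norm_neg]
    have : ‖(2 : ℂ)‖ = 2 := by norm_num
    rw [this]
    calc ‖(ς : ℂ)‖ * ‖C‖ / 2 ≤ 1 * (3 * k) / 2 := by gcongr
      _ = 3 * k / 2 := by ring
  have c4 : ‖-(ς : ℂ) * (starRingEnd ℂ) C / 2‖ ≤ 3 * k / 2 := by
    rw [norm_div, norm_mul, norm_neg, RCLike.norm_conj]
    have : ‖(2 : ℂ)‖ = 2 := by norm_num
    rw [this]
    calc ‖(ς : ℂ)‖ * ‖C‖ / 2 ≤ 1 * (3 * k) / 2 := by gcongr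
      _ = 3 * k / 2 := by ring
  have p1 := h2 1 (Or.inl rfl)
  have p2 := h2 (-1) (Or.inr rfl)
  have p3 := h1 1 (Or.inl rfl)
  have p4 := h1 (-1) (Or.inr rfl)
  refine (norm_add_le _ _).trans ?_
  refine (add_le_add le_rfl ((norm_add_le _ _).trans (add_le_add le_rfl (norm_add_le _ _)))).trans ?_
  rw [norm_mul, norm_mul, norm_mul, norm_mul, RCLike.norm_conj, RCLike.norm_conj,
    RCLike.norm_conj, RCLike.norm_conj]
  have q1 := mul_le_mul c1 p1 (norm_nonneg _) (by positivity)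
  have q2 := mul_le_mul c2 p2 (norm_nonneg _) (by positivity)
  have q3 := mul_le_mul c3 p3 (norm_nonneg _) (by positivity)
  have q4 := mul_le_mul c4 p4 (norm_nonneg _) (by positivity)
  have hkB : 0 ≤ (k : ℝ) * B := by positivity
  nlinarith

end Pool.Agent.Work.MP_5698f2_an

end

section

/-!
# MP_5698f2_an: closeness of truncated modes and overlap with the test functions
-/

open MeasureTheory Filter Topology Set
open scoped ContDiff InnerProductSpace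

namespace Pool.Agent.Work.MP_5698f2_an

lemma close_norm {k : ℕ} (hk : 2 ≤ k) {c₀ ς a b : ℝ} (ht : Trunc c₀ ς) {u z : ℝ → ℝ}
    (hu : Continuous u) (hz : Continuous z) (ha : 0 < a) (hab : a ≤ b)
    (hsup : ∀ s, s ∉ Icc a b → tr c₀ ς s * chE k s = 0) :
    ‖toL2 (sep k (cx (md k c₀ ς u))) - toL2 (sep k (cx (md k c₀ ς z)))‖ ^ 2 ≤
      2 * Real.pi * ∫ x in (a - 3)..(b - 3), (u x - z x) ^ 2 := by
  have hk' : (2 : ℝ) ≤ k := by exact_mod_cast hk
  have hk0 : (0 : ℝ) < k := by linarith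
  have hcont : ∀ w : ℝ → ℝ, Continuous w → Continuous (md k c₀ ς w) := by
    intro w hw
    have h3 : Continuous (tr c₀ ς) := continuous_const.add
      (continuous_const.mul contDiff_chM.continuous)
    have h4 := (contDiff_chE (k : ℝ)).continuous
    unfold md; fun_prop
  have hs : ∀ w : ℝ → ℝ, Function.support (md k c₀ ς w) ⊆ Icc a b := by
    intro w s hs
    by_contra hcon
    apply hs
    simp only [md]
    rw [hsup s hcon, zero_mul]
  have m1 := memLp_cx (k := k) (hcont u hu) ha (hs u)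
  have m2 := memLp_cx (k := k) (hcont z hz) ha (hs z)
  have hw : Continuous fun x => u x - z x := hu.sub hz
  have m3 := memLp_cx (k := k) (hcont _ hw) ha (hs _)
  have e1 : sep k (cx (md k c₀ ς u)) = sep k (cx (md k c₀ ς z)) +
      sep k (cx (md k c₀ ς fun x => u x - z x)) := by
    funext x
    simp only [sep, cx, md, Pi.add_apply]
    push_cast; ring
  have e2 : toL2 (sep k (cx (md k c₀ ς u))) - toL2 (sep k (cx (md k c₀ ς z))) =
      toL2 (sep k (cx (md k c₀ ς fun x => u x - z x))) := by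
    rw [e1, toL2_add_mem m2 m3]; abel
  rw [e2, norm_sep k (continuous_cx (hcont _ hw)) ha hab (by rw [support_cx]; exact hs _)]
  have h1 : ∫ s in a..b, ‖cx (md k c₀ ς fun x => u x - z x) s‖ ^ 2 ≤
      ∫ s in a..b, (u (s - 3) - z (s - 3)) ^ 2 := by
    apply intervalIntegral.integral_mono_on hab
    · exact Continuous.intervalIntegrable (((continuous_cx (hcont _ hw)).norm).pow 2) _ _
    · apply Continuous.intervalIntegrable
      fun_prop
    · intro s _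
      simp only [cx, Complex.norm_real, Real.norm_eq_abs, sq_abs, md]
      have h5 := ht.abs_le s
      have h6 := chE_nonneg k s
      have h7 := chE_le_one k s
      have h8 : |tr c₀ ς s * chE k s| ≤ 1 := by
        rw [abs_mul, abs_of_nonneg h6]
        exact mul_le_one₀ h5 h6 h7
      have h9 : (tr c₀ ς s * chE k s) ^ 2 ≤ 1 := by
        rw [← sq_abs]; exact pow_le_one₀ (abs_nonneg _) h8
      rw [mul_pow]
      calc (tr c₀ ς s * chE k s) ^ 2 * (u (s - 3) - z (s - 3)) ^ 2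
          ≤ 1 * (u (s - 3) - z (s - 3)) ^ 2 := by gcongr
        _ = _ := one_mul _
  rw [intervalIntegral.integral_comp_sub_right (fun x => (u x - z x) ^ 2) 3] at h1
  have hpi := Real.pi_pos
  gcongr

lemma inner_mem {n : ℕ} {u w : Sp n → ℂ} (hu : MemLp u 2 (volume : Measure (Sp n)))
    (hw : MemLp w 2 (volume : Measure (Sp n))) :
    ⟪toL2 u, toL2 w⟫_ℂ = ∫ x, (starRingEnd ℂ) (u x) * w x := by
  rw [L2.inner_def]
  refine integral_congr_ae ?_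
  filter_upwards [coeFn_toL2 hu, coeFn_toL2 hw] with x h1 h2
  rw [h1, h2, RCLike.inner_apply, mul_comm]

lemma isTest_mul_osc_m {ψ : Sp 2 → ℂ} (hψ : IsTest ψ) (h0 : (0 : Sp 2) ∉ tsupport ψ) (k : ℕ)
    (κ : ℝ) : IsTest (fun x => ψ x * osc k κ x) := by
  refine ⟨?_, hψ.2.mul_right⟩
  rw [contDiff_iff_contDiffAt]
  intro x
  by_cases hx : x ∈ tsupport ψ
  · have hx0 : x ≠ 0 := fun h => h0 (h ▸ hx)
    exact hψ.1.contDiffAt.mul (contDiffAt_osc k κ hx0)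
  · have : (fun x => ψ x * osc k κ x) =ᶠ[𝓝 x] fun _ => 0 := by
      filter_upwards [(isClosed_tsupport ψ).isOpen_compl.mem_nhds hx] with y hy
      rw [image_eq_zero_of_notMem_tsupport hy, zero_mul]
    exact contDiffAt_const.congr_of_eventuallyEq this

lemma norm_mul_osc_le {ψ : Sp 2 → ℂ} (hψ : IsTest ψ) (h0 : (0 : Sp 2) ∉ tsupport ψ) (k : ℕ)
    (κ : ℝ) : ‖toL2 (fun x => ψ x * osc k κ x)‖ ≤ ‖toL2 ψ‖ := by
  have h1 := isTest_mul_osc_m hψ h0 k κ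
  rw [h1.toL2_eq, hψ.toL2_eq]
  refine Lp.norm_le_norm_of_ae_le ?_
  filter_upwards [h1.memLp.coeFn_toLp, hψ.memLp.coeFn_toLp] with x e1 e2
  rw [e1, e2, norm_mul]
  exact mul_le_of_le_one_right (norm_nonneg _) (norm_osc_le k κ x)

/-- Decay of the oscillating integral. -/
lemma oscillating_small {ψ : Sp 2 → ℂ} (hψ : IsTest ψ) (h0 : (0 : Sp 2) ∉ tsupport ψ) :
    ∃ C : ℝ, ∀ r : ℝ, 1 ≤ r →
      ‖∫ x : Sp 2, ψ x * Complex.exp (Complex.I * ((r * (‖x‖ ^ 2 / 2) : ℝ) : ℂ))‖ ≤ C / r := by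
  obtain ⟨C, hC⟩ := nonstationary (n := 2) (m := 0) (b := fun x _ => x) (K := tsupport ψ)
    (Q := univ) hψ.2 isCompact_univ (O := univ) isOpen_univ (subset_univ _)
    (contDiff_fst.contDiffOn) (fun x hx _ _ h => h0 (h ▸ hx)) hψ.1 le_rfl 1
  refine ⟨C, fun r hr => ?_⟩
  have := hC 0 (mem_univ _) r hr
    (fun x => Complex.exp (Complex.I * ((r * (‖x‖ ^ 2 / 2) : ℝ) : ℂ))) (fun x => by
      rw [mul_comm, Complex.norm_exp_ofReal_mul_I]) (fun x _ => by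
      have h1 := (hasFDerivAt_half_sq x).const_mul r
      have h2 := Complex.ofRealCLM.hasFDerivAt.comp x h1
      have h3 := (h2.const_mul Complex.I).cexp
      refine h3.congr_fderiv ?_
      ext v
      simp [mul_assoc, mul_comm, mul_left_comm])
  refine this.trans (le_of_eq ?_)
  rw [Nat.cast_one, Real.rpow_neg_one, div_eq_mul_inv]

/-- Overlap of the mode with the test function. -/
lemma overlap {ψ : Sp 2 → ℂ} (hψ : IsTest ψ)
    (hs : tsupport ψ ⊆ {x | ‖x‖ ^ 2 / 2 ∈ Icc (sA + 1) (sA + 2)}) {ε : ℝ} (hε : 0 < ε) :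
    ∃ K : ℕ, ∀ k : ℕ, K ≤ k → ∀ μ κ : ℝ, ∀ u v : ℝ → ℝ, κ ^ 2 = 2 * μ - (k : ℝ) ^ 2 →
      |κ - k| ≤ √(k : ℝ) → κ ≤ k → SolP k μ u v → u Lc = 0 →
      u (Lc - 1) ^ 2 + (v (Lc - 1) / k) ^ 2 = 1 →
      (‖∫ x, ψ x‖ - ε) / 2 ≤
        ‖⟪toL2 (sep k (cx (md k 1 0 u))), toL2 (fun x => ψ x * osc k κ x)⟫_ℂ‖ := by
  have h0 : (0 : Sp 2) ∉ tsupport ψ := by
    intro h
    have h1 := hs h
    rw [mem_ofPred_eq, norm_zero, sA_val] at h1
    have := h1.1
    norm_num at this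
  obtain ⟨C₁, hC₁⟩ := oscillating_small hψ h0
  obtain ⟨K, hK⟩ := exists_nat_gt (max 16 (|C₁| / ε))
  refine ⟨K, fun k hk μ κ u v hκ2 hκk hκle h huL hn => ?_⟩
  have hkK : (K : ℝ) ≤ k := by exact_mod_cast hk
  have hk16 : (16 : ℝ) ≤ k := le_trans ((le_max_left _ _).trans hK.le) hkK
  have hkC : |C₁| / ε ≤ k := le_trans ((le_max_right _ _).trans hK.le) hkK
  have hk0 : (0 : ℝ) < k := by linarith
  have hk2 : 2 ≤ k := by
    have : (2 : ℝ) ≤ k := by linarith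
    exact_mod_cast this
  have hsq : √(k : ℝ) ≤ k / 4 := by
    rw [Real.sqrt_le_left (by positivity)]
    nlinarith
  have hκhalf : (k : ℝ) / 2 ≤ κ := by
    have := (abs_le.1 hκk).1
    linarith
  have hκ0 : 0 < κ := by linarith
  obtain ⟨C, hC, hCn⟩ := plateau_form (p := Lc + 1) (q := Lc + 2) hκ2 h (by linarith)
    (fun x hx => by
      rw [U0_mid ⟨by linarith [hx.1], hx.2⟩, G_of_ge]
      · norm_num
      · nlinarith [hx.1])
  -- size of the amplitude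
  have hodd := h.odd huL (Lc - 1)
  have e21 : 2 * Lc - (Lc - 1) = Lc + 1 := by ring
  rw [e21] at hodd
  have hCκ : κ ≤ ‖C‖ := by
    have h1 := hCn (Lc + 1) ⟨le_refl _, by linarith⟩
    rw [hodd.1, hodd.2, neg_sq] at h1
    have h2 : k ^ 2 * u (Lc - 1) ^ 2 + v (Lc - 1) ^ 2 = (k : ℝ) ^ 2 := by
      have e1 : (k : ℝ) ^ 2 * (u (Lc - 1) ^ 2 + (v (Lc - 1) / k) ^ 2) = (k : ℝ) ^ 2 := by
        rw [hn, mul_one]
      have e2 : (k : ℝ) ^ 2 * (u (Lc - 1) ^ 2 + (v (Lc - 1) / k) ^ 2) =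
        (k : ℝ) ^ 2 * u (Lc - 1) ^ 2 + v (Lc - 1) ^ 2 := by field_simp
      rw [← e2, e1]
    have h3 : u (Lc - 1) ^ 2 ≤ 1 := by
      have := sq_nonneg (v (Lc - 1) / k)
      linarith
    have h4 : 0 ≤ (k : ℝ) ^ 2 - κ ^ 2 := by nlinarith
    have h5 : κ ^ 2 ≤ ‖C‖ ^ 2 := by
      rw [h1]
      nlinarith [mul_le_mul_of_nonneg_left h3 h4]
    exact (pow_le_pow_iff_left₀ hκ0.le (norm_nonneg _) two_ne_zero).1 h5
  -- the inner product
  have m1 := memLp_cx (k := k) (contDiff_md (c₀ := 1) (ς := 0) h).continuous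
    (by norm_num : (0 : ℝ) < 3) (support_md hk0 u)
  have htest := isTest_mul_osc_m hψ h0 k κ
  rw [inner_mem m1 htest.memLp]
  have hκc : (κ : ℂ) ≠ 0 := by exact_mod_cast hκ0.ne'
  have key : ∀ x : Sp 2, (starRingEnd ℂ) (sep k (cx (md k 1 0 u)) x) * (ψ x * osc k κ x) =
      (C / (2 * Complex.I * κ)) *
        (ψ x * Complex.exp (Complex.I * ((2 * κ * (‖x‖ ^ 2 / 2) : ℝ) : ℂ))) -
      ((starRingEnd ℂ) C / (2 * Complex.I * κ)) * ψ x := by
    intro x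
    by_cases hx : x ∈ tsupport ψ
    · have hmem := hs hx
      rw [mem_ofPred_eq] at hmem
      set s := ‖x‖ ^ 2 / 2 with hsdef
      have hx0 : x ≠ 0 := fun h => h0 (h ▸ hx)
      have hs3 : s - 3 ∈ Icc (Lc + 1) (Lc + 2) := by
        unfold sA at hmem
        exact ⟨by linarith [hmem.1], by linarith [hmem.2]⟩
      have hch : chE k s = 1 := by
        have h2k : 2 / (k : ℝ) ≤ 1 := by rw [div_le_one hk0]; linarith
        rw [sA_val] at hmem
        refine chE_one hk0 (by linarith [hmem.1]) ?_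
        rw [sB_val]; linarith [hmem.2]
      have h1 := hC _ hs3
      rw [sub_add_cancel] at h1
      have h2 := congrArg (starRingEnd ℂ) h1
      simp only [map_add, map_mul, Complex.conj_ofReal, Complex.conj_I, ← Complex.exp_conj] at h2
      have hu : (u (s - 3) : ℂ) = (C * Complex.exp (Complex.I * ((κ * s : ℝ) : ℂ)) -
          (starRingEnd ℂ) C * Complex.exp (-Complex.I * ((κ * s : ℝ) : ℂ))) /
            (2 * Complex.I * κ) := by
        rw [← h1, ← h2]; field_simp [Complex.I_ne_zero]; ring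
      have hang : (starRingEnd ℂ) (ang k x) * ang k x = 1 := by
        rw [mul_comm, Complex.mul_conj, Complex.normSq_eq_norm_sq, norm_ang k hx0]
        norm_num
      have hmd : md k 1 0 u s = u (s - 3) := by
        simp only [md, tr]
        rw [hch]; ring
      have hE2 : Complex.exp (Complex.I * ((2 * κ * s : ℝ) : ℂ)) =
          Complex.exp (Complex.I * ((κ * s : ℝ) : ℂ)) *
            Complex.exp (Complex.I * ((κ * s : ℝ) : ℂ)) := by
        rw [← Complex.exp_add]; congr 1; push_cast; ring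
      have hE0 : Complex.exp (-Complex.I * ((κ * s : ℝ) : ℂ)) *
          Complex.exp (Complex.I * ((κ * s : ℝ) : ℂ)) = 1 := by
        rw [← Complex.exp_add]
        have : -Complex.I * ((κ * s : ℝ) : ℂ) + Complex.I * ((κ * s : ℝ) : ℂ) = 0 := by ring
        rw [this, Complex.exp_zero]
      simp only [sep, osc, cx, map_mul, Complex.conj_ofReal]
      rw [← hsdef, hmd, hu, hE2]
      set Ep := Complex.exp (Complex.I * ((κ * s : ℝ) : ℂ))
      set Em := Complex.exp (-Complex.I * ((κ * s : ℝ) : ℂ))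
      have r1 : (starRingEnd ℂ) (ang k x) * ((C * Ep - (starRingEnd ℂ) C * Em) /
          (2 * Complex.I * κ)) * (ψ x * (ang k x * Ep)) =
          ((starRingEnd ℂ) (ang k x) * ang k x) * (ψ x * ((C * (Ep * Ep) -
            (starRingEnd ℂ) C * (Em * Ep)) / (2 * Complex.I * κ))) := by ring
      rw [r1, hang, hE0]; ring
    · rw [image_eq_zero_of_notMem_tsupport hx]; ring
  rw [integral_congr_ae (Eventually.of_forall key)]
  have i1 : Integrable (fun x : Sp 2 => ψ x *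
      Complex.exp (Complex.I * ((2 * κ * (‖x‖ ^ 2 / 2) : ℝ) : ℂ))) := by
    refine Continuous.integrable_of_hasCompactSupport ?_ hψ.2.mul_right
    refine hψ.1.continuous.mul (Complex.continuous_exp.comp (continuous_const.mul
      (Complex.continuous_ofReal.comp ?_)))
    fun_prop
  have i2 : Integrable ψ := hψ.1.continuous.integrable_of_hasCompactSupport hψ.2
  rw [integral_sub (i1.const_mul _) (i2.const_mul _), integral_const_mul, integral_const_mul]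
  have hsmall := hC₁ (2 * κ) (by linarith)
  have hsmall2 : C₁ / (2 * κ) ≤ ε := by
    have : C₁ ≤ ε * k := by
      have := (div_le_iff₀ hε).1 hkC
      linarith [le_abs_self C₁]
    rw [div_le_iff₀ (by linarith)]
    nlinarith
  have n1 : ‖C / (2 * Complex.I * κ)‖ = ‖C‖ / (2 * κ) := by
    rw [norm_div, norm_mul, norm_mul, Complex.norm_I, Complex.norm_real κ, Real.norm_eq_abs,
      abs_of_pos hκ0]
    have : ‖(2 : ℂ)‖ = 2 := by norm_num
    rw [this, mul_one]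
  have n2 : ‖(starRingEnd ℂ) C / (2 * Complex.I * κ)‖ = ‖C‖ / (2 * κ) := by
    rw [norm_div, norm_mul, norm_mul, Complex.norm_I, Complex.norm_real κ, Real.norm_eq_abs,
      abs_of_pos hκ0, RCLike.norm_conj]
    have : ‖(2 : ℂ)‖ = 2 := by norm_num
    rw [this, mul_one]
  have hhalf : 1 / 2 ≤ ‖C‖ / (2 * κ) := by
    rw [div_le_div_iff₀ (by norm_num) (by linarith)]
    linarith
  have hI1 := hsmall.trans hsmall2
  by_cases hpos : ‖∫ x, ψ x‖ - ε ≤ 0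
  · exact le_trans (by linarith) (norm_nonneg _)
  · push Not at hpos
    rw [norm_sub_rev]
    refine le_trans ?_ (norm_sub_norm_le _ _)
    rw [norm_mul, norm_mul, n1, n2]
    set I0 := ‖∫ x, ψ x‖
    set I1 := ‖∫ x : Sp 2, ψ x * Complex.exp (Complex.I * ((2 * κ * (‖x‖ ^ 2 / 2) : ℝ) : ℂ))‖
    have : ‖C‖ / (2 * κ) * I0 - ‖C‖ / (2 * κ) * I1 = ‖C‖ / (2 * κ) * (I0 - I1) := by ring
    rw [this]
    calc (I0 - ε) / 2 = 1 / 2 * (I0 - ε) := by ring
      _ ≤ ‖C‖ / (2 * κ) * (I0 - I1) := by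
        apply mul_le_mul hhalf (by linarith) hpos.le
        positivity

end Pool.Agent.Work.MP_5698f2_an

end
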